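import Mathlib

set_option maxHeartbeats 4000000
set_option synthInstance.maxHeartbeats 400000

namespace Pool.Agent.Helper376.CL

open Set Topology

/-- absolute extensor for metric spaces -/
def IsAE (Y : Type) [TopologicalSpace Y] : Prop :=
  ∀ (M : Type) [MetricSpace M] (A : Set M), IsClosed A → ∀ f : A → Y, Continuous f →
    ∃ F : M → Y, Continuous F ∧ ∀ a : A, F a = f a

theorem isAE_real : IsAE ℝ := by
  intro M _ A hA f hf
  obtain ⟨g, hg⟩ := ContinuousMap.exists_restrict_eq hA (⟨f, hf⟩ : C(A, ℝ))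
  refine ⟨g, g.continuous, fun a => ?_⟩
  have := congrArg (fun k : C(A, ℝ) => k a) hg
  simpa using this

theorem isAE_pi {ι : Type} {Y : ι → Type} [∀ i, TopologicalSpace (Y i)] (h : ∀ i, IsAE (Y i)) :
    IsAE (∀ i, Y i) := by
  intro M _ A hA f hf
  have h1 : ∀ i, ∃ F : M → Y i, Continuous F ∧ ∀ a : A, F a = f a i := fun i =>
    h i M A hA (fun a => f a i) ((continuous_apply i).comp hf)
  choose F hF hFa using h1
  exact ⟨fun m i => F i m, continuous_pi hF, fun a => funext fun i => hFa i a⟩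

theorem isAE_prod {Y Y' : Type} [TopologicalSpace Y] [TopologicalSpace Y'] (h : IsAE Y)
    (h' : IsAE Y') : IsAE (Y × Y') := by
  intro M _ A hA f hf
  obtain ⟨F, hF, hFa⟩ := h M A hA (fun a => (f a).1) (continuous_fst.comp hf)
  obtain ⟨G, hG, hGa⟩ := h' M A hA (fun a => (f a).2) (continuous_snd.comp hf)
  exact ⟨fun m => (F m, G m), hF.prodMk hG, fun a => Prod.ext (hFa a) (hGa a)⟩

theorem isAE_retract {Y Y' : Type} [TopologicalSpace Y] [TopologicalSpace Y'] (i : Y → Y')
    (r : Y' → Y) (hi : Continuous i) (hr : Continuous r) (h : ∀ y, r (i y) = y) (hY : IsAE Y') :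
    IsAE Y := by
  intro M _ A hA f hf
  obtain ⟨F, hF, hFa⟩ := hY M A hA (fun a => i (f a)) (hi.comp hf)
  exact ⟨fun m => r (F m), hr.comp hF, fun a => by show r (F a) = f a; rw [hFa, h]⟩

end Pool.Agent.Helper376.CL
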