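import Mathlib

set_option maxHeartbeats 4000000
set_option synthInstance.maxHeartbeats 400000

namespace Pool.Agent.Helper376.CL

open Set Topology

/-- letters of the free group on two generators -/
abbrev A := Fin 2 × Bool

/-- the letter `x` may be put in front of the page word `l` -/
def ok : A → List A → Prop
  | x, [] => x.1 ≠ 0
  | x, (y :: _) => x.1 = y.1 → x.2 = y.2

/-- the page: a rooted tree together with its ends, `c l` says how far the edge leading to the vertex
`l` (from its parent, the tail of `l`) has been traversed -/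
def Pg : Set (List A → ℝ) :=
  {c | c [] = 1 ∧ (∀ l, 0 ≤ c l ∧ c l ≤ 1) ∧ (∀ x l, ¬ ok x l → c (x :: l) = 0) ∧
    (∀ x l, c (x :: l) ≠ 0 → c l = 1) ∧ (∀ x y l, x ≠ y → c (x :: l) = 0 ∨ c (y :: l) = 0)}

/-- the root -/
def root : List A → ℝ := fun l => if l = [] then 1 else 0

/-- points of finite depth (not ends) -/
def IsFin (c : List A → ℝ) : Prop := ∃ n : ℕ, ∀ l : List A, n ≤ l.length → c l = 0

/-- profile of the truncation -/
noncomputable def prof (n : ℕ) (lam : ℝ) : ℝ := ((n : ℝ) + 1) * max 0 (1 - n * lam)

/-- truncation: `tr c 0 = c`, `tr c 1 = root` -/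
noncomputable def tr (c : List A → ℝ) (lam : ℝ) : List A → ℝ := fun l => min (c l) (prof l.length lam)

/-- the tree without two ends: a line with a page attached at every integer -/
def That : Set (ℝ × (List A → ℝ)) := {p | p.2 ∈ Pg ∧ (p.2 = root ∨ ∃ k : ℤ, p.1 = k)}

/-- digit of a letter -/
noncomputable def dgA (x : A) : ℝ := 2 * (x.1 : ℕ) + (if x.2 then 1 else 0)

/-- digit of a word: digit of its first letter -/
noncomputable def dg : List A → ℝ
  | [] => 0
  | (x :: _) => dgA x

/-- two coordinates embedding the page in the plane -/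
noncomputable def e1 (y : List A → ℝ) : ℝ := ∑' l : List A, y l * (1/8 : ℝ)^l.length

noncomputable def e2 (y : List A → ℝ) : ℝ := ∑' l : List A, y l * dg l * (1/16 : ℝ)^l.length

end Pool.Agent.Helper376.CL
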