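import Mathlib
import Pool.Agent.Helper376.CL.PgDefs

set_option maxHeartbeats 4000000
set_option synthInstance.maxHeartbeats 400000

namespace Pool.Agent.Helper376.CL

open Set Topology

/-- homeomorphism from the plane to the open disc, with spiral parameter `w` -/
noncomputable def Fw (w : ℝ) (ζ : ℂ) : ℂ :=
  ζ / (1 + ‖ζ‖ : ℝ) * Complex.exp (Complex.I * (w * Real.log (1 + ‖ζ‖) : ℝ))

/-- inverse of `Fw` -/
noncomputable def Gw (w : ℝ) (z : ℂ) : ℂ :=
  z / (1 - ‖z‖ : ℝ) * Complex.exp (Complex.I * (w * Real.log (1 - ‖z‖) : ℝ))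

/-- the position on the line -/
noncomputable def xpos (w : ℝ) (z : ℂ) : ℝ := Real.sinh (Gw w z).re - 1/2

/-- the compactification (as a set) -/
def XS (w : ℝ) : Set (ℂ × (List A → ℝ)) :=
  {p | ‖p.1‖ ≤ 1 ∧ ∃ c ∈ Pg, p.2 = (1 - ‖p.1‖) • c ∧
    (‖p.1‖ = 1 ∨ c = root ∨ ∃ k : ℤ, xpos w p.1 = k)}

/-- the complement of the circle at infinity -/
def XO (w : ℝ) : Set ↥(XS w) := {p | ‖p.1.1‖ < 1}

/-- the part of finite depth inside the disc; its complement is the boundary -/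
def XF (w : ℝ) : Set ↥(XS w) := {p | ‖p.1.1‖ < 1 ∧ IsFin p.1.2}

/-- push the ends of the pages inside -/
noncomputable def Ha (p : ℂ × (List A → ℝ)) (t : ℝ) : ℂ × (List A → ℝ) :=
  (p.1, fun l => min (p.2 l) ((1 - ‖p.1‖) * prof l.length t))

/-- push the circle at infinity inside -/
noncomputable def Hb (p : ℂ × (List A → ℝ)) (t : ℝ) : ℂ × (List A → ℝ) :=
  let z' : ℂ := ((1 - max 0 (‖p.1‖ - 1 + t) : ℝ) : ℂ) * p.1
  (z', fun l => if l = [] then 1 - ‖z'‖ else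
    min (p.2 l) (((l.length : ℝ) + 1) * max 0 ((1 - ‖p.1‖) - l.length * min (1 - ‖p.1‖) t)))

end Pool.Agent.Helper376.CL
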