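import Mathlib
import Pool.Agent.Helper376.CL.XSDefs

set_option maxHeartbeats 4000000
set_option synthInstance.maxHeartbeats 400000

namespace Pool.Agent.Helper376.CL

open Set Topology

theorem norm_exp_aux (x : ℝ) : ‖Complex.exp (Complex.I * (x : ℂ))‖ = 1 := by
  rw [mul_comm]
  exact Complex.norm_exp_ofReal_mul_I x

theorem continuous_Fw (w : ℝ) : Continuous (Fw w) := by
  unfold Fw
  have h1 : ∀ ζ : ℂ, (1 + ‖ζ‖ : ℝ) ≠ 0 := fun ζ => by positivity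
  have h2 : Continuous fun ζ : ℂ => (1 + ‖ζ‖ : ℝ) := by fun_prop
  refine Continuous.mul (Continuous.div continuous_id (Complex.continuous_ofReal.comp h2)
    fun ζ => Complex.ofReal_ne_zero.2 (h1 ζ)) ?_
  refine Complex.continuous_exp.comp (continuous_const.mul (Complex.continuous_ofReal.comp ?_))
  exact continuous_const.mul (h2.log h1)

theorem continuousOn_Gw (w : ℝ) : ContinuousOn (Gw w) {z | ‖z‖ < 1} := by
  unfold Gw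
  have h1 : ∀ ζ ∈ {z : ℂ | ‖z‖ < 1}, (1 - ‖ζ‖ : ℝ) ≠ 0 := by
    intro ζ hζ
    have : ‖ζ‖ < 1 := hζ
    linarith
  have h2 : ContinuousOn (fun ζ : ℂ => (1 - ‖ζ‖ : ℝ)) {z : ℂ | ‖z‖ < 1} := by fun_prop
  refine ContinuousOn.mul (ContinuousOn.div continuousOn_id
    (Complex.continuous_ofReal.comp_continuousOn h2)
    fun ζ hζ => Complex.ofReal_ne_zero.2 (h1 ζ hζ)) ?_
  refine Complex.continuous_exp.comp_continuousOn (continuousOn_const.mul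
    (Complex.continuous_ofReal.comp_continuousOn ?_))
  exact continuousOn_const.mul (h2.log h1)

theorem norm_Fw (w : ℝ) (ζ : ℂ) : ‖Fw w ζ‖ = ‖ζ‖ / (1 + ‖ζ‖) := by
  unfold Fw
  rw [norm_mul, norm_exp_aux, mul_one, norm_div, Complex.norm_real,
    Real.norm_of_nonneg (by positivity)]

theorem norm_Fw_lt (w : ℝ) (ζ : ℂ) : ‖Fw w ζ‖ < 1 := by
  rw [norm_Fw, div_lt_one (by positivity)]
  linarith

theorem one_sub_norm_Fw (w : ℝ) (ζ : ℂ) : 1 - ‖Fw w ζ‖ = 1 / (1 + ‖ζ‖) := by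
  rw [norm_Fw]
  have : (1 + ‖ζ‖ : ℝ) ≠ 0 := by positivity
  field_simp
  ring

theorem Gw_Fw (w : ℝ) (ζ : ℂ) : Gw w (Fw w ζ) = ζ := by
  have h1 : (1 + ‖ζ‖ : ℝ) ≠ 0 := by positivity
  have h2 : ((1 + ‖ζ‖ : ℝ) : ℂ) ≠ 0 := Complex.ofReal_ne_zero.2 h1
  unfold Gw
  rw [one_sub_norm_Fw]
  unfold Fw
  have h3 : (w * Real.log (1 / (1 + ‖ζ‖)) : ℝ) = -(w * Real.log (1 + ‖ζ‖)) := by
    rw [one_div, Real.log_inv]
    ring
  rw [h3, Complex.ofReal_neg, mul_neg, Complex.exp_neg]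
  have h4 : Complex.exp (Complex.I * ((w * Real.log (1 + ‖ζ‖) : ℝ) : ℂ)) ≠ 0 :=
    Complex.exp_ne_zero _
  rw [Complex.ofReal_div, Complex.ofReal_one]
  generalize Complex.exp (Complex.I * ((w * Real.log (1 + ‖ζ‖) : ℝ) : ℂ)) = E at h4 ⊢
  generalize ((1 + ‖ζ‖ : ℝ) : ℂ) = R at h2 ⊢
  field_simp

theorem norm_Gw_aux (w : ℝ) {z : ℂ} (hz : ‖z‖ < 1) : 1 + ‖Gw w z‖ = 1 / (1 - ‖z‖) := by
  unfold Gw
  rw [norm_mul, norm_exp_aux, mul_one, norm_div, Complex.norm_real,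
    Real.norm_of_nonneg (by linarith)]
  have : (1 - ‖z‖ : ℝ) ≠ 0 := by linarith
  field_simp
  ring

theorem Fw_Gw (w : ℝ) {z : ℂ} (hz : ‖z‖ < 1) : Fw w (Gw w z) = z := by
  have h1 : (1 - ‖z‖ : ℝ) ≠ 0 := by linarith
  have h2 : ((1 - ‖z‖ : ℝ) : ℂ) ≠ 0 := Complex.ofReal_ne_zero.2 h1
  unfold Fw
  rw [norm_Gw_aux w hz]
  unfold Gw
  have h3 : (w * Real.log (1 / (1 - ‖z‖)) : ℝ) = -(w * Real.log (1 - ‖z‖)) := by
    rw [one_div, Real.log_inv]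
    ring
  rw [h3, Complex.ofReal_neg, mul_neg, Complex.exp_neg]
  have h4 : Complex.exp (Complex.I * ((w * Real.log (1 - ‖z‖) : ℝ) : ℂ)) ≠ 0 :=
    Complex.exp_ne_zero _
  rw [Complex.ofReal_div, Complex.ofReal_one]
  generalize Complex.exp (Complex.I * ((w * Real.log (1 - ‖z‖) : ℝ) : ℂ)) = E at h4 ⊢
  generalize ((1 - ‖z‖ : ℝ) : ℂ) = R at h2 ⊢
  field_simp

/-- the radial factor as a function of `1 / (1 + r)` -/
noncomputable def kk (w s : ℝ) : ℂ := (s : ℂ) * Complex.exp (Complex.I * (-(w * Real.log s) : ℝ))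

theorem kk_lip {w : ℝ} (hw : |w| ≤ 1) {s t : ℝ} (hs : 0 < s) (ht : 0 < t) :
    ‖kk w s - kk w t‖ ≤ 2 * |s - t| := by
  have hd : ∀ x ∈ Ioi (0 : ℝ), HasDerivWithinAt (kk w)
      ((1 - Complex.I * w) * Complex.exp (Complex.I * (-(w * Real.log x) : ℝ))) (Ioi 0) x := by
    intro x hx
    have hx0 : (0 : ℝ) < x := hx
    have hxc : (x : ℂ) ≠ 0 := Complex.ofReal_ne_zero.2 hx0.ne'
    have e1 : HasDerivAt (fun x : ℝ => (-(w * Real.log x) : ℝ)) (-(w * x⁻¹)) x :=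
      ((Real.hasDerivAt_log hx0.ne').const_mul w).neg
    have e2 : HasDerivAt (fun x : ℝ => Complex.I * ((-(w * Real.log x) : ℝ) : ℂ))
        (Complex.I * ((-(w * x⁻¹) : ℝ) : ℂ)) x := e1.ofReal_comp.const_mul Complex.I
    have e3 := e2.cexp
    have e4 : HasDerivAt (fun x : ℝ => (x : ℂ)) 1 x := by
      simpa using (hasDerivAt_id x).ofReal_comp
    have e5 := e4.mul e3
    refine (e5.congr_deriv ?_).hasDerivWithinAt
    have e6 : ((-(w * x⁻¹) : ℝ) : ℂ) = -(w * (x : ℂ)⁻¹) := by push_cast; ring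
    rw [e6]
    field_simp
    ring
  have h1 := (convex_Ioi (0 : ℝ)).norm_image_sub_le_of_norm_hasDerivWithin_le (C := 2) hd
    (fun x _ => ?_) ht hs
  · simpa [Real.norm_eq_abs] using h1
  · rw [norm_mul, norm_exp_aux, mul_one]
    calc ‖(1 : ℂ) - Complex.I * w‖ ≤ ‖(1 : ℂ)‖ + ‖Complex.I * w‖ := norm_sub_le _ _
      _ = 1 + |w| := by
          rw [norm_one, norm_mul, Complex.norm_I, one_mul, Complex.norm_real, Real.norm_eq_abs]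
      _ ≤ 2 := by linarith

theorem Fw_eq_kk (w : ℝ) (ζ : ℂ) : Fw w ζ = ζ * kk w (1 / (1 + ‖ζ‖)) := by
  unfold Fw kk
  have h3 : (-(w * Real.log (1 / (1 + ‖ζ‖))) : ℝ) = w * Real.log (1 + ‖ζ‖) := by
    rw [one_div, Real.log_inv]
    ring
  rw [h3, Complex.ofReal_div, Complex.ofReal_one]
  ring

theorem norm_kk {w s : ℝ} (hs : 0 < s) : ‖kk w s‖ = s := by
  unfold kk
  rw [norm_mul, norm_exp_aux, mul_one, Complex.norm_real, Real.norm_of_nonneg hs.le]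

theorem Fw_slow_aux {w : ℝ} (hw : |w| ≤ 1) (ζ ζ' : ℂ) (h : ‖ζ'‖ ≤ ‖ζ‖) :
    ‖Fw w ζ - Fw w ζ'‖ ≤ 3 * ‖ζ - ζ'‖ / (1 + ‖ζ‖) := by
  have hr : (0 : ℝ) < 1 + ‖ζ‖ := by positivity
  have hr' : (0 : ℝ) < 1 + ‖ζ'‖ := by positivity
  rw [Fw_eq_kk, Fw_eq_kk]
  have h1 : ζ * kk w (1 / (1 + ‖ζ‖)) - ζ' * kk w (1 / (1 + ‖ζ'‖))
      = (ζ - ζ') * kk w (1 / (1 + ‖ζ‖))
        + ζ' * (kk w (1 / (1 + ‖ζ‖)) - kk w (1 / (1 + ‖ζ'‖))) := by ring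
  have h2 := kk_lip hw (s := 1 / (1 + ‖ζ‖)) (t := 1 / (1 + ‖ζ'‖)) (by positivity) (by positivity)
  have h3 : |1 / (1 + ‖ζ‖) - 1 / (1 + ‖ζ'‖)| = (‖ζ‖ - ‖ζ'‖) / ((1 + ‖ζ‖) * (1 + ‖ζ'‖)) := by
    have h4 : 1 / (1 + ‖ζ‖) - 1 / (1 + ‖ζ'‖) = -((‖ζ‖ - ‖ζ'‖) / ((1 + ‖ζ‖) * (1 + ‖ζ'‖))) := by
      field_simp
      ring
    rw [h4, abs_neg, abs_of_nonneg]
    apply div_nonneg (by linarith) (by positivity)
  rw [h3] at h2
  have h5 : ‖ζ‖ - ‖ζ'‖ ≤ ‖ζ - ζ'‖ := norm_sub_norm_le _ _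
  rw [h1]
  calc ‖(ζ - ζ') * kk w (1 / (1 + ‖ζ‖))
        + ζ' * (kk w (1 / (1 + ‖ζ‖)) - kk w (1 / (1 + ‖ζ'‖)))‖
      ≤ ‖(ζ - ζ') * kk w (1 / (1 + ‖ζ‖))‖
        + ‖ζ' * (kk w (1 / (1 + ‖ζ‖)) - kk w (1 / (1 + ‖ζ'‖)))‖ := norm_add_le _ _
    _ ≤ ‖ζ - ζ'‖ * (1 / (1 + ‖ζ‖))
        + (1 + ‖ζ'‖) * (2 * (‖ζ - ζ'‖ / ((1 + ‖ζ‖) * (1 + ‖ζ'‖)))) := by
        apply add_le_add
        · rw [norm_mul, norm_kk (by positivity)]
        · rw [norm_mul]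
          apply mul_le_mul (by linarith) _ (norm_nonneg _) hr'.le
          refine h2.trans ?_
          apply mul_le_mul_of_nonneg_left _ (by norm_num)
          exact div_le_div_of_nonneg_right h5 (by positivity)
    _ = 3 * ‖ζ - ζ'‖ / (1 + ‖ζ‖) := by
        field_simp
        ring

/-- slow variation of `Fw` -/
theorem Fw_slow {w : ℝ} (hw : |w| ≤ 1) (ζ ζ' : ℂ) :
    ‖Fw w ζ - Fw w ζ'‖ ≤ 3 * ‖ζ - ζ'‖ / (1 + max ‖ζ‖ ‖ζ'‖) := by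
  rcases le_total ‖ζ'‖ ‖ζ‖ with h | h
  · rw [max_eq_left h]
    exact Fw_slow_aux hw ζ ζ' h
  · rw [max_eq_right h, norm_sub_rev, norm_sub_rev ζ ζ']
    exact Fw_slow_aux hw ζ' ζ h

end Pool.Agent.Helper376.CL
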