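import Mathlib
import Pool.Agent.Helper376.CL.PgDefs

set_option maxHeartbeats 4000000
set_option synthInstance.maxHeartbeats 400000

namespace Pool.Agent.Helper376.CL

open Set Topology

theorem isCompact_Pg : IsCompact Pg := by
  have h1 : IsClosed {c : List A → ℝ | c [] = 1} := isClosed_eq (continuous_apply _) continuous_const
  have h2 : IsClosed {c : List A → ℝ | ∀ l, 0 ≤ c l ∧ c l ≤ 1} := by
    simp only [setOf_forall]
    exact isClosed_iInter fun l => (isClosed_le continuous_const (continuous_apply l)).inter
      (isClosed_le (continuous_apply l) continuous_const)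
  have h3 : IsClosed {c : List A → ℝ | ∀ x l, ¬ ok x l → c (x :: l) = 0} := by
    simp only [setOf_forall]
    exact isClosed_iInter fun x => isClosed_iInter fun l => isClosed_iInter fun _ =>
      isClosed_eq (continuous_apply _) continuous_const
  have h4 : IsClosed {c : List A → ℝ | ∀ x l, c (x :: l) ≠ 0 → c l = 1} := by
    have : {c : List A → ℝ | ∀ x l, c (x :: l) ≠ 0 → c l = 1} =
        {c : List A → ℝ | ∀ x l, c (x :: l) = 0 ∨ c l = 1} := by
      ext c
      simp only [mem_setOf_eq]
      constructor
      · intro h x l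
        by_cases h0 : c (x :: l) = 0
        · exact Or.inl h0
        · exact Or.inr (h x l h0)
      · intro h x l h0
        exact (h x l).resolve_left h0
    rw [this]
    simp only [setOf_forall]
    exact isClosed_iInter fun x => isClosed_iInter fun l =>
      (isClosed_eq (continuous_apply _) continuous_const).union
        (isClosed_eq (continuous_apply _) continuous_const)
  have h5 : IsClosed {c : List A → ℝ | ∀ x y l, x ≠ y → c (x :: l) = 0 ∨ c (y :: l) = 0} := by
    simp only [setOf_forall]
    exact isClosed_iInter fun x => isClosed_iInter fun y => isClosed_iInter fun l =>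
      isClosed_iInter fun _ => (isClosed_eq (continuous_apply _) continuous_const).union
        (isClosed_eq (continuous_apply _) continuous_const)
  have hcl : IsClosed Pg := h1.inter (h2.inter (h3.inter (h4.inter h5)))
  have hK : IsCompact (Set.univ.pi fun _ : List A => Icc (0 : ℝ) 1) :=
    isCompact_univ_pi (fun _ => isCompact_Icc)
  refine hK.of_isClosed_subset hcl ?_
  intro c hc l _
  exact hc.2.1 l

theorem root_mem : root ∈ Pg := by
  refine ⟨?_, ?_, ?_, ?_, ?_⟩
  · simp [root]
  · intro l
    unfold root
    split_ifs <;> norm_num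
  · intro x l _
    simp [root]
  · intro x l h
    exact absurd (by simp [root]) h
  · intro x y l _
    left
    simp [root]

theorem prof_nonneg_Pg (n : ℕ) (lam : ℝ) : 0 ≤ prof n lam := by
  unfold prof
  have : (0 : ℝ) ≤ (n : ℝ) + 1 := by positivity
  exact mul_nonneg this (le_max_left _ _)

theorem prof_zero (lam : ℝ) : prof 0 lam = 1 := by
  simp [prof]

theorem tr_of_zero {c : List A → ℝ} {lam : ℝ} {l : List A} (h : c l = 0) : tr c lam l = 0 := by
  unfold tr
  rw [h]
  exact min_eq_left (prof_nonneg_Pg _ _)

theorem tr_mem {c : List A → ℝ} (hc : c ∈ Pg) {lam : ℝ} (h0 : 0 ≤ lam) (h1 : lam ≤ 1) :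
    tr c lam ∈ Pg := by
  obtain ⟨c1, c2, c3, c4, c5⟩ := hc
  refine ⟨?_, ?_, ?_, ?_, ?_⟩
  · simp [tr, c1, prof_zero]
  · intro l
    exact ⟨le_min (c2 l).1 (prof_nonneg_Pg _ _), (min_le_left _ _).trans (c2 l).2⟩
  · intro x l h
    exact tr_of_zero (c3 x l h)
  · intro x l h
    have hne : c (x :: l) ≠ 0 := fun h' => h (tr_of_zero h')
    have hl := c4 x l hne
    have hp : prof (x :: l).length lam ≠ 0 := by
      intro h'
      apply h
      unfold tr
      rw [h']
      exact min_eq_right (c2 _).1
    unfold tr
    rw [hl]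
    apply min_eq_left
    unfold prof at hp ⊢
    rw [List.length_cons] at hp
    push_cast at hp
    have hn : (0 : ℝ) ≤ (l.length : ℝ) := Nat.cast_nonneg _
    generalize (l.length : ℝ) = n at *
    have hmax : max 0 (1 - (n + 1) * lam) ≠ 0 := fun h => hp (by rw [h, mul_zero])
    have hpos : 0 < 1 - (n + 1) * lam := by
      by_contra hcon
      exact hmax (max_eq_left (not_lt.1 hcon))
    have h5 : 1 - n * lam ≤ max 0 (1 - n * lam) := le_max_right _ _
    have h6 : (n + 1) * (1 - n * lam) ≤ (n + 1) * max 0 (1 - n * lam) :=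
      mul_le_mul_of_nonneg_left h5 (by linarith)
    refine le_trans ?_ h6
    nlinarith [mul_nonneg hn hpos.le]
  · intro x y l hxy
    rcases c5 x y l hxy with h | h
    · exact Or.inl (tr_of_zero h)
    · exact Or.inr (tr_of_zero h)

theorem tr_zero {c : List A → ℝ} (hc : c ∈ Pg) : tr c 0 = c := by
  funext l
  unfold tr prof
  apply min_eq_left
  have h1 := (hc.2.1 l).2
  have h2 : (0 : ℝ) ≤ (l.length : ℝ) := Nat.cast_nonneg _
  simp
  linarith

theorem tr_one {c : List A → ℝ} (hc : c ∈ Pg) : tr c 1 = root := by
  funext l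
  unfold tr root
  cases l with
  | nil => simp [prof_zero, hc.1]
  | cons x l =>
    rw [if_neg (by simp)]
    have : prof (x :: l).length 1 = 0 := by
      unfold prof
      have h : max (0 : ℝ) (1 - ((x :: l).length : ℝ) * 1) = 0 := by
        apply max_eq_left
        rw [List.length_cons]
        push_cast
        have : (0 : ℝ) ≤ (l.length : ℝ) := Nat.cast_nonneg _
        linarith
      rw [h, mul_zero]
    rw [this]
    exact min_eq_right (hc.2.1 _).1

theorem tr_isFin {c : List A → ℝ} (hc : c ∈ Pg) {lam : ℝ} (h0 : 0 < lam) (h1 : lam ≤ 1) :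
    IsFin (tr c lam) := by
  obtain ⟨n, hn⟩ := exists_nat_gt (1 / lam)
  refine ⟨n, ?_⟩
  intro l hl
  unfold tr
  have : prof l.length lam = 0 := by
    unfold prof
    have h : max (0 : ℝ) (1 - (l.length : ℝ) * lam) = 0 := by
      apply max_eq_left
      have h2 : (n : ℝ) ≤ (l.length : ℝ) := by exact_mod_cast hl
      rw [div_lt_iff₀ h0] at hn
      nlinarith
    rw [h, mul_zero]
  rw [this]
  exact min_eq_right (hc.2.1 _).1

theorem tr_isFin_of_isFin {c : List A → ℝ} (hc : c ∈ Pg) (hf : IsFin c) {lam : ℝ} (h0 : 0 ≤ lam)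
    (h1 : lam ≤ 1) : IsFin (tr c lam) := by
  obtain ⟨n, hn⟩ := hf
  exact ⟨n, fun l hl => tr_of_zero (hn l hl)⟩

/-- an end -/
def anEnd : List A → ℝ := fun l => if (∀ x ∈ l, x = ((1 : Fin 2), true)) then 1 else 0

theorem anEnd_mem : anEnd ∈ Pg := by
  refine ⟨?_, ?_, ?_, ?_, ?_⟩
  · simp [anEnd]
  · intro l
    unfold anEnd
    split_ifs <;> norm_num
  · intro x l h
    unfold anEnd
    rw [if_neg]
    intro h'
    apply h
    cases l with
    | nil =>
      have := h' x (by simp)
      simp [ok, this]
    | cons y l =>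
      have hx := h' x (by simp)
      have hy := h' y (by simp)
      simp [ok, hx, hy]
  · intro x l h
    unfold anEnd at h ⊢
    rw [if_pos]
    intro y hy
    by_contra hcon
    apply h
    rw [if_neg]
    intro h'
    exact hcon (h' y (List.mem_cons_of_mem _ hy))
  · intro x y l hxy
    by_contra hcon
    push Not at hcon
    obtain ⟨h1, h2⟩ := hcon
    have hx : x = ((1 : Fin 2), true) := by
      by_contra h
      apply h1
      unfold anEnd
      rw [if_neg]
      intro h'
      exact h (h' x (by simp))
    have hy : y = ((1 : Fin 2), true) := by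
      by_contra h
      apply h2
      unfold anEnd
      rw [if_neg]
      intro h'
      exact h (h' y (by simp))
    exact hxy (hx.trans hy.symm)

theorem anEnd_not_isFin : ¬ IsFin anEnd := by
  rintro ⟨n, hn⟩
  have h := hn (List.replicate n ((1 : Fin 2), true)) (by simp)
  unfold anEnd at h
  rw [if_pos] at h
  · exact one_ne_zero h
  · intro x hx
    exact List.eq_of_mem_replicate hx

/-- uniqueness: at each level at most one vertex is reached -/
theorem Pg_level_unique {c : List A → ℝ} (hc : c ∈ Pg) {l l' : List A} (hl : l.length = l'.length)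
    (h : c l ≠ 0) (h' : c l' ≠ 0) : l = l' := by
  induction l generalizing l' with
  | nil =>
    rw [List.length_nil] at hl
    exact (List.length_eq_zero_iff.1 hl.symm).symm
  | cons x l ih =>
    cases l' with
    | nil => simp at hl
    | cons y l' =>
      have h1 := hc.2.2.2.1 x l h
      have h2 := hc.2.2.2.1 y l' h'
      have h3 : l = l' := ih (by simpa using hl) (by rw [h1]; exact one_ne_zero)
        (by rw [h2]; exact one_ne_zero)
      subst h3
      by_cases hxy : x = y
      · rw [hxy]
      · rcases hc.2.2.2.2 x y l hxy with h4 | h4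
        · exact absurd h4 h
        · exact absurd h4 h'

theorem suf_ne {c : List A → ℝ} (hc : c ∈ Pg) {s m : List A} (hm : c m ≠ 0) (hs : s <:+ m) :
    s = m ∨ c s = 1 := by
  induction m with
  | nil => exact Or.inl (List.suffix_nil.1 hs)
  | cons x m ih =>
    rcases List.suffix_cons_iff.1 hs with h | h
    · exact Or.inl h
    · have h1 := hc.2.2.2.1 x m hm
      rcases ih (by rw [h1]; exact one_ne_zero) h with h2 | h2
      · exact Or.inr (by rw [h2, h1])
      · exact Or.inr h2

theorem exists_suf {m : List A} {k : ℕ} (hk : k ≤ m.length) :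
    ∃ s, s <:+ m ∧ s.length = k := by
  refine ⟨m.drop (m.length - k), List.drop_suffix _ _, ?_⟩
  rw [List.length_drop]
  omega

/-- an element of the page of finite depth is determined by its last fully reached vertex -/
theorem isFin_structure {c : List A → ℝ} (hc : c ∈ Pg) (hf : IsFin c) :
    ∃ l : List A, c l = 1 ∧ (∀ m, m <:+ l → c m = 1) ∧
      ((∀ m, ¬ m <:+ l → c m = 0) ∨ ∃ x, ok x l ∧ 0 < c (x :: l) ∧ c (x :: l) < 1 ∧
        ∀ m, m ≠ x :: l → ¬ m <:+ l → c m = 0) := by
  obtain ⟨n, hn⟩ := hf
  have hmax : ∃ l, c l = 1 ∧ ∀ l', c l' = 1 → l'.length ≤ l.length := by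
    let S : Set ℕ := {k | ∃ l : List A, l.length = k ∧ c l = 1}
    have hne : S.Nonempty := ⟨0, [], rfl, hc.1⟩
    have hbd : BddAbove S := by
      refine ⟨n, ?_⟩
      rintro k ⟨l, rfl, hl⟩
      by_contra hcon
      have := hn l (by omega)
      rw [this] at hl
      exact zero_ne_one hl
    obtain ⟨l, hl1, hl2⟩ := Nat.sSup_mem hne hbd
    refine ⟨l, hl2, ?_⟩
    intro l' hl'
    rw [hl1]
    exact le_csSup hbd ⟨l', rfl, hl'⟩
  obtain ⟨l, hl, hlmax⟩ := hmax
  have hsuf : ∀ m, m <:+ l → c m = 1 := by
    intro m hm
    rcases suf_ne hc (by rw [hl]; exact one_ne_zero) hm with h | h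
    · rw [h, hl]
    · exact h
  have hsmall : ∀ m, m.length ≤ l.length → ¬ m <:+ l → c m = 0 := by
    intro m hm hnot
    by_contra hne
    obtain ⟨s, hs1, hs2⟩ := exists_suf hm
    have h1 : m = s := Pg_level_unique hc hs2.symm hne (by
      rw [hsuf s hs1]
      exact one_ne_zero)
    exact hnot (h1 ▸ hs1)
  refine ⟨l, hl, hsuf, ?_⟩
  by_cases hex : ∃ x, c (x :: l) ≠ 0
  · obtain ⟨x, hx⟩ := hex
    right
    have hok : ok x l := by
      by_contra h
      exact hx (hc.2.2.1 x l h)
    refine ⟨x, hok, lt_of_le_of_ne (hc.2.1 _).1 (Ne.symm hx), lt_of_le_of_ne (hc.2.1 _).2 ?_, ?_⟩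
    · intro h
      have := hlmax _ h
      simp at this
    · intro m hm hnot
      by_contra hne
      rcases Nat.lt_or_ge l.length m.length with hlen | hlen
      · obtain ⟨s, hs1, hs2⟩ := exists_suf (show l.length + 1 ≤ m.length from hlen)
        rcases suf_ne hc hne hs1 with h | h
        · subst h
          exact hm (Pg_level_unique hc (by rw [hs2]; rfl) hne hx)
        · have := hlmax s h
          omega
      · exact hne (hsmall m hlen hnot)
  · push Not at hex
    left
    intro m hnot
    by_contra hne
    rcases Nat.lt_or_ge l.length m.length with hlen | hlen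
    · obtain ⟨s, hs1, hs2⟩ := exists_suf (show l.length + 1 ≤ m.length from hlen)
      have hs3 : c s ≠ 0 := by
        rcases suf_ne hc hne hs1 with h | h
        · rw [h]; exact hne
        · rw [h]; exact one_ne_zero
      cases s with
      | nil => simp at hs2
      | cons y s =>
        have h4 := hc.2.2.2.1 y s hs3
        have h5 : s = l := Pg_level_unique hc (by simpa using hs2)
          (by rw [h4]; exact one_ne_zero) (by rw [hl]; exact one_ne_zero)
        rw [h5] at hs3
        exact hs3 (hex y)
    · exact hne (hsmall m hlen hnot)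

/-- finiteness is seen on one level -/
theorem isFin_iff {c : List A → ℝ} (hc : c ∈ Pg) : IsFin c ↔ ∃ n : ℕ, ∀ l : List A, l.length = n → c l < 1 := by
  constructor
  · rintro ⟨n, hn⟩
    refine ⟨n, fun l hl => ?_⟩
    rw [hn l hl.ge]
    norm_num
  · rintro ⟨n, hn⟩
    refine ⟨n + 1, fun l hl => ?_⟩
    by_contra hne
    obtain ⟨s, hs1, hs2⟩ := exists_suf (show n ≤ l.length by omega)
    rcases suf_ne hc hne hs1 with h | h
    · rw [h] at hs2
      omega
    · have := hn s hs2
      rw [h] at this
      exact lt_irrefl _ this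

end Pool.Agent.Helper376.CL
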