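import Mathlib
import Pool.Agent.Helper376.CL.XSDefs
import Pool.Agent.Helper376.CL.Pg
import Pool.Agent.Helper376.CL.FwLem

set_option maxHeartbeats 4000000
set_option synthInstance.maxHeartbeats 400000

namespace Pool.Agent.Helper376.CL

open Set Topology

theorem JK1_joined {p q : ↥((XF 0)ᶜ)} (g : unitInterval → ℂ × (List A → ℝ)) (hg : Continuous g)
    (h1 : ∀ s, g s ∈ XS 0) (h2 : ∀ s, ¬ (‖(g s).1‖ < 1 ∧ IsFin (g s).2))
    (h0 : g 0 = p.1.1) (h3 : g 1 = q.1.1) : Joined p q := by
  refine ⟨{ toFun := fun s => ⟨⟨g s, h1 s⟩, h2 s⟩, continuous_toFun := ?_, source' := ?_,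
            target' := ?_ }⟩
  · exact Continuous.subtype_mk (Continuous.subtype_mk hg _) _
  · apply Subtype.ext; apply Subtype.ext; exact h0
  · apply Subtype.ext; apply Subtype.ext; exact h3

theorem JK1_root_fin : IsFin root := by
  refine ⟨1, fun l hl => ?_⟩
  have : l ≠ [] := by rintro rfl; simp at hl
  simp [root, this]

theorem JK1_smul_fin {c : List A → ℝ} {r : ℝ} (hr : r ≠ 0) (h : IsFin (r • c)) : IsFin c := by
  obtain ⟨n, hn⟩ := h
  refine ⟨n, fun l hl => ?_⟩
  have := hn l hl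
  simp only [Pi.smul_apply, smul_eq_mul, mul_eq_zero] at this
  exact this.resolve_left hr

theorem JK1_circle_mem (z : ℂ) (hz : ‖z‖ = 1) : ((z, 0) : ℂ × (List A → ℝ)) ∈ XS 0 := by
  refine ⟨hz.le, root, root_mem, ?_, Or.inl hz⟩
  simp [hz]

theorem JK1_Fw0 (ζ : ℂ) : Fw 0 ζ = ζ / (1 + ‖ζ‖ : ℝ) := by
  simp [Fw]

theorem pathConnected_bd0 : PathConnectedSpace ↥((XF 0)ᶜ) := by
  -- the base point
  have hI : ‖Complex.I‖ = 1 := Complex.norm_I
  set q0 : ↥((XF 0)ᶜ) := ⟨⟨(Complex.I, 0), JK1_circle_mem _ hI⟩, by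
    intro h
    exact absurd h.1 (by simp)⟩ with hq0
  suffices hJ : ∀ p : ↥((XF 0)ᶜ), Joined p q0 by
    exact ⟨⟨q0⟩, fun x y => (hJ x).trans (hJ y).symm⟩
  intro p
  have hp1 := p.1.2
  have hp2 : ¬ (‖p.1.1.1‖ < 1 ∧ IsFin p.1.1.2) := p.2
  obtain ⟨hle, c, hc, hpc, hor⟩ := hp1
  rcases lt_or_eq_of_le hle with hlt | heq
  · -- inside the disc
    have hnf : ¬ IsFin p.1.1.2 := fun h => hp2 ⟨hlt, h⟩
    have hcf : ¬ IsFin c := by
      intro h
      apply hnf
      obtain ⟨n, hn⟩ := h
      exact ⟨n, fun l hl => by rw [hpc]; simp [hn l hl]⟩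
    have hk : ∃ k : ℤ, xpos 0 p.1.1.1 = k := by
      rcases hor with h | h | h
      · exact absurd h hlt.ne
      · exact absurd (h ▸ JK1_root_fin) hcf
      · exact h
    obtain ⟨k, hk⟩ := hk
    set z : ℂ := p.1.1.1 with hz
    set ζ : ℂ := Gw 0 z with hζ
    -- the path
    set η : unitInterval → ℂ := fun s => ((1 - (s : ℝ) : ℝ) : ℂ) * ζ + ((s : ℝ) : ℂ) * Complex.I
      with hη
    set N : unitInterval → ℝ := fun s => (1 - (s : ℝ)) + ‖η s‖ with hN
    have hs0 : ∀ s : unitInterval, 0 ≤ 1 - (s : ℝ) := fun s => by linarith [s.2.2]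
    have hNpos : ∀ s, 0 < N s := by
      intro s
      rcases lt_or_eq_of_le s.2.2 with h | h
      · have : 0 < 1 - (s : ℝ) := by linarith
        have := norm_nonneg (η s)
        show 0 < (1 - (s : ℝ)) + ‖η s‖
        linarith
      · have : η s = Complex.I := by simp [hη, h]
        show 0 < (1 - (s : ℝ)) + ‖η s‖
        rw [this, hI, h]; norm_num
    have hηc : Continuous η := by
      refine Continuous.add (Continuous.mul ?_ continuous_const) (Continuous.mul ?_ continuous_const)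
      · exact Complex.continuous_ofReal.comp (continuous_const.sub continuous_subtype_val)
      · exact Complex.continuous_ofReal.comp continuous_subtype_val
    have hNc : Continuous N := (continuous_const.sub continuous_subtype_val).add hηc.norm
    set g : unitInterval → ℂ × (List A → ℝ) := fun s =>
      (η s / ((N s : ℝ) : ℂ), ((1 - (s : ℝ)) / N s) • c) with hg
    have hgc : Continuous g := by
      refine Continuous.prodMk ?_ ?_
      · exact hηc.div (Complex.continuous_ofReal.comp hNc) (fun s => by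
          exact_mod_cast (hNpos s).ne')
      · exact ((continuous_const.sub continuous_subtype_val).div hNc
          (fun s => (hNpos s).ne')).smul continuous_const
    have hnorm : ∀ s, ‖(g s).1‖ = ‖η s‖ / N s := by
      intro s
      show ‖η s / ((N s : ℝ) : ℂ)‖ = _
      rw [norm_div, Complex.norm_real, Real.norm_eq_abs, abs_of_pos (hNpos s)]
    have hone : ∀ s, 1 - ‖(g s).1‖ = (1 - (s : ℝ)) / N s := by
      intro s
      rw [hnorm s, eq_div_iff (hNpos s).ne', sub_mul, div_mul_cancel₀ _ (hNpos s).ne']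
      show 1 * ((1 - (s : ℝ)) + ‖η s‖) - ‖η s‖ = _
      ring
    have hFw : ∀ s : unitInterval, (s : ℝ) < 1 →
        (g s).1 = Fw 0 (ζ + ((s : ℝ) / (1 - (s : ℝ)) : ℝ) * Complex.I) := by
      intro s hs
      have hs1 : 0 < 1 - (s : ℝ) := by linarith
      have hs1' : ((1 - (s : ℝ) : ℝ) : ℂ) ≠ 0 := by exact_mod_cast hs1.ne'
      have e1 : η s = ((1 - (s : ℝ) : ℝ) : ℂ) *
          (ζ + ((s : ℝ) / (1 - (s : ℝ)) : ℝ) * Complex.I) := by
        show ((1 - (s : ℝ) : ℝ) : ℂ) * ζ + ((s : ℝ) : ℂ) * Complex.I = _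
        rw [mul_add, ← mul_assoc, ← Complex.ofReal_mul, mul_div_cancel₀ _ hs1.ne']
      have e2 : N s = (1 - (s : ℝ)) *
          (1 + ‖ζ + ((s : ℝ) / (1 - (s : ℝ)) : ℝ) * Complex.I‖) := by
        show (1 - (s : ℝ)) + ‖η s‖ = _
        rw [e1, norm_mul, Complex.norm_real, Real.norm_eq_abs, abs_of_pos hs1]
        ring
      rw [JK1_Fw0]
      show η s / ((N s : ℝ) : ℂ) = _
      rw [e2, Complex.ofReal_mul, e1, mul_div_mul_left _ _ hs1']
    refine JK1_joined g hgc ?_ ?_ ?_ ?_
    · intro s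
      refine ⟨?_, c, hc, ?_, ?_⟩
      · rw [hnorm s, div_le_one (hNpos s)]
        show ‖η s‖ ≤ (1 - (s : ℝ)) + ‖η s‖
        linarith [hs0 s]
      · rw [hone s]
      · rcases lt_or_eq_of_le s.2.2 with h | h
        · right; right
          refine ⟨k, ?_⟩
          rw [← hk, hFw s h]
          unfold xpos
          rw [Gw_Fw, Complex.add_re, Complex.re_ofReal_mul, Complex.I_re, mul_zero, add_zero]
        · left
          have := hone s
          rw [h] at this
          simp at this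
          linarith
    · rintro s ⟨h1, h2⟩
      have hpos : 0 < (1 - (s : ℝ)) / N s := by rw [← hone s]; linarith
      exact hcf (JK1_smul_fin hpos.ne' h2)
    · -- start
      have h0 : g 0 = (Fw 0 ζ, (1 - ‖Fw 0 ζ‖) • c) := by
        have h := hFw 0 (by simp)
        have h' := hone 0
        have e : (g 0).1 = Fw 0 ζ := by rw [h]; simp
        refine Prod.ext e ?_
        show ((1 - ((0 : unitInterval) : ℝ)) / N 0) • c = _
        rw [← h', e]
      rw [h0, hζ, Fw_Gw 0 hlt, ← hpc]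
    · -- end
      show (η 1 / ((N 1 : ℝ) : ℂ), ((1 - ((1 : unitInterval) : ℝ)) / N 1) • c) = (Complex.I, 0)
      have e1 : η 1 = Complex.I := by simp [hη]
      have e2 : N 1 = 1 := by simp [hN, e1]
      rw [e1, e2]
      simp
  · -- on the circle
    have hp0 : p.1.1.2 = 0 := by rw [hpc, heq]; simp
    have hsph : IsPathConnected (Metric.sphere (0 : ℂ) 1) :=
      isPathConnected_sphere (by rw [Complex.rank_real_complex]; norm_num) 0 zero_le_one
    have hz : p.1.1.1 ∈ Metric.sphere (0 : ℂ) 1 := by simpa using heq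
    have hIm : Complex.I ∈ Metric.sphere (0 : ℂ) 1 := by simp
    obtain ⟨γ, hγ⟩ := hsph.joinedIn _ hz _ hIm
    refine JK1_joined (fun s => (γ s, 0)) (γ.continuous.prodMk continuous_const) ?_ ?_ ?_ ?_
    · intro s
      exact JK1_circle_mem _ (by simpa using hγ s)
    · rintro s ⟨h1, _⟩
      have h2 : ‖γ s‖ = 1 := by simpa using hγ s
      exact absurd h1 (by simp [h2])
    · show (γ 0, (0 : List A → ℝ)) = p.1.1
      rw [γ.source, ← hp0]
    · show (γ 1, (0 : List A → ℝ)) = (Complex.I, 0)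
      rw [γ.target]

end Pool.Agent.Helper376.CL
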