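import Mathlib
import Pool.Agent.Helper376.CL.XSDefs
import Pool.Agent.Helper376.CL.Pg
import Pool.Agent.Helper376.CL.FwLem

set_option maxHeartbeats 4000000
set_option synthInstance.maxHeartbeats 400000

namespace Pool.Agent.Helper376.CL

open Set Topology

theorem jk2_key (p : ↥((XF 1)ᶜ)) (h : ‖p.1.1.1‖ < 1) : ∃ k : ℤ, xpos 1 p.1.1.1 = k := by
  obtain ⟨h1, c, hc, h2, h3⟩ := p.1.2
  rcases h3 with h3 | h3 | h3
  · exact absurd h3 h.ne
  · exfalso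
    apply p.2
    refine ⟨h, 1, fun l hl => ?_⟩
    rw [h2, h3]
    have : l ≠ [] := by
      rintro rfl
      simp at hl
    simp [root, this]
  · exact h3

theorem jk2_Gw_zero : Gw 1 0 = 0 := by simp [Gw]

theorem jk2_ne (p : ↥((XF 1)ᶜ)) : p.1.1.1 ≠ 0 := by
  intro h0
  have h : ‖p.1.1.1‖ < 1 := by rw [h0]; simp
  obtain ⟨k, hk⟩ := jk2_key p h
  rw [h0, xpos, jk2_Gw_zero, Complex.zero_re, Real.sinh_zero] at hk
  have h1 : ((2 * k + 1 : ℤ) : ℝ) = 0 := by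
    push_cast
    linarith
  have h2 : (2 * k + 1 : ℤ) = 0 := by exact_mod_cast h1
  omega

theorem jk2_xpos_cont : ContinuousOn (xpos 1) {z | ‖z‖ < 1} := by
  unfold xpos
  have h1 : ContinuousOn (fun z => (Gw 1 z).re) {z : ℂ | ‖z‖ < 1} :=
    Complex.continuous_re.comp_continuousOn (continuousOn_Gw 1)
  exact (Real.continuous_sinh.comp_continuousOn h1).sub continuousOn_const

/-- the angle as a function of the first coordinate -/
noncomputable def jk2_th (z : ℂ) : ℝ := Complex.arg (Gw 1 z) + Real.log (1 + ‖Gw 1 z‖)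

theorem jk2_re_pos {z : ℂ} (hz : |xpos 1 z| < 1 / 2) : 0 < (Gw 1 z).re := by
  have h1 := (abs_lt.1 hz).1
  unfold xpos at h1
  have h2 : 0 < Real.sinh (Gw 1 z).re := by linarith
  exact Real.sinh_pos_iff.1 h2

theorem jk2_th_cont : ContinuousOn jk2_th {z | ‖z‖ < 1 ∧ |xpos 1 z| < 1 / 2} := by
  intro z hz
  have h1 : ContinuousWithinAt (Gw 1) {z | ‖z‖ < 1 ∧ |xpos 1 z| < 1 / 2} z :=
    ((continuousOn_Gw 1) z hz.1).mono (fun w hw => hw.1)
  have h2 : ContinuousAt Complex.arg (Gw 1 z) :=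
    Complex.continuousAt_arg (Or.inl (jk2_re_pos hz.2))
  have h3 : ContinuousWithinAt (fun z => Complex.arg (Gw 1 z))
      {z | ‖z‖ < 1 ∧ |xpos 1 z| < 1 / 2} z := h2.comp_continuousWithinAt h1
  have h4 : ContinuousWithinAt (fun z => 1 + ‖Gw 1 z‖) {z | ‖z‖ < 1 ∧ |xpos 1 z| < 1 / 2} z :=
    continuousWithinAt_const.add h1.norm
  have h5 : ContinuousWithinAt (fun z => Real.log (1 + ‖Gw 1 z‖))
      {z | ‖z‖ < 1 ∧ |xpos 1 z| < 1 / 2} z := h4.log (by positivity)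
  exact h3.add h5

theorem spiral_bd1 : ∃ (r : ↥((XF 1)ᶜ) → ℂ) (S : Set ↥((XF 1)ᶜ)) (θ : ↥((XF 1)ᶜ) → ℝ),
    Continuous r ∧ (∀ z, ‖r z‖ = 1) ∧ IsOpen S ∧ S.Nonempty ∧ Sᶜ.Nonempty ∧ ContinuousOn θ S ∧
    (∀ z ∈ S, r z = Complex.exp (Complex.I * θ z)) ∧
    ∀ C : ℝ, IsClosed {z | z ∈ S ∧ |θ z| ≤ C} := by
  have hpr : Continuous (fun p : ↥((XF 1)ᶜ) => p.1.1.1) :=
    continuous_fst.comp (continuous_subtype_val.comp continuous_subtype_val)
  have hopen : IsOpen {z : ℂ | ‖z‖ < 1} := isOpen_lt continuous_norm continuous_const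
  have hSo : IsOpen {z : ℂ | ‖z‖ < 1 ∧ |xpos 1 z| < 1 / 2} := by
    have h1 := jk2_xpos_cont.abs.isOpen_inter_preimage hopen (isOpen_Iio (a := (1 / 2 : ℝ)))
    exact h1
  refine ⟨fun p => p.1.1.1 / (‖p.1.1.1‖ : ℝ),
    {p | ‖p.1.1.1‖ < 1 ∧ |xpos 1 p.1.1.1| < 1 / 2}, fun p => jk2_th p.1.1.1, ?_, ?_, ?_, ?_, ?_, ?_,
    ?_, ?_⟩
  · apply hpr.div
    · exact Complex.continuous_ofReal.comp hpr.norm
    · intro p
      have := jk2_ne p
      simpa using this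
  · intro p
    have := jk2_ne p
    rw [norm_div, Complex.norm_real, norm_norm]
    exact div_self (by simpa using this)
  · exact hSo.preimage hpr
  · -- nonempty
    set z : ℂ := Fw 1 ((Real.arsinh (1 / 2) : ℝ) : ℂ) with hz
    have hz1 : ‖z‖ < 1 := norm_Fw_lt _ _
    have hx : xpos 1 z = 0 := by
      rw [xpos, hz, Gw_Fw, Complex.ofReal_re, Real.sinh_arsinh]; ring
    have hmem : ((z, (1 - ‖z‖) • anEnd) : ℂ × (List A → ℝ)) ∈ XS 1 := by
      refine ⟨hz1.le, anEnd, anEnd_mem, rfl, Or.inr (Or.inr ⟨0, ?_⟩)⟩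
      rw [hx]; simp
    have hmem2 : (⟨(z, (1 - ‖z‖) • anEnd), hmem⟩ : ↥(XS 1)) ∈ (XF 1)ᶜ := by
      rintro ⟨_, n, hn⟩
      apply anEnd_not_isFin
      refine ⟨n, fun l hl => ?_⟩
      have h1 := hn l hl
      have h2 : (1 - ‖z‖) * anEnd l = 0 := h1
      rcases mul_eq_zero.1 h2 with h3 | h3
      · linarith
      · exact h3
    refine ⟨⟨⟨(z, (1 - ‖z‖) • anEnd), hmem⟩, hmem2⟩, hz1, ?_⟩
    show |xpos 1 z| < 1 / 2
    rw [hx]; norm_num
  · have hmem : (((1 : ℂ), (0 : List A → ℝ)) : ℂ × (List A → ℝ)) ∈ XS 1 := by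
      refine ⟨by simp, root, root_mem, ?_, Or.inl (by simp)⟩
      simp
    have hmem2 : (⟨((1 : ℂ), (0 : List A → ℝ)), hmem⟩ : ↥(XS 1)) ∈ (XF 1)ᶜ := by
      rintro ⟨h1, _⟩
      simp at h1
    refine ⟨⟨⟨((1 : ℂ), (0 : List A → ℝ)), hmem⟩, hmem2⟩, ?_⟩
    rintro ⟨h1, _⟩
    simp at h1
  · exact jk2_th_cont.comp hpr.continuousOn (fun p hp => hp)
  · intro p hp
    have hz1 : ‖p.1.1.1‖ < 1 := hp.1
    set z := p.1.1.1 with hz
    set ζ := Gw 1 z with hζ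
    have hre : 0 < ζ.re := jk2_re_pos hp.2
    have hζ0 : ζ ≠ 0 := by
      intro h; rw [h] at hre; simp at hre
    have hn : 0 < ‖ζ‖ := norm_pos_iff.2 hζ0
    have hzF : z = Fw 1 ζ := (Fw_Gw 1 hz1).symm
    have hnz : ‖z‖ = ‖ζ‖ / (1 + ‖ζ‖) := by rw [hzF]; exact norm_Fw 1 ζ
    have h1 : (1 + (‖ζ‖ : ℂ)) ≠ 0 := by
      have : (1 + ‖ζ‖ : ℝ) ≠ 0 := by positivity
      exact_mod_cast this
    have hn' : (‖ζ‖ : ℂ) ≠ 0 := by exact_mod_cast hn.ne'
    have h2 : z / (‖z‖ : ℝ) = ζ / ‖ζ‖ * Complex.exp (Complex.I * (Real.log (1 + ‖ζ‖) : ℝ)) := by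
      rw [hnz]
      nth_rewrite 1 [hzF]
      unfold Fw
      push_cast
      rw [one_mul]
      field_simp
    have h3 : ζ / ‖ζ‖ = Complex.exp (Complex.I * (Complex.arg ζ : ℝ)) := by
      have h4 := Complex.norm_mul_exp_arg_mul_I ζ
      rw [mul_comm Complex.I, eq_comm, eq_div_iff hn', mul_comm]
      exact h4
    show z / (‖z‖ : ℝ) = Complex.exp (Complex.I * (jk2_th z : ℝ))
    rw [h2, h3, ← Complex.exp_add, jk2_th]
    congr 1
    push_cast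
    ring
  · intro C
    set δ := Real.exp (-(C + Real.pi)) with hδ
    have hδ0 : 0 < δ := Real.exp_pos _
    have hK : ∀ z : ℂ, ‖z‖ ≤ 1 - δ → ‖z‖ < 1 := fun z hz => by linarith
    have hT1 : IsClosed {z : ℂ | ‖z‖ ≤ 1 - δ ∧ xpos 1 z = 0} := by
      have h1 : ContinuousOn (xpos 1) {z : ℂ | ‖z‖ ≤ 1 - δ} := jk2_xpos_cont.mono hK
      exact h1.preimage_isClosed_of_isClosed (isClosed_le continuous_norm continuous_const)
        (isClosed_singleton (x := (0 : ℝ)))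
    have hT2 : IsClosed {z : ℂ | (‖z‖ ≤ 1 - δ ∧ xpos 1 z = 0) ∧ |jk2_th z| ≤ C} := by
      have h1 : ContinuousOn (fun z => |jk2_th z|) {z : ℂ | ‖z‖ ≤ 1 - δ ∧ xpos 1 z = 0} := by
        apply (jk2_th_cont.mono _).abs
        intro z hz
        refine ⟨hK z hz.1, ?_⟩
        rw [hz.2]; norm_num
      exact h1.preimage_isClosed_of_isClosed hT1 (isClosed_Iic (a := C))
    have heq : {p : ↥((XF 1)ᶜ) | p ∈ {p : ↥((XF 1)ᶜ) | ‖p.1.1.1‖ < 1 ∧ |xpos 1 p.1.1.1| < 1 / 2} ∧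
        |jk2_th p.1.1.1| ≤ C} =
        (fun p : ↥((XF 1)ᶜ) => p.1.1.1) ⁻¹'
          {z : ℂ | (‖z‖ ≤ 1 - δ ∧ xpos 1 z = 0) ∧ |jk2_th z| ≤ C} := by
      ext p
      constructor
      · rintro ⟨⟨h1, h2⟩, h3⟩
        refine ⟨⟨?_, ?_⟩, h3⟩
        · set ζ := Gw 1 p.1.1.1 with hζ
          have h4 : jk2_th p.1.1.1 ≤ C := (abs_le.1 h3).2
          have h5 : -Real.pi ≤ Complex.arg ζ := (Complex.neg_pi_lt_arg ζ).le
          have h6 : Real.log (1 + ‖ζ‖) ≤ C + Real.pi := by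
            unfold jk2_th at h4
            linarith
          have h7 : 1 + ‖ζ‖ ≤ Real.exp (C + Real.pi) := by
            rwa [Real.log_le_iff_le_exp (by positivity)] at h6
          have h8 : 1 - ‖p.1.1.1‖ = 1 / (1 + ‖ζ‖) := by
            have := one_sub_norm_Fw 1 ζ
            rwa [hζ, Fw_Gw 1 h1] at this
          have h9 : δ ≤ 1 - ‖p.1.1.1‖ := by
            rw [h8, hδ, Real.exp_neg, ← one_div]
            gcongr
          linarith
        · obtain ⟨k, hk⟩ := jk2_key p h1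
          rw [hk] at h2 ⊢
          have h4 : |(k : ℝ)| < 1 := by linarith
          have h5 : |k| < 1 := by exact_mod_cast h4
          rw [Int.abs_lt_one_iff] at h5
          rw [h5]; simp
      · rintro ⟨⟨h1, h2⟩, h3⟩
        refine ⟨⟨hK _ h1, ?_⟩, h3⟩
        show |xpos 1 p.1.1.1| < 1 / 2
        rw [h2]; norm_num
    rw [heq]
    exact hT2.preimage hpr

end Pool.Agent.Helper376.CL
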