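import Mathlib

/-! Definitions: Euclidean retracts, Z-sets, Z-structures (Bestvina), boundaries, cell-like maps. -/

namespace Pool.Agent.Helper376.CL

open Set Topology

/-- A Euclidean retract: a compact space that embeds in some `ℝⁿ` as a retract. -/
def IsEuclideanRetract (X : Type) [TopologicalSpace X] : Prop :=
  CompactSpace X ∧ ∃ (n : ℕ) (i : X → EuclideanSpace ℝ (Fin n)) (r : EuclideanSpace ℝ (Fin n) → X),
    IsEmbedding i ∧ Continuous r ∧ ∀ x, r (i x) = x

/-- `Z` is a Z-set in `X`: `Z` is compact and for every open `U` the inclusion `U \ Z → U` is a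
homotopy equivalence. -/
def IsZSet {X : Type} [TopologicalSpace X] (Z : Set X) : Prop :=
  IsCompact Z ∧ ∀ U : Set X, IsOpen U →
    ∃ e : ContinuousMap.HomotopyEquiv ↥(U \ Z) ↥U, ∀ x, ((e.toFun x : ↥U) : X) = (x : X)

/-- `(X, Z)` together with an action of `G` on `X \ Z` is a Z-structure on `G` (Bestvina). -/
structure IsZStructure (G : Type) [Group G] (X : Type) [MetricSpace X] (Z : Set X)
    [MulAction G ↥(Zᶜ)] : Prop where
  /-- `X` is a Euclidean retract -/
  retract : IsEuclideanRetract X
  /-- `Z` is a Z-set in `X` -/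
  zset : IsZSet Z
  /-- `G` acts on `X \ Z` by homeomorphisms -/
  cont : ∀ g : G, Continuous (fun x : ↥(Zᶜ) => g • x)
  /-- the action is a covering space action -/
  covering : ∀ x : ↥(Zᶜ), ∃ U : Set ↥(Zᶜ), IsOpen U ∧ x ∈ U ∧
    ∀ g : G, g ≠ 1 → Disjoint ((fun y => g • y) '' U) U
  /-- the quotient is compact -/
  cocompact : CompactSpace (MulAction.orbitRel.Quotient G ↥(Zᶜ))
  /-- the translates of a compact set form a null family -/
  null : ∀ K : Set ↥(Zᶜ), IsCompact K → ∀ ε : ℝ, 0 < ε →
    {g : G | ε < Metric.diam (Subtype.val '' ((fun y => g • y) '' K) : Set X)}.Finite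

/-- `Z` is (homeomorphic to) a Z-structure boundary (Bestvina boundary) of `G`. -/
def IsZBoundary (G : Type) [Group G] (Z : Type) [TopologicalSpace Z] : Prop :=
  ∃ (X : Type) (_ : MetricSpace X) (S : Set X) (_ : MulAction G ↥(Sᶜ)),
    IsZStructure G X S ∧ Nonempty (Z ≃ₜ ↥S)

/-- A compact metrizable space `C` has the shape of a point: it is nonempty, embeds in the Hilbert
cube, and contracts in every neighbourhood of its image there. -/
def HasTrivialShape (C : Type) [TopologicalSpace C] : Prop :=
  Nonempty C ∧ ∃ i : C → (ℕ → unitInterval), IsClosedEmbedding i ∧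
    ∀ U : Set (ℕ → unitInterval), IsOpen U → ∀ f : C(C, ↥U), (∀ c, (f c : ℕ → unitInterval) = i c) →
      f.Nullhomotopic

/-- A cell-like map: all point preimages are compact metrizable and have the shape of a point. -/
def IsCellLike {W Z : Type} [TopologicalSpace W] [TopologicalSpace Z] (f : W → Z) : Prop :=
  Continuous f ∧ ∀ z : Z, HasTrivialShape ↥(f ⁻¹' {z})

/-- Cell-like equivalence of compacta (we even allow arbitrary compact Hausdorff spaces `W`). -/
def CellLikeEquivalent (Z₁ Z₂ : Type) [TopologicalSpace Z₁] [TopologicalSpace Z₂] : Prop :=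
  ∃ (W : Type) (_ : TopologicalSpace W) (_ : CompactSpace W) (_ : T2Space W)
    (f : W → Z₁) (g : W → Z₂), IsCellLike f ∧ IsCellLike g

end Pool.Agent.Helper376.CL
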