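import Mathlib
import Pool.Agent.Helper376.CL.PgDefs
import Pool.Agent.Helper376.CL.Pg

set_option maxHeartbeats 4000000
set_option synthInstance.maxHeartbeats 400000

namespace Pool.Agent.Helper376.CL

open Set Topology

theorem hasSum_levels {f : List A → ℝ} (hf : Summable f) :
    HasSum (fun n : ℕ => ∑' l : {l : List A // l.length = n}, f l.1) (∑' l, f l) := by
  have h1 : HasSum (f ∘ (Equiv.sigmaFiberEquiv (List.length : List A → ℕ))) (∑' l, f l) :=
    (Equiv.sigmaFiberEquiv (List.length : List A → ℕ)).hasSum_iff.2 hf.hasSum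
  refine h1.sigma (fun n => ?_)
  have h2 : Summable (fun l : {l : List A // l.length = n} => f l.1) :=
    hf.comp_injective Subtype.val_injective
  exact h2.hasSum

theorem summable_words : Summable (fun l : List A => (1/8 : ℝ)^l.length) := by
  rw [← (Equiv.sigmaFiberEquiv (List.length : List A → ℕ)).summable_iff]
  rw [summable_sigma_of_nonneg (fun x => by
    show 0 ≤ (1/8 : ℝ) ^ _
    positivity)]
  have key : ∀ n : ℕ, HasSum (fun y : {l : List A // l.length = n} =>
      (((fun l : List A => (1/8 : ℝ)^l.length) ∘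
        (Equiv.sigmaFiberEquiv (List.length : List A → ℕ))) ⟨n, y⟩)) ((1/2 : ℝ)^n) := by
    intro n
    let _ : Fintype {l : List A // l.length = n} := inferInstanceAs (Fintype (List.Vector A n))
    have hcard : Fintype.card {l : List A // l.length = n} = 4 ^ n := by
      have h := card_vector (α := A) n
      have h4 : Fintype.card A = 4 := rfl
      rw [h4] at h
      exact h
    have h := hasSum_fintype (fun y : {l : List A // l.length = n} =>
      (((fun l : List A => (1/8 : ℝ)^l.length) ∘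
        (Equiv.sigmaFiberEquiv (List.length : List A → ℕ))) ⟨n, y⟩))
    convert h using 1
    have h5 : ∀ y : {l : List A // l.length = n}, (((fun l : List A => (1/8 : ℝ)^l.length) ∘
        (Equiv.sigmaFiberEquiv (List.length : List A → ℕ))) ⟨n, y⟩) = (1/8 : ℝ)^n := by
      intro y
      show (1/8 : ℝ)^(y.1.length) = _
      rw [y.2]
    rw [Finset.sum_congr rfl (fun y _ => h5 y), Finset.sum_const, Finset.card_univ, hcard,
      nsmul_eq_mul]
    push_cast
    rw [← mul_pow]
    norm_num
  refine ⟨fun n => (key n).summable, ?_⟩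
  have h6 : (fun n : ℕ => ∑' y : {l : List A // l.length = n},
      (((fun l : List A => (1/8 : ℝ)^l.length) ∘
        (Equiv.sigmaFiberEquiv (List.length : List A → ℕ))) ⟨n, y⟩)) = fun n => (1/2 : ℝ)^n := by
    funext n
    exact (key n).tsum_eq
  rw [h6]
  exact summable_geometric_of_lt_one (by norm_num) (by norm_num)

theorem dgA_nonneg (x : A) : 0 ≤ dgA x := by
  unfold dgA
  split_ifs <;> positivity

theorem dgA_le (x : A) : dgA x ≤ 3 := by
  unfold dgA
  have h : ((x.1 : ℕ) : ℝ) ≤ 1 := by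
    have := x.1.2
    have h2 : (x.1 : ℕ) ≤ 1 := by omega
    exact_mod_cast h2
  split_ifs <;> linarith

theorem dg_nonneg (l : List A) : 0 ≤ dg l := by
  cases l with
  | nil => exact le_refl _
  | cons x t => exact dgA_nonneg x

theorem dg_le (l : List A) : dg l ≤ 3 := by
  cases l with
  | nil => show (0:ℝ) ≤ 3; norm_num
  | cons x t => exact dgA_le x

/-- integer version of the digit -/
def dgN (x : A) : ℕ := 2 * (x.1 : ℕ) + (if x.2 then 1 else 0)

theorem dgA_eq (x : A) : dgA x = (dgN x : ℝ) := by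
  unfold dgA dgN
  push_cast
  split_ifs <;> simp

theorem dgN_inj : ∀ x y : A, dgN x = dgN y → x = y := by
  decide

theorem bnd1 {y : List A → ℝ} (hy : ∀ l, |y l| ≤ 1) (l : List A) :
    ‖y l * (1/8 : ℝ)^l.length‖ ≤ (1/8 : ℝ)^l.length := by
  rw [Real.norm_eq_abs, abs_mul, abs_of_nonneg (by positivity : (0:ℝ) ≤ (1/8)^l.length)]
  exact mul_le_of_le_one_left (by positivity) (hy l)

theorem bnd2 {y : List A → ℝ} (hy : ∀ l, |y l| ≤ 1) (l : List A) :
    ‖y l * dg l * (1/16 : ℝ)^l.length‖ ≤ 3 * (1/8 : ℝ)^l.length := by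
  rw [Real.norm_eq_abs, abs_mul, abs_mul,
    abs_of_nonneg (by positivity : (0:ℝ) ≤ (1/16)^l.length), abs_of_nonneg (dg_nonneg l)]
  have h1 : |y l| * dg l ≤ 3 := by
    calc |y l| * dg l ≤ 1 * 3 := by
          have := hy l
          have := dg_le l
          have := dg_nonneg l
          gcongr
      _ = 3 := by norm_num
  have h2 : (1/16 : ℝ)^l.length ≤ (1/8 : ℝ)^l.length := by
    gcongr
    norm_num
  have h3 : 0 ≤ |y l| * dg l := mul_nonneg (abs_nonneg _) (dg_nonneg l)
  gcongr

theorem continuousOn_e1 : ContinuousOn e1 {y | ∀ l, |y l| ≤ 1} := by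
  unfold e1
  refine continuousOn_tsum (u := fun l : List A => (1/8 : ℝ)^l.length) (fun l => ?_)
    summable_words (fun l y hy => bnd1 hy l)
  exact ((continuous_apply l).mul continuous_const).continuousOn

theorem continuousOn_e2 : ContinuousOn e2 {y | ∀ l, |y l| ≤ 1} := by
  unfold e2
  refine continuousOn_tsum (u := fun l : List A => 3 * (1/8 : ℝ)^l.length) (fun l => ?_)
    (summable_words.mul_left 3) (fun l y hy => bnd2 hy l)
  exact (((continuous_apply l).mul continuous_const).mul continuous_const).continuousOn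

theorem e1_smul (a : ℝ) (y : List A → ℝ) : e1 (a • y) = a * e1 y := by
  unfold e1
  rw [← tsum_mul_left]
  congr 1
  funext l
  simp only [Pi.smul_apply, smul_eq_mul]
  ring

theorem e2_smul (a : ℝ) (y : List A → ℝ) : e2 (a • y) = a * e2 y := by
  unfold e2
  rw [← tsum_mul_left]
  congr 1
  funext l
  simp only [Pi.smul_apply, smul_eq_mul]
  ring

theorem rep_Emb {c : List A → ℝ} (hc : c ∈ Pg) : ∃ P : ℕ → List A, (∀ n, (P n).length = n) ∧
    (∀ n l, l.length = n → l ≠ P n → c l = 0) ∧
    (∀ n, c (P (n+1)) ≠ 0 → c (P n) = 1 ∧ ∃ x, P (n+1) = x :: P n) ∧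
    HasSum (fun n => c (P n) * (1/8 : ℝ)^n) (e1 c) ∧
    HasSum (fun n => c (P n) * dg (P n) * (1/16 : ℝ)^n) (e2 c) := by
  have hlev : ∀ n : ℕ, ∃ p : List A, p.length = n ∧ ∀ l : List A, l.length = n → l ≠ p → c l = 0 := by
    intro n
    by_cases h : ∃ p : List A, p.length = n ∧ c p ≠ 0
    · obtain ⟨p, hp, hp'⟩ := h
      refine ⟨p, hp, fun l hl hne => ?_⟩
      by_contra h0
      exact hne (Pg_level_unique hc (hl.trans hp.symm) h0 hp')
    · push Not at h
      exact ⟨List.replicate n ((1 : Fin 2), true), List.length_replicate, fun l hl _ => h l hl⟩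
  choose P hP hP' using hlev
  have habs : ∀ l, |c l| ≤ 1 := fun l => by
    rw [abs_le]
    have := hc.2.1 l
    constructor <;> linarith
  have hs1 : Summable (fun l : List A => c l * (1/8 : ℝ)^l.length) :=
    Summable.of_norm_bounded summable_words (bnd1 habs)
  have hs2 : Summable (fun l : List A => c l * dg l * (1/16 : ℝ)^l.length) :=
    Summable.of_norm_bounded (summable_words.mul_left 3) (bnd2 habs)
  refine ⟨P, hP, hP', ?_, ?_, ?_⟩
  · intro n hn
    have hlen := hP (n+1)
    obtain ⟨x, t, hxt⟩ : ∃ x t, P (n+1) = x :: t := by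
      cases hh : P (n+1) with
      | nil => rw [hh] at hlen; simp at hlen
      | cons x t => exact ⟨x, t, rfl⟩
    rw [hxt] at hn hlen
    have ht : t.length = n := by simpa using hlen
    have h1 : c t = 1 := hc.2.2.2.1 x t hn
    have h2 : t = P n := by
      by_contra h3
      have := hP' n t ht h3
      rw [h1] at this
      norm_num at this
    subst h2
    exact ⟨h1, x, hxt⟩
  · have h := hasSum_levels hs1
    have e : (fun n : ℕ => ∑' l : {l : List A // l.length = n}, c l.1 * (1/8 : ℝ)^l.1.length) =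
        fun n => c (P n) * (1/8 : ℝ)^n := by
      funext n
      rw [tsum_eq_single (⟨P n, hP n⟩ : {l : List A // l.length = n})]
      · rw [hP n]
      · intro l hl
        have : l.1 ≠ P n := fun h => hl (Subtype.ext h)
        rw [hP' n l.1 l.2 this, zero_mul]
    rw [e] at h
    exact h
  · have h := hasSum_levels hs2
    have e : (fun n : ℕ => ∑' l : {l : List A // l.length = n},
        c l.1 * dg l.1 * (1/16 : ℝ)^l.1.length) =
        fun n => c (P n) * dg (P n) * (1/16 : ℝ)^n := by
      funext n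
      rw [tsum_eq_single (⟨P n, hP n⟩ : {l : List A // l.length = n})]
      · rw [hP n]
      · intro l hl
        have : l.1 ≠ P n := fun h => hl (Subtype.ext h)
        rw [hP' n l.1 l.2 this, zero_mul, zero_mul]
    rw [e] at h
    exact h

theorem e_bound {c : List A → ℝ} (hc : c ∈ Pg) : |e1 c| ≤ 2 ∧ |e2 c| ≤ 2 := by
  obtain ⟨P, hP, hP', hP1, h1, h2⟩ := rep_Emb hc
  have hg : HasSum (fun n : ℕ => (1/8 : ℝ)^n) (8/7) := by
    have := hasSum_geometric_of_lt_one (r := (1/8 : ℝ)) (by norm_num) (by norm_num)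
    convert this using 1
    norm_num
  have hk : ∀ l, 0 ≤ c l ∧ c l ≤ 1 := hc.2.1
  constructor
  · rw [abs_le]
    constructor
    · have : 0 ≤ e1 c := h1.nonneg (fun n => mul_nonneg (hk _).1 (by positivity))
      linarith
    · have : e1 c ≤ 8/7 := hasSum_le (fun n => mul_le_of_le_one_left (by positivity) (hk _).2) h1 hg
      linarith
  · have hd0 : dg (P 0) = 0 := by
      have : P 0 = [] := List.length_eq_zero_iff.1 (hP 0)
      rw [this]
      rfl
    rw [abs_le]
    constructor
    · have : 0 ≤ e2 c := h2.nonneg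
        (fun n => mul_nonneg (mul_nonneg (hk _).1 (dg_nonneg _)) (by positivity))
      linarith
    · have h3 : ∀ n, c (P n) * dg (P n) * (1/16 : ℝ)^n ≤ (3/2) * (1/8 : ℝ)^n := by
        intro n
        rcases Nat.eq_zero_or_pos n with h0 | h0
        · subst h0
          rw [hd0]
          norm_num
        · have h4 : (1/16 : ℝ)^n ≤ (1/2) * (1/8 : ℝ)^n := by
            have : (1/16 : ℝ)^n = (1/2)^n * (1/8)^n := by
              rw [← mul_pow]
              norm_num
            rw [this]
            gcongr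
            calc (1/2 : ℝ)^n ≤ (1/2)^1 := pow_le_pow_of_le_one (by norm_num) (by norm_num) h0
              _ = 1/2 := by norm_num
          have h5 : c (P n) * dg (P n) ≤ 3 := by
            have := hk (P n)
            have := dg_le (P n)
            have := dg_nonneg (P n)
            nlinarith
          have h6 : 0 ≤ c (P n) * dg (P n) := mul_nonneg (hk _).1 (dg_nonneg _)
          calc c (P n) * dg (P n) * (1/16 : ℝ)^n ≤ 3 * ((1/2) * (1/8 : ℝ)^n) := by gcongr
            _ = _ := by ring
      have := hasSum_le h3 h2 (hg.mul_left (3/2))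
      linarith

/-- abstract comparison of first digits -/
theorem seq_eq {k k' : ℕ → ℝ} {S : ℝ} (hk : ∀ n, 0 ≤ k n ∧ k n ≤ 1) (hk' : ∀ n, 0 ≤ k' n ∧ k' n ≤ 1)
    (hs : ∀ n, k (n+1) ≠ 0 → k n = 1) (N : ℕ)
    (h : HasSum (fun n => k (n + N) * (1/8 : ℝ)^(n + N)) S)
    (h' : HasSum (fun n => k' (n + N) * (1/8 : ℝ)^(n + N)) S) : k' N ≤ k N := by
  by_contra hlt
  push Not at hlt
  have h1 : k N < 1 := lt_of_lt_of_le hlt (hk' N).2
  have h2 : ∀ m, k (N + 1 + m) = 0 := by
    intro m
    induction m with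
    | zero =>
      by_contra h0
      have := hs N h0
      linarith
    | succ m ih =>
      by_contra h0
      have := hs (N + 1 + m) h0
      rw [ih] at this
      norm_num at this
  have h3 : S = k N * (1/8 : ℝ)^N := by
    have : HasSum (fun n => k (n + N) * (1/8 : ℝ)^(n + N)) (k (0 + N) * (1/8 : ℝ)^(0 + N)) := by
      apply hasSum_single
      intro n hn
      obtain ⟨m, rfl⟩ := Nat.exists_eq_succ_of_ne_zero hn
      have e : m.succ + N = N + 1 + m := by omega
      rw [e, h2 m, zero_mul]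
    have := h.unique this
    simpa using this
  have h4 : k' N * (1/8 : ℝ)^N ≤ S := by
    have := le_hasSum h' 0 (fun n _ => mul_nonneg (hk' _).1 (by positivity))
    simpa using this
  rw [h3] at h4
  have h5 := le_of_mul_le_mul_right h4 (by positivity)
  linarith

/-- abstract comparison of second digits -/
theorem seq_eq2 {k k' d d' : ℕ → ℝ} {S : ℝ} (hk : ∀ n, 0 ≤ k n ∧ k n ≤ 1)
    (hk' : ∀ n, 0 ≤ k' n ∧ k' n ≤ 1)
    (hs : ∀ n, k (n+1) ≠ 0 → k n = 1) (hs' : ∀ n, k' (n+1) ≠ 0 → k' n = 1)
    (hd : ∀ n, 0 ≤ d n ∧ d n ≤ 3) (hd' : ∀ n, 0 ≤ d' n ∧ d' n ≤ 3) (N : ℕ)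
    (h : HasSum (fun n => k (n + N) * d (n + N) * (1/16 : ℝ)^(n + N)) S)
    (h' : HasSum (fun n => k' (n + N) * d' (n + N) * (1/16 : ℝ)^(n + N)) S)
    (hkk : k N = k' N) (hpos : 0 < k N) : d N ≤ d' N + 1/5 := by
  have hup : k N * d N * (1/16 : ℝ)^N ≤ S := by
    have := le_hasSum h 0 (fun n _ => mul_nonneg (mul_nonneg (hk _).1 (hd _).1) (by positivity))
    simpa using this
  rcases lt_or_eq_of_le (hk' N).2 with h1 | h1
  · have h2 : ∀ m, k' (N + 1 + m) = 0 := by
      intro m
      induction m with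
      | zero =>
        by_contra h0
        have := hs' N h0
        linarith
      | succ m ih =>
        by_contra h0
        have := hs' (N + 1 + m) h0
        rw [ih] at this
        norm_num at this
    have h3 : S = k' N * d' N * (1/16 : ℝ)^N := by
      have : HasSum (fun n => k' (n + N) * d' (n + N) * (1/16 : ℝ)^(n + N))
          (k' (0 + N) * d' (0 + N) * (1/16 : ℝ)^(0 + N)) := by
        apply hasSum_single
        intro n hn
        obtain ⟨m, rfl⟩ := Nat.exists_eq_succ_of_ne_zero hn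
        have e : m.succ + N = N + 1 + m := by omega
        rw [e, h2 m, zero_mul, zero_mul]
      have := h'.unique this
      simpa using this
    rw [h3] at hup
    have h5 := le_of_mul_le_mul_right hup (by positivity)
    rw [← hkk] at h5
    have h6 := le_of_mul_le_mul_left h5 hpos
    linarith
  · have hk1 : k N = 1 := hkk.trans h1
    have hgeo : HasSum (fun n : ℕ => (1/16 : ℝ)^(n+1)) (1/15) := by
      have h0 : HasSum (fun n : ℕ => (1/16 : ℝ) * (1/16 : ℝ)^n) ((1/16 : ℝ) * (1 - 1/16)⁻¹) :=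
        (hasSum_geometric_of_lt_one (r := (1/16 : ℝ)) (by norm_num) (by norm_num)).mul_left
        (1/16)
      have e1 : (fun n : ℕ => (1/16 : ℝ) * (1/16 : ℝ)^n) = fun n : ℕ => (1/16 : ℝ)^(n+1) := by
        funext n
        rw [pow_succ]
        ring
      have e2 : (1/16 : ℝ) * (1 - 1/16)⁻¹ = 1/15 := by norm_num
      rw [e1, e2] at h0
      exact h0
    have htail : HasSum (fun n => k' (n + 1 + N) * d' (n + 1 + N) * (1/16 : ℝ)^(n + 1 + N))
        (S - k' N * d' N * (1/16 : ℝ)^N) := by
      have := (hasSum_nat_add_iff' (f := fun n => k' (n + N) * d' (n + N) * (1/16 : ℝ)^(n + N))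
        1).2 h'
      simpa using this
    have h3 : S - k' N * d' N * (1/16 : ℝ)^N ≤ (3 * (1/16 : ℝ)^N) * (1/15) := by
      refine hasSum_le (fun n => ?_) htail (hgeo.mul_left (3 * (1/16 : ℝ)^N))
      have e : (3 * (1/16 : ℝ)^N) * (1/16 : ℝ)^(n+1) = 3 * (1/16 : ℝ)^(n + 1 + N) := by
        rw [mul_assoc, ← pow_add, add_comm N (n+1)]
      rw [e]
      have h5 : k' (n + 1 + N) * d' (n + 1 + N) ≤ 3 := by
        have := hk' (n + 1 + N)
        have := hd' (n + 1 + N)
        nlinarith
      gcongr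
    rw [h1, one_mul] at h3
    rw [hk1, one_mul] at hup
    have h6 : d N * (1/16 : ℝ)^N ≤ (d' N + 1/5) * (1/16 : ℝ)^N := by linarith
    exact le_of_mul_le_mul_right h6 (by positivity)

theorem agree {c c' : List A → ℝ} {P P' : ℕ → List A} {n : ℕ} (hP : (P n).length = n)
    (hP' : (P' n).length = n)
    (h1 : ∀ l, l.length = n → l ≠ P n → c l = 0)
    (h1' : ∀ l, l.length = n → l ≠ P' n → c' l = 0)
    (h : ∀ l : List A, l.length = n → c l = c' l) :
    c (P n) = c' (P' n) ∧ (c (P n) ≠ 0 → P n = P' n) := by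
  by_cases he : P n = P' n
  · refine ⟨?_, fun _ => he⟩
    rw [h _ hP, he]
  · have h2 : c' (P n) = 0 := h1' _ hP he
    have h3 : c (P' n) = 0 := h1 _ hP' (fun hh => he hh.symm)
    have h4 : c (P n) = 0 := by rw [h _ hP, h2]
    have h5 : c' (P' n) = 0 := by rw [← h _ hP', h3]
    exact ⟨by rw [h4, h5], fun hh => absurd h4 hh⟩

theorem agree2 {c c' : List A → ℝ} {P P' : ℕ → List A} {n : ℕ} (hP : (P n).length = n)
    (hP' : (P' n).length = n)
    (h1 : ∀ l, l.length = n → l ≠ P n → c l = 0)
    (h1' : ∀ l, l.length = n → l ≠ P' n → c' l = 0)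
    (h : ∀ l : List A, l.length = n → c l = c' l) :
    c (P n) * dg (P n) = c' (P' n) * dg (P' n) := by
  obtain ⟨h2, h3⟩ := agree hP hP' h1 h1' h
  by_cases h0 : c (P n) = 0
  · rw [h0, ← h2, h0, zero_mul, zero_mul]
  · rw [h2, h3 h0]

theorem e_inj {c c' : List A → ℝ} (hc : c ∈ Pg) (hc' : c' ∈ Pg) (h1 : e1 c = e1 c')
    (h2 : e2 c = e2 c') : c = c' := by
  obtain ⟨P, hP, hPz, hP1, hs1, hs2⟩ := rep_Emb hc
  obtain ⟨P', hP', hPz', hP1', hs1', hs2'⟩ := rep_Emb hc'
  have hk : ∀ l, 0 ≤ c l ∧ c l ≤ 1 := hc.2.1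
  have hk' : ∀ l, 0 ≤ c' l ∧ c' l ≤ 1 := hc'.2.1
  have key : ∀ n : ℕ, ∀ l : List A, l.length ≤ n → c l = c' l := by
    intro n
    induction n with
    | zero =>
      intro l hl
      have : l = [] := List.length_eq_zero_iff.1 (Nat.le_zero.1 hl)
      rw [this, hc.1, hc'.1]
    | succ n ih =>
      intro l hl
      rcases Nat.lt_or_ge l.length (n+1) with h | h
      · exact ih l (by omega)
      have hln : l.length = n + 1 := le_antisymm hl h
      -- tails
      have ht1 := (hasSum_nat_add_iff' (n+1)).2 hs1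
      have ht1' := (hasSum_nat_add_iff' (n+1)).2 hs1'
      have ht2 := (hasSum_nat_add_iff' (n+1)).2 hs2
      have ht2' := (hasSum_nat_add_iff' (n+1)).2 hs2'
      have es1 : ∑ i ∈ Finset.range (n+1), c (P i) * (1/8 : ℝ)^i =
          ∑ i ∈ Finset.range (n+1), c' (P' i) * (1/8 : ℝ)^i := by
        apply Finset.sum_congr rfl
        intro i hi
        rw [Finset.mem_range] at hi
        rw [(agree (hP i) (hP' i) (hPz i) (hPz' i) (fun l hl => ih l (by omega))).1]
      have es2 : ∑ i ∈ Finset.range (n+1), c (P i) * dg (P i) * (1/16 : ℝ)^i =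
          ∑ i ∈ Finset.range (n+1), c' (P' i) * dg (P' i) * (1/16 : ℝ)^i := by
        apply Finset.sum_congr rfl
        intro i hi
        rw [Finset.mem_range] at hi
        rw [agree2 (hP i) (hP' i) (hPz i) (hPz' i) (fun l hl => ih l (by omega))]
      rw [es1, h1] at ht1
      rw [es2, h2] at ht2
      have ka : c' (P' (n+1)) ≤ c (P (n+1)) :=
        seq_eq (k := fun n => c (P n)) (k' := fun n => c' (P' n)) (fun n => hk _) (fun n => hk' _)
          (fun n hn => (hP1 n hn).1) (n+1) ht1 ht1'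
      have kb : c (P (n+1)) ≤ c' (P' (n+1)) :=
        seq_eq (k := fun n => c' (P' n)) (k' := fun n => c (P n)) (fun n => hk' _) (fun n => hk _)
          (fun n hn => (hP1' n hn).1) (n+1) ht1' ht1
      have kk : c (P (n+1)) = c' (P' (n+1)) := le_antisymm kb ka
      by_cases hz : c (P (n+1)) = 0
      · have hz' : c' (P' (n+1)) = 0 := by rw [← kk, hz]
        have e1 : c l = 0 := by
          by_cases hh : l = P (n+1)
          · rw [hh, hz]
          · exact hPz _ l hln hh
        have e2 : c' l = 0 := by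
          by_cases hh : l = P' (n+1)
          · rw [hh, hz']
          · exact hPz' _ l hln hh
        rw [e1, e2]
      · have hpos : 0 < c (P (n+1)) := lt_of_le_of_ne (hk _).1 (Ne.symm hz)
        have hz' : c' (P' (n+1)) ≠ 0 := by rw [← kk]; exact hz
        obtain ⟨hone, x, hx⟩ := hP1 n hz
        obtain ⟨hone', x', hx'⟩ := hP1' n hz'
        have hPP : P n = P' n :=
          (agree (hP n) (hP' n) (hPz n) (hPz' n) (fun l hl => ih l (by omega))).2
            (by rw [hone]; norm_num)
        have da : dg (P (n+1)) ≤ dg (P' (n+1)) + 1/5 :=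
          seq_eq2 (k := fun n => c (P n)) (k' := fun n => c' (P' n)) (d := fun n => dg (P n))
            (d' := fun n => dg (P' n)) (fun n => hk _) (fun n => hk' _)
            (fun n hn => (hP1 n hn).1) (fun n hn => (hP1' n hn).1)
            (fun n => ⟨dg_nonneg _, dg_le _⟩) (fun n => ⟨dg_nonneg _, dg_le _⟩) (n+1) ht2 ht2'
            kk hpos
        have db : dg (P' (n+1)) ≤ dg (P (n+1)) + 1/5 :=
          seq_eq2 (k := fun n => c' (P' n)) (k' := fun n => c (P n)) (d := fun n => dg (P' n))
            (d' := fun n => dg (P n)) (fun n => hk' _) (fun n => hk _)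
            (fun n hn => (hP1' n hn).1) (fun n hn => (hP1 n hn).1)
            (fun n => ⟨dg_nonneg _, dg_le _⟩) (fun n => ⟨dg_nonneg _, dg_le _⟩) (n+1) ht2' ht2
            kk.symm (by show 0 < c' (P' (n+1)); rw [← kk]; exact hpos)
        have e1 : dg (P (n+1)) = (dgN x : ℝ) := by rw [hx]; exact dgA_eq x
        have e2 : dg (P' (n+1)) = (dgN x' : ℝ) := by rw [hx']; exact dgA_eq x'
        rw [e1, e2] at da db
        have hxx : x = x' := by
          apply dgN_inj
          have u1 : dgN x ≤ dgN x' := by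
            by_contra hh
            push Not at hh
            have : (dgN x' : ℝ) + 1 ≤ dgN x := by exact_mod_cast hh
            linarith
          have u2 : dgN x' ≤ dgN x := by
            by_contra hh
            push Not at hh
            have : (dgN x : ℝ) + 1 ≤ dgN x' := by exact_mod_cast hh
            linarith
          exact le_antisymm u1 u2
        have hfin : P (n+1) = P' (n+1) := by rw [hx, hx', hxx, hPP]
        by_cases hh : l = P (n+1)
        · rw [hh, kk, hfin]
        · rw [hPz _ l hln hh, hPz' _ l hln (by rw [← hfin]; exact hh)]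
  funext l
  exact key l.length l le_rfl

/-- two points of the page which agree up to level `n` are close -/
theorem e_close {c c' : List A → ℝ} (hc : c ∈ Pg) (hc' : c' ∈ Pg) (n : ℕ)
    (h : ∀ l : List A, l.length ≤ n → c l = c' l) :
    |e1 c - e1 c'| ≤ 8 / ((n:ℝ) + 1) ∧ |e2 c - e2 c'| ≤ 8 / ((n:ℝ) + 1) := by
  obtain ⟨P, hP, hPz, hP1, hs1, hs2⟩ := rep_Emb hc
  obtain ⟨P', hP', hPz', hP1', hs1', hs2'⟩ := rep_Emb hc'
  have hk : ∀ l, 0 ≤ c l ∧ c l ≤ 1 := hc.2.1
  have hk' : ∀ l, 0 ≤ c' l ∧ c' l ≤ 1 := hc'.2.1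
  have hg : HasSum (fun m : ℕ => ((1/2 : ℝ)^(n+1)) * (1/4 : ℝ)^m) ((1/2 : ℝ)^(n+1) * (4/3)) := by
    have h0 := (hasSum_geometric_of_lt_one (r := (1/4 : ℝ)) (by norm_num) (by norm_num)).mul_left
      ((1/2 : ℝ)^(n+1))
    have e2 : (1 - 1/4 : ℝ)⁻¹ = 4/3 := by norm_num
    rw [e2] at h0
    exact h0
  have hn1 : (1/2 : ℝ)^(n+1) ≤ 1 / ((n:ℝ) + 1) := by
    rw [one_div_pow]
    apply one_div_le_one_div_of_le (by positivity)
    have : n + 1 < 2^(n+1) := Nat.lt_two_pow_self
    exact_mod_cast this.le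
  have hpw : ∀ m, n < m → (1/8 : ℝ)^m ≤ (1/2 : ℝ)^(n+1) * (1/4 : ℝ)^m := by
    intro m hm
    have : (1/8 : ℝ)^m = (1/2)^m * (1/4)^m := by
      rw [← mul_pow]
      norm_num
    rw [this]
    have h2 : (1/2 : ℝ)^m ≤ (1/2 : ℝ)^(n+1) := pow_le_pow_of_le_one (by norm_num) (by norm_num) hm
    exact mul_le_mul_of_nonneg_right h2 (by positivity)
  constructor
  · have hd := hs1.sub hs1'
    have hb : ∀ m, ‖c (P m) * (1/8 : ℝ)^m - c' (P' m) * (1/8 : ℝ)^m‖ ≤
        (1/2 : ℝ)^(n+1) * (1/4 : ℝ)^m := by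
      intro m
      rcases Nat.lt_or_ge n m with hm | hm
      · refine le_trans ?_ (hpw m hm)
        rw [← sub_mul, Real.norm_eq_abs, abs_mul,
          abs_of_nonneg (by positivity : (0:ℝ) ≤ (1/8)^m)]
        apply mul_le_of_le_one_left (by positivity)
        rw [abs_le]
        have := hk (P m)
        have := hk' (P' m)
        constructor <;> linarith
      · rw [(agree (hP m) (hP' m) (hPz m) (hPz' m) (fun l hl => h l (by omega))).1, sub_self,
          norm_zero]
        positivity
    have := hd.norm_le_of_bounded hg hb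
    rw [← Real.norm_eq_abs]
    refine this.trans ?_
    calc (1/2 : ℝ)^(n+1) * (4/3) ≤ (1 / ((n:ℝ) + 1)) * (4/3) := by gcongr
      _ = (4/3) / ((n:ℝ) + 1) := by ring
      _ ≤ 8 / ((n:ℝ) + 1) := by gcongr; norm_num
  · have hd := hs2.sub hs2'
    have hb : ∀ m, ‖c (P m) * dg (P m) * (1/16 : ℝ)^m - c' (P' m) * dg (P' m) * (1/16 : ℝ)^m‖ ≤
        3 * ((1/2 : ℝ)^(n+1) * (1/4 : ℝ)^m) := by
      intro m
      rcases Nat.lt_or_ge n m with hm | hm
      · have h16 : (1/16 : ℝ)^m ≤ (1/2 : ℝ)^(n+1) * (1/4 : ℝ)^m := by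
          refine le_trans ?_ (hpw m hm)
          gcongr
          norm_num
        rw [← sub_mul, Real.norm_eq_abs, abs_mul,
          abs_of_nonneg (by positivity : (0:ℝ) ≤ (1/16)^m)]
        refine mul_le_mul ?_ h16 (by positivity) (by norm_num)
        have u1 := hk (P m)
        have u2 := hk' (P' m)
        have u3 := dg_le (P m)
        have u4 := dg_nonneg (P m)
        have u5 := dg_le (P' m)
        have u6 := dg_nonneg (P' m)
        rw [abs_le]
        constructor <;> nlinarith
      · rw [agree2 (hP m) (hP' m) (hPz m) (hPz' m) (fun l hl => h l (by omega)), sub_self,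
          norm_zero]
        positivity
    have := hd.norm_le_of_bounded (hg.mul_left 3) hb
    rw [← Real.norm_eq_abs]
    refine this.trans ?_
    calc 3 * ((1/2 : ℝ)^(n+1) * (4/3)) ≤ 3 * ((1 / ((n:ℝ) + 1)) * (4/3)) := by gcongr
      _ = 4 / ((n:ℝ) + 1) := by ring
      _ ≤ 8 / ((n:ℝ) + 1) := by gcongr; norm_num

end Pool.Agent.Helper376.CL
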