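import Mathlib
import Pool.Agent.Helper376.CL.PgDefs

set_option maxHeartbeats 4000000
set_option synthInstance.maxHeartbeats 400000

namespace Pool.Agent.Helper376.CL

open Set Topology

/-- the free group on two generators -/
abbrev F2 := FreeGroup (Fin 2)

/-- the group element of a letter -/
def lt (x : A) : F2 := FreeGroup.mk [x]

/-- the point at distance `t` from the vertex `v` on the edge towards `lt x * v`, as a mass distribution
on the vertices -/
noncomputable def ptf (v : F2) (x : A) (t : ℝ) : F2 → ℝ :=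
  fun u => (if u = v then 1 - t else 0) + (if u = lt x * v then t else 0)

/-- points of the tree -/
def IsPt (b : F2 → ℝ) : Prop := ∃ (v : F2) (x : A) (t : ℝ), 0 ≤ t ∧ t ≤ 1 ∧ b = ptf v x t

/-- the tree: realisation of the Cayley graph of the free group -/
abbrev Tree : Type := {b : F2 → ℝ // IsPt b}

theorem ptf_mul (v : F2) (x : A) (t : ℝ) (g u : F2) : ptf v x t (u * g) = ptf (v * g⁻¹) x t u := by
  have h1 : (u * g = v) ↔ (u = v * g⁻¹) := eq_mul_inv_iff_mul_eq.symm
  have h2 : (u * g = lt x * v) ↔ (u = lt x * (v * g⁻¹)) := by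
    rw [← mul_assoc]; exact eq_mul_inv_iff_mul_eq.symm
  simp only [ptf, h1, h2]

/-- the free group acts on its tree -/
noncomputable instance instActTree : MulAction F2 Tree where
  smul g b := ⟨fun u => b.1 (u * g), by
    obtain ⟨v, x, t, h0, h1, h⟩ := b.2
    exact ⟨v * g⁻¹, x, t, h0, h1, by funext u; rw [h]; exact ptf_mul v x t g u⟩⟩
  one_smul b := by
    apply Subtype.ext; funext u
    show b.1 (u * 1) = b.1 u
    rw [mul_one]
  mul_smul g h b := by
    apply Subtype.ext; funext u
    show b.1 (u * (g * h)) = b.1 ((u * g) * h)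
    rw [mul_assoc]

theorem smul_apply (g : F2) (b : Tree) (u : F2) : (g • b).1 u = b.1 (u * g) := rfl

/-- the group `F₂ × ℤ` acts on `Tree × ℝ` -/
noncomputable instance instActTR : MulAction (F2 × Multiplicative ℤ) (Tree × ℝ) where
  smul g p := (g.1 • p.1, p.2 + ((Multiplicative.toAdd g.2 : ℤ) : ℝ))
  one_smul p := by
    show ((1 : F2) • p.1, p.2 + ((Multiplicative.toAdd (1 : Multiplicative ℤ) : ℤ) : ℝ)) = p
    rw [one_smul, toAdd_one, Int.cast_zero, add_zero]
  mul_smul g h p := by
    show ((g.1 * h.1) • p.1, p.2 + ((Multiplicative.toAdd (g.2 * h.2) : ℤ) : ℝ)) =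
      (g.1 • (h.1 • p.1), p.2 + ((Multiplicative.toAdd h.2 : ℤ) : ℝ) + ((Multiplicative.toAdd g.2 : ℤ) : ℝ))
    rw [mul_smul, toAdd_mul, Int.cast_add]
    congr 1; ring

theorem smul_def (g : F2 × Multiplicative ℤ) (p : Tree × ℝ) :
    g • p = (g.1 • p.1, p.2 + ((Multiplicative.toAdd g.2 : ℤ) : ℝ)) := rfl

/-- affine extension of a function on the vertices -/
noncomputable def lin (φ : F2 → ℝ) (b : Tree) : ℝ := ∑' u, b.1 u * φ u

/-- closed star of a vertex -/
def star (v : F2) : Set Tree := {b | ∃ (x : A) (t : ℝ), 0 ≤ t ∧ t ≤ 1 ∧ b.1 = ptf v x t}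

/-- cells of `Tree × ℝ` -/
def cell (q : F2 × ℤ) : Set (Tree × ℝ) := {p | p.1 ∈ star q.1 ∧ (q.2 : ℝ) ≤ p.2 ∧ p.2 ≤ q.2 + 1}

/-- sign of a letter -/
def sg (x : A) : ℤ := if x.2 then 1 else -1

/-- split off the trailing power of the first generator: page word and page number -/
def pk : List A → List A × ℤ
  | [] => ([], 0)
  | (x :: l) => if x.1 = 0 ∧ (pk l).1 = [] then ([], (pk l).2 + sg x) else (x :: (pk l).1, (pk l).2)

/-- page word of a vertex -/
def pw (v : F2) : List A := (pk v.toWord).1

/-- page number of a vertex -/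
def kap (v : F2) : ℤ := (pk v.toWord).2

/-- inverse letter -/
def invA (x : A) : A := (x.1, !x.2)

/-- admissible page words -/
def Good : List A → Prop
  | [] => True
  | (x :: l) => ok x l ∧ Good l

/-- position on the line -/
noncomputable def xT (b : Tree) : ℝ := lin (fun v => (kap v : ℝ)) b

/-- distance from the line -/
noncomputable def sT (b : Tree) : ℝ := lin (fun v => ((pw v).length : ℝ)) b

open Classical in
/-- page coordinates -/
noncomputable def cT (b : Tree) : List A → ℝ := fun l => lin (fun v => if l <:+ pw v then 1 else 0) b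

/-- logarithmic position in the plane -/
noncomputable def zet (p : Tree × ℝ) : ℂ :=
  ⟨Real.arsinh (xT p.1 + 1/2), Real.arsinh (p.2 / (1 + sT p.1))⟩

end Pool.Agent.Helper376.CL
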