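import Mathlib
import Pool.Agent.Helper376.CL.TreeDefs
import Pool.Agent.Helper376.CL.XSDefs

set_option maxHeartbeats 4000000
set_option synthInstance.maxHeartbeats 400000

namespace Pool.Agent.Helper376.CL

open Set Topology

/-- the embedding into the finite-dimensional space, on `Tree × ℝ` -/
noncomputable def Dw (w : ℝ) (p : Tree × ℝ) : ℂ × ℝ × ℝ :=
  (Fw w (zet p), (1 - ‖Fw w (zet p)‖) * e1 (cT p.1), (1 - ‖Fw w (zet p)‖) * e2 (cT p.1))

end Pool.Agent.Helper376.CL
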