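import Mathlib
import Pool.Agent.Helper376.CL.TreeDefs

set_option maxHeartbeats 4000000
set_option synthInstance.maxHeartbeats 400000

namespace Pool.Agent.Helper376.CL

open Set Topology

/-- the exponent sum -/
noncomputable def expS : F2 →* Multiplicative ℤ := FreeGroup.lift fun _ => Multiplicative.ofAdd (1 : ℤ)

theorem expS_lt (x : A) : expS (lt x) = Multiplicative.ofAdd (if x.2 then (1 : ℤ) else -1) := by
  obtain ⟨i, b⟩ := x
  cases b
  · simp [expS, lt]
  · simp [expS, lt]

theorem lt_ne_one (x : A) : lt x ≠ 1 := by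
  intro h
  have h1 := congrArg expS h
  rw [expS_lt, map_one] at h1
  have h2 := congrArg Multiplicative.toAdd h1
  rw [toAdd_ofAdd, toAdd_one] at h2
  split_ifs at h2 <;> omega

theorem lt_mul_lt_ne_one (x : A) : lt x * lt x ≠ 1 := by
  intro h
  have h1 := congrArg expS h
  rw [map_mul, expS_lt, map_one] at h1
  have h2 := congrArg Multiplicative.toAdd h1
  rw [toAdd_mul, toAdd_ofAdd, toAdd_one] at h2
  split_ifs at h2 <;> omega

theorem lt_inv (x : A) : (lt x)⁻¹ = lt (x.1, !x.2) := by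
  simp [lt, FreeGroup.invRev]

theorem lt_mul_ne (x : A) (v : F2) : lt x * v ≠ v := by
  intro h
  exact lt_ne_one x (mul_eq_right.mp h)

theorem lin_ptf (φ : F2 → ℝ) (b : Tree) (v : F2) (x : A) (t : ℝ) (h : b.1 = ptf v x t) :
    lin φ b = (1 - t) * φ v + t * φ (lt x * v) := by
  have hne := lt_mul_ne x v
  unfold lin
  rw [h, tsum_eq_sum (s := {v, lt x * v}), Finset.sum_pair hne.symm]
  · simp [ptf, hne, hne.symm, lt_ne_one]
  · intro u hu
    rw [Finset.mem_insert, Finset.mem_singleton, not_or] at hu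
    simp [ptf, hu.1, hu.2]

/-- neighbours -/
noncomputable def nb (w : F2) : Finset F2 := insert w (Finset.univ.image fun y : A => lt y * w)

theorem supp_nb (b : Tree) (w u : F2) (hw : b.1 w ≠ 0) (hu : u ∉ nb w) : b.1 u = 0 := by
  obtain ⟨v, x, t, h0, h1, h⟩ := b.2
  rw [h] at hw ⊢
  unfold nb at hu
  rw [Finset.mem_insert, not_or] at hu
  obtain ⟨hu1, hu2⟩ := hu
  have hu3 : ∀ y : A, u ≠ lt y * w := fun y hy =>
    hu2 (Finset.mem_image.mpr ⟨y, Finset.mem_univ _, hy.symm⟩)
  by_cases hwv : w = v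
  · subst hwv
    simp [ptf, hu1, hu3 x]
  · by_cases hwx : w = lt x * v
    · have hv : v = lt (x.1, !x.2) * w := by
        rw [← lt_inv, hwx, inv_mul_cancel_left]
      have huv : u ≠ v := by rw [hv]; exact hu3 _
      have huw : u ≠ lt x * v := by rw [← hwx]; exact hu1
      simp [ptf, huv, huw]
    · exact absurd (by simp [ptf, hwv, hwx]) hw

theorem continuous_coord (u : F2) : Continuous fun b : Tree => b.1 u :=
  (continuous_apply u).comp continuous_subtype_val

theorem continuous_lin (φ : F2 → ℝ) : Continuous (lin φ) := by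
  rw [continuous_iff_continuousAt]
  intro b0
  obtain ⟨w, hw⟩ : ∃ w, 0 < b0.1 w := by
    obtain ⟨v, x, t, h0, h1, h⟩ := b0.2
    by_cases ht : t < 1
    · refine ⟨v, ?_⟩
      rw [h]
      have := lt_mul_ne x v
      simp [ptf, this.symm]
      linarith
    · refine ⟨lt x * v, ?_⟩
      rw [h]
      have := lt_mul_ne x v
      simp [ptf, lt_ne_one]
      linarith
  have hO : IsOpen {b : Tree | 0 < b.1 w} := isOpen_lt continuous_const (continuous_coord w)
  have hEq : (fun b : Tree => ∑ u ∈ nb w, b.1 u * φ u) =ᶠ[𝓝 b0] lin φ := by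
    filter_upwards [hO.mem_nhds hw] with b hb
    unfold lin
    rw [tsum_eq_sum (s := nb w)]
    intro u hu
    rw [supp_nb b w u (ne_of_gt hb) hu, zero_mul]
  refine ContinuousAt.congr ?_ hEq
  exact (continuous_finsetSum _ fun u _ => (continuous_coord u).mul continuous_const).continuousAt

theorem continuous_smul_TR (g : F2 × Multiplicative ℤ) : Continuous (fun p : Tree × ℝ => g • p) := by
  refine Continuous.prodMk ?_ (continuous_snd.add continuous_const)
  refine continuous_induced_rng.2 (continuous_pi fun u => ?_)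
  exact (continuous_coord (u * g.1)).comp continuous_fst

theorem mass (b : Tree) (u1 u2 : F2) (h12 : u1 ≠ u2) : b.1 u1 + b.1 u2 ≤ 1 := by
  obtain ⟨v, x, t, h0, h1, h⟩ := b.2
  have hne := lt_mul_ne x v
  rw [h]
  simp only [ptf]
  by_cases ha : u1 = v
  · by_cases hb : u2 = lt x * v
    · subst ha
      rw [if_pos rfl, if_neg hne.symm, if_neg h12.symm, if_pos hb]
      linarith
    · subst ha
      rw [if_pos rfl, if_neg hne.symm, if_neg h12.symm, if_neg hb]
      linarith
  · rw [if_neg ha]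
    by_cases hb : u2 = v
    · subst hb
      rw [if_pos rfl, if_neg hne.symm]
      split_ifs <;> linarith
    · rw [if_neg hb]
      by_cases hc : u1 = lt x * v
      · rw [if_pos hc]
        have : u2 ≠ lt x * v := fun h => h12 (hc.trans h.symm)
        rw [if_neg this]
        linarith
      · rw [if_neg hc]
        split_ifs <;> linarith

theorem supp_two (b : Tree) (u1 u2 u3 : F2) (h12 : u1 ≠ u2) (k1 : b.1 u1 ≠ 0) (k2 : b.1 u2 ≠ 0)
    (k3 : b.1 u3 ≠ 0) : u3 = u1 ∨ u3 = u2 := by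
  obtain ⟨v, x, t, h0, h1, h⟩ := b.2
  rw [h] at k1 k2 k3
  have key : ∀ u, ptf v x t u ≠ 0 → u = v ∨ u = lt x * v := by
    intro u hu
    by_contra hc
    rw [not_or] at hc
    exact hu (by simp [ptf, hc.1, hc.2])
  rcases key u1 k1 with e1 | e1 <;> rcases key u2 k2 with e2 | e2 <;>
    rcases key u3 k3 with e3 | e3
  · exact Or.inl (e3.trans e1.symm)
  · exact absurd (e1.trans e2.symm) h12
  · exact Or.inl (e3.trans e1.symm)
  · exact Or.inr (e3.trans e2.symm)
  · exact Or.inr (e3.trans e2.symm)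
  · exact Or.inl (e3.trans e1.symm)
  · exact absurd (e1.trans e2.symm) h12
  · exact Or.inl (e3.trans e1.symm)

theorem covering_TR (y : Tree × ℝ) : ∃ U : Set (Tree × ℝ), IsOpen U ∧ y ∈ U ∧
    ∀ g : F2 × Multiplicative ℤ, g ≠ 1 → Disjoint ((fun y => g • y) '' U) U := by
  -- it suffices to find a neighbourhood in the tree
  suffices hs : ∃ V : Set Tree, IsOpen V ∧ y.1 ∈ V ∧ ∀ (g : F2) (b : Tree), b ∈ V → g • b ∈ V →
      g = 1 by
    obtain ⟨V, hVo, hyV, hV⟩ := hs
    refine ⟨V ×ˢ Ioo (y.2 - 1 / 2) (y.2 + 1 / 2), hVo.prod isOpen_Ioo, ⟨hyV, by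
      constructor <;> linarith⟩, ?_⟩
    intro g hg
    rw [Set.disjoint_left]
    rintro _ ⟨p, ⟨hp1, hp2⟩, rfl⟩ ⟨hq1, hq2⟩
    apply hg
    have hq2' : p.2 + ((Multiplicative.toAdd g.2 : ℤ) : ℝ) ∈ Ioo (y.2 - 1 / 2) (y.2 + 1 / 2) := hq2
    have hn : (Multiplicative.toAdd g.2 : ℤ) = 0 := by
      have h1 : ((Multiplicative.toAdd g.2 : ℤ) : ℝ) < 1 := by linarith [hq2'.2, hp2.1]
      have h2 : (-1 : ℝ) < ((Multiplicative.toAdd g.2 : ℤ) : ℝ) := by linarith [hq2'.1, hp2.2]
      have h3 : (Multiplicative.toAdd g.2 : ℤ) < 1 := by exact_mod_cast h1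
      have h4 : (-1 : ℤ) < (Multiplicative.toAdd g.2 : ℤ) := by exact_mod_cast h2
      omega
    have hg1 : g.1 = 1 := hV g.1 p.1 hp1 hq1
    have hg2 : g.2 = 1 := toAdd_eq_zero.mp hn
    exact Prod.ext hg1 hg2
  obtain ⟨b0, s⟩ := y
  show ∃ V : Set Tree, IsOpen V ∧ b0 ∈ V ∧ _
  by_cases hc : ∃ v, 1 / 2 < b0.1 v
  · obtain ⟨v, hv⟩ := hc
    refine ⟨{b | 1 / 2 < b.1 v}, isOpen_lt continuous_const (continuous_coord v), hv, ?_⟩
    intro g b hb hgb
    have hb' : 1 / 2 < b.1 v := hb
    have hgb' : 1 / 2 < b.1 (v * g) := hgb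
    by_contra hg
    have hne : v ≠ v * g := fun h => hg (mul_eq_left.mp h.symm)
    have := mass b _ _ hne
    linarith
  · push Not at hc
    obtain ⟨v, x, t, h0, h1, h⟩ := b0.2
    have hne := lt_mul_ne x v
    have e1 : b0.1 v = 1 - t := by
      rw [h]
      simp [ptf, hne.symm]
    have e2 : b0.1 (lt x * v) = t := by
      rw [h]
      simp [ptf, lt_ne_one]
    have k1 := hc v
    have k2 := hc (lt x * v)
    rw [e1] at k1
    rw [e2] at k2
    refine ⟨{b | 1 / 4 < b.1 v} ∩ {b | 1 / 4 < b.1 (lt x * v)},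
      (isOpen_lt continuous_const (continuous_coord v)).inter
        (isOpen_lt continuous_const (continuous_coord _)), ⟨?_, ?_⟩, ?_⟩
    · show 1 / 4 < b0.1 v
      rw [e1]; linarith
    · show 1 / 4 < b0.1 (lt x * v)
      rw [e2]; linarith
    · rintro g b ⟨hb1, hb2⟩ ⟨hg1, hg2⟩
      have hb1' : 1 / 4 < b.1 v := hb1
      have hb2' : 1 / 4 < b.1 (lt x * v) := hb2
      have hg1' : 1 / 4 < b.1 (v * g) := hg1
      have hg2' : 1 / 4 < b.1 (lt x * v * g) := hg2
      by_contra hg
      have hne1 : v * g ≠ v := fun h => hg (mul_eq_left.mp h)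
      have hne2 : lt x * v * g ≠ lt x * v := fun h => hg (mul_eq_left.mp h)
      have m1 := supp_two b v (lt x * v) (v * g) hne.symm (by linarith) (by linarith) (by linarith)
      have m2 := supp_two b v (lt x * v) (lt x * v * g) hne.symm (by linarith) (by linarith)
        (by linarith)
      have m1' := m1.resolve_left hne1
      have m2' := m2.resolve_right hne2
      rw [mul_assoc, m1', ← mul_assoc] at m2'
      exact lt_mul_lt_ne_one x (mul_eq_right.mp m2')

theorem cocompact_TR : ∃ K : Set (Tree × ℝ), IsCompact K ∧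
    ∀ y : Tree × ℝ, ∃ g : F2 × Multiplicative ℤ, g • y ∈ K := by
  let f : A → Icc (0 : ℝ) 1 → Tree := fun x t => ⟨ptf 1 x t.1, 1, x, t.1, t.2.1, t.2.2, rfl⟩
  have hf : ∀ x, Continuous (f x) := by
    intro x
    refine continuous_induced_rng.2 (continuous_pi fun u => ?_)
    show Continuous fun t : Icc (0 : ℝ) 1 => (if u = 1 then 1 - t.1 else 0) +
      (if u = lt x * 1 then t.1 else 0)
    refine Continuous.add ?_ ?_
    · split_ifs
      · exact continuous_const.sub continuous_subtype_val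
      · exact continuous_const
    · split_ifs
      · exact continuous_subtype_val
      · exact continuous_const
  refine ⟨(⋃ x, range (f x)) ×ˢ Icc 0 1, (isCompact_iUnion fun x => isCompact_range (hf x)).prod
    isCompact_Icc, ?_⟩
  rintro ⟨b, s⟩
  obtain ⟨v, x, t, h0, h1, h⟩ := b.2
  refine ⟨(v, Multiplicative.ofAdd (-⌊s⌋)), ?_, ?_⟩
  · refine Set.mem_iUnion.mpr ⟨x, ⟨t, h0, h1⟩, ?_⟩
    apply Subtype.ext
    funext u
    show ptf 1 x t u = b.1 (u * v)
    rw [h, ptf_mul, mul_inv_cancel]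
  · show s + ((Multiplicative.toAdd (Multiplicative.ofAdd (-⌊s⌋)) : ℤ) : ℝ) ∈ Icc (0 : ℝ) 1
    rw [toAdd_ofAdd, Int.cast_neg]
    have h2 := Int.floor_le s
    have h3 := Int.lt_floor_add_one s
    constructor <;> linarith

end Pool.Agent.Helper376.CL
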