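import Mathlib
import Pool.Agent.Helper376.CL.TreeDefs

set_option maxHeartbeats 4000000
set_option synthInstance.maxHeartbeats 400000

namespace Pool.Agent.Helper376.CL

open Set Topology

/-- power of the first generator as a word -/
def rep_WordLem (k : ℤ) : List A := List.replicate k.natAbs ((0 : Fin 2), decide (0 ≤ k))

theorem rep_cons {x : A} (hx : x.1 = 0) (k : ℤ) (hr : FreeGroup.IsReduced (x :: rep_WordLem k)) :
    x :: rep_WordLem k = rep_WordLem (k + sg x) := by
  obtain ⟨a, b⟩ := x
  simp only at hx
  subst hx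
  rcases lt_trichotomy k 0 with hk | hk | hk
  · -- negative
    obtain ⟨n, rfl⟩ : ∃ n : ℕ, k = -((n : ℤ) + 1) := ⟨(-k - 1).toNat, by omega⟩
    have h1 : rep_WordLem (-((n : ℤ) + 1)) = ((0 : Fin 2), false) :: List.replicate n ((0 : Fin 2), false) := by
      unfold rep_WordLem
      rw [show (-((n : ℤ) + 1)).natAbs = n + 1 by omega,
        show decide (0 ≤ -((n : ℤ) + 1)) = false by simp; omega, List.replicate_succ]
    rw [h1] at hr ⊢
    rw [FreeGroup.isReduced_cons_cons] at hr
    have hb : b = false := hr.1 rfl
    subst hb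
    unfold rep_WordLem sg
    rw [show (-((n : ℤ) + 1) + if (false : Bool) = true then 1 else -1).natAbs = n + 2 by simp; omega,
      show decide (0 ≤ -((n : ℤ) + 1) + if (false : Bool) = true then 1 else -1) = false by simp; omega,
      List.replicate_succ, List.replicate_succ]
  · subst hk
    cases b <;> rfl
  · obtain ⟨n, rfl⟩ : ∃ n : ℕ, k = (n : ℤ) + 1 := ⟨(k - 1).toNat, by omega⟩
    have h1 : rep_WordLem ((n : ℤ) + 1) = ((0 : Fin 2), true) :: List.replicate n ((0 : Fin 2), true) := by
      unfold rep_WordLem
      rw [show ((n : ℤ) + 1).natAbs = n + 1 by omega,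
        show decide (0 ≤ (n : ℤ) + 1) = true by simp; omega, List.replicate_succ]
    rw [h1] at hr ⊢
    rw [FreeGroup.isReduced_cons_cons] at hr
    have hb : b = true := hr.1 rfl
    subst hb
    unfold rep_WordLem sg
    rw [show ((n : ℤ) + 1 + if (true : Bool) = true then 1 else -1).natAbs = n + 2 by simp; omega,
      show decide (0 ≤ (n : ℤ) + 1 + if (true : Bool) = true then 1 else -1) = true by simp; omega,
      List.replicate_succ, List.replicate_succ]

theorem reduced_tail {x : A} {l : List A} (h : FreeGroup.IsReduced (x :: l)) :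
    FreeGroup.IsReduced l := List.IsChain.tail (l := x :: l) h

theorem pk_split (l : List A) (h : FreeGroup.IsReduced l) : l = (pk l).1 ++ rep_WordLem (pk l).2 := by
  induction l with
  | nil => rfl
  | cons x l ih =>
    have ihl := ih (reduced_tail h)
    unfold pk
    split_ifs with hx
    · simp only [List.nil_append]
      rw [hx.2, List.nil_append] at ihl
      rw [← rep_cons hx.1 (pk l).2 (by rw [← ihl]; exact h), ← ihl]
    · simp only [List.cons_append]
      rw [← ihl]

theorem ok_of_reduced {x : A} {l : List A} (h : FreeGroup.IsReduced (x :: l))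
    (hx : ¬ (x.1 = 0 ∧ (pk l).1 = [])) : ok x (pk l).1 := by
  have h1 := pk_split l (reduced_tail h)
  rcases hl : (pk l).1 with _ | ⟨y, m⟩
  · unfold ok
    intro h2
    exact hx ⟨h2, hl⟩
  · unfold ok
    rw [hl, List.cons_append] at h1
    rw [h1, FreeGroup.isReduced_cons_cons] at h
    exact h.1

theorem good_pk (l : List A) (h : FreeGroup.IsReduced l) : Good (pk l).1 := by
  induction l with
  | nil => trivial
  | cons x l ih =>
    have ihl := ih (reduced_tail h)
    unfold pk
    split_ifs with hx
    · trivial
    · exact ⟨ok_of_reduced h hx, ihl⟩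

theorem pk_replicate (n : ℕ) (b : Bool) :
    pk (List.replicate n ((0 : Fin 2), b)) = ([], (n : ℤ) * (if b then 1 else -1)) := by
  induction n with
  | zero => simp [pk]
  | succ n ih =>
    rw [List.replicate_succ]
    unfold pk
    rw [ih, if_pos ⟨rfl, rfl⟩]
    unfold sg
    simp only [Prod.mk.injEq, true_and]
    push_cast
    ring

theorem pk_rep (k : ℤ) : pk (rep_WordLem k) = ([], k) := by
  unfold rep_WordLem
  rw [pk_replicate]
  simp only [Prod.mk.injEq, true_and, decide_eq_true_eq]
  split_ifs with h <;> omega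

theorem reduced_replicate (n : ℕ) (x : A) : FreeGroup.IsReduced (List.replicate n x) := by
  apply FreeGroup.IsReduced.of_reduce_eq
  exact FreeGroup.reduce_replicate n x

theorem reduced_cons {x : A} {l : List A} (hl : FreeGroup.IsReduced l)
    (h : ∀ y m, l = y :: m → x.1 = y.1 → x.2 = y.2) : FreeGroup.IsReduced (x :: l) := by
  rcases l with _ | ⟨y, m⟩
  · exact FreeGroup.IsReduced.singleton
  · rw [FreeGroup.isReduced_cons_cons]
    exact ⟨h y m rfl, hl⟩

theorem good_append (l : List A) (hl : Good l) (k : ℤ) :
    FreeGroup.IsReduced (l ++ rep_WordLem k) ∧ pk (l ++ rep_WordLem k) = (l, k) := by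
  induction l with
  | nil =>
    rw [List.nil_append]
    exact ⟨reduced_replicate _ _, pk_rep k⟩
  | cons x l ih =>
    obtain ⟨hok, hg⟩ := hl
    obtain ⟨h1, h2⟩ := ih hg
    rw [List.cons_append]
    constructor
    · apply reduced_cons h1
      intro y m hym hxy
      rcases l with _ | ⟨z, l'⟩
      · exfalso
        rw [List.nil_append] at hym
        have h3 : y ∈ rep_WordLem k := by rw [hym]; simp
        unfold rep_WordLem at h3
        have h4 := List.eq_of_mem_replicate h3
        unfold ok at hok
        apply hok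
        rw [hxy, h4]
      · rw [List.cons_append] at hym
        have h3 : z = y := (List.cons.inj hym).1
        unfold ok at hok
        rw [← h3] at hxy ⊢
        exact hok hxy
    · unfold pk
      rw [h2, if_neg]
      rintro ⟨h3, h4⟩
      simp only at h4
      subst h4
      exact hok h3

theorem pw_kap_inj : Function.Injective (fun v : F2 => (pw v, kap v)) := by
  intro v v' h
  have h1 : pw v = pw v' := congrArg Prod.fst h
  have h2 : kap v = kap v' := congrArg Prod.snd h
  apply FreeGroup.toWord_injective
  rw [pk_split v.toWord FreeGroup.isReduced_toWord, pk_split v'.toWord FreeGroup.isReduced_toWord]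
  unfold pw at h1
  unfold kap at h2
  rw [h1, h2]

theorem good_pw (v : F2) : Good (pw v) := good_pk _ FreeGroup.isReduced_toWord

theorem exists_vertex {l : List A} (hl : Good l) (k : ℤ) : ∃ v : F2, pw v = l ∧ kap v = k := by
  obtain ⟨h1, h2⟩ := good_append l hl k
  refine ⟨FreeGroup.mk (l ++ rep_WordLem k), ?_, ?_⟩
  · unfold pw
    rw [FreeGroup.toWord_mk, h1.reduce_eq, h2]
  · unfold kap
    rw [FreeGroup.toWord_mk, h1.reduce_eq, h2]

theorem toWord_lt_mul (v : F2) (x : A) : (lt x * v).toWord = FreeGroup.reduce (x :: v.toWord) := by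
  rw [FreeGroup.toWord_mul]
  congr 1

theorem edge_red (v : F2) (x : A) (h : FreeGroup.IsReduced (x :: v.toWord)) :
    (x.1 = 0 ∧ pw v = [] ∧ pw (lt x * v) = [] ∧ kap (lt x * v) = kap v + sg x) ∨
    (ok x (pw v) ∧ pw (lt x * v) = x :: pw v ∧ kap (lt x * v) = kap v) := by
  have h1 : (lt x * v).toWord = x :: v.toWord := by rw [toWord_lt_mul, h.reduce_eq]
  unfold pw kap
  rw [h1]
  by_cases hx : x.1 = 0 ∧ (pk v.toWord).1 = []
  · left
    refine ⟨hx.1, hx.2, ?_, ?_⟩
    · unfold pk; rw [if_pos hx]
    · conv_lhs => unfold pk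
      rw [if_pos hx]
  · right
    refine ⟨ok_of_reduced h hx, ?_, ?_⟩
    · conv_lhs => unfold pk
      rw [if_neg hx]
    · conv_lhs => unfold pk
      rw [if_neg hx]

/-- the two kinds of edges -/
theorem edge_type (v : F2) (x : A) :
    (x.1 = 0 ∧ pw v = [] ∧ pw (lt x * v) = [] ∧ kap (lt x * v) = kap v + sg x) ∨
    (ok x (pw v) ∧ pw (lt x * v) = x :: pw v ∧ kap (lt x * v) = kap v) ∨
    (ok (invA x) (pw (lt x * v)) ∧ pw v = invA x :: pw (lt x * v) ∧ kap (lt x * v) = kap v) := by
  by_cases h : FreeGroup.IsReduced (x :: v.toWord)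
  · rcases edge_red v x h with h1 | h1
    · exact Or.inl h1
    · exact Or.inr (Or.inl h1)
  · -- cancellation
    have hv : FreeGroup.IsReduced v.toWord := FreeGroup.isReduced_toWord
    obtain ⟨m, hm⟩ : ∃ m, v.toWord = invA x :: m := by
      by_contra hcon
      push Not at hcon
      apply h
      apply reduced_cons hv
      intro y m hym hxy
      by_contra hne
      apply hcon m
      rw [hym]
      congr 1
      unfold invA
      apply Prod.ext
      · exact hxy.symm
      · simp only
        cases hx2 : x.2 <;> cases hy2 : y.2 <;> simp_all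
    have h1 : (lt x * v).toWord = m := by
      rw [toWord_lt_mul, hm, FreeGroup.reduce.cons]
      have h2 : FreeGroup.reduce (invA x :: m) = invA x :: m := by
        rw [← hm]; exact hv.reduce_eq
      rw [h2]
      simp [invA]
    have hinv : lt (invA x) * (lt x * v) = v := by
      rw [← mul_assoc]
      have h3 : lt (invA x) * lt x = 1 := by
        apply FreeGroup.toWord_injective
        rw [toWord_lt_mul]
        have h4 : (lt x).toWord = [x] := rfl
        rw [h4, FreeGroup.reduce.cons, FreeGroup.reduce_singleton]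
        simp [invA]
      rw [h3, one_mul]
    have hred : FreeGroup.IsReduced (invA x :: (lt x * v).toWord) := by
      rw [h1, ← hm]; exact hv
    rcases edge_red (lt x * v) (invA x) hred with h5 | h5
    · rw [hinv] at h5
      obtain ⟨h6, h7, h8, h9⟩ := h5
      left
      refine ⟨h6, h8, h7, ?_⟩
      have hsg : sg (invA x) = - sg x := by
        unfold sg invA
        cases x.2 <;> simp
      rw [h9, hsg]
      ring
    · rw [hinv] at h5
      obtain ⟨h6, h7, h8⟩ := h5
      right; right
      exact ⟨h6, h7, h8.symm⟩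

theorem finite_bounded (n : ℕ) (m : ℤ) : {v : F2 | (pw v).length ≤ n ∧ |kap v| ≤ m}.Finite := by
  apply Set.Finite.of_finite_image (f := fun v : F2 => (pw v, kap v)) _ pw_kap_inj.injOn
  apply Set.Finite.subset ((List.finite_length_le A n).prod (Set.finite_Icc (-m) m))
  rintro _ ⟨v, ⟨h1, h2⟩, rfl⟩
  exact ⟨h1, abs_le.mp h2⟩

end Pool.Agent.Helper376.CL
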