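import Mathlib
import Pool.Agent.Helper376.CL.TreeDefs
import Pool.Agent.Helper376.CL.Pg
import Pool.Agent.Helper376.CL.TreeLem
import Pool.Agent.Helper376.CL.WordLem

set_option maxHeartbeats 4000000
set_option synthInstance.maxHeartbeats 400000

namespace Pool.Agent.Helper376.CL

open Set Topology

open Classical in
/-- indicator of suffixes -/
noncomputable def sfi (m L : List A) : ℝ := if m <:+ L then 1 else 0

theorem sfi_pos {m L : List A} (h : m <:+ L) : sfi m L = 1 := by
  unfold sfi; rw [if_pos h]

theorem sfi_neg {m L : List A} (h : ¬ m <:+ L) : sfi m L = 0 := by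
  unfold sfi; rw [if_neg h]

theorem sfi_nonneg (m L : List A) : 0 ≤ sfi m L := by
  unfold sfi; split_ifs <;> norm_num

theorem sfi_le (m L : List A) : sfi m L ≤ 1 := by
  unfold sfi; split_ifs <;> norm_num

theorem xT_ptf (b : Tree) (v : F2) (x : A) (t : ℝ) (h : b.1 = ptf v x t) :
    xT b = (1 - t) * kap v + t * kap (lt x * v) := lin_ptf _ b v x t h

theorem cT_ptf (b : Tree) (v : F2) (x : A) (t : ℝ) (h : b.1 = ptf v x t) (m : List A) :
    cT b m = (1 - t) * sfi m (pw v) + t * sfi m (pw (lt x * v)) := by
  unfold cT sfi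
  exact lin_ptf _ b v x t h

open Classical in
theorem sfi_sum (m L : List A) :
    sfi m L - ∑ y : A, sfi (y :: m) L = if m = L then 1 else 0 := by
  by_cases h : m <:+ L
  · obtain ⟨p, hp⟩ := h
    rcases List.eq_nil_or_concat p with hp0 | ⟨q, y, hq⟩
    · subst hp0
      simp only [List.nil_append] at hp
      subst hp
      rw [if_pos rfl, sfi_pos (List.suffix_refl m)]
      have : ∀ y ∈ (Finset.univ : Finset A), sfi (y :: m) m = 0 := by
        intro y _
        apply sfi_neg
        intro h
        have := h.length_le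
        simp at this
      rw [Finset.sum_eq_zero this, sub_zero]
    · subst hq
      have hL : L = q ++ y :: m := by
        rw [← hp]
        simp
      have hne : m ≠ L := by
        intro h
        have := congrArg List.length h
        rw [hL] at this
        simp at this
        omega
      rw [if_neg hne, sfi_pos ⟨_, hp⟩]
      have hy : y :: m <:+ L := ⟨q, hL.symm⟩
      rw [Finset.sum_eq_single y]
      · rw [sfi_pos hy]; ring
      · intro z _ hz
        apply sfi_neg
        intro h
        apply hz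
        have h1 : z :: m = y :: m := by
          have h2 := List.suffix_of_suffix_length_le h hy (by simp)
          exact h2.eq_of_length (by simp)
        injection h1
      · intro h
        exact absurd (Finset.mem_univ _) h
  · have hne : m ≠ L := fun h' => h (h' ▸ List.suffix_refl m)
    rw [if_neg hne, sfi_neg h]
    have : ∀ y ∈ (Finset.univ : Finset A), sfi (y :: m) L = 0 := by
      intro y _
      apply sfi_neg
      intro h'
      exact h ((List.suffix_cons y m).trans h')
    rw [Finset.sum_eq_zero this, sub_zero]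

/-- the candidate for the inverse map -/
noncomputable def bet (p : ℝ × (List A → ℝ)) (v : F2) : ℝ :=
  max 0 (1 - |p.1 - kap v|) * (p.2 (pw v) - ∑ y : A, p.2 (y :: pw v))

theorem continuous_bet : Continuous bet := by
  refine continuous_pi fun v => ?_
  unfold bet
  have h1 : ∀ l : List A, Continuous fun p : ℝ × (List A → ℝ) => p.2 l := fun l =>
    (continuous_apply l).comp continuous_snd
  refine Continuous.mul ?_ ?_
  · exact continuous_const.max (continuous_const.sub (continuous_fst.sub continuous_const).abs)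
  · exact (h1 _).sub (continuous_finsetSum _ fun y _ => h1 _)

open Classical in
theorem cT_diff (b : Tree) (v : F2) (x : A) (t : ℝ) (h : b.1 = ptf v x t) (m : List A) :
    cT b m - ∑ y : A, cT b (y :: m) =
      (1 - t) * (if m = pw v then 1 else 0) + t * (if m = pw (lt x * v) then 1 else 0) := by
  simp_rw [cT_ptf b v x t h]
  rw [Finset.sum_add_distrib, ← Finset.mul_sum, ← Finset.mul_sum, ← sfi_sum, ← sfi_sum]
  ring

theorem tent_int (k m : ℤ) : max 0 (1 - |(k : ℝ) - m|) = if m = k then 1 else 0 := by
  split_ifs with h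
  · subst h; simp
  · apply max_eq_left
    have h1 : 1 ≤ |k - m| := Int.one_le_abs (by omega)
    have h2 : (1 : ℝ) ≤ |(k : ℝ) - m| := by exact_mod_cast h1
    linarith

theorem eq_iff_pw_kap (u v : F2) : u = v ↔ pw u = pw v ∧ kap u = kap v := by
  constructor
  · rintro rfl; exact ⟨rfl, rfl⟩
  · rintro ⟨h1, h2⟩
    exact pw_kap_inj (Prod.ext h1 h2)

theorem bet_page (b : Tree) (v : F2) (x : A) (t : ℝ) (h : b.1 = ptf v x t)
    (hk : kap (lt x * v) = kap v) : bet (xT b, cT b) = b.1 := by
  classical
  funext u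
  unfold bet
  have hx : xT b = kap v := by
    rw [xT_ptf b v x t h, hk]; ring
  show max 0 (1 - |xT b - kap u|) * (cT b (pw u) - ∑ y : A, cT b (y :: pw u)) = b.1 u
  rw [cT_diff b v x t h, hx, tent_int, h]
  unfold ptf
  by_cases hku : kap u = kap v
  · rw [if_pos hku]
    have e1 : (u = v) ↔ (pw u = pw v) := by
      rw [eq_iff_pw_kap]; tauto
    have e2 : (u = lt x * v) ↔ (pw u = pw (lt x * v)) := by
      rw [eq_iff_pw_kap, hk]; tauto
    simp only [e1, e2]
    by_cases h1 : pw u = pw v <;> by_cases h2 : pw u = pw (lt x * v) <;> simp [h1, h2]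
  · have e1 : u ≠ v := fun h => hku (by rw [h])
    have e2 : u ≠ lt x * v := fun h => hku (by rw [h, hk])
    rw [if_neg hku, if_neg e1, if_neg e2]
    ring

theorem sg_cases (x : A) : sg x = 1 ∨ sg x = -1 := by
  unfold sg; split_ifs <;> simp

theorem bet_line (b : Tree) (v : F2) (x : A) (t : ℝ) (h0 : 0 ≤ t) (h1 : t ≤ 1)
    (h : b.1 = ptf v x t) (hv : pw v = []) (hw : pw (lt x * v) = [])
    (hk : kap (lt x * v) = kap v + sg x) : bet (xT b, cT b) = b.1 := by
  classical
  funext u
  unfold bet
  have hx : xT b = kap v + t * sg x := by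
    rw [xT_ptf b v x t h, hk]; push_cast; ring
  show max 0 (1 - |xT b - kap u|) * (cT b (pw u) - ∑ y : A, cT b (y :: pw u)) = b.1 u
  rw [cT_diff b v x t h, hx, h, hv, hw]
  unfold ptf
  by_cases hu : pw u = []
  · rw [if_pos hu]
    have e1 : (u = v) ↔ (kap u = kap v) := by
      rw [eq_iff_pw_kap, hu, hv]; tauto
    have e2 : (u = lt x * v) ↔ (kap u = kap v + sg x) := by
      rw [eq_iff_pw_kap, hk, hu, hw]; tauto
    simp only [e1, e2]
    obtain ⟨d, hd⟩ : ∃ d : ℤ, kap u = kap v + d := ⟨kap u - kap v, by ring⟩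
    have e3 : ((kap v : ℝ) + t * sg x - kap u) = t * sg x - d := by
      rw [hd]; push_cast; ring
    rw [e3]
    have e4 : (kap u = kap v) ↔ d = 0 := by constructor <;> intro h <;> omega
    have e5 : (kap u = kap v + sg x) ↔ d = sg x := by constructor <;> intro h <;> omega
    simp only [e4, e5]
    rcases sg_cases x with hs | hs
    · rw [hs]
      by_cases d0 : d = 0
      · subst d0
        simp only [Int.cast_zero, Int.cast_one, mul_one, sub_zero, if_true]
        rw [abs_of_nonneg h0, max_eq_right (by linarith), if_neg (by norm_num)]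
        ring
      · by_cases d1 : d = 1
        · subst d1
          simp only [Int.cast_one, mul_one, if_true]
          rw [abs_of_nonpos (by linarith), max_eq_right (by linarith), if_neg (by norm_num)]
          ring
        · rw [if_neg d0, if_neg d1]
          have : max 0 (1 - |t * ((1 : ℤ) : ℝ) - d|) = 0 := by
            apply max_eq_left
            have h3 : d ≤ -1 ∨ 2 ≤ d := by omega
            rcases h3 with h3 | h3
            · have h4 : (d : ℝ) ≤ -1 := by exact_mod_cast h3
              rw [abs_of_nonneg (by push_cast; linarith)]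
              push_cast
              linarith
            · have h4 : (2 : ℝ) ≤ d := by exact_mod_cast h3
              rw [abs_of_nonpos (by push_cast; linarith)]
              push_cast
              linarith
          rw [this]
          ring
    · rw [hs]
      by_cases d0 : d = 0
      · subst d0
        simp only [Int.cast_zero, Int.cast_neg, Int.cast_one, mul_neg, mul_one, sub_zero, if_true]
        rw [abs_neg, abs_of_nonneg h0, max_eq_right (by linarith), if_neg (by norm_num)]
        ring
      · by_cases d1 : d = -1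
        · subst d1
          simp only [Int.cast_neg, Int.cast_one, mul_neg, mul_one, if_true]
          rw [abs_of_nonneg (by linarith), max_eq_right (by linarith), if_neg (by norm_num)]
          ring
        · rw [if_neg d0, if_neg d1]
          have : max 0 (1 - |t * ((-1 : ℤ) : ℝ) - d|) = 0 := by
            apply max_eq_left
            have h3 : d ≤ -2 ∨ 1 ≤ d := by omega
            rcases h3 with h3 | h3
            · have h4 : (d : ℝ) ≤ -2 := by exact_mod_cast h3
              rw [abs_of_nonneg (by push_cast; linarith)]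
              push_cast
              linarith
            · have h4 : (1 : ℝ) ≤ d := by exact_mod_cast h3
              rw [abs_of_nonpos (by push_cast; linarith)]
              push_cast
              linarith
          rw [this]
          ring
  · have e1 : u ≠ v := fun h => hu (by rw [h, hv])
    have e2 : u ≠ lt x * v := fun h => hu (by rw [h, hw])
    rw [if_neg hu, if_neg e1, if_neg e2]
    ring

theorem bet_inv (b : Tree) : bet (xT b, cT b) = b.1 := by
  obtain ⟨v, x, t, h0, h1, h⟩ := b.2
  rcases edge_type v x with ⟨_, hv, hw, hk⟩ | ⟨_, _, hk⟩ | ⟨_, _, hk⟩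
  · exact bet_line b v x t h0 h1 h hv hw hk
  · exact bet_page b v x t h hk
  · exact bet_page b v x t h hk

theorem Good.suffix {m : List A} : ∀ {L : List A}, Good L → m <:+ L → Good m
  | [], h, hm => by
      rw [List.suffix_nil.1 hm]; exact h
  | (x :: L), h, hm => by
      rcases List.suffix_cons_iff.1 hm with h1 | h1
      · rw [h1]; exact h
      · exact Good.suffix h.2 h1

/-- the two page words of an edge -/
theorem pair_type (v : F2) (x : A) :
    (pw v = [] ∧ pw (lt x * v) = []) ∨ (∃ y, pw (lt x * v) = y :: pw v) ∨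
      ∃ y, pw v = y :: pw (lt x * v) := by
  rcases edge_type v x with ⟨_, hv, hw, _⟩ | ⟨_, hw, _⟩ | ⟨_, hw, _⟩
  · exact Or.inl ⟨hv, hw⟩
  · exact Or.inr (Or.inl ⟨_, hw⟩)
  · exact Or.inr (Or.inr ⟨_, hw⟩)

theorem mem_Pg_aux {L y : List A} (hL : Good L) (hy : y = L ∨ ∃ z, L = z :: y) {t : ℝ}
    (h0 : 0 ≤ t) (h1 : t ≤ 1) :
    (fun m => (1 - t) * sfi m y + t * sfi m L) ∈ Pg := by
  have hyL : y <:+ L := by
    rcases hy with rfl | ⟨z, rfl⟩
    · exact List.suffix_refl _
    · exact List.suffix_cons _ _
  have hz : ∀ m, ¬ m <:+ L → (1 - t) * sfi m y + t * sfi m L = 0 := by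
    intro m hm
    rw [sfi_neg hm, sfi_neg (fun h => hm (h.trans hyL))]
    ring
  have hnz : ∀ m, (1 - t) * sfi m y + t * sfi m L ≠ 0 → m <:+ L := by
    intro m hm
    by_contra h
    exact hm (hz m h)
  refine ⟨?_, ?_, ?_, ?_, ?_⟩
  · show (1 - t) * sfi [] y + t * sfi [] L = 1
    rw [sfi_pos (List.nil_suffix), sfi_pos (List.nil_suffix)]
    ring
  · intro l
    have a1 := sfi_nonneg l y
    have a2 := sfi_nonneg l L
    have a3 := sfi_le l y
    have a4 := sfi_le l L
    constructor
    · show 0 ≤ (1 - t) * sfi l y + t * sfi l L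
      have : 0 ≤ 1 - t := by linarith
      positivity
    · show (1 - t) * sfi l y + t * sfi l L ≤ 1
      nlinarith
  · intro x l hx
    apply hz
    intro h
    exact hx (Good.suffix hL h).1
  · intro x l hx
    have h2 := hnz _ hx
    show (1 - t) * sfi l y + t * sfi l L = 1
    have h3 : l <:+ L := (List.suffix_cons x l).trans h2
    have h4 : l <:+ y := by
      rcases hy with rfl | ⟨z, rfl⟩
      · exact h3
      · rcases List.suffix_cons_iff.1 h2 with h5 | h5
        · injection h5 with h6 h7
          rw [h7]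
        · exact (List.suffix_cons x l).trans h5
    rw [sfi_pos h3, sfi_pos h4]
    ring
  · intro x z l hxz
    by_contra hcon
    rw [not_or] at hcon
    have h2 := hnz _ hcon.1
    have h3 := hnz _ hcon.2
    apply hxz
    have h4 : x :: l = z :: l :=
      (List.suffix_of_suffix_length_le h2 h3 (by simp)).eq_of_length (by simp)
    injection h4

theorem cT_eq (b : Tree) (v : F2) (x : A) (t : ℝ) (h : b.1 = ptf v x t) :
    cT b = fun m => (1 - t) * sfi m (pw v) + t * sfi m (pw (lt x * v)) :=
  funext fun m => cT_ptf b v x t h m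

theorem cT_mem (b : Tree) : cT b ∈ Pg := by
  obtain ⟨v, x, t, h0, h1, h⟩ := b.2
  rw [cT_eq b v x t h]
  rcases pair_type v x with ⟨hv, hw⟩ | ⟨y, hw⟩ | ⟨y, hw⟩
  · exact mem_Pg_aux (good_pw _) (Or.inl (by rw [hv, hw])) h0 h1
  · exact mem_Pg_aux (good_pw _) (Or.inr ⟨y, hw⟩) h0 h1
  · have := mem_Pg_aux (good_pw v) (Or.inr ⟨y, hw⟩) (t := 1 - t) (by linarith) (by linarith)
    have e : (fun m => (1 - t) * sfi m (pw v) + t * sfi m (pw (lt x * v))) =
        fun m => (1 - (1 - t)) * sfi m (pw (lt x * v)) + (1 - t) * sfi m (pw v) := by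
      funext m; ring
    rw [e]
    exact this

theorem cT_isFin (b : Tree) : IsFin (cT b) := by
  obtain ⟨v, x, t, h0, h1, h⟩ := b.2
  rw [cT_eq b v x t h]
  refine ⟨(pw v).length + (pw (lt x * v)).length + 1, fun l hl => ?_⟩
  show (1 - t) * sfi l (pw v) + t * sfi l (pw (lt x * v)) = 0
  rw [sfi_neg, sfi_neg]
  · ring
  · intro h'
    have := h'.length_le
    omega
  · intro h'
    have := h'.length_le
    omega

theorem cT_root {b : Tree} {v : F2} {x : A} {t : ℝ} (h : b.1 = ptf v x t) (hv : pw v = [])
    (hw : pw (lt x * v) = []) : cT b = root := by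
  rw [cT_eq b v x t h, hv, hw]
  funext m
  show (1 - t) * sfi m [] + t * sfi m [] = root m
  unfold root
  by_cases hm : m = []
  · rw [if_pos hm, hm, sfi_pos (List.suffix_refl _)]
    ring
  · rw [if_neg hm, sfi_neg (fun h => hm (List.suffix_nil.1 h))]
    ring

theorem fwd_mem (b : Tree) : (xT b, cT b) ∈ That := by
  refine ⟨cT_mem b, ?_⟩
  obtain ⟨v, x, t, h0, h1, h⟩ := b.2
  rcases edge_type v x with ⟨_, hv, hw, hk⟩ | ⟨_, _, hk⟩ | ⟨_, _, hk⟩
  · exact Or.inl (cT_root h hv hw)
  · refine Or.inr ⟨kap v, ?_⟩
    show xT b = kap v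
    rw [xT_ptf b v x t h, hk]; ring
  · refine Or.inr ⟨kap v, ?_⟩
    show xT b = kap v
    rw [xT_ptf b v x t h, hk]; ring

theorem good_of_Pg {c : List A → ℝ} (hc : c ∈ Pg) : ∀ {l : List A}, c l ≠ 0 → Good l
  | [], _ => trivial
  | (x :: l), h => by
      refine ⟨?_, ?_⟩
      · by_contra h'
        exact h (hc.2.2.1 x l h')
      · have h2 := hc.2.2.2.1 x l h
        exact good_of_Pg hc (by rw [h2]; exact one_ne_zero)

theorem fwd_surj {p : ℝ × (List A → ℝ)} (hp : p ∈ That) (hf : IsFin p.2) :
    ∃ b : Tree, (xT b, cT b) = p := by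
  obtain ⟨y, c⟩ := p
  obtain ⟨hc, hor⟩ := hp
  rcases hor with hr | ⟨k, hk⟩
  · -- the line
    have hr' : c = root := hr
    obtain ⟨v, hv, hkv⟩ := exists_vertex (l := []) trivial ⌊y⌋
    let x : A := (0, true)
    have h0 : 0 ≤ y - ⌊y⌋ := by
      have := Int.floor_le y; linarith
    have h1 : y - ⌊y⌋ ≤ 1 := by
      have := (Int.lt_floor_add_one y).le; linarith
    have hedge : pw (lt x * v) = [] ∧ kap (lt x * v) = kap v + sg x := by
      rcases edge_type v x with ⟨_, _, hw, hk⟩ | ⟨hok, _, _⟩ | ⟨_, hw, _⟩
      · exact ⟨hw, hk⟩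
      · rw [hv] at hok
        exact absurd rfl hok
      · rw [hv] at hw
        exact absurd hw (by simp)
    refine ⟨⟨ptf v x (y - ⌊y⌋), v, x, _, h0, h1, rfl⟩, ?_⟩
    refine Prod.ext ?_ ?_
    · show xT _ = y
      rw [xT_ptf _ v x (y - ⌊y⌋) rfl, hedge.2, hkv]
      have : sg x = 1 := rfl
      rw [this]
      push_cast
      ring
    · show cT _ = c
      rw [cT_root (v := v) (x := x) (t := y - ⌊y⌋) rfl hv hedge.1, hr']
  · have hk' : y = k := hk
    obtain ⟨l, hl1, hls, hrest⟩ := isFin_structure hc hf
    obtain ⟨v, hv, hkv⟩ := exists_vertex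
      (good_of_Pg hc (l := l) (by show c l ≠ 0; rw [show c l = 1 from hl1]; exact one_ne_zero)) k
    rcases hrest with hz | ⟨x, hok, hx0, hx1, hz⟩
    · refine ⟨⟨ptf v (0, true) 0, v, (0, true), 0, le_rfl, zero_le_one, rfl⟩, ?_⟩
      refine Prod.ext ?_ ?_
      · show xT _ = y
        rw [xT_ptf _ v (0, true) 0 rfl, hkv, hk']
        ring
      · show cT _ = c
        rw [cT_eq _ v (0, true) 0 rfl, hv]
        funext m
        show (1 - 0) * sfi m l + 0 * sfi m _ = c m
        by_cases hm : m <:+ l
        · rw [sfi_pos hm, show c m = 1 from hls m hm]; ring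
        · rw [sfi_neg hm, show c m = 0 from hz m hm]; ring
    · have hedge : pw (lt x * v) = x :: l ∧ kap (lt x * v) = kap v := by
        rcases edge_type v x with ⟨h2, h3, _, _⟩ | ⟨_, hw, hk⟩ | ⟨_, hw, _⟩
        · rw [hv] at h3
          rw [h3] at hok
          exact absurd h2 hok
        · rw [hv] at hw
          exact ⟨hw, hk⟩
        · rw [hv] at hw
          rw [hw] at hok
          have h4 : x.2 = !x.2 := hok rfl
          cases h5 : x.2 <;> rw [h5] at h4 <;> exact absurd h4 (by decide)
      have t0 : 0 ≤ c (x :: l) := le_of_lt hx0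
      have t1 : c (x :: l) ≤ 1 := le_of_lt hx1
      refine ⟨⟨ptf v x (c (x :: l)), v, x, _, t0, t1, rfl⟩, ?_⟩
      refine Prod.ext ?_ ?_
      · show xT _ = y
        rw [xT_ptf _ v x (c (x :: l)) rfl, hedge.2, hkv, hk']
        ring
      · show cT _ = c
        rw [cT_eq _ v x (c (x :: l)) rfl, hv, hedge.1]
        funext m
        show (1 - c (x :: l)) * sfi m l + c (x :: l) * sfi m (x :: l) = c m
        by_cases hm : m <:+ l
        · rw [sfi_pos hm, sfi_pos (hm.trans (List.suffix_cons x l)),
            show c m = 1 from hls m hm]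
          ring
        · by_cases hm2 : m = x :: l
          · rw [hm2, sfi_pos (List.suffix_refl _), sfi_neg (by rw [← hm2]; exact hm)]
            ring
          · rw [sfi_neg hm, sfi_neg (fun h' => (List.suffix_cons_iff.1 h').elim hm2 hm),
              show c m = 0 from hz m hm2 hm]
            ring

theorem isPt_bet {p : ℝ × (List A → ℝ)} (hp : p ∈ That) (hf : IsFin p.2) : IsPt (bet p) := by
  obtain ⟨b, hb⟩ := fwd_surj hp hf
  rw [← hb, bet_inv]
  exact b.2

theorem exists_homeo_tree : ∃ h : Tree ≃ₜ {p : ↥That // IsFin p.1.2},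
    ∀ b, ((h b).1.1 : ℝ × (List A → ℝ)) = (xT b, cT b) := by
  refine ⟨{
    toFun := fun b => ⟨⟨(xT b, cT b), fwd_mem b⟩, cT_isFin b⟩
    invFun := fun p => ⟨bet p.1.1, isPt_bet p.1.2 p.2⟩
    left_inv := fun b => Subtype.ext (bet_inv b)
    right_inv := ?_
    continuous_toFun := ?_
    continuous_invFun := ?_ }, fun b => rfl⟩
  · rintro ⟨⟨p, hp⟩, hf⟩
    obtain ⟨b, hb⟩ := fwd_surj hp hf
    apply Subtype.ext
    apply Subtype.ext
    show (xT ⟨bet p, _⟩, cT ⟨bet p, _⟩) = p
    have e : (⟨bet p, isPt_bet hp hf⟩ : Tree) = b := by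
      apply Subtype.ext
      show bet p = b.1
      rw [← hb, bet_inv]
    rw [e, hb]
  · apply Continuous.subtype_mk
    apply Continuous.subtype_mk
    exact (continuous_lin _).prodMk (continuous_pi fun l => continuous_lin _)
  · apply Continuous.subtype_mk
    exact continuous_bet.comp (continuous_subtype_val.comp continuous_subtype_val)

end Pool.Agent.Helper376.CL
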