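import Mathlib
import Pool.Agent.Helper376.CL.EstDefs
import Pool.Agent.Helper376.CL.Pg
import Pool.Agent.Helper376.CL.Emb
import Pool.Agent.Helper376.CL.FwLem
import Pool.Agent.Helper376.CL.TreeLem
import Pool.Agent.Helper376.CL.WordLem
import Pool.Agent.Helper376.CL.THLem

set_option maxHeartbeats 4000000
set_option synthInstance.maxHeartbeats 400000

namespace Pool.Agent.Helper376.CL

open Set Topology

theorem cb_arsinh_lip (a b : ℝ) : |Real.arsinh a - Real.arsinh b| ≤ |a - b| := by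
  wlog h : b ≤ a generalizing a b
  · rw [abs_sub_comm, abs_sub_comm a b]
    exact this b a (le_of_not_ge h)
  have h1 : Real.arsinh b ≤ Real.arsinh a := Real.arsinh_le_arsinh.2 h
  have h2 := Real.sinh_sub_id_strictMono.monotone h1
  simp only [Real.sinh_arsinh] at h2
  rw [abs_of_nonneg (by linarith), abs_of_nonneg (by linarith)]
  linarith

theorem cb_arsinh_scale0 {a κ : ℝ} (ha : 0 ≤ a) (hκ : 1 ≤ κ) :
    Real.arsinh (κ * a) - Real.arsinh a ≤ κ - 1 := by
  have hκ0 : 0 < κ := by linarith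
  have h0 : √(1 + (κ * a) ^ 2) ≤ κ * √(1 + a ^ 2) := by
    have h1 : κ * √(1 + a ^ 2) = √(κ ^ 2 * (1 + a ^ 2)) := by
      rw [Real.sqrt_mul (by positivity), Real.sqrt_sq hκ0.le]
    rw [h1]
    apply Real.sqrt_le_sqrt
    nlinarith
  have h1 : κ * a + √(1 + (κ * a) ^ 2) ≤ κ * (a + √(1 + a ^ 2)) := by linarith
  have h2 : 0 < a + √(1 + a ^ 2) := by positivity
  have h2' : 0 < κ * a + √(1 + (κ * a) ^ 2) := by positivity
  have h3 := Real.log_le_log h2' h1
  rw [Real.log_mul hκ0.ne' h2.ne'] at h3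
  have h4 := Real.log_le_sub_one_of_pos hκ0
  unfold Real.arsinh
  linarith

theorem cb_arsinh_scale {a κ : ℝ} (hκ : 1 ≤ κ) :
    |Real.arsinh (κ * a) - Real.arsinh a| ≤ κ - 1 := by
  rcases le_total 0 a with ha | ha
  · rw [abs_of_nonneg]
    · exact cb_arsinh_scale0 ha hκ
    · have : Real.arsinh a ≤ Real.arsinh (κ * a) := Real.arsinh_le_arsinh.2 (by nlinarith)
      linarith
  · have h1 := cb_arsinh_scale0 (a := -a) (by linarith) hκ
    rw [mul_neg, Real.arsinh_neg, Real.arsinh_neg] at h1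
    rw [abs_of_nonpos]
    · linarith
    · have : Real.arsinh (κ * a) ≤ Real.arsinh a := Real.arsinh_le_arsinh.2 (by nlinarith)
      linarith

theorem cb_arsinh_div (y : ℝ) {A B m : ℝ} (hm : 0 < m) (hA : m ≤ A) (hB : m ≤ B) :
    |Real.arsinh (y / A) - Real.arsinh (y / B)| ≤ |A - B| / m := by
  wlog h : A ≤ B generalizing A B
  · rw [abs_sub_comm, abs_sub_comm A B]
    exact this hB hA (le_of_not_ge h)
  have hA0 : 0 < A := hm.trans_le hA
  have hB0 : 0 < B := hm.trans_le hB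
  have h1 : 1 ≤ B / A := by rwa [le_div_iff₀ hA0, one_mul]
  have h2 : y / A = (B / A) * (y / B) := by field_simp
  rw [h2]
  refine (cb_arsinh_scale h1).trans ?_
  have h3 : B / A - 1 = (B - A) / A := by field_simp
  rw [h3, abs_of_nonpos (by linarith), neg_sub]
  exact div_le_div_of_nonneg_left (by linarith) hm hA

open Classical in
theorem cb_star {v : F2} {b : Tree} (hb : b ∈ star v) :
    (1 ≤ (pw v).length → xT b = kap v) ∧ |xT b - kap v| ≤ 1 ∧ |sT b - (pw v).length| ≤ 1 ∧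
      0 ≤ sT b ∧ ∀ l : List A, l.length + 1 ≤ (pw v).length →
        cT b l = if l <:+ pw v then 1 else 0 := by
  obtain ⟨x, t, h0, h1, hbt⟩ := hb
  have hx : xT b = (1 - t) * (kap v : ℝ) + t * (kap (lt x * v) : ℝ) := lin_ptf _ b v x t hbt
  have hs : sT b = (1 - t) * ((pw v).length : ℝ) + t * ((pw (lt x * v)).length : ℝ) :=
    lin_ptf _ b v x t hbt
  have hc : ∀ l, cT b l = (1 - t) * (if l <:+ pw v then 1 else 0) +
      t * (if l <:+ pw (lt x * v) then 1 else 0) := fun l => lin_ptf _ b v x t hbt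
  have hs0 : 0 ≤ sT b := by
    rw [hs]
    have : 0 ≤ 1 - t := by linarith
    positivity
  rcases edge_type v x with ⟨hx0, hp, hp', hk⟩ | ⟨hok, hp, hk⟩ | ⟨hok, hp, hk⟩
  · refine ⟨fun h => by rw [hp] at h; simp at h, ?_, ?_, hs0, fun l hl => by
      rw [hp] at hl; simp at hl⟩
    · rw [hx, hk]
      have h3 : (1 - t) * (kap v : ℝ) + t * ((kap v + sg x : ℤ) : ℝ) - kap v = t * (sg x : ℝ) := by
        push_cast
        ring
      rw [h3, abs_mul, abs_of_nonneg h0]
      have h4 : |(sg x : ℝ)| = 1 := by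
        unfold sg
        split_ifs <;> simp
      rw [h4, mul_one]
      exact h1
    · rw [hs, hp, hp']
      simp
  · refine ⟨fun _ => by rw [hx, hk]; ring, ?_, ?_, hs0, fun l hl => ?_⟩
    · rw [hx, hk]
      have : (1 - t) * (kap v : ℝ) + t * (kap v : ℝ) - kap v = 0 := by ring
      rw [this]
      simp
    · rw [hs, hp, List.length_cons]
      have : (1 - t) * ((pw v).length : ℝ) + t * (((pw v).length + 1 : ℕ) : ℝ) -
          (pw v).length = t := by
        push_cast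
        ring
      rw [this, abs_of_nonneg h0]
      exact h1
    · rw [hc, hp]
      have h5 : l <:+ x :: pw v ↔ l <:+ pw v := by
        rw [List.suffix_cons_iff]
        constructor
        · rintro (h | h)
          · rw [h, List.length_cons] at hl
            omega
          · exact h
        · exact Or.inr
      simp only [h5]
      ring
  · refine ⟨fun _ => by rw [hx, hk]; ring, ?_, ?_, hs0, fun l hl => ?_⟩
    · rw [hx, hk]
      have : (1 - t) * (kap v : ℝ) + t * (kap v : ℝ) - kap v = 0 := by ring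
      rw [this]
      simp
    · rw [hs, hp, List.length_cons]
      have : (1 - t) * (((pw (lt x * v)).length + 1 : ℕ) : ℝ) +
          t * ((pw (lt x * v)).length : ℝ) - ((pw (lt x * v)).length + 1 : ℕ) = -t := by
        push_cast
        ring
      rw [this, abs_neg, abs_of_nonneg h0]
      exact h1
    · rw [hc]
      have h5 : l <:+ pw v ↔ l <:+ pw (lt x * v) := by
        rw [hp, List.suffix_cons_iff]
        rw [hp, List.length_cons] at hl
        constructor
        · rintro (h | h)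
          · rw [h, List.length_cons] at hl
            omega
          · exact h
        · exact Or.inr
      simp only [h5]
      ring

theorem cb_cT_mem (b : Tree) : cT b ∈ Pg := by
  obtain ⟨h, hh⟩ := exists_homeo_tree
  have h1 := (h b).1.2
  have h2 := h1.1
  rw [hh b] at h2
  exact h2

theorem cb_e_close {v : F2} {b b' : Tree} (hb : b ∈ star v) (hb' : b' ∈ star v) :
    |e1 (cT b) - e1 (cT b')| ≤ 16 / (1 + ((pw v).length : ℝ)) ∧
      |e2 (cT b) - e2 (cT b')| ≤ 16 / (1 + ((pw v).length : ℝ)) := by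
  classical
  rcases Nat.eq_zero_or_pos (pw v).length with h0 | h0
  · obtain ⟨h1, h2⟩ := e_bound (cb_cT_mem b)
    obtain ⟨h3, h4⟩ := e_bound (cb_cT_mem b')
    rw [h0]
    constructor
    · refine (abs_sub _ _).trans ?_
      norm_num
      linarith
    · refine (abs_sub _ _).trans ?_
      norm_num
      linarith
  · obtain ⟨h1, h2⟩ := e_close (cb_cT_mem b) (cb_cT_mem b') ((pw v).length - 1)
      (fun l hl => by
        rw [(cb_star hb).2.2.2.2 l (by omega), (cb_star hb').2.2.2.2 l (by omega)])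
    have h3 : (((pw v).length - 1 : ℕ) : ℝ) + 1 = (pw v).length := by
      rw [Nat.cast_sub h0]
      push_cast
      ring
    rw [h3] at h1 h2
    have h4 : (1 : ℝ) ≤ (pw v).length := by exact_mod_cast h0
    have h5 : 8 / ((pw v).length : ℝ) ≤ 16 / (1 + ((pw v).length : ℝ)) := by
      rw [div_le_div_iff₀ (by linarith) (by linarith)]
      linarith
    exact ⟨h1.trans h5, h2.trans h5⟩

theorem cb_zet {q : F2 × ℤ} {p p' : Tree × ℝ} (hp : p ∈ cell q) (hp' : p' ∈ cell q) :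
    ‖zet p - zet p'‖ ≤ 8 / (1 + ((pw q.1).length : ℝ)) := by
  obtain ⟨hb, hn1, hn2⟩ := hp
  obtain ⟨hb', hn1', hn2'⟩ := hp'
  obtain ⟨a1, a2, a3, a4, -⟩ := cb_star hb
  obtain ⟨b1, b2, b3, b4, -⟩ := cb_star hb'
  set d : ℝ := ((pw q.1).length : ℝ) with hd
  have hd0 : 0 ≤ d := by positivity
  have hre : |(zet p - zet p').re| ≤ 2 / (1 + d) := by
    show |Real.arsinh (xT p.1 + 1/2) - Real.arsinh (xT p'.1 + 1/2)| ≤ _
    rcases Nat.eq_zero_or_pos (pw q.1).length with h0 | h0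
    · have hd' : d = 0 := by rw [hd, h0]; simp
      rw [hd']
      refine (cb_arsinh_lip _ _).trans ?_
      rw [abs_le] at a2 b2 ⊢
      constructor <;> linarith [a2.1, a2.2, b2.1, b2.2]
    · rw [a1 h0, b1 h0]
      simp only [sub_self, abs_zero]
      positivity
  have him : |(zet p - zet p').im| ≤ 6 / (1 + d) := by
    show |Real.arsinh (p.2 / (1 + sT p.1)) - Real.arsinh (p'.2 / (1 + sT p'.1))| ≤ _
    have hm : 0 < (1 + d) / 2 := by positivity
    rw [abs_le] at a3 b3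
    have hA : (1 + d) / 2 ≤ 1 + sT p.1 := by
      rcases le_total d 1 with h | h
      · linarith
      · linarith [a3.1]
    have hB : (1 + d) / 2 ≤ 1 + sT p'.1 := by
      rcases le_total d 1 with h | h
      · linarith
      · linarith [b3.1]
    have h1 := cb_arsinh_lip (p.2 / (1 + sT p.1)) (p'.2 / (1 + sT p.1))
    have h2 := cb_arsinh_div p'.2 hm hA hB
    have h3 : |p.2 / (1 + sT p.1) - p'.2 / (1 + sT p.1)| ≤ 2 / (1 + d) := by
      rw [← sub_div, abs_div, abs_of_pos (by linarith : 0 < 1 + sT p.1),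
        div_le_div_iff₀ (by linarith) (by linarith)]
      have h4 : |p.2 - p'.2| ≤ 1 := by
        rw [abs_le]
        constructor <;> linarith
      nlinarith [abs_nonneg (p.2 - p'.2)]
    have h5 : |(1 + sT p.1) - (1 + sT p'.1)| / ((1 + d) / 2) ≤ 4 / (1 + d) := by
      rw [div_le_div_iff₀ (by linarith) (by linarith)]
      have h6 : |(1 + sT p.1) - (1 + sT p'.1)| ≤ 2 := by
        rw [abs_le]
        constructor <;> linarith [a3.1, a3.2, b3.1, b3.2]
      nlinarith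
    calc |Real.arsinh (p.2 / (1 + sT p.1)) - Real.arsinh (p'.2 / (1 + sT p'.1))|
        ≤ |Real.arsinh (p.2 / (1 + sT p.1)) - Real.arsinh (p'.2 / (1 + sT p.1))| +
          |Real.arsinh (p'.2 / (1 + sT p.1)) - Real.arsinh (p'.2 / (1 + sT p'.1))| :=
          abs_sub_le _ _ _
      _ ≤ 2 / (1 + d) + 4 / (1 + d) := by linarith
      _ = 6 / (1 + d) := by ring
  calc ‖zet p - zet p'‖ ≤ |(zet p - zet p').re| + |(zet p - zet p').im| :=
        Complex.norm_le_abs_re_add_abs_im _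
    _ ≤ 2 / (1 + d) + 6 / (1 + d) := add_le_add hre him
    _ = 8 / (1 + d) := by ring

theorem cb_prod {a a' z z' D : ℝ} (hD : 0 < D) (hz : 0 ≤ z) (hz' : 0 ≤ z') (ha' : |a'| ≤ 2)
    (h1 : |a - a'| ≤ 16 / D) (h2 : |z - z'| ≤ 8 / D) :
    |1 / (1 + z) * a - 1 / (1 + z') * a'| ≤ 32 / (D * (1 + z)) := by
  have h3 : 1 / (1 + z) * a - 1 / (1 + z') * a' =
      (a - a') / (1 + z) + a' * ((z' - z) / ((1 + z) * (1 + z'))) := by
    field_simp
    ring
  have h4 : |(a - a') / (1 + z)| ≤ 16 / (D * (1 + z)) := by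
    rw [abs_div, abs_of_pos (by linarith : 0 < 1 + z)]
    calc |a - a'| / (1 + z) ≤ (16 / D) / (1 + z) := by gcongr
      _ = _ := by rw [div_div]
  have h5 : |a' * ((z' - z) / ((1 + z) * (1 + z')))| ≤ 16 / (D * (1 + z)) := by
    rw [abs_mul, abs_div, abs_of_pos (by positivity : 0 < (1 + z) * (1 + z')), abs_sub_comm z' z]
    calc |a'| * (|z - z'| / ((1 + z) * (1 + z'))) ≤ 2 * ((8 / D) / ((1 + z) * 1)) := by
          gcongr
          linarith
      _ = 16 / (D * (1 + z)) := by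
          field_simp
          norm_num
  rw [h3]
  calc |(a - a') / (1 + z) + a' * ((z' - z) / ((1 + z) * (1 + z')))|
      ≤ |(a - a') / (1 + z)| + |a' * ((z' - z) / ((1 + z) * (1 + z')))| := abs_add_le _ _
    _ ≤ 16 / (D * (1 + z)) + 16 / (D * (1 + z)) := add_le_add h4 h5
    _ = _ := by ring

/-- variation on a cell -/
theorem cell_bound {w : ℝ} (hw : |w| ≤ 1) : ∃ C : ℝ, 0 < C ∧ ∀ (q : F2 × ℤ), ∀ p ∈ cell q, ∀ p' ∈ cell q,
    dist (Dw w p) (Dw w p') ≤ C / ((1 + (pw q.1).length) * (1 + ‖zet p‖)) := by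
  refine ⟨32, by norm_num, ?_⟩
  intro q p hp p' hp'
  have hz := cb_zet hp hp'
  have hD : 0 < 1 + ((pw q.1).length : ℝ) := by positivity
  have hn : 0 < 1 + ‖zet p‖ := by positivity
  have hzz : |‖zet p‖ - ‖zet p'‖| ≤ 8 / (1 + ((pw q.1).length : ℝ)) :=
    (abs_norm_sub_norm_le _ _).trans hz
  obtain ⟨he1, he2⟩ := cb_e_close hp.1 hp'.1
  obtain ⟨hb1, hb2⟩ := e_bound (cb_cT_mem p'.1)
  rw [Prod.dist_eq, Prod.dist_eq]
  refine max_le ?_ (max_le ?_ ?_)
  · show dist (Fw w (zet p)) (Fw w (zet p')) ≤ _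
    rw [dist_eq_norm]
    refine (Fw_slow hw _ _).trans ?_
    have h1 : 1 + ‖zet p‖ ≤ 1 + max ‖zet p‖ ‖zet p'‖ := by
      have := le_max_left ‖zet p‖ ‖zet p'‖
      linarith
    calc 3 * ‖zet p - zet p'‖ / (1 + max ‖zet p‖ ‖zet p'‖)
        ≤ 3 * (8 / (1 + ((pw q.1).length : ℝ))) / (1 + ‖zet p‖) := by gcongr
      _ = 24 / ((1 + ((pw q.1).length : ℝ)) * (1 + ‖zet p‖)) := by
          field_simp
          norm_num
      _ ≤ 32 / ((1 + ((pw q.1).length : ℝ)) * (1 + ‖zet p‖)) := by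
          gcongr
          norm_num
  · show dist ((1 - ‖Fw w (zet p)‖) * e1 (cT p.1)) ((1 - ‖Fw w (zet p')‖) * e1 (cT p'.1)) ≤ _
    rw [Real.dist_eq, one_sub_norm_Fw, one_sub_norm_Fw]
    exact cb_prod hD (norm_nonneg _) (norm_nonneg _) hb1 he1 hzz
  · show dist ((1 - ‖Fw w (zet p)‖) * e2 (cT p.1)) ((1 - ‖Fw w (zet p')‖) * e2 (cT p'.1)) ≤ _
    rw [Real.dist_eq, one_sub_norm_Fw, one_sub_norm_Fw]
    exact cb_prod hD (norm_nonneg _) (norm_nonneg _) hb2 he2 hzz

theorem cb_sinh_bound {y R : ℝ} (h : |Real.arsinh y| ≤ R) : |y| ≤ Real.sinh R := by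
  have h1 : |y| = Real.sinh |Real.arsinh y| := by
    rcases le_total 0 y with hy | hy
    · rw [abs_of_nonneg hy, abs_of_nonneg (Real.arsinh_nonneg_iff.2 hy), Real.sinh_arsinh]
    · rw [abs_of_nonpos hy, abs_of_nonpos (Real.arsinh_nonpos_iff.2 hy), Real.sinh_neg,
        Real.sinh_arsinh]
  rw [h1]
  exact Real.sinh_le_sinh.2 h

/-- cells go to infinity -/
theorem cell_large (R : ℝ) :
    {q : F2 × ℤ | ∃ p ∈ cell q, (1 + ((pw q.1).length : ℝ)) * (1 + ‖zet p‖) ≤ R}.Finite := by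
  refine ((finite_bounded ⌈R⌉₊ ⌈Real.sinh R + 2⌉).prod
    (Set.finite_Icc (-⌈(2 + R) * Real.sinh R + 1⌉) ⌈(2 + R) * Real.sinh R + 1⌉)).subset ?_
  rintro ⟨v, n⟩ ⟨p, ⟨hb, hn1, hn2⟩, hR⟩
  obtain ⟨-, a2, a3, a4, -⟩ := cb_star hb
  simp only at a2 a3 a4 hR hn1 hn2
  set d : ℝ := ((pw v).length : ℝ) with hd
  have hd0 : 0 ≤ d := by positivity
  have hz0 := norm_nonneg (zet p)
  have hdR : d ≤ R := by nlinarith
  have hzR : ‖zet p‖ ≤ R := by nlinarith
  have hre : |Real.arsinh (xT p.1 + 1/2)| ≤ R := (Complex.abs_re_le_norm (zet p)).trans hzR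
  have him : |Real.arsinh (p.2 / (1 + sT p.1))| ≤ R := (Complex.abs_im_le_norm (zet p)).trans hzR
  have h1 := cb_sinh_bound hre
  have h2 := cb_sinh_bound him
  have hS : 0 ≤ Real.sinh R := (abs_nonneg _).trans h1
  rw [abs_le] at a2 a3 h1
  rw [abs_div, abs_of_pos (by linarith : 0 < 1 + sT p.1), div_le_iff₀ (by linarith)] at h2
  have h3 : |p.2| ≤ (2 + R) * Real.sinh R := by
    refine h2.trans ?_
    rw [mul_comm]
    apply mul_le_mul_of_nonneg_right _ hS
    linarith [a3.2]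
  rw [abs_le] at h3
  refine ⟨⟨?_, ?_⟩, ?_, ?_⟩
  · show (pw v).length ≤ ⌈R⌉₊
    have : ((pw v).length : ℝ) ≤ (⌈R⌉₊ : ℝ) := hdR.trans (Nat.le_ceil R)
    exact_mod_cast this
  · show |kap v| ≤ ⌈Real.sinh R + 2⌉
    have h4 : |(kap v : ℝ)| ≤ Real.sinh R + 2 := by
      rw [abs_le]
      constructor <;> linarith [a2.1, a2.2, h1.1, h1.2]
    have h5 : ((|kap v| : ℤ) : ℝ) ≤ (⌈Real.sinh R + 2⌉ : ℝ) := by
      rw [Int.cast_abs]
      exact h4.trans (Int.le_ceil _)
    exact_mod_cast h5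
  · show -⌈(2 + R) * Real.sinh R + 1⌉ ≤ n
    have h5 : ((-⌈(2 + R) * Real.sinh R + 1⌉ : ℤ) : ℝ) ≤ (n : ℝ) := by
      push_cast
      have := Int.le_ceil ((2 + R) * Real.sinh R + 1)
      linarith [h3.1]
    exact_mod_cast h5
  · show n ≤ ⌈(2 + R) * Real.sinh R + 1⌉
    have h5 : (n : ℝ) ≤ (⌈(2 + R) * Real.sinh R + 1⌉ : ℝ) := by
      have := Int.le_ceil ((2 + R) * Real.sinh R + 1)
      linarith [h3.2]
    exact_mod_cast h5

theorem cells_null {w : ℝ} (hw : |w| ≤ 1) (ε : ℝ) (hε : 0 < ε) :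
    {q : F2 × ℤ | ∃ p ∈ cell q, ∃ p' ∈ cell q, ε ≤ dist (Dw w p) (Dw w p')}.Finite := by
  obtain ⟨C, hC, h⟩ := cell_bound hw
  refine (cell_large (C / ε)).subset ?_
  rintro q ⟨p, hp, p', hp', hdist⟩
  refine ⟨p, hp, ?_⟩
  have h1 := hdist.trans (h q p hp p' hp')
  have hpos : 0 < (1 + ((pw q.1).length : ℝ)) * (1 + ‖zet p‖) := by positivity
  rw [le_div_iff₀ hpos] at h1
  rw [le_div_iff₀ hε]
  linarith

end Pool.Agent.Helper376.CL
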