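import Mathlib
import Pool.Agent.Helper376.CL.XSDefs
import Pool.Agent.Helper376.CL.Pg
import Pool.Agent.Helper376.CL.FwLem

set_option maxHeartbeats 4000000
set_option synthInstance.maxHeartbeats 400000

namespace Pool.Agent.Helper376.CL

open Set Topology

theorem continuous_Ha : Continuous (Function.uncurry Ha) := by
  have h : Function.uncurry Ha = fun q : (ℂ × (List A → ℝ)) × ℝ =>
      (q.1.1, fun l => min (q.1.2 l) ((1 - ‖q.1.1‖) * prof l.length q.2)) := rfl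
  rw [h]
  refine Continuous.prodMk (by fun_prop) (continuous_pi fun l => ?_)
  unfold prof
  fun_prop

theorem continuous_Hb : Continuous (Function.uncurry Hb) := by
  have h : Function.uncurry Hb = fun q : (ℂ × (List A → ℝ)) × ℝ =>
      (((1 - max 0 (‖q.1.1‖ - 1 + q.2) : ℝ) : ℂ) * q.1.1, fun l => if l = [] then
        1 - ‖((1 - max 0 (‖q.1.1‖ - 1 + q.2) : ℝ) : ℂ) * q.1.1‖ else
    min (q.1.2 l) (((l.length : ℝ) + 1) * max 0 ((1 - ‖q.1.1‖) - l.length *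
      min (1 - ‖q.1.1‖) q.2))) := rfl
  rw [h]
  have h1 : Continuous fun q : (ℂ × (List A → ℝ)) × ℝ =>
      (((1 - max 0 (‖q.1.1‖ - 1 + q.2) : ℝ) : ℂ) * q.1.1) := by
    refine Continuous.mul (Complex.continuous_ofReal.comp ?_) (by fun_prop)
    fun_prop
  refine Continuous.prodMk h1 (continuous_pi fun l => ?_)
  by_cases hl : l = []
  · simp only [if_pos hl]
    exact continuous_const.sub h1.norm
  · simp only [if_neg hl]
    fun_prop

theorem prof_nonneg_HabLem (n : ℕ) (lam : ℝ) : 0 ≤ prof n lam := by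
  unfold prof
  exact mul_nonneg (by positivity) (le_max_left _ _)

theorem prof_zero_left (lam : ℝ) : prof 0 lam = 1 := by
  simp [prof]

theorem tr_root_HabLem (lam : ℝ) : tr root lam = root := by
  funext l
  unfold tr root
  by_cases hl : l = []
  · subst hl
    simp [prof_zero_left]
  · simp only [if_neg hl]
    exact min_eq_left (prof_nonneg_HabLem _ _)

theorem Ha_snd {p : ℂ × (List A → ℝ)} (hr : ‖p.1‖ ≤ 1) {c : List A → ℝ}
    (hc : p.2 = (1 - ‖p.1‖) • c) (t : ℝ) : (Ha p t).2 = (1 - ‖p.1‖) • tr c t := by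
  funext l
  change min (p.2 l) ((1 - ‖p.1‖) * prof l.length t) = (1 - ‖p.1‖) * min (c l) (prof l.length t)
  rw [hc]
  change min ((1 - ‖p.1‖) * c l) ((1 - ‖p.1‖) * prof l.length t) = _
  rw [mul_min_of_nonneg _ _ (by linarith)]

theorem Ha_mem {w : ℝ} {p : ℂ × (List A → ℝ)} (hp : p ∈ XS w) {t : ℝ} (h0 : 0 ≤ t) (h1 : t ≤ 1) :
    Ha p t ∈ XS w := by
  obtain ⟨hr, c, hc, hpc, h3⟩ := hp
  refine ⟨hr, tr c t, tr_mem hc h0 h1, Ha_snd hr hpc t, ?_⟩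
  rcases h3 with h3 | h3 | h3
  · exact Or.inl h3
  · right; left
    rw [h3, tr_root_HabLem]
  · exact Or.inr (Or.inr h3)

/-- `Hb` when nothing is pushed on the disc -/
theorem Hb_case1 {p : ℂ × (List A → ℝ)} {t : ℝ} (h0 : 0 ≤ t) (h : ‖p.1‖ ≤ 1 - t)
    {c : List A → ℝ} (hcP : c ∈ Pg) (hc : p.2 = (1 - ‖p.1‖) • c) (hr : ‖p.1‖ < 1) :
    Hb p t = (p.1, (1 - ‖p.1‖) • tr c (t / (1 - ‖p.1‖))) := by
  have hm : max 0 (‖p.1‖ - 1 + t) = 0 := max_eq_left (by linarith)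
  have hz : ((1 - max 0 (‖p.1‖ - 1 + t) : ℝ) : ℂ) * p.1 = p.1 := by
    rw [hm]; simp
  have hmin : min (1 - ‖p.1‖) t = t := min_eq_right (by linarith)
  have hpos : 0 < 1 - ‖p.1‖ := by linarith
  refine Prod.ext hz ?_
  funext l
  change (if l = [] then 1 - ‖((1 - max 0 (‖p.1‖ - 1 + t) : ℝ) : ℂ) * p.1‖ else
    min (p.2 l) (((l.length : ℝ) + 1) * max 0 ((1 - ‖p.1‖) - l.length * min (1 - ‖p.1‖) t))) =
    (1 - ‖p.1‖) * min (c l) (prof l.length (t / (1 - ‖p.1‖)))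
  rw [hz, hmin]
  by_cases hl : l = []
  · subst hl
    rw [if_pos rfl]
    have h5 : prof ([] : List A).length (t / (1 - ‖p.1‖)) = 1 := prof_zero_left _
    rw [h5, hcP.1, min_self, mul_one]
  · rw [if_neg hl, hc]
    change min ((1 - ‖p.1‖) * c l) _ = _
    rw [mul_min_of_nonneg _ _ hpos.le]
    congr 1
    unfold prof
    have h6 : (1 - ‖p.1‖) * ((l.length + 1 : ℝ) * max 0 (1 - l.length * (t / (1 - ‖p.1‖)))) =
        (l.length + 1 : ℝ) * ((1 - ‖p.1‖) * max 0 (1 - l.length * (t / (1 - ‖p.1‖)))) := by ring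
    rw [h6, mul_max_of_nonneg _ _ hpos.le, mul_zero]
    congr 2
    field_simp

theorem Hb_case2 {p : ℂ × (List A → ℝ)} {t : ℝ} (h : 1 - t < ‖p.1‖)
    {c : List A → ℝ} (hcP : c ∈ Pg) (hc : p.2 = (1 - ‖p.1‖) • c) (hr : ‖p.1‖ ≤ 1) :
    (Hb p t).2 = (1 - ‖(Hb p t).1‖) • root := by
  have hmin : min (1 - ‖p.1‖) t = 1 - ‖p.1‖ := min_eq_left (by linarith)
  funext l
  change (if l = [] then 1 - ‖(Hb p t).1‖ else
    min (p.2 l) (((l.length : ℝ) + 1) * max 0 ((1 - ‖p.1‖) - l.length * min (1 - ‖p.1‖) t))) =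
    (1 - ‖(Hb p t).1‖) * root l
  unfold root
  by_cases hl : l = []
  · rw [if_pos hl, if_pos hl, mul_one]
  · rw [if_neg hl, if_neg hl, mul_zero, hmin, hc]
    have h1 : (1 : ℝ) ≤ l.length := by
      have : 1 ≤ l.length := List.length_pos_iff.2 hl
      exact_mod_cast this
    have h2 : (1 - ‖p.1‖) - l.length * (1 - ‖p.1‖) ≤ 0 := by
      have : 0 ≤ (l.length - 1 : ℝ) * (1 - ‖p.1‖) := mul_nonneg (by linarith) (by linarith)
      linarith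
    rw [max_eq_left h2, mul_zero]
    refine min_eq_right ?_
    change 0 ≤ (1 - ‖p.1‖) * c l
    exact mul_nonneg (by linarith) (hcP.2.1 l).1

theorem Hb_fst_norm {p : ℂ × (List A → ℝ)} {t : ℝ} (h : 1 - t < ‖p.1‖) (hr : ‖p.1‖ ≤ 1)
    (h1 : t ≤ 1) : ‖(Hb p t).1‖ = (2 - ‖p.1‖ - t) * ‖p.1‖ := by
  have hm : max 0 (‖p.1‖ - 1 + t) = ‖p.1‖ - 1 + t := max_eq_right (by linarith)
  change ‖((1 - max 0 (‖p.1‖ - 1 + t) : ℝ) : ℂ) * p.1‖ = _
  rw [hm, norm_mul, Complex.norm_real, Real.norm_eq_abs, abs_of_nonneg (by linarith)]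
  ring

/-- `Hb` for `t = 0` -/
theorem Hb_zero {w : ℝ} {p : ℂ × (List A → ℝ)} (hp : p ∈ XS w) : Hb p 0 = p := by
  obtain ⟨hr, c, hc, hpc, h3⟩ := hp
  have hm : max 0 (‖p.1‖ - 1 + 0) = 0 := max_eq_left (by linarith)
  have hz : ((1 - max 0 (‖p.1‖ - 1 + 0) : ℝ) : ℂ) * p.1 = p.1 := by
    rw [hm]; simp
  refine Prod.ext hz ?_
  funext l
  change (if l = [] then 1 - ‖((1 - max 0 (‖p.1‖ - 1 + 0) : ℝ) : ℂ) * p.1‖ else
    min (p.2 l) (((l.length : ℝ) + 1) * max 0 ((1 - ‖p.1‖) - l.length * min (1 - ‖p.1‖) 0))) =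
    p.2 l
  rw [hz]
  by_cases hl : l = []
  · subst hl
    rw [if_pos rfl, hpc]
    change _ = (1 - ‖p.1‖) * c []
    rw [hc.1, mul_one]
  · rw [if_neg hl]
    have h4 : min (1 - ‖p.1‖) 0 = 0 := min_eq_right (by linarith)
    rw [h4, mul_zero, sub_zero, max_eq_right (by linarith)]
    refine min_eq_left ?_
    rw [hpc]
    change (1 - ‖p.1‖) * c l ≤ _
    have h5 := (hc.2.1 l).2
    have h6 : (0 : ℝ) ≤ l.length := Nat.cast_nonneg _
    have h7 : 0 ≤ 1 - ‖p.1‖ := by linarith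
    have h8 : (1 - ‖p.1‖) * c l ≤ (1 - ‖p.1‖) * 1 := mul_le_mul_of_nonneg_left h5 h7
    have h9 : 0 ≤ (l.length : ℝ) * (1 - ‖p.1‖) := mul_nonneg h6 h7
    linarith

theorem Hb_mem {w : ℝ} {p : ℂ × (List A → ℝ)} (hp : p ∈ XS w) {t : ℝ} (h0 : 0 ≤ t) (h1 : t ≤ 1) :
    Hb p t ∈ XS w := by
  have hp' := hp
  obtain ⟨hr, c, hc, hpc, h3⟩ := hp
  rcases le_or_gt ‖p.1‖ (1 - t) with h | h
  · rcases hr.lt_or_eq with hr1 | hr1
    · rw [Hb_case1 h0 h hc hpc hr1]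
      refine ⟨hr, _, tr_mem hc (div_nonneg h0 (by linarith))
        ((div_le_one (by linarith)).2 (by linarith)), rfl, ?_⟩
      rcases h3 with h3 | h3 | h3
      · exact Or.inl h3
      · right; left
        rw [h3, tr_root_HabLem]
      · exact Or.inr (Or.inr h3)
    · have ht : t = 0 := by linarith
      rw [ht, Hb_zero hp']
      exact hp'
  · have hn := Hb_fst_norm h hr h1
    have hn1 : ‖(Hb p t).1‖ ≤ 1 := by
      rw [hn]
      have h4 : 0 ≤ ‖p.1‖ := norm_nonneg _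
      have h5 : (2 - ‖p.1‖ - t) * ‖p.1‖ ≤ 1 * ‖p.1‖ :=
        mul_le_mul_of_nonneg_right (by linarith) h4
      linarith
    exact ⟨hn1, root, root_mem, Hb_case2 h hc hpc hr, Or.inr (Or.inl rfl)⟩

theorem Ha_zero {w : ℝ} {p : ℂ × (List A → ℝ)} (hp : p ∈ XS w) : Ha p 0 = p := by
  obtain ⟨hr, c, hc, hpc, h3⟩ := hp
  refine Prod.ext rfl ?_
  rw [Ha_snd hr hpc 0, tr_zero hc, hpc]

theorem Hb_norm_lt {w : ℝ} {p : ℂ × (List A → ℝ)} (hp : p ∈ XS w) {t : ℝ} (h0 : 0 < t)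
    (h1 : t ≤ 1) : ‖(Hb p t).1‖ < 1 := by
  obtain ⟨hr, c, hc, hpc, h3⟩ := hp
  rcases le_or_gt ‖p.1‖ (1 - t) with h | h
  · rw [Hb_case1 h0.le h hc hpc (by linarith)]
    change ‖p.1‖ < 1
    linarith
  · rw [Hb_fst_norm h hr h1]
    have h4 : 0 ≤ 2 - ‖p.1‖ - t := by linarith
    have h5 : (2 - ‖p.1‖ - t) * ‖p.1‖ ≤ (2 - ‖p.1‖ - t) * 1 :=
      mul_le_mul_of_nonneg_left hr h4
    linarith

theorem Ha_fin {w : ℝ} {p : ℂ × (List A → ℝ)} (hp : p ∈ XS w) {t : ℝ} (h0 : 0 < t)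
    (h1 : t ≤ 1) : IsFin (Ha p t).2 := by
  obtain ⟨hr, c, hc, hpc, h3⟩ := hp
  obtain ⟨n, hn⟩ := tr_isFin hc h0 h1
  refine ⟨n, fun l hl => ?_⟩
  rw [Ha_snd hr hpc t]
  change (1 - ‖p.1‖) * tr c t l = 0
  rw [hn l hl, mul_zero]

theorem Hb_fin {w : ℝ} {p : ℂ × (List A → ℝ)} (hp : p ∈ XS w) (hf : IsFin p.2) {t : ℝ}
    (h0 : 0 ≤ t) (h1 : t ≤ 1) : IsFin (Hb p t).2 := by
  obtain ⟨n, hn⟩ := hf
  refine ⟨n + 1, fun l hl => ?_⟩
  have hl' : l ≠ [] := by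
    rintro rfl
    simp at hl
  change (if l = [] then 1 - ‖(Hb p t).1‖ else
    min (p.2 l) (((l.length : ℝ) + 1) * max 0 ((1 - ‖p.1‖) - l.length * min (1 - ‖p.1‖) t))) = 0
  rw [if_neg hl', hn l (by omega)]
  exact min_eq_left (mul_nonneg (by positivity) (le_max_left _ _))

end Pool.Agent.Helper376.CL
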