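import Mathlib
import Pool.Agent.Helper376.CL.XSDefs
import Pool.Agent.Helper376.CL.Pg
import Pool.Agent.Helper376.CL.FwLem

set_option maxHeartbeats 4000000
set_option synthInstance.maxHeartbeats 400000

namespace Pool.Agent.Helper376.CL

open Set Topology

theorem continuousOn_xpos (w : ℝ) : ContinuousOn (xpos w) {z | ‖z‖ < 1} := by
  unfold xpos
  exact (Real.continuous_sinh.comp_continuousOn
    (Complex.continuous_re.comp_continuousOn (continuousOn_Gw w))).sub continuousOn_const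

theorem isCompact_XS (w : ℝ) : IsCompact (XS w) := by
  have hZ : IsClosed (Set.range (fun k : ℤ => (k : ℝ))) := Int.isClosedEmbedding_coe_real.isClosed_range
  have hU : IsOpen {z : ℂ | ‖z‖ < 1} := isOpen_lt continuous_norm continuous_const
  have hT : IsOpen ({z : ℂ | ‖z‖ < 1} ∩ xpos w ⁻¹' (Set.range (fun k : ℤ => (k : ℝ)))ᶜ) :=
    (continuousOn_xpos w).isOpen_inter_preimage hU hZ.isOpen_compl
  obtain ⟨T, hTd⟩ : ∃ T : Set ℂ, T = {z : ℂ | ‖z‖ < 1} ∩ xpos w ⁻¹' (Set.range (fun k : ℤ => (k : ℝ)))ᶜ :=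
    ⟨_, rfl⟩
  rw [← hTd] at hT
  have hclosed : IsClosed ((Prod.fst ⁻¹' Tᶜ ∪ Prod.snd ⁻¹' {root}) : Set (ℂ × (List A → ℝ))) :=
    (hT.isClosed_compl.preimage continuous_fst).union (isClosed_singleton.preimage continuous_snd)
  have hS : IsCompact (((Metric.closedBall (0 : ℂ) 1) ×ˢ Pg) ∩
      ((Prod.fst ⁻¹' Tᶜ ∪ Prod.snd ⁻¹' {root}) : Set (ℂ × (List A → ℝ)))) :=
    ((isCompact_closedBall 0 1).prod isCompact_Pg).inter_right hclosed
  have hcont : Continuous (fun p : ℂ × (List A → ℝ) => (p.1, (1 - ‖p.1‖) • p.2)) := by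
    fun_prop
  have := hS.image hcont
  convert this using 1
  ext ⟨z, y⟩
  constructor
  · rintro ⟨h1, c, hc, h2, h3⟩
    simp only at h1 h2 h3
    refine ⟨(z, c), ⟨⟨by simpa using h1, hc⟩, ?_⟩, by simp [h2]⟩
    by_cases hr : c = root
    · exact Or.inr hr
    · left
      intro hz
      simp only [hTd, mem_inter_iff, mem_preimage, mem_compl_iff, mem_range, not_exists] at hz
      rcases h3 with h3 | h3 | ⟨k, hk⟩
      · exact absurd hz.1 (by simp [h3])
      · exact hr h3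
      · exact hz.2 k hk.symm
  · rintro ⟨⟨z', c⟩, ⟨⟨h1, h2⟩, h3⟩, h4⟩
    simp only [Prod.mk.injEq] at h4
    obtain ⟨rfl, rfl⟩ := h4
    have hn : ‖z'‖ ≤ 1 := by simpa using h1
    refine ⟨hn, c, h2, rfl, ?_⟩
    rcases h3 with h3 | h3
    · by_cases hz : ‖z'‖ = 1
      · exact Or.inl hz
      · right; right
        have hlt : ‖z'‖ < 1 := lt_of_le_of_ne hn hz
        by_contra hcon
        push Not at hcon
        apply h3
        rw [hTd]
        refine ⟨hlt, ?_⟩
        rintro ⟨k, hk⟩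
        exact hcon k hk.symm
    · exact Or.inr (Or.inl h3)

theorem isOpen_XO (w : ℝ) : IsOpen (XO w) := by
  apply isOpen_lt
  · fun_prop
  · exact continuous_const

theorem isFin_smul {a : ℝ} (ha : 0 < a) (c : List A → ℝ) : IsFin (a • c) ↔ IsFin c := by
  unfold IsFin
  simp [ha.ne']

theorem isOpen_XF (w : ℝ) : IsOpen (XF w) := by
  have h : XF w = ⋃ n : ℕ, ({p : ↥(XS w) | ‖p.1.1‖ < 1} ∩
      ⋂ l ∈ {l : List A | l.length = n}, {p : ↥(XS w) | p.1.2 l < 1 - ‖p.1.1‖}) := by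
    ext ⟨⟨z, y⟩, hp⟩
    simp only [XF, mem_ofPred_eq, mem_iUnion, mem_inter_iff, mem_iInter]
    obtain ⟨h1, c, hc, h2, h3⟩ := hp
    simp only at h1 h2 h3
    subst h2
    constructor
    · rintro ⟨hz, hf⟩
      have ha : 0 < 1 - ‖z‖ := by linarith
      obtain ⟨n, hn⟩ := (isFin_iff hc).1 ((isFin_smul ha c).1 hf)
      refine ⟨n, hz, fun l hl => ?_⟩
      have := hn l hl
      simp only [Pi.smul_apply, smul_eq_mul]
      nlinarith
    · rintro ⟨n, hz, hn⟩
      have ha : 0 < 1 - ‖z‖ := by linarith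
      refine ⟨hz, (isFin_smul ha c).2 ((isFin_iff hc).2 ⟨n, fun l hl => ?_⟩)⟩
      have := hn l hl
      simp only [Pi.smul_apply, smul_eq_mul] at this
      by_contra hcon
      push Not at hcon
      nlinarith
  rw [h]
  refine isOpen_iUnion fun n => ?_
  refine (isOpen_XO w).inter ?_
  apply Set.Finite.isOpen_biInter (List.finite_length_eq A n)
  intro l _
  apply isOpen_lt
  · exact (continuous_apply l).comp (continuous_snd.comp continuous_subtype_val)
  · fun_prop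

/-- parametrisation of the part inside the disc -/
theorem exists_homeo_XO (w : ℝ) : ∃ h : (↥That × ℝ) ≃ₜ ↥(XO w),
    ∀ (p : ↥That) (σ : ℝ), ((h (p, σ)).1.1 : ℂ × (List A → ℝ)) =
      (Fw w ⟨Real.arsinh (p.1.1 + 1/2), σ⟩,
        (1 - ‖Fw w ⟨Real.arsinh (p.1.1 + 1/2), σ⟩‖) • p.1.2) := by
  have hx : ∀ (x σ : ℝ), xpos w (Fw w ⟨Real.arsinh (x + 1/2), σ⟩) = x := by
    intro x σ
    unfold xpos
    rw [Gw_Fw, Real.sinh_arsinh]; ring
  have hmem : ∀ (p : ↥That) (σ : ℝ), (Fw w ⟨Real.arsinh (p.1.1 + 1/2), σ⟩,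
        (1 - ‖Fw w ⟨Real.arsinh (p.1.1 + 1/2), σ⟩‖) • p.1.2) ∈ XS w := by
    rintro ⟨⟨x, c⟩, hc, h1⟩ σ
    refine ⟨(norm_Fw_lt w _).le, c, hc, rfl, Or.inr ?_⟩
    simp only at h1 ⊢
    rw [hx]
    exact h1
  have hmem2 : ∀ q : ↥(XO w), (xpos w q.1.1.1, (1 - ‖q.1.1.1‖)⁻¹ • q.1.1.2) ∈ That := by
    rintro ⟨⟨⟨z, y⟩, h1, c, hc, h2, h3⟩, hz⟩
    simp only [XO, mem_ofPred_eq] at hz
    simp only at h1 h2 h3 ⊢
    subst h2
    have ha : (1 - ‖z‖) ≠ 0 := by intro h; linarith
    rw [smul_smul, inv_mul_cancel₀ ha, one_smul]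
    refine ⟨hc, ?_⟩
    rcases h3 with h3 | h3 | h3
    · exact absurd h3 (by intro h; linarith)
    · exact Or.inl h3
    · exact Or.inr h3
  have hmk : ∀ z : ℂ, (⟨Real.arsinh (xpos w z + 1/2), (Gw w z).im⟩ : ℂ) = Gw w z := by
    intro z
    apply Complex.ext
    · show Real.arsinh (Real.sinh (Gw w z).re - 1/2 + 1/2) = _
      rw [sub_add_cancel, Real.arsinh_sinh]
    · rfl
  refine ⟨{
    toFun := fun q => ⟨⟨_, hmem q.1 q.2⟩, norm_Fw_lt w _⟩
    invFun := fun q => (⟨_, hmem2 q⟩, (Gw w q.1.1.1).im)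
    left_inv := ?_
    right_inv := ?_
    continuous_toFun := ?_
    continuous_invFun := ?_ }, fun p σ => rfl⟩
  · rintro ⟨⟨⟨x, c⟩, hc⟩, σ⟩
    have ha : (1 - ‖Fw w ⟨Real.arsinh (x + 1/2), σ⟩‖) ≠ 0 := by
      have := norm_Fw_lt w ⟨Real.arsinh (x + 1/2), σ⟩
      intro h; linarith
    apply Prod.ext
    · apply Subtype.ext
      apply Prod.ext
      · exact hx x σ
      · show (1 - ‖Fw w ⟨Real.arsinh (x + 1/2), σ⟩‖)⁻¹ •
          ((1 - ‖Fw w ⟨Real.arsinh (x + 1/2), σ⟩‖) • c) = c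
        rw [smul_smul, inv_mul_cancel₀ ha, one_smul]
    · show (Gw w (Fw w ⟨Real.arsinh (x + 1/2), σ⟩)).im = σ
      rw [Gw_Fw]
  · rintro ⟨⟨⟨z, y⟩, hp⟩, hz⟩
    have hz' : ‖z‖ < 1 := hz
    have ha : (1 - ‖z‖) ≠ 0 := by intro h; linarith
    apply Subtype.ext
    apply Subtype.ext
    apply Prod.ext
    · show Fw w ⟨Real.arsinh (xpos w z + 1/2), (Gw w z).im⟩ = z
      rw [hmk, Fw_Gw w hz']
    · show (1 - ‖Fw w ⟨Real.arsinh (xpos w z + 1/2), (Gw w z).im⟩‖) • ((1 - ‖z‖)⁻¹ • y) = y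
      rw [hmk, Fw_Gw w hz', smul_smul, mul_inv_cancel₀ ha, one_smul]
  · have hc1 : Continuous (fun q : ↥That × ℝ =>
        Fw w ⟨Real.arsinh (q.1.1.1 + 1/2), q.2⟩) := by
      apply (continuous_Fw w).comp
      have h1 : Continuous (fun q : ↥That × ℝ => Real.arsinh (q.1.1.1 + 1/2)) := by
        apply Real.continuous_arsinh.comp
        fun_prop
      have h2 : Continuous (fun q : ↥That × ℝ => ((Real.arsinh (q.1.1.1 + 1/2), q.2) : ℝ × ℝ)) :=
        h1.prodMk continuous_snd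
      exact Complex.equivRealProdCLM.symm.continuous.comp h2
    apply Continuous.subtype_mk
    apply Continuous.subtype_mk
    apply hc1.prodMk
    have hc2 : Continuous (fun q : ↥That × ℝ => q.1.1.2) :=
      continuous_snd.comp (continuous_subtype_val.comp continuous_fst)
    exact (continuous_const.sub hc1.norm).smul hc2
  · have hv : Continuous (fun q : ↥(XO w) => q.1.1.1) :=
      continuous_fst.comp (continuous_subtype_val.comp continuous_subtype_val)
    have hv2 : Continuous (fun q : ↥(XO w) => q.1.1.2) :=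
      continuous_snd.comp (continuous_subtype_val.comp continuous_subtype_val)
    apply Continuous.prodMk
    · apply Continuous.subtype_mk
      apply Continuous.prodMk
      · exact (continuousOn_xpos w).comp_continuous hv (fun q => q.2)
      · have hi : Continuous (fun q : ↥(XO w) => (1 - ‖q.1.1.1‖)⁻¹) := by
          apply Continuous.inv₀
          · exact continuous_const.sub hv.norm
          · intro q
            have : ‖q.1.1.1‖ < 1 := q.2
            intro h; linarith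
        exact hi.smul hv2
    · exact Complex.continuous_im.comp ((continuousOn_Gw w).comp_continuous hv (fun q => q.2))

end Pool.Agent.Helper376.CL
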