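import Mathlib
import Pool.Agent.Helper376.CL.XSDefs
import Pool.Agent.Helper376.CL.Pg
import Pool.Agent.Helper376.CL.FwLem
import Pool.Agent.Helper376.CL.XSLem
import Pool.Agent.Helper376.CL.TreeDefs
import Pool.Agent.Helper376.CL.TreeLem
import Pool.Agent.Helper376.CL.WordLem
import Pool.Agent.Helper376.CL.THLem

set_option maxHeartbeats 4000000
set_option synthInstance.maxHeartbeats 400000

namespace Pool.Agent.Helper376.CL

open Set Topology

theorem isFin_smul_iff {r : ℝ} (hr : r ≠ 0) (c : List A → ℝ) : IsFin (r • c) ↔ IsFin c := by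
  unfold IsFin
  simp only [Pi.smul_apply, smul_eq_mul, mul_eq_zero, hr, false_or]

theorem sT_nonneg (b : Tree) : 0 ≤ sT b := by
  obtain ⟨v, x, t, h0, h1, h⟩ := b.2
  unfold sT
  rw [lin_ptf _ b v x t h]
  have h2 : 0 ≤ 1 - t := by linarith
  positivity

theorem exists_j (w : ℝ) : ∃ j : Tree × ℝ → ↥(XS w), IsOpenEmbedding j ∧ range j = XF w ∧
    ∀ p, ((j p).1 : ℂ × (List A → ℝ)) = (Fw w (zet p), (1 - ‖Fw w (zet p)‖) • cT p.1) := by
  obtain ⟨hO, hOf⟩ := exists_homeo_XO w
  obtain ⟨h0, h0f⟩ := exists_homeo_tree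
  have hpos : ∀ b : Tree, 0 < 1 + sT b := fun b => by linarith [sT_nonneg b]
  have hsc : Continuous sT := continuous_lin _
  have hsc' : Continuous fun p : Tree × ℝ => 1 + sT p.1 :=
    continuous_const.add (hsc.comp continuous_fst)
  let e1 : Tree × ℝ ≃ₜ Tree × ℝ :=
    { toFun := fun p => (p.1, Real.arsinh (p.2 / (1 + sT p.1)))
      invFun := fun p => (p.1, (1 + sT p.1) * Real.sinh p.2)
      left_inv := by
        intro p
        refine Prod.ext rfl ?_
        have := (hpos p.1).ne'
        simp only [Real.sinh_arsinh]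
        field_simp
      right_inv := by
        intro p
        refine Prod.ext rfl ?_
        have := (hpos p.1).ne'
        simp only
        rw [mul_div_cancel_left₀ _ this, Real.arsinh_sinh]
      continuous_toFun := by
        refine continuous_fst.prodMk (Real.continuous_arsinh.comp ?_)
        exact continuous_snd.div hsc' fun p => (hpos p.1).ne'
      continuous_invFun :=
        continuous_fst.prodMk (hsc'.mul (Real.continuous_sinh.comp continuous_snd)) }
  have hn : ∀ ζ : ℂ, (1 - ‖Fw w ζ‖ : ℝ) ≠ 0 := fun ζ => by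
    have := norm_Fw_lt w ζ
    linarith
  -- the finite part is open
  have hfin : ∀ (p : ↥That) (σ : ℝ), (hO (p, σ)).1 ∈ XF w ↔ IsFin p.1.2 := by
    intro p σ
    unfold XF
    rw [Set.mem_ofPred_eq, hOf p σ, isFin_smul_iff (hn _)]
    exact ⟨fun h => h.2, fun h => ⟨norm_Fw_lt _ _, h⟩⟩
  have hopen : IsOpen {p : ↥That | IsFin p.1.2} := by
    have hc : Continuous fun p : ↥That => (hO (p, (0:ℝ))).1 :=
      continuous_subtype_val.comp (hO.continuous.comp (continuous_id.prodMk continuous_const))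
    have h1 := (isOpen_XF w).preimage hc
    convert h1 using 1
    ext p
    exact (hfin p 0).symm
  have hemb1 : IsOpenEmbedding (fun b : Tree => (h0 b).1) :=
    hopen.isOpenEmbedding_subtypeVal.comp h0.isOpenEmbedding
  have hemb2 : IsOpenEmbedding (Prod.map (fun b : Tree => (h0 b).1) (id : ℝ → ℝ)) :=
    hemb1.prodMap IsOpenEmbedding.id
  have hemb3 : IsOpenEmbedding (fun q : ↥(XO w) => q.1) :=
    (isOpen_XO w).isOpenEmbedding_subtypeVal
  have hemb : IsOpenEmbedding ((fun q : ↥(XO w) => q.1) ∘ hO ∘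
      (Prod.map (fun b : Tree => (h0 b).1) (id : ℝ → ℝ)) ∘ e1) :=
    hemb3.comp (hO.isOpenEmbedding.comp (hemb2.comp e1.isOpenEmbedding))
  refine ⟨_, hemb, ?_, ?_⟩
  · ext q
    constructor
    · rintro ⟨p, rfl⟩
      exact (hfin _ _).2 (h0 p.1).2
    · intro hq
      have hqO : q ∈ XO w := hq.1
      obtain ⟨⟨p, σ⟩, hp⟩ := hO.surjective ⟨q, hqO⟩
      have hq2 : (hO (p, σ)).1 = q := by rw [hp]
      have hpf : IsFin p.1.2 := by
        rw [← hfin p σ, hq2]; exact hq
      obtain ⟨b, hb⟩ := h0.surjective ⟨p, hpf⟩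
      obtain ⟨r, hr⟩ := e1.surjective (b, σ)
      refine ⟨r, ?_⟩
      simp only [Function.comp_apply]
      rw [hr]
      simp only [Prod.map_apply, id_eq, hb]
      exact hq2
  · intro p
    simp only [Function.comp_apply]
    have e : e1 p = (p.1, Real.arsinh (p.2 / (1 + sT p.1))) := rfl
    rw [e]
    simp only [Prod.map_apply, id_eq]
    rw [hOf, h0f]
    rfl

end Pool.Agent.Helper376.CL
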