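import Mathlib

set_option maxHeartbeats 4000000
set_option synthInstance.maxHeartbeats 400000

namespace Pool.Agent.Helper376.CL

open Set Topology

/-- lift on a set -/
def LiftOn {Γ : Type} [TopologicalSpace Γ] (u : Γ → ℂ) (S : Set Γ) : Prop :=
  ∃ θ : Γ → ℝ, ContinuousOn θ S ∧ ∀ x ∈ S, u x = Complex.exp (Complex.I * θ x)

theorem LiftOn.mono {Γ : Type} [TopologicalSpace Γ] {u : Γ → ℂ} {S T : Set Γ} (h : LiftOn u T)
    (hST : S ⊆ T) : LiftOn u S := by
  obtain ⟨θ, h1, h2⟩ := h
  exact ⟨θ, h1.mono hST, fun x hx => h2 x (hST hx)⟩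

theorem lift_glue {Γ : Type} [TopologicalSpace Γ] {u : Γ → ℂ} {P₁ P₂ : Set Γ}
    (h1 : LiftOn u P₁) (h2 : LiftOn u P₂) (c1 : IsClosed P₁) (c2 : IsClosed P₂)
    (hK : IsPreconnected (P₁ ∩ P₂)) (hne : (P₁ ∩ P₂).Nonempty) : LiftOn u (P₁ ∪ P₂) := by
  classical
  obtain ⟨θ₁, a1, b1⟩ := h1
  obtain ⟨θ₂, a2, b2⟩ := h2
  have key : ∀ x ∈ P₁ ∩ P₂, ∃ n : ℤ, (θ₁ x - θ₂ x) / (2 * Real.pi) = n := by
    rintro x ⟨hx1, hx2⟩
    have e : Complex.exp (Complex.I * θ₁ x) = Complex.exp (Complex.I * θ₂ x) :=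
      (b1 x hx1).symm.trans (b2 x hx2)
    rw [Complex.exp_eq_exp_iff_exists_int] at e
    obtain ⟨n, hn⟩ := e
    refine ⟨n, ?_⟩
    have h3 : ((θ₁ x - θ₂ x : ℝ) : ℂ) = ((n * (2 * Real.pi) : ℝ) : ℂ) := by
      have : Complex.I * ((θ₁ x - θ₂ x : ℝ) : ℂ) = Complex.I * ((n * (2 * Real.pi) : ℝ) : ℂ) := by
        push_cast
        linear_combination hn
      exact mul_left_cancel₀ Complex.I_ne_zero this
    have h4 : θ₁ x - θ₂ x = n * (2 * Real.pi) := by exact_mod_cast h3
    rw [h4]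
    have := Real.pi_pos
    field_simp
  set f : Γ → ℝ := fun x => (θ₁ x - θ₂ x) / (2 * Real.pi) with hf
  have hfc : ContinuousOn f (P₁ ∩ P₂) :=
    ((a1.mono inter_subset_left).sub (a2.mono inter_subset_right)).div_const _
  have hconst : ∀ x ∈ P₁ ∩ P₂, ∀ y ∈ P₁ ∩ P₂, ¬ f x < f y := by
    intro x hx y hy hlt
    obtain ⟨m, hm⟩ := key x hx
    obtain ⟨n, hn⟩ := key y hy
    have hm' : f x = m := hm
    have hn' : f y = n := hn
    rw [hm', hn'] at hlt
    have hmn : m < n := by exact_mod_cast hlt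
    have hmn1 : ((m : ℝ) + 1) ≤ n := by exact_mod_cast hmn
    have hmem : (m : ℝ) + 1 / 2 ∈ Icc (f x) (f y) := by
      rw [hm', hn']
      constructor <;> linarith
    obtain ⟨w, hw, hwe⟩ := hK.intermediate_value hx hy hfc hmem
    obtain ⟨k, hk⟩ := key w hw
    have hk' : f w = k := hk
    rw [hk'] at hwe
    have h1 : (2 * k : ℝ) = 2 * m + 1 := by linarith
    have h2 : (2 * k : ℤ) = 2 * m + 1 := by exact_mod_cast h1
    omega
  obtain ⟨x₀, hx₀⟩ := hne
  have hall : ∀ x ∈ P₁ ∩ P₂, θ₁ x = θ₂ x + f x₀ * (2 * Real.pi) := by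
    intro x hx
    have e : f x = f x₀ := le_antisymm (not_lt.1 (hconst x₀ hx₀ x hx)) (not_lt.1 (hconst x hx x₀ hx₀))
    rw [← e, hf]
    have := Real.pi_pos
    field_simp
    ring
  obtain ⟨n₀, hn₀⟩ := key x₀ hx₀
  have hn₀' : f x₀ = n₀ := hn₀
  refine ⟨fun x => if x ∈ P₁ then θ₁ x else θ₂ x + f x₀ * (2 * Real.pi), ?_, ?_⟩
  · apply ContinuousOn.union_of_isClosed _ _ c1 c2
    · apply a1.congr
      intro x hx
      simp only [if_pos hx]
    · have : ContinuousOn (fun x => θ₂ x + f x₀ * (2 * Real.pi)) P₂ := a2.add continuousOn_const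
      apply this.congr
      intro x hx
      by_cases hx1 : x ∈ P₁
      · simp only [if_pos hx1]; exact hall x ⟨hx1, hx⟩
      · simp only [if_neg hx1]
  · intro x hx
    by_cases hx1 : x ∈ P₁
    · simp only [if_pos hx1]; exact b1 x hx1
    · have hx2 : x ∈ P₂ := hx.resolve_left hx1
      simp only [if_neg hx1]
      rw [b2 x hx2, Complex.exp_eq_exp_iff_exists_int]
      refine ⟨-n₀, ?_⟩
      rw [hn₀']
      push_cast
      ring

theorem lift_local {Γ : Type} [TopologicalSpace Γ] [CompactSpace Γ] [T2Space Γ]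
    (p : Γ → unitInterval) (hp : Continuous p)
    (u : Γ → ℂ) (hu : Continuous u) (hu1 : ∀ x, ‖u x‖ = 1) (s : unitInterval)
    (hlift : ∃ θ : ↥(p ⁻¹' {s}) → ℝ, Continuous θ ∧
      ∀ x : ↥(p ⁻¹' {s}), u x = Complex.exp (Complex.I * θ x)) :
    ∃ N : Set unitInterval, IsOpen N ∧ s ∈ N ∧ LiftOn u (p ⁻¹' N) := by
  obtain ⟨θ, hθ, hθu⟩ := hlift
  have hK : IsClosed (p ⁻¹' {s}) := isClosed_singleton.preimage hp
  obtain ⟨g, hg⟩ := ContinuousMap.exists_restrict_eq hK (⟨θ, hθ⟩ : C(↥(p ⁻¹' {s}), ℝ))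
  have hgK : ∀ x (hx : x ∈ p ⁻¹' {s}), g x = θ ⟨x, hx⟩ := by
    intro x hx
    have := congrArg (fun k : C(↥(p ⁻¹' {s}), ℝ) => k ⟨x, hx⟩) hg
    exact this
  set v : Γ → ℂ := fun x => u x * Complex.exp (-(Complex.I * g x)) with hv
  have hvc : Continuous v := by
    apply hu.mul
    apply Complex.continuous_exp.comp
    exact (continuous_const.mul (Complex.continuous_ofReal.comp g.continuous)).neg
  have hv1 : ∀ x ∈ p ⁻¹' {s}, v x = 1 := by
    intro x hx
    rw [hv]
    simp only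
    rw [hθu ⟨x, hx⟩, ← hgK x hx, ← Complex.exp_add, add_neg_cancel, Complex.exp_zero]
  have hvn : ∀ x, ‖v x‖ = 1 := by
    intro x
    rw [hv]
    simp only
    rw [norm_mul, hu1, one_mul, Complex.norm_exp]
    simp
  set W : Set Γ := v ⁻¹' Complex.slitPlane with hW
  have hWo : IsOpen W := Complex.isOpen_slitPlane.preimage hvc
  have hKW : p ⁻¹' {s} ⊆ W := by
    intro x hx
    change v x ∈ Complex.slitPlane
    rw [hv1 x hx]
    exact Complex.one_mem_slitPlane
  refine ⟨(p '' Wᶜ)ᶜ, (hp.isClosedMap _ hWo.isClosed_compl).isOpen_compl, ?_, ?_⟩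
  · rintro ⟨x, hx, hxs⟩
    exact hx (hKW hxs)
  · refine ⟨fun x => g x + Complex.arg (v x), ?_, ?_⟩
    · apply g.continuous.continuousOn.add
      intro x hx
      have hxW : x ∈ W := by
        by_contra hc
        exact hx ⟨x, hc, rfl⟩
      exact ((Complex.continuousAt_arg hxW).comp hvc.continuousAt).continuousWithinAt
    · intro x _
      have h1 : v x = Complex.exp (Complex.I * Complex.arg (v x)) := by
        have := Complex.norm_mul_exp_arg_mul_I (v x)
        rw [hvn, Complex.ofReal_one, one_mul] at this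
        rw [mul_comm]; exact this.symm
      have h2 : u x = Complex.exp (Complex.I * g x) * v x := by
        rw [hv]
        simp only
        rw [mul_comm (u x), ← mul_assoc, ← Complex.exp_add, add_neg_cancel, Complex.exp_zero, one_mul]
      rw [h2]
      nth_rewrite 1 [h1]
      rw [← Complex.exp_add]
      congr 1
      push_cast
      ring

/-- A compact space fibred over the interval with connected fibres on which a circle valued function
lifts: the function lifts globally and the space is connected. -/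
theorem lift_over_interval {Γ : Type} [TopologicalSpace Γ] [CompactSpace Γ] [T2Space Γ]
    (p : Γ → unitInterval) (hp : Continuous p) (hfib : ∀ s, IsConnected (p ⁻¹' {s}))
    (u : Γ → ℂ) (hu : Continuous u) (hu1 : ∀ x, ‖u x‖ = 1)
    (hlift : ∀ s, ∃ θ : ↥(p ⁻¹' {s}) → ℝ, Continuous θ ∧
      ∀ x : ↥(p ⁻¹' {s}), u x = Complex.exp (Complex.I * θ x)) :
    (∃ θ : Γ → ℝ, Continuous θ ∧ ∀ x, u x = Complex.exp (Complex.I * θ x)) ∧ ConnectedSpace Γ := by
  constructor
  · choose N hN hsN hNl using fun s => lift_local p hp u hu hu1 s (hlift s)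
    obtain ⟨t, ht0, htm, ⟨n, hn⟩, htc⟩ := exists_monotone_Icc_subset_open_cover_unitInterval
      (c := N) hN (fun s _ => mem_iUnion.2 ⟨s, hsN s⟩)
    have hstep : ∀ k, LiftOn u (p ⁻¹' Icc (t k) (t (k + 1))) := by
      intro k
      obtain ⟨i, hi⟩ := htc k
      exact (hNl i).mono (preimage_mono hi)
    have hall : ∀ k, LiftOn u (p ⁻¹' Icc 0 (t k)) := by
      intro k
      induction k with
      | zero =>
        refine (hstep 0).mono (preimage_mono ?_)
        rw [ht0]
        exact Icc_subset_Icc le_rfl (ht0 ▸ (htm (Nat.zero_le 1)))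
      | succ k ih =>
        have hle : t k ≤ t (k + 1) := htm (Nat.le_succ k)
        have h0 : (0 : unitInterval) ≤ t k := unitInterval.nonneg'
        have hint : p ⁻¹' Icc 0 (t k) ∩ p ⁻¹' Icc (t k) (t (k + 1)) = p ⁻¹' {t k} := by
          ext x
          simp only [mem_inter_iff, mem_preimage, mem_Icc, mem_singleton_iff]
          constructor
          · rintro ⟨⟨_, h1⟩, h2, _⟩; exact le_antisymm h1 h2
          · intro h; rw [h]; exact ⟨⟨h0, le_rfl⟩, le_rfl, hle⟩
        have := lift_glue ih (hstep k) (isClosed_Icc.preimage hp) (isClosed_Icc.preimage hp)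
          (by rw [hint]; exact (hfib _).isPreconnected) (by rw [hint]; exact (hfib _).nonempty)
        rw [← preimage_union, Icc_union_Icc_eq_Icc h0 hle] at this
        exact this
    obtain ⟨θ, h1, h2⟩ := hall n
    have huniv : p ⁻¹' Icc 0 (t n) = univ := by
      rw [hn n le_rfl]
      ext x
      simp only [mem_preimage, mem_Icc, mem_univ, iff_true]
      exact ⟨unitInterval.nonneg', unitInterval.le_one'⟩
    rw [huniv] at h1 h2
    exact ⟨θ, continuousOn_univ.1 h1, fun x => h2 x (mem_univ x)⟩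
  · have hsurj : Function.Surjective p := by
      intro s
      obtain ⟨x, hx⟩ := (hfib s).nonempty
      exact ⟨x, hx⟩
    have hq := hp.isClosedMap.isQuotientMap hp hsurj
    have := hq.isCoinducing.isConnected_preimage_of_isClosed hfib isClosed_univ isConnected_univ
    rw [preimage_univ] at this
    exact connectedSpace_iff_univ.2 this

end Pool.Agent.Helper376.CL
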