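import Mathlib
import Pool.Agent.Helper376.CL.Defs

set_option maxHeartbeats 4000000
set_option synthInstance.maxHeartbeats 400000

namespace Pool.Agent.Helper376.CL

open Set Topology

theorem HasTrivialShape.connectedSpace {C : Type} [TopologicalSpace C] (h : HasTrivialShape C) :
    ConnectedSpace C := by
  obtain ⟨⟨c0⟩, i, hi, hU⟩ := h
  have hC : CompactSpace C := hi.compactSpace
  have hpre : PreconnectedSpace C := by
    rw [preconnectedSpace_iff_clopen]
    intro s hs
    by_contra hcon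
    rw [not_or] at hcon
    obtain ⟨a, ha⟩ := Set.nonempty_iff_ne_empty.2 hcon.1
    obtain ⟨b, hb⟩ := (Set.ne_univ_iff_exists_notMem s).1 hcon.2
    have hA : IsClosed (i '' s) := hi.isClosedMap _ hs.1
    have hB : IsClosed (i '' sᶜ) := hi.isClosedMap _ hs.2.isClosed_compl
    have hdis : Disjoint (i '' s) (i '' sᶜ) := by
      rw [Set.disjoint_left]
      rintro _ ⟨x, hx, rfl⟩ ⟨y, hy, hxy⟩
      have := hi.injective hxy
      rw [this] at hy
      exact hy hx
    obtain ⟨UA, UB, hUAo, hUBo, hAU, hBU, hUdis⟩ := normal_separation hA hB hdis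
    have hmem : ∀ c, i c ∈ UA ∪ UB := by
      intro c
      by_cases hc : c ∈ s
      · exact Or.inl (hAU ⟨c, hc, rfl⟩)
      · exact Or.inr (hBU ⟨c, hc, rfl⟩)
    let f : C(C, ↥(UA ∪ UB)) := ⟨fun c => ⟨i c, hmem c⟩, hi.continuous.subtype_mk _⟩
    obtain ⟨y, ⟨F⟩⟩ := hU (UA ∪ UB) (hUAo.union hUBo) f (fun c => rfl)
    have key : ∀ c, (i c ∈ UA ↔ (y : ℕ → unitInterval) ∈ UA) := by
      intro c
      let γ : unitInterval → (ℕ → unitInterval) := fun t => (F (t, c) : ↥(UA ∪ UB))
      have hγ : Continuous γ := continuous_subtype_val.comp (F.continuous.comp (by fun_prop))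
      have hγmem : ∀ t, γ t ∈ UA ∪ UB := fun t => (F (t, c) : ↥(UA ∪ UB)).2
      have hcl : IsClopen (γ ⁻¹' UA) := by
        refine ⟨?_, hUAo.preimage hγ⟩
        have : γ ⁻¹' UA = (γ ⁻¹' UB)ᶜ := by
          ext t
          simp only [Set.mem_preimage, Set.mem_compl_iff]
          constructor
          · intro h1 h2
            exact Set.disjoint_left.1 hUdis h1 h2
          · intro h1
            exact (hγmem t).resolve_right h1
        rw [this]
        exact (hUBo.preimage hγ).isClosed_compl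
      have h0 : γ 0 = i c := by
        show ((F (0, c) : ↥(UA ∪ UB)) : ℕ → unitInterval) = i c
        rw [F.apply_zero]
        rfl
      have h1 : γ 1 = (y : ℕ → unitInterval) := by
        show ((F (1, c) : ↥(UA ∪ UB)) : ℕ → unitInterval) = y
        rw [F.apply_one]
        rfl
      constructor
      · intro hc
        have hne : (γ ⁻¹' UA).Nonempty := ⟨0, by rw [Set.mem_preimage, h0]; exact hc⟩
        have := hcl.eq_univ hne
        have h2 : (1 : unitInterval) ∈ γ ⁻¹' UA := by rw [this]; exact Set.mem_univ _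
        rw [Set.mem_preimage, h1] at h2
        exact h2
      · intro hy
        have hne : (γ ⁻¹' UA).Nonempty := ⟨1, by rw [Set.mem_preimage, h1]; exact hy⟩
        have := hcl.eq_univ hne
        have h2 : (0 : unitInterval) ∈ γ ⁻¹' UA := by rw [this]; exact Set.mem_univ _
        rw [Set.mem_preimage, h0] at h2
        exact h2
    have h1 := (key a).1 (hAU ⟨a, ha, rfl⟩)
    have h2 := (key b).2 h1
    exact Set.disjoint_left.1 hUdis h2 (hBU ⟨b, hb, rfl⟩)
  exact { toPreconnectedSpace := hpre, toNonempty := ⟨c0⟩ }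

theorem HasTrivialShape.lift {C : Type} [TopologicalSpace C] (h : HasTrivialShape C) (u : C → ℂ)
    (hu : Continuous u) (hu1 : ∀ c, ‖u c‖ = 1) :
    ∃ θ : C → ℝ, Continuous θ ∧ ∀ c, u c = Complex.exp (Complex.I * θ c) := by
  obtain ⟨⟨c0⟩, i, hi, hU⟩ := h
  have hC : CompactSpace C := hi.compactSpace
  obtain ⟨g, hg⟩ := ContinuousMap.exists_extension hi (⟨u, hu⟩ : C(C, ℂ))
  have hg' : ∀ c, g (i c) = u c := fun c => congrArg (fun k : C(C, ℂ) => k c) hg
  have hune : ∀ c, u c ≠ 0 := by
    intro c hc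
    have := hu1 c
    rw [hc, norm_zero] at this
    exact zero_ne_one this
  have hUo : IsOpen {q | g q ≠ 0} := isOpen_ne_fun g.continuous continuous_const
  have hmem : ∀ c, i c ∈ {q | g q ≠ 0} := by
    intro c
    show g (i c) ≠ 0
    rw [hg']
    exact hune c
  let f : C(C, ↥{q | g q ≠ 0}) := ⟨fun c => ⟨i c, hmem c⟩, hi.continuous.subtype_mk _⟩
  obtain ⟨y, ⟨F⟩⟩ := hU {q | g q ≠ 0} hUo f (fun c => rfl)
  let G : C(unitInterval × C, ℂ) :=
    ⟨fun p => g (F p : ↥{q | g q ≠ 0}), g.continuous.comp (continuous_subtype_val.comp F.continuous)⟩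
  have hG0 : ∀ c, G (0, c) = u c := by
    intro c
    show g (F (0, c) : ↥{q | g q ≠ 0}) = u c
    rw [F.apply_zero, ← hg']
    rfl
  have hG1 : ∀ c, G (1, c) = g y := by
    intro c
    show g (F (1, c) : ↥{q | g q ≠ 0}) = g y
    rw [F.apply_one]
    rfl
  have hGne : ∀ p, G p ≠ 0 := fun p => (F p : ↥{q | g q ≠ 0}).2
  -- lower bound
  obtain ⟨m, hm0, hm⟩ : ∃ m : ℝ, 0 < m ∧ ∀ p, m ≤ ‖G p‖ := by
    have hne : (Set.univ : Set (unitInterval × C)).Nonempty := ⟨(0, c0), Set.mem_univ _⟩
    obtain ⟨p, _, hp⟩ := isCompact_univ.exists_isMinOn hne (G.continuous.norm.continuousOn)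
    exact ⟨‖G p‖, norm_pos_iff.2 (hGne p), fun q => hp (Set.mem_univ q)⟩
  let Gc : C(unitInterval, C(C, ℂ)) := G.curry
  have hGc : ∀ t c, Gc t c = G (t, c) := fun t c => rfl
  let P : unitInterval → Prop := fun t => ∃ L : C(C, ℂ), ∀ c, Complex.exp (L c) = G (t, c)
  have step : ∀ s t : unitInterval, dist (Gc s) (Gc t) < m → P t → P s := by
    rintro s t hst ⟨L, hL⟩
    have hnear : ∀ c, ‖G (s, c) / G (t, c) - 1‖ < 1 := by
      intro c
      have h1 : ‖G (s, c) - G (t, c)‖ < m := by
        rw [← hGc, ← hGc, ← dist_eq_norm]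
        exact lt_of_le_of_lt (ContinuousMap.dist_apply_le_dist c) hst
      have h2 : G (s, c) / G (t, c) - 1 = (G (s, c) - G (t, c)) / G (t, c) := by
        rw [sub_div, div_self (hGne _)]
      rw [h2, norm_div, div_lt_one (norm_pos_iff.2 (hGne _))]
      exact lt_of_lt_of_le h1 (hm _)
    have hslit : ∀ c, G (s, c) / G (t, c) ∈ Complex.slitPlane := by
      intro c
      have := Complex.mem_slitPlane_of_norm_lt_one (hnear c)
      rwa [add_sub_cancel] at this
    have hcr : Continuous (fun c => G (s, c) / G (t, c)) := by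
      refine Continuous.div (G.continuous.comp (by fun_prop)) (G.continuous.comp (by fun_prop)) ?_
      intro c
      exact hGne _
    refine ⟨⟨fun c => L c + Complex.log (G (s, c) / G (t, c)), L.continuous.add
      (hcr.clog hslit)⟩, ?_⟩
    intro c
    show Complex.exp (L c + Complex.log (G (s, c) / G (t, c))) = G (s, c)
    rw [Complex.exp_add, hL, Complex.exp_log (div_ne_zero (hGne _) (hGne _)),
      mul_div_cancel₀ _ (hGne _)]
  have hloc : IsLocallyConstant P := by
    rw [IsLocallyConstant.iff_eventually_eq]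
    intro t
    have h1 : ∀ᶠ s in 𝓝 t, dist (Gc s) (Gc t) < m :=
      (Gc.continuous.tendsto t).eventually (Metric.ball_mem_nhds _ hm0)
    filter_upwards [h1] with s hs
    refine propext ⟨step t s (by rwa [dist_comm]), step s t hs⟩
  have h01 : P 0 = P 1 := hloc.apply_eq_of_preconnectedSpace 0 1
  have hP1 : P 1 := by
    refine ⟨ContinuousMap.const C (Complex.log (g y)), ?_⟩
    intro c
    rw [hG1, ContinuousMap.const_apply, Complex.exp_log]
    exact y.2
  rw [← h01] at hP1
  obtain ⟨L, hL⟩ := hP1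
  refine ⟨fun c => (L c).im, Complex.continuous_im.comp L.continuous, ?_⟩
  intro c
  have h1 : Complex.exp (L c) = u c := by rw [hL, hG0]
  have h2 : (L c).re = 0 := by
    have h3 := hu1 c
    rw [← h1, Complex.norm_exp] at h3
    exact (Real.exp_eq_one_iff _).1 h3
  rw [← h1]
  congr 1
  apply Complex.ext
  · simp [h2]
  · simp

end Pool.Agent.Helper376.CL
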