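import Mathlib
import Pool.Agent.Helper376.CL.Defs
import Pool.Agent.Helper376.CL.Shape
import Pool.Agent.Helper376.CL.Lift

set_option maxHeartbeats 4000000
set_option synthInstance.maxHeartbeats 400000

namespace Pool.Agent.Helper376.CL

open Set Topology

theorem exp_eq_int {a b : ℝ} (h : Complex.exp (Complex.I * a) = Complex.exp (Complex.I * b)) :
    ∃ n : ℤ, a - b = 2 * Real.pi * n := by
  rw [Complex.exp_eq_exp_iff_exists_int] at h
  obtain ⟨n, hn⟩ := h
  refine ⟨n, ?_⟩
  have h1 : Complex.I * (a : ℂ) = Complex.I * ((b + 2 * Real.pi * n : ℝ) : ℂ) := by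
    rw [hn]; push_cast; ring
  have h2 := mul_left_cancel₀ Complex.I_ne_zero h1
  have h3 : a = b + 2 * Real.pi * n := by exact_mod_cast h2
  linarith

/-- If `Z₁` is path connected and `Z₂` has a circle valued function `r` which lifts properly over a
proper nonempty open subset `S`, then `Z₁` and `Z₂` are not cell-like equivalent. -/
theorem not_cellLikeEquivalent {Z₁ Z₂ : Type} [TopologicalSpace Z₁] [T2Space Z₁]
    [TopologicalSpace Z₂] [T2Space Z₂] (h1 : PathConnectedSpace Z₁)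
    (r : Z₂ → ℂ) (hr : Continuous r) (hr1 : ∀ z, ‖r z‖ = 1)
    (S : Set Z₂) (hS : IsOpen S) (hne : S.Nonempty) (hne' : Sᶜ.Nonempty)
    (θ : Z₂ → ℝ) (hθ : ContinuousOn θ S) (hrθ : ∀ z ∈ S, r z = Complex.exp (Complex.I * θ z))
    (hproper : ∀ C : ℝ, IsClosed {z | z ∈ S ∧ |θ z| ≤ C}) : ¬ CellLikeEquivalent Z₁ Z₂ := by
  rintro ⟨W, _, _, _, f, g, hf, hg⟩
  obtain ⟨z0, hz0⟩ := hne
  obtain ⟨z1, hz1⟩ := hne'
  obtain ⟨⟨w0, hw0⟩⟩ := (hg.2 z0).1
  obtain ⟨⟨w1, hw1⟩⟩ := (hg.2 z1).1
  have hw0' : g w0 = z0 := hw0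
  have hw1' : g w1 = z1 := hw1
  have γ : Path (f w0) (f w1) := (h1.joined (f w0) (f w1)).somePath
  let Γ : Type := {x : unitInterval × W // γ x.1 = f x.2}
  have hclosed : IsClosed {x : unitInterval × W | γ x.1 = f x.2} :=
    isClosed_eq (γ.continuous.comp continuous_fst) (hf.1.comp continuous_snd)
  have : CompactSpace Γ := isCompact_iff_compactSpace.mp hclosed.isCompact
  have hval : Continuous (fun x : Γ => x.1) := continuous_subtype_val
  have hsnd : Continuous (fun x : Γ => x.1.2) := continuous_snd.comp hval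
  have hgc : Continuous (fun x : Γ => g x.1.2) := hg.1.comp hsnd
  obtain ⟨⟨ϑ, hϑ, hϑu⟩, hΓ⟩ := lift_over_interval (Γ := Γ) (fun x => x.1.1) (continuous_fst.comp hval)
    (by
      intro s
      have : ConnectedSpace ↥(f ⁻¹' {γ s}) := (hf.2 (γ s)).connectedSpace
      let j : ↥(f ⁻¹' {γ s}) → Γ := fun c => ⟨(s, c.1), (c.2 : f c.1 = γ s).symm⟩
      have hj : Continuous j := by
        refine Continuous.subtype_mk ?_ _
        exact continuous_const.prodMk continuous_subtype_val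
      have hrange : (fun x : Γ => x.1.1) ⁻¹' {s} = Set.range j := by
        ext x
        constructor
        · intro hx
          have hx' : x.1.1 = s := hx
          refine ⟨⟨x.1.2, ?_⟩, ?_⟩
          · show f x.1.2 = γ s
            rw [← hx']; exact x.2.symm
          · apply Subtype.ext
            apply Prod.ext
            · exact hx'.symm
            · rfl
        · rintro ⟨c, rfl⟩
          rfl
      rw [hrange]
      exact isConnected_range hj)
    (fun x => r (g x.1.2)) (hr.comp hgc) (fun x => hr1 _)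
    (by
      intro s
      obtain ⟨t, ht, ht2⟩ := (hf.2 (γ s)).lift (fun c => r (g c.1))
        (hr.comp (hg.1.comp continuous_subtype_val)) (fun c => hr1 _)
      have hmem : ∀ x : ↥((fun x : Γ => x.1.1) ⁻¹' {s}), x.1.1.2 ∈ f ⁻¹' {γ s} := by
        intro x
        show f x.1.1.2 = γ s
        have hx' : x.1.1.1 = s := x.2
        exact x.1.2.symm.trans (congrArg γ hx')
      refine ⟨fun x => t ⟨x.1.1.2, hmem x⟩, ?_, fun x => ht2 ⟨x.1.1.2, hmem x⟩⟩
      refine ht.comp (Continuous.subtype_mk ?_ _)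
      exact hsnd.comp continuous_subtype_val)
  let x0 : Γ := ⟨(0, w0), γ.source⟩
  let x1 : Γ := ⟨(1, w1), γ.target⟩
  obtain ⟨k, hk⟩ : ∃ k : ℤ, ϑ x0 - θ z0 = 2 * Real.pi * k := by
    apply exp_eq_int
    rw [← hϑu x0, ← hrθ z0 hz0]
    show r (g w0) = r z0
    rw [hw0']
  set ϑ' : Γ → ℝ := fun x => ϑ x - 2 * Real.pi * k with hϑ'
  have hϑ'c : Continuous ϑ' := hϑ.sub continuous_const
  have hϑ'u : ∀ x : Γ, r (g x.1.2) = Complex.exp (Complex.I * ϑ' x) := by
    intro x
    rw [hϑu x, Complex.exp_eq_exp_iff_exists_int]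
    refine ⟨k, ?_⟩
    simp only [hϑ']
    push_cast; ring
  have hint : ∀ x : Γ, g x.1.2 ∈ S → ∃ n : ℤ, ϑ' x - θ (g x.1.2) = 2 * Real.pi * n := by
    intro x hx
    apply exp_eq_int
    rw [← hϑ'u x, ← hrθ _ hx]
  obtain ⟨C, hC⟩ : ∃ C : ℝ, ∀ x : Γ, |ϑ' x| ≤ C := by
    obtain ⟨C, hC⟩ := (isCompact_range (hϑ'c.abs)).bddAbove
    exact ⟨C, fun x => hC ⟨x, rfl⟩⟩
  set O : Set Γ := {x | g x.1.2 ∈ S} with hO
  have hOo : IsOpen O := hS.preimage hgc
  have hFc : ContinuousOn (fun x : Γ => ϑ' x - θ (g x.1.2)) O :=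
    hϑ'c.continuousOn.sub (hθ.comp hgc.continuousOn (fun x hx => hx))
  set T : Set Γ := {x | g x.1.2 ∈ S ∧ ϑ' x = θ (g x.1.2)} with hT
  have hTo : IsOpen T := by
    have h2 : T = O ∩ (fun x : Γ => ϑ' x - θ (g x.1.2)) ⁻¹' Ioo (-1) 1 := by
      ext x
      constructor
      · rintro ⟨hx, hx2⟩
        refine ⟨hx, ?_⟩
        show ϑ' x - θ (g x.1.2) ∈ Ioo (-1 : ℝ) 1
        rw [hx2, sub_self]; constructor <;> norm_num
      · rintro ⟨hx, hx2⟩
        refine ⟨hx, ?_⟩
        obtain ⟨n, hn⟩ := hint x hx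
        have hx3 : ϑ' x - θ (g x.1.2) ∈ Ioo (-1 : ℝ) 1 := hx2
        rw [hn] at hx3
        have hpi := Real.pi_gt_three
        have hn0 : n = 0 := by
          have a1 : n < 1 := by
            by_contra hcon
            push Not at hcon
            have : (1 : ℝ) ≤ n := by exact_mod_cast hcon
            nlinarith [hx3.2]
          have a2 : -1 < n := by
            by_contra hcon
            push Not at hcon
            have : (n : ℝ) ≤ -1 := by exact_mod_cast hcon
            nlinarith [hx3.1]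
          omega
        rw [hn0] at hn
        simp at hn
        linarith
    rw [h2]
    exact hFc.isOpen_inter_preimage hOo isOpen_Ioo
  have hTc : IsClosed T := by
    set B : Set Γ := {x | g x.1.2 ∈ {z | z ∈ S ∧ |θ z| ≤ C}} with hB
    have hBc : IsClosed B := (hproper C).preimage hgc
    have hBO : B ⊆ O := fun x hx => hx.1
    have h2 : T = B ∩ (fun x : Γ => ϑ' x - θ (g x.1.2)) ⁻¹' {0} := by
      ext x
      constructor
      · rintro ⟨hx, hx2⟩
        refine ⟨⟨hx, ?_⟩, ?_⟩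
        · rw [← hx2]; exact hC x
        · show ϑ' x - θ (g x.1.2) = 0
          rw [hx2, sub_self]
      · rintro ⟨hx, hx2⟩
        have hx3 : ϑ' x - θ (g x.1.2) = 0 := hx2
        exact ⟨hx.1, by linarith⟩
    rw [h2]
    exact (hFc.mono hBO).preimage_isClosed_of_isClosed hBc isClosed_singleton
  have hx0T : x0 ∈ T := by
    refine ⟨?_, ?_⟩
    · show g w0 ∈ S
      rw [hw0']; exact hz0
    · show ϑ x0 - 2 * Real.pi * k = θ (g w0)
      rw [hw0']; linarith
  have := hΓ
  have hTuniv : T = univ := IsClopen.eq_univ ⟨hTc, hTo⟩ ⟨x0, hx0T⟩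
  have hx1T : x1 ∈ T := by rw [hTuniv]; exact mem_univ _
  have : g w1 ∈ S := hx1T.1
  rw [hw1'] at this
  exact hz1 this

end Pool.Agent.Helper376.CL
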