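import Mathlib
import Pool.Agent.Helper376.CL.AE
import Pool.Agent.Helper376.CL.PgDefs
import Pool.Agent.Helper376.CL.Pg
import Pool.Agent.Helper376.CL.Emb

set_option maxHeartbeats 4000000
set_option synthInstance.maxHeartbeats 400000

namespace Pool.Agent.Helper376.CL

open Set Topology

open Classical in
/-- budgets -/
noncomputable def zbR (e : List A → ℝ) : List A → ℝ
  | [] => 2
  | (x :: l) => if ok x l then
      min (max 0 (zbR e l - (1/8 : ℝ)^l.length))
        (max 0 (e (x :: l) - ∑ y ∈ Finset.univ.erase x, |e (y :: l)|)) else 0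

/-- the retraction -/
noncomputable def zbr (e : List A → ℝ) (l : List A) : ℝ := min 1 (zbR e l / (1/8 : ℝ)^l.length)

open Classical in
/-- the embedding -/
noncomputable def zbi (c : List A → ℝ) (l : List A) : ℝ :=
  ∑' m : List A, if l <:+ m then c m * (1/8 : ℝ)^m.length else 0

theorem zbR_nonneg (e : List A → ℝ) (l : List A) : 0 ≤ zbR e l := by
  cases l with
  | nil => simp [zbR]
  | cons x l =>
    rw [zbR]
    split_ifs
    · exact le_min (le_max_left _ _) (le_max_left _ _)
    · exact le_refl _

theorem zbR_cont (l : List A) : Continuous fun e : List A → ℝ => zbR e l := by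
  induction l with
  | nil =>
    have : (fun e : List A → ℝ => zbR e []) = fun _ => 2 := by
      funext e
      rw [zbR]
    rw [this]
    exact continuous_const
  | cons x l ih =>
    by_cases h : ok x l
    · have : (fun e : List A → ℝ => zbR e (x :: l)) = fun e =>
          min (max 0 (zbR e l - (1/8 : ℝ)^l.length))
          (max 0 (e (x :: l) - ∑ y ∈ Finset.univ.erase x, |e (y :: l)|)) := by
        funext e
        rw [zbR, if_pos h]
      rw [this]
      refine Continuous.min (Continuous.max continuous_const (ih.sub continuous_const)) ?_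
      refine Continuous.max continuous_const ((continuous_apply (x :: l)).sub ?_)
      exact continuous_finsetSum _ fun y _ => (continuous_apply (y :: l)).abs
    · have : (fun e : List A → ℝ => zbR e (x :: l)) = fun _ => 0 := by
        funext e
        rw [zbR, if_neg h]
      rw [this]
      exact continuous_const

theorem zbR_pos_imp {e : List A → ℝ} {x : A} {l : List A} (h : zbR e (x :: l) ≠ 0) :
    ok x l ∧ (1/8 : ℝ)^l.length < zbR e l ∧
      ∑ y ∈ Finset.univ.erase x, |e (y :: l)| < e (x :: l) := by
  have hpos : 0 < zbR e (x :: l) := lt_of_le_of_ne (zbR_nonneg _ _) (Ne.symm h)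
  rw [zbR] at hpos
  split_ifs at hpos with hok
  · rw [lt_min_iff, lt_max_iff, lt_max_iff] at hpos
    obtain ⟨h1, h2⟩ := hpos
    refine ⟨hok, ?_, ?_⟩
    · rcases h1 with h1 | h1
      · exact absurd h1 (lt_irrefl _)
      · linarith
    · rcases h2 with h2 | h2
      · exact absurd h2 (lt_irrefl _)
      · linarith
  · exact absurd hpos (lt_irrefl _)

theorem zbr_ne_imp {e : List A → ℝ} {l : List A} (h : zbr e l ≠ 0) : zbR e l ≠ 0 := by
  intro h0
  apply h
  unfold zbr
  rw [h0, zero_div]
  exact min_eq_right zero_le_one

theorem zbr_mem (e : List A → ℝ) : zbr e ∈ Pg := by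
  refine ⟨?_, ?_, ?_, ?_, ?_⟩
  · unfold zbr
    rw [zbR]
    norm_num
  · intro l
    refine ⟨?_, min_le_left _ _⟩
    unfold zbr
    exact le_min zero_le_one (div_nonneg (zbR_nonneg _ _) (by positivity))
  · intro x l h
    unfold zbr
    rw [zbR, if_neg h, zero_div]
    exact min_eq_right zero_le_one
  · intro x l h
    obtain ⟨_, h2, _⟩ := zbR_pos_imp (zbr_ne_imp h)
    unfold zbr
    refine min_eq_left ?_
    rw [one_le_div (by positivity)]
    exact h2.le
  · intro x y l hxy
    by_contra hcon
    push Not at hcon
    obtain ⟨_, _, h3⟩ := zbR_pos_imp (zbr_ne_imp hcon.1)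
    obtain ⟨_, _, h3'⟩ := zbR_pos_imp (zbr_ne_imp hcon.2)
    have h4 : |e (y :: l)| ≤ ∑ z ∈ Finset.univ.erase x, |e (z :: l)| :=
      Finset.single_le_sum (f := fun z => |e (z :: l)|) (fun _ _ => abs_nonneg _)
        (Finset.mem_erase.2 ⟨hxy.symm, Finset.mem_univ _⟩)
    have h5 : |e (x :: l)| ≤ ∑ z ∈ Finset.univ.erase y, |e (z :: l)| :=
      Finset.single_le_sum (f := fun z => |e (z :: l)|) (fun _ _ => abs_nonneg _)
        (Finset.mem_erase.2 ⟨hxy, Finset.mem_univ _⟩)
    have h6 := le_abs_self (e (x :: l))
    have h7 := le_abs_self (e (y :: l))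
    linarith

theorem zb_summable {c : List A → ℝ} (hc : c ∈ Pg) (P : List A → Prop) [DecidablePred P] :
    Summable fun m : List A => if P m then c m * (1/8 : ℝ)^m.length else 0 := by
  refine Summable.of_norm_bounded summable_words fun m => ?_
  obtain ⟨h0, h1⟩ := hc.2.1 m
  split_ifs
  · rw [Real.norm_eq_abs, abs_of_nonneg (by positivity)]
    exact mul_le_of_le_one_left (by positivity) h1
  · rw [norm_zero]
    positivity

theorem zbi_nonneg {c : List A → ℝ} (hc : c ∈ Pg) (l : List A) : 0 ≤ zbi c l := by
  unfold zbi
  refine tsum_nonneg fun m => ?_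
  split_ifs
  · exact mul_nonneg (hc.2.1 m).1 (by positivity)
  · exact le_refl _

open Classical in
theorem zb_split (l m : List A) (w : ℝ) : (if l <:+ m then w else 0) =
    (if m = l then w else 0) + ∑ y : A, (if (y :: l) <:+ m then w else 0) := by
  have hcons : ∀ y : A, ¬ (y :: l) <:+ l := by
    intro y h
    have := h.length_le
    simp at this
  by_cases h1 : m = l
  · subst h1
    rw [if_pos (List.suffix_refl m), if_pos rfl, Finset.sum_eq_zero, add_zero]
    intro y _
    rw [if_neg (hcons y)]
  · rw [if_neg h1, zero_add]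
    by_cases h2 : l <:+ m
    · rw [if_pos h2]
      obtain ⟨t, ht⟩ := h2
      rcases List.eq_nil_or_concat t with h3 | ⟨t', y0, h3⟩
      · subst h3
        exact absurd ht.symm h1
      · have h4 : (y0 :: l) <:+ m := by
          refine ⟨t', ?_⟩
          rw [← ht, h3]
          simp
        rw [Finset.sum_eq_single y0]
        · rw [if_pos h4]
        · intro y _ hy
          rw [if_neg]
          intro h5
          have h6 : (y :: l) <:+ (y0 :: l) := List.suffix_of_suffix_length_le h5 h4 (by simp)
          have h7 := h6.eq_of_length (by simp)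
          exact hy (List.cons.inj h7).1
        · intro h
          exact absurd (Finset.mem_univ _) h
    · rw [if_neg h2, Finset.sum_eq_zero]
      intro y _
      rw [if_neg]
      intro h5
      exact h2 ((List.suffix_cons y l).trans h5)

theorem zbi_split {c : List A → ℝ} (hc : c ∈ Pg) (l : List A) :
    zbi c l = c l * (1/8 : ℝ)^l.length + ∑ y : A, zbi c (y :: l) := by
  classical
  unfold zbi
  have h1 : ∑' m : List A, (if m = l then c m * (1/8 : ℝ)^m.length else 0)
      = c l * (1/8 : ℝ)^l.length := by
    rw [tsum_eq_single l]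
    · rw [if_pos rfl]
    · intro m hm
      rw [if_neg hm]
  rw [← h1]
  have h2 : ∀ y ∈ (Finset.univ : Finset A),
      Summable fun m : List A => if (y :: l) <:+ m then c m * (1/8 : ℝ)^m.length else 0 :=
    fun y _ => zb_summable hc _
  rw [← Summable.tsum_finsetSum h2, ← (zb_summable hc _).tsum_add (summable_sum h2)]
  exact tsum_congr fun m => zb_split l m _

theorem zb_chain {c : List A → ℝ} (hc : c ∈ Pg) (l t : List A) (h : c (t ++ l) ≠ 0) :
    c l ≠ 0 := by
  induction t with
  | nil => exact h
  | cons z t ih =>
    apply ih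
    have := hc.2.2.2.1 z (t ++ l) h
    rw [this]
    exact one_ne_zero

theorem zbi_zero {c : List A → ℝ} (hc : c ∈ Pg) {l : List A} (h : c l = 0) : zbi c l = 0 := by
  unfold zbi
  have : ∀ m : List A, (if l <:+ m then c m * (1/8 : ℝ)^m.length else 0) = 0 := by
    intro m
    split_ifs with h1
    · obtain ⟨t, ht⟩ := h1
      have : c m = 0 := by
        by_contra hne
        rw [← ht] at hne
        exact zb_chain hc l t hne h
      rw [this, zero_mul]
    · rfl
  simp only [this, tsum_zero]

theorem zbi_nil {c : List A → ℝ} (hc : c ∈ Pg) : zbi c [] ≤ 2 := by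
  have h1 : zbi c [] = e1 c := by
    unfold zbi e1
    refine tsum_congr fun m => ?_
    rw [if_pos (List.nil_suffix)]
  rw [h1]
  exact (le_abs_self _).trans (e_bound hc).1

theorem zb_key {c : List A → ℝ} (hc : c ∈ Pg) (l : List A) :
    zbi c l ≤ zbR (zbi c) l ∧ (l ≠ [] → zbR (zbi c) l = zbi c l) := by
  induction l with
  | nil =>
    refine ⟨?_, fun h => absurd rfl h⟩
    rw [zbR]
    exact zbi_nil hc
  | cons x l ih =>
    have hmain : zbR (zbi c) (x :: l) = zbi c (x :: l) := by
      by_cases h0 : c (x :: l) = 0
      · rw [zbi_zero hc h0, zbR]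
        split_ifs
        · rw [zbi_zero hc h0]
          have h1 : 0 ≤ ∑ y ∈ Finset.univ.erase x, |zbi c (y :: l)| :=
            Finset.sum_nonneg fun _ _ => abs_nonneg _
          rw [max_eq_left (a := (0 : ℝ)) (b := 0 - _) (by linarith)]
          exact min_eq_right (le_max_left _ _)
        · rfl
      · have hok : ok x l := by
          by_contra hcon
          exact h0 (hc.2.2.1 x l hcon)
        have hl1 : c l = 1 := hc.2.2.2.1 x l h0
        have hsib : ∀ y ∈ Finset.univ.erase x, |zbi c (y :: l)| = 0 := by
          intro y hy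
          have hxy : x ≠ y := fun h => (Finset.mem_erase.1 hy).1 h.symm
          rcases hc.2.2.2.2 x y l hxy with h | h
          · exact absurd h h0
          · rw [zbi_zero hc h, abs_zero]
        rw [zbR, if_pos hok, Finset.sum_eq_zero hsib, sub_zero,
          max_eq_right (zbi_nonneg hc (x :: l))]
        refine min_eq_right ?_
        have h2 := zbi_split hc l
        have h3 : zbi c (x :: l) ≤ ∑ y : A, zbi c (y :: l) :=
          Finset.single_le_sum (f := fun y => zbi c (y :: l)) (fun y _ => zbi_nonneg hc (y :: l))
            (Finset.mem_univ x)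
        rw [hl1, one_mul] at h2
        refine le_trans ?_ (le_max_right _ _)
        have h4 := ih.1
        linarith
    exact ⟨hmain.ge, fun _ => hmain⟩

theorem zb_retract {c : List A → ℝ} (hc : c ∈ Pg) : zbr (zbi c) = c := by
  funext l
  by_cases hl : l = []
  · subst hl
    rw [(zbr_mem (zbi c)).1, hc.1]
  · unfold zbr
    rw [(zb_key hc l).2 hl]
    have hp : (0 : ℝ) < (1/8 : ℝ)^l.length := by positivity
    have h2 := zbi_split hc l
    by_cases h1 : c l = 1
    · rw [h1]
      refine min_eq_left ?_
      rw [one_le_div hp, h2, h1, one_mul]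
      have h3 : 0 ≤ ∑ y : A, zbi c (y :: l) :=
        Finset.sum_nonneg fun y _ => zbi_nonneg hc (y :: l)
      linarith
    · have h3 : ∑ y : A, zbi c (y :: l) = 0 := by
        refine Finset.sum_eq_zero fun y _ => zbi_zero hc ?_
        by_contra hne
        exact h1 (hc.2.2.2.1 y l hne)
      rw [h2, h3, add_zero, mul_div_assoc, div_self hp.ne', mul_one]
      exact min_eq_right (hc.2.1 l).2

theorem zbi_cont (l : List A) : Continuous fun c : ↥Pg => zbi c.1 l := by
  classical
  unfold zbi
  refine continuous_tsum (u := fun m : List A => (1/8 : ℝ)^m.length) ?_ summable_words ?_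
  · intro m
    by_cases h : l <:+ m
    · simp only [h, if_true]
      exact ((continuous_apply m).comp continuous_subtype_val).mul continuous_const
    · simp only [h, if_false]
      exact continuous_const
  · intro m c
    obtain ⟨h0, h1⟩ := c.2.2.1 m
    split_ifs
    · rw [Real.norm_eq_abs, abs_of_nonneg (mul_nonneg h0 (by positivity))]
      exact mul_le_of_le_one_left (by positivity) h1
    · rw [norm_zero]
      positivity

theorem isAE_Pg : IsAE ↥Pg := by
  refine isAE_retract (Y' := List A → ℝ) (fun c => zbi c.1) (fun e => ⟨zbr e, zbr_mem e⟩)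
    ?_ ?_ ?_ (isAE_pi fun _ => isAE_real)
  · exact continuous_pi fun l => zbi_cont l
  · refine Continuous.subtype_mk (continuous_pi fun l => ?_) _
    unfold zbr
    exact continuous_const.min ((zbR_cont l).div_const _)
  · intro c
    exact Subtype.ext (zb_retract c.2)

end Pool.Agent.Helper376.CL
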