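import Mathlib
import Pool.Agent.Helper376.CL.AE
import Pool.Agent.Helper376.CL.PgDefs
import Pool.Agent.Helper376.CL.Pg
import Pool.Agent.Helper376.CL.Emb
import Pool.Agent.Helper376.CL.PgAE

set_option maxHeartbeats 4000000
set_option synthInstance.maxHeartbeats 400000

namespace Pool.Agent.Helper376.CL

open Set Topology

/-- a quarter of the depth -/
noncomputable def hh (c : List A → ℝ) : ℝ := min 1 (∑ x : A, c [x]) / 4

theorem hh_cont : Continuous hh := by
  unfold hh
  apply Continuous.div_const
  apply Continuous.min continuous_const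
  exact continuous_finsetSum _ fun x _ => continuous_apply _

theorem hh_nonneg {c : List A → ℝ} (hc : c ∈ Pg) : 0 ≤ hh c := by
  unfold hh
  have h1 : 0 ≤ ∑ x : A, c [x] := Finset.sum_nonneg fun x _ => (hc.2.1 _).1
  have h2 : 0 ≤ min 1 (∑ x : A, c [x]) := le_min zero_le_one h1
  linarith

theorem hh_le (c : List A → ℝ) : hh c ≤ 1 / 4 := by
  unfold hh
  have := min_le_left 1 (∑ x : A, c [x])
  linarith

theorem hh_root : hh root = 0 := by
  unfold hh
  have : ∑ x : A, root [x] = 0 := Finset.sum_eq_zero fun x _ => by simp [root]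
  rw [this]
  simp

theorem eq_root {c : List A → ℝ} (hc : c ∈ Pg) (h : hh c = 0) : c = root := by
  have h1 : ∑ x : A, c [x] ≤ 0 := by
    unfold hh at h
    by_contra h2
    push Not at h2
    have : 0 < min 1 (∑ x : A, c [x]) := lt_min one_pos h2
    linarith
  have h2 : ∀ x : A, c [x] = 0 := by
    intro x
    have h3 : c [x] ≤ ∑ x : A, c [x] :=
      Finset.single_le_sum (f := fun x : A => c [x]) (fun x _ => (hc.2.1 _).1)
        (Finset.mem_univ x)
    have h4 := (hc.2.1 [x]).1
    linarith
  have h3 : ∀ l : List A, ∀ x : A, c (x :: l) = 0 := by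
    intro l
    induction l with
    | nil => exact h2
    | cons y l ih =>
      intro x
      by_contra h4
      have h5 := hc.2.2.2.1 x (y :: l) h4
      rw [ih y] at h5
      exact zero_ne_one h5
  funext l
  cases l with
  | nil => simp [root, hc.1]
  | cons x l => rw [h3 l x]; simp [root]

theorem prof_nonneg_ThatAE (n : ℕ) (lam : ℝ) : 0 ≤ prof n lam := by
  unfold prof
  positivity

theorem prof_cont (n : ℕ) : Continuous (prof n) := by
  unfold prof
  fun_prop

theorem tr_root_ThatAE (lam : ℝ) : tr root lam = root := by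
  funext l
  unfold tr
  cases l with
  | nil => simp [root, prof]
  | cons x l =>
    have : root (x :: l) = 0 := by simp [root]
    rw [this]
    exact min_eq_left (prof_nonneg_ThatAE _ _)

/-- the new abscissa -/
noncomputable def xp (h x : ℝ) : ℝ := ⌊x⌋ + max 0 (min 1 ((Int.fract x - h) / (1 - 2 * h)))

/-- distance to the integers -/
noncomputable def dd (x : ℝ) : ℝ := min (Int.fract x) (1 - Int.fract x)

theorem dd_cont : Continuous dd := by
  have h1 : ContinuousOn (fun t : ℝ => min t (1 - t)) (Icc 0 1) := by fun_prop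
  have h2 := h1.comp_fract'' (by norm_num)
  exact h2

theorem dd_nonneg (x : ℝ) : 0 ≤ dd x := by
  unfold dd
  have h1 := Int.fract_nonneg x
  have h2 := (Int.fract_lt_one x).le
  exact le_min h1 (by linarith)

theorem xp_cont : Continuous fun p : ℝ × ↥Pg => xp (hh p.2) p.1 := by
  have h1 : Continuous fun p : ℝ × ↥Pg => hh (p.2 : List A → ℝ) :=
    hh_cont.comp (continuous_subtype_val.comp continuous_snd)
  have key : Continuous fun p : ℝ × ↥Pg =>
      (fun (p : ℝ × ↥Pg) (t : ℝ) => max 0 (min 1 ((t - hh p.2) / (1 - 2 * hh p.2))) - t) p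
        (Int.fract p.1) := by
    refine ContinuousOn.comp_fract (s := fun p : ℝ × ↥Pg => p.1)
      (f := fun (p : ℝ × ↥Pg) (t : ℝ) => max 0 (min 1 ((t - hh p.2) / (1 - 2 * hh p.2))) - t)
      ?_ continuous_fst ?_
    · apply Continuous.continuousOn
      have h2 : Continuous fun q : (ℝ × ↥Pg) × ℝ => hh (q.1.2 : List A → ℝ) := h1.comp continuous_fst
      have h3 : Continuous fun q : (ℝ × ↥Pg) × ℝ => (q.2 - hh q.1.2) / (1 - 2 * hh q.1.2) := by
        apply Continuous.div
        · exact continuous_snd.sub h2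
        · exact continuous_const.sub (continuous_const.mul h2)
        · intro q
          have := hh_le (q.1.2 : List A → ℝ)
          linarith
      exact (continuous_const.max (continuous_const.min h3)).sub continuous_snd
    · intro p
      have h2 := hh_le (p.2 : List A → ℝ)
      have h3 := hh_nonneg p.2.2
      have h4 : (0 - hh p.2) / (1 - 2 * hh p.2) ≤ 0 :=
        div_nonpos_of_nonpos_of_nonneg (by linarith) (by linarith)
      have h5 : 1 ≤ (1 - hh p.2) / (1 - 2 * hh p.2) := by
        rw [le_div_iff₀ (by linarith)]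
        linarith
      change max 0 (min 1 ((0 - hh p.2) / (1 - 2 * hh p.2))) - 0 =
        max 0 (min 1 ((1 - hh p.2) / (1 - 2 * hh p.2))) - 1
      rw [min_eq_right (h4.trans zero_le_one), max_eq_left h4, min_eq_left h5,
        max_eq_right zero_le_one]
      norm_num
  have h2 : (fun p : ℝ × ↥Pg => xp (hh p.2) p.1) = fun p : ℝ × ↥Pg =>
      p.1 + (max 0 (min 1 ((Int.fract p.1 - hh p.2) / (1 - 2 * hh p.2))) - Int.fract p.1) := by
    funext p
    unfold xp
    have := Int.floor_add_fract p.1
    linarith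
  rw [h2]
  exact continuous_fst.add key

theorem xp_of_int (h : ℝ) (hh0 : 0 ≤ h) (hh1 : h ≤ 1 / 4) (k : ℤ) : xp h k = k := by
  unfold xp
  rw [Int.fract_intCast, Int.floor_intCast]
  have h4 : (0 - h) / (1 - 2 * h) ≤ 0 :=
    div_nonpos_of_nonpos_of_nonneg (by linarith) (by linarith)
  rw [min_eq_right (h4.trans zero_le_one), max_eq_left h4, add_zero]

theorem xp_zero (x : ℝ) : xp 0 x = x := by
  unfold xp
  have h1 := Int.fract_nonneg x
  have h2 := (Int.fract_lt_one x).le
  rw [sub_zero, mul_zero, sub_zero, div_one, min_eq_right h2, max_eq_right h1,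
    Int.floor_add_fract]

theorem xp_int_of_dd_le {h x : ℝ} (hh0 : 0 ≤ h) (hh1 : h ≤ 1 / 4) (hd : dd x ≤ h) :
    ∃ k : ℤ, xp h x = k := by
  unfold xp
  unfold dd at hd
  rcases min_le_iff.mp hd with h1 | h1
  · have h4 : (Int.fract x - h) / (1 - 2 * h) ≤ 0 :=
      div_nonpos_of_nonpos_of_nonneg (by linarith) (by linarith)
    rw [min_eq_right (h4.trans zero_le_one), max_eq_left h4, add_zero]
    exact ⟨_, rfl⟩
  · have h5 : 1 ≤ (Int.fract x - h) / (1 - 2 * h) := by
      rw [le_div_iff₀ (by linarith)]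
      linarith
    rw [min_eq_left h5, max_eq_right zero_le_one]
    exact ⟨⌊x⌋ + 1, by push_cast; ring⟩

/-- the truncation parameter -/
noncomputable def lm (h x : ℝ) : ℝ := min 1 (dd x / h)

theorem lm_nonneg {h x : ℝ} (hh0 : 0 ≤ h) : 0 ≤ lm h x :=
  le_min zero_le_one (div_nonneg (dd_nonneg x) hh0)

theorem lm_le_one (h x : ℝ) : lm h x ≤ 1 := min_le_left _ _

theorem cp_cont : Continuous fun p : ℝ × ↥Pg => tr (p.2 : List A → ℝ) (lm (hh p.2) p.1) := by
  rw [continuous_pi_iff]
  intro l
  have h1 : Continuous fun p : ℝ × ↥Pg => hh (p.2 : List A → ℝ) :=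
    hh_cont.comp (continuous_subtype_val.comp continuous_snd)
  have hl : Continuous fun p : ℝ × ↥Pg => (p.2 : List A → ℝ) l :=
    (continuous_apply l).comp (continuous_subtype_val.comp continuous_snd)
  rw [continuous_iff_continuousAt]
  intro p₀
  change ContinuousAt (fun p : ℝ × ↥Pg => min ((p.2 : List A → ℝ) l)
    (prof l.length (lm (hh p.2) p.1))) p₀
  by_cases h0 : hh (p₀.2 : List A → ℝ) = 0
  · have hr := eq_root p₀.2.2 h0
    cases l with
    | nil =>
      have : (fun p : ℝ × ↥Pg => min ((p.2 : List A → ℝ) [])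
          (prof (([] : List A).length) (lm (hh p.2) p.1))) = fun _ => 1 := by
        funext p
        rw [p.2.2.1]
        simp [prof]
      rw [this]
      exact continuousAt_const
    | cons x l =>
      have hz : (p₀.2 : List A → ℝ) (x :: l) = 0 := by
        rw [hr]
        simp [root]
      have hz' : min ((p₀.2 : List A → ℝ) (x :: l))
          (prof ((x :: l).length) (lm (hh p₀.2) p₀.1)) = 0 := by
        rw [hz]
        exact min_eq_left (prof_nonneg_ThatAE _ _)
      change Filter.Tendsto _ _ (𝓝 (min ((p₀.2 : List A → ℝ) (x :: l))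
          (prof ((x :: l).length) (lm (hh p₀.2) p₀.1))))
      rw [hz']
      have h2 : Filter.Tendsto (fun p : ℝ × ↥Pg => (p.2 : List A → ℝ) (x :: l)) (𝓝 p₀) (𝓝 0) := by
        have := hl.tendsto p₀
        rwa [hz] at this
      refine squeeze_zero (fun p => ?_) (fun p => ?_) h2
      · exact le_min (p.2.2.2.1 _).1 (prof_nonneg_ThatAE _ _)
      · exact min_le_left _ _
  · have h2 : ContinuousAt (fun p : ℝ × ↥Pg => lm (hh p.2) p.1) p₀ := by
      have h3 : ContinuousAt (fun p : ℝ × ↥Pg => dd p.1 / hh p.2) p₀ :=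
        (dd_cont.comp continuous_fst).continuousAt.div h1.continuousAt h0
      exact continuousAt_const.min h3
    exact hl.continuousAt.min ((prof_cont _).continuousAt.comp h2)

theorem isAE_That : IsAE ↥That := by
  let i : ↥That → ℝ × ↥Pg := fun p => (p.1.1, ⟨p.1.2, p.2.1⟩)
  have hmem : ∀ p : ℝ × ↥Pg,
      (xp (hh p.2) p.1, tr (p.2 : List A → ℝ) (lm (hh p.2) p.1)) ∈ That := by
    intro p
    have h0 := hh_nonneg p.2.2
    have h1 := hh_le (p.2 : List A → ℝ)
    refine ⟨tr_mem p.2.2 (lm_nonneg h0) (lm_le_one _ _), ?_⟩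
    rcases le_or_gt (dd p.1) (hh p.2) with h2 | h2
    · exact Or.inr (xp_int_of_dd_le h0 h1 h2)
    · left
      change tr (p.2 : List A → ℝ) (lm (hh p.2) p.1) = root
      by_cases h3 : hh (p.2 : List A → ℝ) = 0
      · rw [eq_root p.2.2 h3]
        exact tr_root_ThatAE _
      · have h4 : lm (hh p.2) p.1 = 1 := by
          unfold lm
          apply min_eq_left
          rw [le_div_iff₀ (lt_of_le_of_ne h0 (Ne.symm h3))]
          linarith
        rw [h4]
        exact tr_one p.2.2
  let r : ℝ × ↥Pg → ↥That := fun p => ⟨_, hmem p⟩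
  refine isAE_retract i r ?_ ?_ ?_ (isAE_prod isAE_real isAE_Pg)
  · exact (continuous_fst.comp continuous_subtype_val).prodMk
      ((continuous_snd.comp continuous_subtype_val).subtype_mk _)
  · exact (xp_cont.prodMk cp_cont).subtype_mk _
  · rintro ⟨⟨x, c⟩, hc, hp⟩
    apply Subtype.ext
    change (xp (hh c) x, tr c (lm (hh c) x)) = (x, c)
    have hc' : c ∈ Pg := hc
    rcases hp with hp | ⟨k, hk⟩
    · have hp' : c = root := hp
      subst hp'
      rw [hh_root, xp_zero, tr_root_ThatAE]
    · have hk' : x = k := hk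
      subst hk'
      rw [xp_of_int _ (hh_nonneg hc') (hh_le c)]
      have h5 : lm (hh c) (k : ℝ) = 0 := by
        unfold lm dd
        rw [Int.fract_intCast]
        simp
      rw [h5, tr_zero hc']

end Pool.Agent.Helper376.CL
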