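import Mathlib
import Pool.Agent.Helper376.CL.AE

set_option maxHeartbeats 4000000
set_option synthInstance.maxHeartbeats 400000

namespace Pool.Agent.Helper376.CL

open Set Topology

/-- auxiliary: a gauge function -/
theorem ext_of_push_gauge {M : Type} [MetricSpace M] (A : Set M) (hA : IsCompact A)
    (hne : A.Nonempty) (P : ℕ → ℝ → Prop) (hP : ∀ n, ∃ ε > 0, P n ε)
    (hPm : ∀ n ε ε', 0 < ε → ε ≤ ε' → P n ε' → P n ε) :
    ∃ (η : M → ℝ) (δ : ℕ → ℝ), Continuous η ∧ (∀ m ∈ A, η m = 0) ∧ (∀ m, m ∉ A → 0 < η m) ∧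
      (∀ m, η m ≤ 1) ∧ (∀ n, 0 < δ n ∧ P n (δ n)) ∧
      ∀ m, m ∉ A → Metric.infDist m A < δ 0 →
        ∃ n, Metric.infDist m A < δ n ∧ (1 / 2 : ℝ) ^ n ≤ η m := by
  choose δ0 hδ0 hPδ using hP
  let δ : ℕ → ℝ := fun n => Nat.rec (δ0 0) (fun k r => min r (min (δ0 (k + 1)) ((1 / 2 : ℝ) ^ (k + 1)))) n
  have hδs : ∀ k, δ (k + 1) = min (δ k) (min (δ0 (k + 1)) ((1 / 2 : ℝ) ^ (k + 1))) := fun k => rfl
  have hδz : δ 0 = δ0 0 := rfl
  have hδp : ∀ n, 0 < δ n := by
    intro n
    induction n with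
    | zero => rw [hδz]; exact hδ0 0
    | succ k ih => rw [hδs]; exact lt_min ih (lt_min (hδ0 _) (by positivity))
  have hδle : ∀ n, δ n ≤ δ0 n := by
    intro n
    cases n with
    | zero => exact le_of_eq hδz
    | succ k => rw [hδs]; exact (min_le_right _ _).trans (min_le_left _ _)
  have hδa : Antitone δ := antitone_nat_of_succ_le fun k => by rw [hδs]; exact min_le_left _ _
  have hδt : ∀ k, δ (k + 1) ≤ (1 / 2 : ℝ) ^ (k + 1) := fun k => by
    rw [hδs]; exact (min_le_right _ _).trans (min_le_right _ _)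
  let t : ℕ → M → ℝ := fun k m => (1 / 2 : ℝ) ^ (k + 1) * min 1 (Metric.infDist m A / δ (k + 1))
  have htn : ∀ k m, 0 ≤ t k m := fun k m =>
    mul_nonneg (by positivity) (le_min zero_le_one (div_nonneg Metric.infDist_nonneg (hδp (k + 1)).le))
  have htl : ∀ k m, t k m ≤ (1 / 2 : ℝ) ^ (k + 1) := fun k m => by
    have : min 1 (Metric.infDist m A / δ (k + 1)) ≤ 1 := min_le_left _ _
    calc t k m ≤ (1 / 2 : ℝ) ^ (k + 1) * 1 := mul_le_mul_of_nonneg_left this (by positivity)
      _ = _ := mul_one _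
  have hgs : Summable fun k : ℕ => (1 / 2 : ℝ) ^ (k + 1) :=
    (summable_nat_add_iff 1).2 (summable_geometric_of_lt_one (by norm_num) (by norm_num))
  have hgt : ∀ n : ℕ, ∑' k : ℕ, (1 / 2 : ℝ) ^ (k + n + 1) = (1 / 2 : ℝ) ^ n := by
    intro n
    have h1 : ∀ k : ℕ, (1 / 2 : ℝ) ^ (k + n + 1) = (1 / 2 : ℝ) ^ (n + 1) * (1 / 2 : ℝ) ^ k := by
      intro k; rw [← pow_add]; congr 1; ring
    rw [tsum_congr h1, tsum_mul_left, tsum_geometric_of_lt_one (by norm_num) (by norm_num), pow_succ]
    norm_num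
    ring
  have hts : ∀ m, Summable fun k => t k m := fun m =>
    Summable.of_nonneg_of_le (fun k => htn k m) (fun k => htl k m) hgs
  refine ⟨fun m => ∑' k, t k m, δ, ?_, ?_, ?_, ?_, ?_, ?_⟩
  · refine continuous_tsum (u := fun k : ℕ => (1 / 2 : ℝ) ^ (k + 1)) ?_ hgs ?_
    · intro k
      apply Continuous.mul continuous_const
      apply Continuous.min continuous_const
      exact (Metric.continuous_infDist_pt A).div_const _
    · intro k m
      rw [Real.norm_eq_abs, abs_of_nonneg (htn k m)]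
      exact htl k m
  · intro m hm
    have : ∀ k, t k m = 0 := by
      intro k
      change (1 / 2 : ℝ) ^ (k + 1) * min 1 (Metric.infDist m A / δ (k + 1)) = 0
      rw [Metric.infDist_zero_of_mem hm, zero_div, min_eq_right zero_le_one, mul_zero]
    simp only [this, tsum_zero]
  · intro m hm
    have hd : 0 < Metric.infDist m A := (hA.isClosed.notMem_iff_infDist_pos hne).1 hm
    have h0 : 0 < t 0 m := mul_pos (by positivity) (lt_min zero_lt_one (div_pos hd (hδp (0 + 1))))
    exact (hts m).tsum_pos (fun k => htn k m) 0 h0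
  · intro m
    have h1 := (hts m).tsum_le_tsum (fun k => htl k m) hgs
    have h2 := hgt 0
    simp only [add_zero, pow_zero] at h2
    rw [h2] at h1
    exact h1
  · intro n
    exact ⟨hδp n, hPm n _ _ (hδp n) (hδle n) (hPδ n)⟩
  · intro m hm hm0
    have hd : 0 < Metric.infDist m A := (hA.isClosed.notMem_iff_infDist_pos hne).1 hm
    -- the least n with δ (n+1) ≤ d
    have hex : ∃ n, δ (n + 1) ≤ Metric.infDist m A := by
      obtain ⟨n, hn⟩ := exists_pow_lt_of_lt_one hd (by norm_num : (1 / 2 : ℝ) < 1)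
      refine ⟨n, (hδt n).trans ?_⟩
      refine le_trans ?_ hn.le
      rw [pow_succ]
      have : (0 : ℝ) ≤ (1 / 2) ^ n := by positivity
      linarith
    classical
    obtain ⟨n, hn, hmin⟩ : ∃ n, δ (n + 1) ≤ Metric.infDist m A ∧
        ∀ k < n, ¬ δ (k + 1) ≤ Metric.infDist m A :=
      ⟨Nat.find hex, Nat.find_spec hex, fun k hk => Nat.find_min hex hk⟩
    refine ⟨n, ?_, ?_⟩
    · cases n with
      | zero => exact hm0
      | succ k => exact not_le.1 (hmin k (Nat.lt_succ_self k))
    · have h1 : ∀ k, (1 / 2 : ℝ) ^ (k + n + 1) = t (k + n) m := by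
        intro k
        change _ = (1 / 2 : ℝ) ^ (k + n + 1) * min 1 (Metric.infDist m A / δ (k + n + 1))
        rw [min_eq_left, mul_one]
        rw [le_div_iff₀ (hδp (k + n + 1)), one_mul]
        exact (hδa (show n + 1 ≤ k + n + 1 by omega)).trans hn
      rw [← hgt n, tsum_congr h1]
      have h2 := (hts m).sum_add_tsum_nat_add n
      have h3 : 0 ≤ ∑ i ∈ Finset.range n, t i m := Finset.sum_nonneg fun i _ => htn i m
      linarith

/-- Hanner-type criterion: if `X` can be pushed instantly into a subset `O` which is an AE, then maps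
from compact subsets of metric spaces to `X` extend. -/
theorem ext_of_push {X : Type} [MetricSpace X] [CompactSpace X] (O : Set X) (hO : IsAE ↥O)
    (H : X → ℝ → X) (hH : ContinuousOn (Function.uncurry H) (univ ×ˢ Icc (0:ℝ) 1))
    (H0 : ∀ x, H x 0 = x) (HO : ∀ x t, 0 < t → t ≤ 1 → H x t ∈ O)
    (M : Type) [MetricSpace M] (A : Set M) (hA : IsCompact A) (f : A → X) (hf : Continuous f) :
    ∃ F : M → X, Continuous F ∧ ∀ a : A, F a = f a := by
  rcases A.eq_empty_or_nonempty with hne | hne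
  · subst hne
    obtain ⟨F, hF, -⟩ := hO M ∅ isClosed_empty (fun a => a.2.elim)
      (continuous_of_const (fun a => a.2.elim))
    exact ⟨fun m => (F m : X), continuous_subtype_val.comp hF, fun a => a.2.elim⟩
  -- the extension over the cylinder
  let T : Type := {t : ℝ // 0 < t ∧ t ≤ 1}
  let A' : Set (M × T) := {p | p.1 ∈ A}
  have hA'c : IsClosed A' := hA.isClosed.preimage continuous_fst
  have hHc : ∀ {Z : Type} [TopologicalSpace Z] (u : Z → X) (v : Z → T), Continuous u →
      Continuous v → Continuous fun z => H (u z) (v z).1 := by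
    intro Z _ u v hu hv
    have h1 : Continuous fun z => (u z, (v z).1) := hu.prodMk (continuous_subtype_val.comp hv)
    exact hH.comp_continuous h1 (fun z => ⟨mem_univ _, (v z).2.1.le, (v z).2.2⟩)
  let g : A' → O := fun p => ⟨H (f ⟨p.1.1, p.2⟩) p.1.2.1, HO _ _ p.1.2.2.1 p.1.2.2.2⟩
  have hg : Continuous g := by
    apply Continuous.subtype_mk
    apply hHc (fun p : A' => f ⟨p.1.1, p.2⟩) (fun p : A' => p.1.2)
    · apply hf.comp
      apply Continuous.subtype_mk
      exact continuous_fst.comp continuous_subtype_val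
    · exact continuous_snd.comp continuous_subtype_val
  obtain ⟨Φ, hΦ, hΦA⟩ := hO (M × T) A' hA'c g hg
  -- the open set
  let G : Set (M × T) := {p | ∃ a : A, dist p.1 a < p.2.1 ∧ dist (Φ p : X) (H (f a) p.2.1) < p.2.1}
  have hGo : IsOpen G := by
    have : G = ⋃ a : A, {p : M × T | dist p.1 a < p.2.1 ∧
        dist (Φ p : X) (H (f a) p.2.1) < p.2.1} := by
      ext p; simp [G]
    rw [this]
    apply isOpen_iUnion
    intro a
    apply IsOpen.inter
    · exact isOpen_lt (continuous_fst.dist continuous_const)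
        (continuous_subtype_val.comp continuous_snd)
    · refine isOpen_lt (Continuous.dist (continuous_subtype_val.comp hΦ) ?_)
        (continuous_subtype_val.comp continuous_snd)
      exact hHc (fun _ : M × T => f a) (fun p => p.2) continuous_const continuous_snd
  have hGA : ∀ (a : A) (t : T), ((a : M), t) ∈ G := by
    intro a t
    refine ⟨a, ?_, ?_⟩
    · rw [dist_self]; exact t.2.1
    · have h1 := hΦA ⟨((a : M), t), a.2⟩
      have h2 : (Φ ((a : M), t) : X) = H (f a) t.1 := by rw [h1]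
      rw [h2, dist_self]
      exact t.2.1
  let P : ℕ → ℝ → Prop := fun n ε => ∀ m : M, Metric.infDist m A < ε → ∀ t : T,
    (1 / 2 : ℝ) ^ n ≤ t.1 → (m, t) ∈ G
  have hP : ∀ n, ∃ ε > 0, P n ε := by
    intro n
    have hK : IsCompact {t : T | (1 / 2 : ℝ) ^ n ≤ t.1} := by
      rw [Subtype.isCompact_iff]
      have : (Subtype.val '' {t : T | (1 / 2 : ℝ) ^ n ≤ t.1} : Set ℝ) =
          Icc ((1 / 2 : ℝ) ^ n) 1 := by
        ext s
        constructor
        · rintro ⟨t, ht, rfl⟩
          exact ⟨ht, t.2.2⟩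
        · rintro ⟨h1, h2⟩
          exact ⟨⟨s, lt_of_lt_of_le (by positivity) h1, h2⟩, h1, rfl⟩
      rw [this]
      exact isCompact_Icc
    obtain ⟨u, v, hu, hv, hAu, hKv, huv⟩ := generalized_tube_lemma hA hK hGo (by
      rintro ⟨a, t⟩ ⟨ha, -⟩
      exact hGA ⟨a, ha⟩ t)
    obtain ⟨ε, hε, hεu⟩ := hA.exists_thickening_subset_open hu hAu
    refine ⟨ε, hε, fun m hm t ht => huv ⟨hεu ?_, hKv ht⟩⟩
    rw [Metric.mem_thickening_iff_infDist_lt hne]
    exact hm
  obtain ⟨η, δ, hηc, hηA, hηp, hη1, hδ, hηδ⟩ := ext_of_push_gauge A hA hne P hP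
    (fun n ε ε' _ h1 h2 m hm t ht => h2 m (lt_of_lt_of_le hm h1) t ht)
  classical
  let F : M → X := fun m => if h : m ∈ A then f ⟨m, h⟩ else
    (Φ (m, ⟨η m, hηp m h, hη1 m⟩) : X)
  have hFA : ∀ m (h : m ∈ A), F m = f ⟨m, h⟩ := fun m h => dif_pos h
  have hFn : ∀ m (h : m ∉ A), F m = (Φ (m, ⟨η m, hηp m h, hη1 m⟩) : X) := fun m h => dif_neg h
  refine ⟨F, ?_, fun a => hFA a a.2⟩
  -- key estimate
  have hkey : ∀ m, m ∉ A → Metric.infDist m A < δ 0 →
      ∃ a : A, dist m a < η m ∧ dist (F m) (H (f a) (η m)) < η m := by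
    intro m hm hm0
    obtain ⟨n, hn1, hn2⟩ := hηδ m hm hm0
    have h1 : (m, (⟨η m, hηp m hm, hη1 m⟩ : T)) ∈ G := (hδ n).2 m hn1 _ hn2
    obtain ⟨a, ha1, ha2⟩ := h1
    refine ⟨a, ha1, ?_⟩
    rw [hFn m hm]
    exact ha2
  rw [continuous_iff_continuousAt]
  intro m
  by_cases hm : m ∈ A
  · rw [Metric.continuousAt_iff]
    intro ε hε
    have hHu := (isCompact_univ.prod isCompact_Icc).uniformContinuousOn_of_continuous hH
    haveI : CompactSpace A := isCompact_iff_compactSpace.1 hA
    have hfu := CompactSpace.uniformContinuous_of_continuous hf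
    obtain ⟨ρ1, hρ1, h1⟩ := Metric.uniformContinuousOn_iff.1 hHu (ε / 3) (by positivity)
    obtain ⟨ρ2, hρ2, h2⟩ := Metric.uniformContinuous_iff.1 hfu (ε / 3) (by positivity)
    have hη0 : Filter.Tendsto η (𝓝 m) (𝓝 0) := by
      have := hηc.tendsto m
      rwa [hηA m hm] at this
    obtain ⟨ρ3, hρ3, h3⟩ := Metric.continuousAt_iff.1 hηc.continuousAt
      (min ρ1 (min (ρ2 / 2) (ε / 3))) (by positivity)
    refine ⟨min ρ3 (min (ρ2 / 2) (δ 0)), lt_min hρ3 (lt_min (by positivity) (hδ 0).1), ?_⟩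
    intro x hx
    have hx1 : dist x m < ρ3 := lt_of_lt_of_le hx (min_le_left _ _)
    have hx2 : dist x m < ρ2 / 2 :=
      lt_of_lt_of_le hx ((min_le_right _ _).trans (min_le_left _ _))
    have hx3 : dist x m < δ 0 :=
      lt_of_lt_of_le hx ((min_le_right _ _).trans (min_le_right _ _))
    rw [hFA m hm]
    by_cases hxA : x ∈ A
    · rw [hFA x hxA]
      have : dist (f ⟨x, hxA⟩) (f ⟨m, hm⟩) < ε / 3 := by
        apply h2
        rw [Subtype.dist_eq]
        linarith
      linarith
    · have hd : Metric.infDist x A < δ 0 :=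
        lt_of_le_of_lt (Metric.infDist_le_dist_of_mem hm) hx3
      obtain ⟨a, ha1, ha2⟩ := hkey x hxA hd
      have hηx := h3 hx1
      rw [hηA m hm, Real.dist_eq, sub_zero, abs_of_pos (hηp x hxA)] at hηx
      have e1 : η x < ρ1 := lt_of_lt_of_le hηx (min_le_left _ _)
      have e2 : η x < ρ2 / 2 := lt_of_lt_of_le hηx ((min_le_right _ _).trans (min_le_left _ _))
      have e3 : η x < ε / 3 := lt_of_lt_of_le hηx ((min_le_right _ _).trans (min_le_right _ _))
      have e4 : dist (H (f a) (η x)) (f a) < ε / 3 := by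
        have := h1 (f a, η x) ⟨mem_univ _, (hηp x hxA).le, hη1 x⟩ (f a, 0)
          ⟨mem_univ _, le_refl _, zero_le_one⟩ (by
            rw [Prod.dist_eq, dist_self, Real.dist_eq, sub_zero, abs_of_pos (hηp x hxA)]
            exact max_lt hρ1 e1)
        simp only [Function.uncurry] at this
        rw [H0] at this
        exact this
      have e5 : dist (f a) (f ⟨m, hm⟩) < ε / 3 := by
        apply h2
        rw [Subtype.dist_eq]
        have := dist_triangle_left (a : M) m x
        simp only at this ⊢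
        linarith
      calc dist (F x) (f ⟨m, hm⟩) ≤ dist (F x) (H (f a) (η x)) + dist (H (f a) (η x)) (f a) +
            dist (f a) (f ⟨m, hm⟩) := dist_triangle4 _ _ _ _
        _ < ε := by linarith
  · have hopen : IsOpen (Aᶜ) := hA.isClosed.isOpen_compl
    have hco : ContinuousOn F Aᶜ := by
      rw [continuousOn_iff_continuous_domRestrict]
      have : (Aᶜ).domRestrict F = fun x : (Aᶜ : Set M) =>
          (Φ (x.1, ⟨η x.1, hηp x.1 x.2, hη1 x.1⟩) : X) := by
        funext x
        exact hFn x.1 x.2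
      rw [this]
      apply continuous_subtype_val.comp
      apply hΦ.comp
      apply Continuous.prodMk continuous_subtype_val
      apply Continuous.subtype_mk
      exact hηc.comp continuous_subtype_val
    exact hco.continuousAt (hopen.mem_nhds hm)

end Pool.Agent.Helper376.CL
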