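import Mathlib
import Pool.Agent.Helper376.CL.Defs

set_option maxHeartbeats 4000000
set_option synthInstance.maxHeartbeats 400000

namespace Pool.Agent.Helper376.CL

open Set Topology

theorem isZSet_of_push {X : Type} [MetricSpace X] [CompactSpace X] (Z : Set X) (hZ : IsClosed Z)
    (H : X → ℝ → X) (hH : ContinuousOn (Function.uncurry H) (univ ×ˢ Icc (0:ℝ) 1))
    (H0 : ∀ x, H x 0 = x) (HZ : ∀ x t, 0 < t → t ≤ 1 → H x t ∉ Z) : IsZSet Z := by
  classical
  refine ⟨hZ.isCompact, ?_⟩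
  intro U hU
  have hτ : ∃ τ : C(↥U, ℝ), ∀ x : ↥U, τ x ∈
      {c : ℝ | 0 < c ∧ c ≤ 1 ∧ ∀ s ∈ Icc (0:ℝ) c, H (x : X) s ∈ U} := by
    apply exists_continuous_forall_mem_convex_of_local_const
    · intro x
      apply Set.OrdConnected.convex
      refine ⟨?_⟩
      rintro a ⟨ha0, ha1, ha⟩ b ⟨hb0, hb1, hb⟩ c ⟨hac, hcb⟩
      exact ⟨lt_of_lt_of_le ha0 hac, hcb.trans hb1, fun s hs => hb s ⟨hs.1, hs.2.trans hcb⟩⟩
    · intro x
      have h1 : ContinuousWithinAt (Function.uncurry H) (univ ×ˢ Icc (0:ℝ) 1) ((x : X), 0) :=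
        hH _ ⟨mem_univ _, by constructor <;> norm_num⟩
      have h2 : Function.uncurry H ((x : X), (0:ℝ)) ∈ U := by
        simp only [Function.uncurry_apply_pair, H0]
        exact x.2
      have h3 := h1.preimage_mem_nhdsWithin (hU.mem_nhds h2)
      rw [nhdsWithin_prod_eq, nhdsWithin_univ, Filter.mem_prod_iff] at h3
      obtain ⟨V, hV, T, hT, hVT⟩ := h3
      obtain ⟨ε, hε, hεT⟩ := Metric.mem_nhdsWithin_iff.1 hT
      refine ⟨min (ε / 2) 1, ?_⟩
      have h4 : ∀ᶠ y : ↥U in 𝓝 x, (y : X) ∈ V :=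
        continuous_subtype_val.continuousAt.eventually_mem hV
      filter_upwards [h4] with y hy
      refine ⟨by positivity, min_le_right _ _, ?_⟩
      intro s hs
      have hs1 : s ≤ ε / 2 := hs.2.trans (min_le_left _ _)
      have hs2 : s ≤ 1 := hs.2.trans (min_le_right _ _)
      have h5 : s ∈ T := by
        apply hεT
        refine ⟨?_, hs.1, hs2⟩
        rw [Metric.mem_ball, Real.dist_eq, sub_zero, abs_of_nonneg hs.1]
        linarith
      exact hVT (Set.mk_mem_prod hy h5)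
  obtain ⟨τ, hτ⟩ := hτ
  have hτ0 : ∀ x, 0 < τ x := fun x => (hτ x).1
  have hτ1 : ∀ x, τ x ≤ 1 := fun x => (hτ x).2.1
  have hτU : ∀ x : ↥U, ∀ s ∈ Icc (0:ℝ) (τ x), H (x : X) s ∈ U := fun x => (hτ x).2.2
  -- the basic homotopy
  have hcont : Continuous fun p : unitInterval × ↥U => H (p.2 : X) ((p.1 : ℝ) * τ p.2) := by
    have h1 : Continuous fun p : unitInterval × ↥U => ((p.2 : X), (p.1 : ℝ) * τ p.2) :=
      (continuous_subtype_val.comp continuous_snd).prodMk
        ((continuous_subtype_val.comp continuous_fst).mul (τ.continuous.comp continuous_snd))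
    refine hH.comp_continuous h1 ?_
    intro p
    refine ⟨mem_univ _, mul_nonneg p.1.2.1 (hτ0 _).le, ?_⟩
    exact mul_le_one₀ p.1.2.2 (hτ0 _).le (hτ1 _)
  have hmemU : ∀ p : unitInterval × ↥U, H (p.2 : X) ((p.1 : ℝ) * τ p.2) ∈ U := by
    intro p
    apply hτU
    refine ⟨mul_nonneg p.1.2.1 (hτ0 _).le, ?_⟩
    exact mul_le_of_le_one_left (hτ0 _).le p.1.2.2
  have hmemZ : ∀ p : unitInterval × ↥U, (p.2 : X) ∉ Z ∨ 0 < (p.1 : ℝ) →
      H (p.2 : X) ((p.1 : ℝ) * τ p.2) ∉ Z := by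
    intro p hp
    rcases p.1.2.1.eq_or_lt with h0 | h0
    · rcases hp with hp | hp
      · rw [← h0, zero_mul, H0]
        exact hp
      · rw [← h0] at hp
        exact absurd hp (lt_irrefl _)
    · exact HZ _ _ (mul_pos h0 (hτ0 _)) (mul_le_one₀ p.1.2.2 (hτ0 _).le (hτ1 _))
  let incl : C(↥(U \ Z), ↥U) := ⟨fun x => ⟨x.1, x.2.1⟩, by fun_prop⟩
  have hone : ∀ x : ↥U, H (x : X) (τ x) ∈ U \ Z := by
    intro x
    have h1 := hmemU (1, x)
    have h2 := hmemZ (1, x) (Or.inr (by norm_num))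
    simp only [Set.Icc.coe_one, one_mul] at h1 h2
    exact ⟨h1, h2⟩
  have hcont1 : Continuous fun x : ↥U => H (x : X) (τ x) := by
    have h1 := hcont.comp (Continuous.prodMk (continuous_const (y := (1 : unitInterval))) continuous_id)
    refine h1.congr fun x => ?_
    simp
  let r : C(↥U, ↥(U \ Z)) := ⟨fun x => ⟨H (x : X) (τ x), hone x⟩, hcont1.subtype_mk _⟩
  refine ⟨⟨incl, r, ?_, ?_⟩, fun x => rfl⟩
  · -- r ∘ incl ≃ id
    refine ContinuousMap.Homotopic.symm ⟨⟨⟨fun p => ⟨H (p.2 : X) ((p.1 : ℝ) * τ (incl p.2)), ?_⟩, ?_⟩, ?_, ?_⟩⟩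
    · exact ⟨hmemU (p.1, incl p.2), hmemZ (p.1, incl p.2) (Or.inl p.2.2.2)⟩
    · apply Continuous.subtype_mk
      exact hcont.comp (continuous_fst.prodMk (incl.continuous.comp continuous_snd))
    · intro x
      apply Subtype.ext
      simp [H0]
    · intro x
      apply Subtype.ext
      simp [r, incl]
  · -- incl ∘ r ≃ id
    refine ContinuousMap.Homotopic.symm ⟨⟨⟨fun p => ⟨H (p.2 : X) ((p.1 : ℝ) * τ p.2), hmemU p⟩, ?_⟩, ?_, ?_⟩⟩
    · exact hcont.subtype_mk _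
    · intro x
      apply Subtype.ext
      simp [H0]
    · intro x
      apply Subtype.ext
      simp [r, incl]

end Pool.Agent.Helper376.CL
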