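import Mathlib
import Pool.Agent.Helper376.CL.Defs
import Pool.Agent.Helper376.CL.AE
import Pool.Agent.Helper376.CL.Push
import Pool.Agent.Helper376.CL.ZSet

set_option maxHeartbeats 4000000
set_option synthInstance.maxHeartbeats 400000

namespace Pool.Agent.Helper376.CL

open Set Topology

/-- A compact space with a push into an AE and a continuous injection into a finite-dimensional space is
a Euclidean retract. -/
theorem isEuclideanRetract_of_push {X : Type} [MetricSpace X] [CompactSpace X] (O : Set X)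
    (hO : IsAE ↥O) (H : X → ℝ → X)
    (hH : ContinuousOn (Function.uncurry H) (univ ×ˢ Icc (0:ℝ) 1))
    (H0 : ∀ x, H x 0 = x) (HO : ∀ x t, 0 < t → t ≤ 1 → H x t ∈ O)
    {E : Type} [NormedAddCommGroup E] [NormedSpace ℝ E] [FiniteDimensional ℝ E]
    (Φ : X → E) (hΦ : Continuous Φ) (hinj : Function.Injective Φ) : IsEuclideanRetract X := by
  refine ⟨inferInstance, Module.finrank ℝ E, fun x => toEuclidean (Φ x), ?_⟩
  have hcont : Continuous (fun x => toEuclidean (Φ x)) := toEuclidean.continuous.comp hΦ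
  have hinj' : Function.Injective (fun x => toEuclidean (Φ x)) :=
    toEuclidean.injective.comp hinj
  have hemb : IsEmbedding (fun x => toEuclidean (Φ x)) :=
    (hcont.isClosedEmbedding hinj').isEmbedding
  obtain ⟨F, hF, hFa⟩ := ext_of_push O hO H hH H0 HO
    (EuclideanSpace ℝ (Fin (Module.finrank ℝ E))) (range (fun x => toEuclidean (Φ x)))
    (isCompact_range hcont) hemb.toHomeomorph.symm hemb.toHomeomorph.symm.continuous
  refine ⟨F, hemb, hF, fun x => ?_⟩
  have h1 := hFa (hemb.toHomeomorph x)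
  rw [Homeomorph.symm_apply_apply] at h1
  exact h1

/-- Wrap-up: everything needed to show that `S` is a Z-structure boundary of `G`.  The metric used on
`X` is the one induced by the embedding `Φ`. -/
theorem isZBoundary_of {G : Type} [Group G] {X : Type} [TopologicalSpace X] [CompactSpace X]
    (S : Set X) (hS : IsClosed S)
    {E : Type} [NormedAddCommGroup E] [NormedSpace ℝ E] [FiniteDimensional ℝ E]
    (Φ : X → E) (hΦ : Continuous Φ) (hinj : Function.Injective Φ)
    (O : Set X) (hO : IsAE ↥O)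
    (H₁ : X → ℝ → X) (hH₁ : ContinuousOn (Function.uncurry H₁) (univ ×ˢ Icc (0:ℝ) 1))
    (H₁0 : ∀ x, H₁ x 0 = x) (H₁O : ∀ x t, 0 < t → t ≤ 1 → H₁ x t ∈ O)
    (H₂ : X → ℝ → X) (hH₂ : ContinuousOn (Function.uncurry H₂) (univ ×ˢ Icc (0:ℝ) 1))
    (H₂0 : ∀ x, H₂ x 0 = x) (H₂S : ∀ x t, 0 < t → t ≤ 1 → H₂ x t ∉ S)
    {Y : Type} [TopologicalSpace Y] [MulAction G Y] (j : Y → X) (hj : IsOpenEmbedding j)
    (hrange : range j = Sᶜ) (hcont : ∀ g : G, Continuous (fun y : Y => g • y))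
    (hcov : ∀ y : Y, ∃ U : Set Y, IsOpen U ∧ y ∈ U ∧
      ∀ g : G, g ≠ 1 → Disjoint ((fun y => g • y) '' U) U)
    (K₀ : Set Y) (hK₀ : IsCompact K₀) (hcoc : ∀ y : Y, ∃ g : G, g • y ∈ K₀)
    (hnull : ∀ K : Set Y, IsCompact K → ∀ ε : ℝ, 0 < ε →
      {g : G | ∃ p ∈ K, ∃ q ∈ K, ε ≤ dist (Φ (j (g • p))) (Φ (j (g • q)))}.Finite) :
    IsZBoundary G ↥S := by
  have hemb : IsEmbedding Φ := (hΦ.isClosedEmbedding hinj).isEmbedding
  letI mX : MetricSpace X := hemb.comapMetricSpace Φ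
  have hdist : ∀ x y : X, dist x y = dist (Φ x) (Φ y) := fun _ _ => rfl
  obtain ⟨e, he⟩ : ∃ e : Y ≃ₜ ↥(Sᶜ), ∀ y, (e y : X) = j y :=
    ⟨hj.isEmbedding.toHomeomorph.trans (Homeomorph.setCongr hrange), fun y => rfl⟩
  letI act : MulAction G ↥(Sᶜ) :=
    { smul := fun g x => e (g • e.symm x)
      one_smul := fun x => by
        change e ((1 : G) • e.symm x) = x
        rw [one_smul, Homeomorph.apply_symm_apply]
      mul_smul := fun g h x => by
        change e ((g * h) • e.symm x) = e (g • e.symm (e (h • e.symm x)))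
        rw [Homeomorph.symm_apply_apply, mul_smul] }
  have hact : ∀ (g : G) (x : ↥(Sᶜ)), g • x = e (g • e.symm x) := fun _ _ => rfl
  refine ⟨X, mX, S, act, ?_, ⟨Homeomorph.refl _⟩⟩
  refine ⟨?_, ?_, ?_, ?_, ?_, ?_⟩
  · exact isEuclideanRetract_of_push O hO H₁ hH₁ H₁0 H₁O Φ hΦ hinj
  · exact isZSet_of_push S hS H₂ hH₂ H₂0 H₂S
  · intro g
    exact e.continuous.comp ((hcont g).comp e.symm.continuous)
  · intro x
    obtain ⟨U, hU, hxU, hdis⟩ := hcov (e.symm x)
    refine ⟨e.symm ⁻¹' U, hU.preimage e.symm.continuous, hxU, fun g hg => ?_⟩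
    rw [Set.disjoint_left]
    rintro z ⟨y, hy, rfl⟩ hz
    refine Set.disjoint_left.1 (hdis g hg) ⟨e.symm y, hy, rfl⟩ ?_
    have h1 : e.symm (g • y) ∈ U := hz
    rw [hact, Homeomorph.symm_apply_apply] at h1
    exact h1
  · have hc : Continuous (fun y : Y => (Quotient.mk _ (e y) :
        MulAction.orbitRel.Quotient G ↥(Sᶜ))) := continuous_quotient_mk'.comp e.continuous
    have h2 := hK₀.image hc
    refine ⟨?_⟩
    convert h2
    symm
    rw [Set.eq_univ_iff_forall]
    intro q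
    induction q using Quotient.inductionOn with
    | h x =>
      obtain ⟨g, hg⟩ := hcoc (e.symm x)
      refine ⟨g • e.symm x, hg, ?_⟩
      apply Quotient.sound
      exact ⟨g, rfl⟩
  · intro K hK ε hε
    refine (hnull (e.symm '' K) (hK.image e.symm.continuous) ε hε).subset ?_
    intro g hg
    by_contra hcon
    have hcon' : ∀ p ∈ e.symm '' K, ∀ q ∈ e.symm '' K,
        dist (Φ (j (g • p))) (Φ (j (g • q))) < ε := by
      intro p hp q hq
      by_contra h
      exact hcon ⟨p, hp, q, hq, not_lt.1 h⟩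
    have hg' : ε < Metric.diam (Subtype.val '' ((fun y => g • y) '' K) : Set X) := hg
    refine absurd hg' (not_lt.2 ?_)
    refine Metric.diam_le_of_forall_dist_le hε.le ?_
    rintro _ ⟨_, ⟨x, hx, rfl⟩, rfl⟩ _ ⟨_, ⟨y, hy, rfl⟩, rfl⟩
    have h3 := (hcon' _ ⟨x, hx, rfl⟩ _ ⟨y, hy, rfl⟩).le
    rw [hdist]
    change dist (Φ ((e (g • e.symm x) : ↥(Sᶜ)) : X)) (Φ ((e (g • e.symm y) : ↥(Sᶜ)) : X)) ≤ ε
    rw [he, he]
    exact h3

end Pool.Agent.Helper376.CL
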