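import Mathlib
import Pool.Agent.Helper376.CL.Defs
import Pool.Agent.Helper376.CL.AE
import Pool.Agent.Helper376.CL.Wrap
import Pool.Agent.Helper376.CL.NCE
import Pool.Agent.Helper376.CL.Pg
import Pool.Agent.Helper376.CL.Emb
import Pool.Agent.Helper376.CL.PgAE
import Pool.Agent.Helper376.CL.ThatAE
import Pool.Agent.Helper376.CL.FwLem
import Pool.Agent.Helper376.CL.XSLem
import Pool.Agent.Helper376.CL.HabLem
import Pool.Agent.Helper376.CL.TreeLem
import Pool.Agent.Helper376.CL.CellLem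
import Pool.Agent.Helper376.CL.THLem
import Pool.Agent.Helper376.CL.JLem
import Pool.Agent.Helper376.CL.EstLem
import Pool.Agent.Helper376.CL.Bd0
import Pool.Agent.Helper376.CL.Bd1

set_option maxHeartbeats 4000000
set_option synthInstance.maxHeartbeats 400000

namespace Pool.Agent.Helper376.CL

open Set Topology

theorem jz_abs_le {w : ℝ} (p : ↥(XS w)) (l : List A) : |p.1.2 l| ≤ 1 := by
  obtain ⟨h1, c, hc, h2, -⟩ := p.2
  have h3 := hc.2.1 l
  have h4 : 0 ≤ ‖p.1.1‖ := norm_nonneg _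
  rw [h2, Pi.smul_apply, smul_eq_mul, abs_of_nonneg (mul_nonneg (by linarith) h3.1)]
  exact mul_le_one₀ (by linarith) h3.1 h3.2

/-- the embedding into the finite-dimensional space -/
noncomputable def jzPhi (w : ℝ) (p : ↥(XS w)) : ℂ × ℝ × ℝ := (p.1.1, e1 p.1.2, e2 p.1.2)

theorem jz_continuous_Phi (w : ℝ) : Continuous (jzPhi w) := by
  have h1 : Continuous fun p : ↥(XS w) => p.1.1 := continuous_fst.comp continuous_subtype_val
  have h2 : Continuous fun p : ↥(XS w) => p.1.2 := continuous_snd.comp continuous_subtype_val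
  have h3 : Continuous fun p : ↥(XS w) => e1 p.1.2 :=
    continuousOn_e1.comp_continuous h2 (fun p l => jz_abs_le p l)
  have h4 : Continuous fun p : ↥(XS w) => e2 p.1.2 :=
    continuousOn_e2.comp_continuous h2 (fun p l => jz_abs_le p l)
  exact h1.prodMk (h3.prodMk h4)

theorem jz_injective_Phi (w : ℝ) : Function.Injective (jzPhi w) := by
  intro p q hpq
  have hz : p.1.1 = q.1.1 := congrArg (fun x : ℂ × ℝ × ℝ => x.1) hpq
  have h1 : e1 p.1.2 = e1 q.1.2 := congrArg (fun x : ℂ × ℝ × ℝ => x.2.1) hpq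
  have h2 : e2 p.1.2 = e2 q.1.2 := congrArg (fun x : ℂ × ℝ × ℝ => x.2.2) hpq
  obtain ⟨hp1, c, hc, hpc, -⟩ := p.2
  obtain ⟨hq1, c', hc', hqc, -⟩ := q.2
  apply Subtype.ext
  apply Prod.ext hz
  rcases eq_or_ne ‖p.1.1‖ 1 with hn | hn
  · rw [hpc, hqc, ← hz, hn, sub_self, zero_smul, zero_smul]
  · have ha : (1 - ‖p.1.1‖) ≠ 0 := fun h => hn (by linarith)
    rw [hpc, hqc, ← hz, e1_smul, e1_smul] at h1
    rw [hpc, hqc, ← hz, e2_smul, e2_smul] at h2
    have h3 := e_inj hc hc' (mul_left_cancel₀ ha h1) (mul_left_cancel₀ ha h2)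
    rw [hpc, hqc, ← hz, h3]

theorem jz_isAE_XO (w : ℝ) : IsAE ↥(XO w) := by
  obtain ⟨h, -⟩ := exists_homeo_XO w
  exact isAE_retract h.symm h h.symm.continuous h.continuous (fun y => h.apply_symm_apply y)
    (isAE_prod isAE_That isAE_real)

/-- the parameter, clamped -/
noncomputable def jzc (t : ℝ) : ℝ := (Set.projIcc (0 : ℝ) 1 zero_le_one t : ℝ)

theorem jzc_nonneg (t : ℝ) : 0 ≤ jzc t := (Set.projIcc (0 : ℝ) 1 zero_le_one t).2.1
theorem jzc_le (t : ℝ) : jzc t ≤ 1 := (Set.projIcc (0 : ℝ) 1 zero_le_one t).2.2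
theorem jzc_eq {t : ℝ} (h0 : 0 ≤ t) (h1 : t ≤ 1) : jzc t = t := by
  unfold jzc
  rw [Set.projIcc_of_mem zero_le_one ⟨h0, h1⟩]
theorem jzc_continuous : Continuous jzc := continuous_subtype_val.comp continuous_projIcc

/-- first push -/
noncomputable def jzH1 (w : ℝ) (p : ↥(XS w)) (t : ℝ) : ↥(XS w) :=
  ⟨Hb p.1 (jzc t), Hb_mem p.2 (jzc_nonneg t) (jzc_le t)⟩

/-- second push -/
noncomputable def jzH2 (w : ℝ) (p : ↥(XS w)) (t : ℝ) : ↥(XS w) :=
  ⟨Hb (Ha p.1 (jzc t)) (jzc t), Hb_mem (Ha_mem p.2 (jzc_nonneg t) (jzc_le t)) (jzc_nonneg t)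
    (jzc_le t)⟩

theorem jz_cont1 (w : ℝ) : Continuous (Function.uncurry (jzH1 w)) := by
  refine Continuous.subtype_mk ?_ _
  have h1 : Continuous fun x : ↥(XS w) × ℝ => (x.1.1, jzc x.2) :=
    (continuous_subtype_val.comp continuous_fst).prodMk (jzc_continuous.comp continuous_snd)
  exact continuous_Hb.comp h1

theorem jz_cont2 (w : ℝ) : Continuous (Function.uncurry (jzH2 w)) := by
  refine Continuous.subtype_mk ?_ _
  have h1 : Continuous fun x : ↥(XS w) × ℝ => (x.1.1, jzc x.2) :=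
    (continuous_subtype_val.comp continuous_fst).prodMk (jzc_continuous.comp continuous_snd)
  have h2 : Continuous fun x : ↥(XS w) × ℝ => Ha x.1.1 (jzc x.2) := continuous_Ha.comp h1
  have h3 : Continuous fun x : ↥(XS w) × ℝ => (Ha x.1.1 (jzc x.2), jzc x.2) :=
    h2.prodMk (jzc_continuous.comp continuous_snd)
  exact continuous_Hb.comp h3

theorem jz_H1_zero (w : ℝ) (p : ↥(XS w)) : jzH1 w p 0 = p := by
  apply Subtype.ext
  show Hb p.1 (jzc 0) = p.1
  rw [jzc_eq le_rfl zero_le_one, Hb_zero p.2]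

theorem jz_H2_zero (w : ℝ) (p : ↥(XS w)) : jzH2 w p 0 = p := by
  apply Subtype.ext
  show Hb (Ha p.1 (jzc 0)) (jzc 0) = p.1
  rw [jzc_eq le_rfl zero_le_one, Ha_zero p.2, Hb_zero p.2]

theorem isZBoundary_XF {w : ℝ} (hw : |w| ≤ 1) :
    IsZBoundary (FreeGroup (Fin 2) × Multiplicative ℤ) ↥((XF w)ᶜ) := by
  have : CompactSpace ↥(XS w) := isCompact_iff_compactSpace.1 (isCompact_XS w)
  obtain ⟨j, hj, hjr, hjv⟩ := exists_j w
  obtain ⟨K₀, hK₀, hcoc⟩ := cocompact_TR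
  have hΦj : ∀ p, jzPhi w (j p) = Dw w p := by
    intro p
    unfold jzPhi Dw
    rw [hjv]
    simp only [e1_smul, e2_smul]
  refine isZBoundary_of (G := F2 × Multiplicative ℤ) (S := (XF w)ᶜ) (isOpen_XF w).isClosed_compl
    (jzPhi w) (jz_continuous_Phi w) (jz_injective_Phi w) (XO w) (jz_isAE_XO w)
    (jzH1 w) (jz_cont1 w).continuousOn (jz_H1_zero w) ?_
    (jzH2 w) (jz_cont2 w).continuousOn (jz_H2_zero w) ?_
    (Y := Tree × ℝ) j hj ?_ continuous_smul_TR covering_TR K₀ hK₀ hcoc ?_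
  · intro x t h0 h1
    show ‖(Hb x.1 (jzc t)).1‖ < 1
    rw [jzc_eq h0.le h1]
    exact Hb_norm_lt x.2 h0 h1
  · intro x t h0 h1 hx
    apply hx
    show ‖(Hb (Ha x.1 (jzc t)) (jzc t)).1‖ < 1 ∧ IsFin (Hb (Ha x.1 (jzc t)) (jzc t)).2
    rw [jzc_eq h0.le h1]
    exact ⟨Hb_norm_lt (Ha_mem x.2 h0.le h1) h0 h1,
      Hb_fin (Ha_mem x.2 h0.le h1) (Ha_fin x.2 h0 h1) h0.le h1⟩
  · rw [hjr, compl_compl]
  · intro K hK ε hε
    have h1 := null_of_cells (Dw w) (fun ε hε => cells_null hw ε hε) K hK ε hε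
    simp only [hΦj]
    exact h1

theorem main_result : ∃ (Z₁ Z₂ : Type) (_ : TopologicalSpace Z₁) (_ : TopologicalSpace Z₂),
    IsZBoundary (FreeGroup (Fin 2) × Multiplicative ℤ) Z₁ ∧
    IsZBoundary (FreeGroup (Fin 2) × Multiplicative ℤ) Z₂ ∧ ¬ CellLikeEquivalent Z₁ Z₂ := by
  obtain ⟨r, S, θ, hr, hr1, hS, hne, hne', hθ, hrθ, hproper⟩ := spiral_bd1
  refine ⟨↥((XF 0)ᶜ), ↥((XF 1)ᶜ), inferInstance, inferInstance, isZBoundary_XF (by simp),
    isZBoundary_XF (by simp), ?_⟩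
  exact not_cellLikeEquivalent pathConnected_bd0 r hr hr1 S hS hne hne' θ hθ hrθ hproper

end Pool.Agent.Helper376.CL
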