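import Mathlib
import Pool.Agent.Helper376.CL.PgDefs

set_option maxHeartbeats 4000000
set_option synthInstance.maxHeartbeats 400000

namespace Pool.Agent.Helper376.CL

open Set Topology

/-- level of an integer height -/
noncomputable def lamZ (n : ℤ) : ℝ := if n ≤ 0 then 1 / (1 - (n : ℝ)) else 1 + (n : ℝ)

/-- length of the level interval above height `n` -/
noncomputable def wZ (n : ℤ) : ℝ := lamZ (n + 1) - lamZ n

/-- fraction of the edge between heights `n` and `n+1` above level `a` -/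
noncomputable def thZ (n : ℤ) (a : ℝ) : ℝ := max 0 (min 1 ((lamZ (n + 1) - a) / wZ n))

/-- height of a vertex -/
def htI (v : List A × ℤ) : ℤ := v.2 - v.1.length

/-- sum over the children -/
noncomputable def chs (C : List A × ℤ → ℝ) (v : List A × ℤ) : ℝ :=
  (if v.1 = [] then C ([], v.2 - 1) else 0) + ∑ x : A, C (x :: v.1, v.2)

/-- the tree with all its ends except the top one, with the level coordinate -/
def DT : Set ((List A × ℤ → ℝ) × ℝ) :=
  {p | 0 ≤ p.2 ∧ (∀ v, p.1 v = 0 ∨ p.1 v = thZ (htI v) p.2) ∧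
    (∀ v, chs p.1 v = min (p.1 v) (thZ (htI v - 1) p.2)) ∧
    (∀ x l k, ¬ ok x l → p.1 (x :: l, k) = 0) ∧ ∃ N : ℤ, ∀ k : ℤ, N ≤ k → p.1 ([], k) = 1}

/-- nearness to the top end -/
noncomputable def kaT (p : (List A × ℤ → ℝ) × ℝ) : ℝ := ∑' k : ℕ, (1 - p.1 ([], (k : ℤ)))

/-- moving up -/
noncomputable def liftT (p : (List A × ℤ → ℝ) × ℝ) (a : ℝ) : (List A × ℤ → ℝ) × ℝ :=
  (fun v => min (p.1 v) (thZ (htI v) a), max p.2 a)

/-- the point of the line at position `M` -/
noncomputable def topT (M : ℝ) : (List A × ℤ → ℝ) × ℝ :=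
  (fun v => if v.1 = [] then max 0 (min 1 ((v.2 : ℝ) + 1 - M)) else 0, 1 + M)

/-- auxiliary level -/
noncomputable def bT (p : (List A × ℤ → ℝ) × ℝ) (M : ℝ) : ℝ :=
  max 0 (min 1 (kaT p + 1 - M)) * (1 + kaT p)

/-- cutting at position `M` -/
noncomputable def cutT (p : (List A × ℤ → ℝ) × ℝ) (M : ℝ) : (List A × ℤ → ℝ) × ℝ :=
  (fun v => if v.1 = [] then max (p.1 v) (max 0 (min 1 ((v.2 : ℝ) + 1 - M)))
    else min (p.1 v) (thZ (htI v) (bT p M)), min (max p.2 (bT p M)) (1 + M))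

end Pool.Agent.Helper376.CL
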