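import Mathlib
import Pool.Agent.Helper376.CL.DTDefs

set_option maxHeartbeats 4000000
set_option synthInstance.maxHeartbeats 400000

namespace Pool.Agent.Helper376.CL

open Set Topology

theorem lamZ_pos (n : ℤ) : 0 < lamZ n := by
  unfold lamZ
  split_ifs with h
  · have : (n:ℝ) ≤ 0 := by exact_mod_cast h
    apply one_div_pos.2
    linarith
  · have h' : 0 < n := by omega
    have : (0:ℝ) < n := by exact_mod_cast h'
    linarith

theorem wZ_pos (n : ℤ) : 0 < wZ n := by
  unfold wZ lamZ
  rcases lt_trichotomy n 0 with h | h | h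
  · have h1 : n + 1 ≤ 0 := by omega
    have h2 : n ≤ 0 := by omega
    rw [if_pos h1, if_pos h2]
    have h3 : (n:ℝ) + 1 ≤ 0 := by exact_mod_cast h1
    have h4 : (n:ℝ) < 0 := by exact_mod_cast h
    push_cast
    rw [sub_pos]
    apply one_div_lt_one_div_of_lt <;> linarith
  · subst h
    norm_num
  · have h1 : ¬ (n + 1 ≤ 0) := by omega
    have h2 : ¬ (n ≤ 0) := by omega
    rw [if_neg h1, if_neg h2]
    push_cast
    linarith

theorem thZ_nonneg' (n : ℤ) (a : ℝ) : 0 ≤ thZ n a := le_max_left _ _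

theorem thZ_le_one' (n : ℤ) (a : ℝ) : thZ n a ≤ 1 :=
  max_le zero_le_one (min_le_left _ _)

theorem thZ_eq_one' {n : ℤ} {a : ℝ} (h : a ≤ lamZ n) : thZ n a = 1 := by
  unfold thZ
  have hw := wZ_pos n
  have h1 : 1 ≤ (lamZ (n + 1) - a) / wZ n := by
    rw [le_div_iff₀ hw]
    unfold wZ
    linarith
  rw [min_eq_left h1, max_eq_right zero_le_one]

theorem thZ_eq_zero' {n : ℤ} {a : ℝ} (h : lamZ (n + 1) ≤ a) : thZ n a = 0 := by
  unfold thZ
  have hw := wZ_pos n
  have h1 : (lamZ (n + 1) - a) / wZ n ≤ 0 := div_nonpos_of_nonpos_of_nonneg (by linarith) hw.le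
  exact max_eq_left ((min_le_right _ _).trans h1)

theorem thZ_pos_lt' {n : ℤ} {a : ℝ} (h : 0 < thZ n a) : a < lamZ (n + 1) := by
  by_contra hc
  rw [thZ_eq_zero' (not_lt.1 hc)] at h
  exact lt_irrefl _ h

theorem thZ_one_le' {n : ℤ} {a : ℝ} (h : thZ n a = 1) : a ≤ lamZ n := by
  unfold thZ at h
  have hw := wZ_pos n
  by_contra hc
  push Not at hc
  have h1 : (lamZ (n + 1) - a) / wZ n < 1 := by
    rw [div_lt_one hw]
    unfold wZ
    linarith
  have h2 : max 0 (min 1 ((lamZ (n + 1) - a) / wZ n)) < 1 :=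
    max_lt zero_lt_one (lt_of_le_of_lt (min_le_right _ _) h1)
  linarith

theorem thZ_mono {m n : ℤ} (h : m ≤ n) (a : ℝ) : thZ m a ≤ thZ n a := by
  have hstep : ∀ k : ℤ, thZ k a ≤ thZ (k + 1) a := by
    intro k
    rcases le_or_gt (lamZ (k + 1)) a with h1 | h1
    · rw [thZ_eq_zero' h1]
      exact thZ_nonneg' _ _
    · rw [thZ_eq_one' h1.le]
      exact thZ_le_one' _ _
  exact monotone_int_of_le_succ hstep h

theorem thZ_anti (n : ℤ) {a b : ℝ} (h : a ≤ b) : thZ n b ≤ thZ n a := by
  unfold thZ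
  have hw := wZ_pos n
  gcongr

theorem thZ_pos_imp {n : ℤ} {a : ℝ} (h : 0 < thZ n a) : thZ (n + 1) a = 1 :=
  thZ_eq_one' (thZ_pos_lt' h).le

theorem thZ_zero (n : ℤ) : thZ n 0 = 1 := thZ_eq_one' (lamZ_pos n).le

theorem thZ_nonneg_height {n : ℤ} (hn : 0 ≤ n) (a : ℝ) : thZ n a = max 0 (min 1 ((n:ℝ) + 2 - a)) := by
  have h1 : lamZ (n + 1) = (n:ℝ) + 2 := by
    unfold lamZ
    rw [if_neg (by omega)]
    push_cast
    ring
  have h2 : lamZ n = (n:ℝ) + 1 := by
    unfold lamZ
    rcases hn.eq_or_lt with h | h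
    · subst h
      norm_num
    · rw [if_neg (by omega)]
      ring
  have h3 : wZ n = 1 := by
    unfold wZ
    rw [h1, h2]
    ring
  unfold thZ
  rw [h1, h3, div_one]

theorem lamZ_mono' : StrictMono lamZ := by
  apply strictMono_int_of_lt_succ
  intro n
  have := wZ_pos n
  unfold wZ at this
  linarith

theorem exists_lamZ' {b : ℝ} (hb : 0 < b) : ∃ n : ℤ, lamZ n < b ∧ b ≤ lamZ (n + 1) := by
  have h1 : ∃ c : ℤ, ∀ z : ℤ, lamZ z < b → z ≤ c := by
    refine ⟨max 0 ⌈b⌉, fun z hz => ?_⟩
    rcases le_or_gt z 0 with h | h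
    · exact h.trans (le_max_left _ _)
    · refine le_trans ?_ (le_max_right _ _)
      unfold lamZ at hz
      rw [if_neg (by omega)] at hz
      have : (z:ℝ) < b := by linarith
      have h2 : (z:ℝ) ≤ (⌈b⌉ : ℤ) := this.le.trans (Int.le_ceil b)
      exact_mod_cast h2
  have h2 : ∃ z : ℤ, lamZ z < b := by
    obtain ⟨m, hm⟩ := exists_nat_gt (1 / b)
    refine ⟨-(m:ℤ), ?_⟩
    unfold lamZ
    rw [if_pos (by omega)]
    push_cast
    have h3 : (1:ℝ) / b < 1 - -(m:ℝ) := by linarith
    have h4 : (0:ℝ) < 1 - -(m:ℝ) := by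
      have := Nat.cast_nonneg (α := ℝ) m
      linarith
    rw [div_lt_iff₀ h4]
    rw [div_lt_iff₀ hb] at h3
    linarith
  obtain ⟨n, hn1, hn2⟩ := Int.exists_greatest_of_bdd h1 h2
  refine ⟨n, hn1, ?_⟩
  by_contra hc
  have := hn2 (n + 1) (not_le.1 hc)
  omega

theorem thZ_inj' {a b : ℝ} (ha : 0 ≤ a) (h : ∀ n, thZ n a = thZ n b) (hab : a < b) : False := by
  obtain ⟨n, h1, h2⟩ := exists_lamZ' (lt_of_le_of_lt ha hab)
  have hw := wZ_pos n
  have e := h n
  unfold thZ at e
  have h3 : (lamZ (n + 1) - b) / wZ n < 1 := by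
    rw [div_lt_one hw]
    unfold wZ
    linarith
  have h4 : 0 ≤ (lamZ (n + 1) - b) / wZ n := div_nonneg (by linarith) hw.le
  have h5 : (lamZ (n + 1) - b) / wZ n < (lamZ (n + 1) - a) / wZ n := by
    gcongr
  rw [min_eq_right h3.le, max_eq_right h4] at e
  have h6 : (lamZ (n + 1) - b) / wZ n < min 1 ((lamZ (n + 1) - a) / wZ n) := lt_min h3 h5
  have h7 := le_max_right 0 (min 1 ((lamZ (n + 1) - a) / wZ n))
  linarith

/-- parent of a vertex -/
def parT (v : List A × ℤ) : List A × ℤ :=
  match v with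
  | ([], k) => ([], k + 1)
  | (_ :: l, k) => (l, k)

theorem htI_parT (v : List A × ℤ) : htI (parT v) = htI v + 1 := by
  obtain ⟨l, k⟩ := v
  cases l with
  | nil => simp [parT, htI]
  | cons x l =>
    simp only [parT, htI, List.length_cons]
    push_cast
    ring

theorem parT_iter_nil (k : ℤ) (j : ℕ) : parT^[j] ([], k) = ([], k + j) := by
  induction j with
  | zero => simp
  | succ j ih =>
    rw [Function.iterate_succ_apply', ih]
    simp only [parT]
    push_cast
    ring_nf

theorem parT_iter (l : List A) (k : ℤ) (j : ℕ) (hj : l.length ≤ j) :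
    parT^[j] (l, k) = ([], htI (l, k) + j) := by
  induction l generalizing j with
  | nil =>
    rw [parT_iter_nil]
    simp [htI]
  | cons x l ih =>
    obtain ⟨i, rfl⟩ : ∃ i, j = i + 1 := ⟨j - 1, by simp at hj; omega⟩
    rw [Function.iterate_succ_apply]
    have : parT (x :: l, k) = (l, k) := rfl
    rw [this, ih i (by simpa using hj)]
    simp only [htI, List.length_cons]
    push_cast
    congr 1
    ring

section
variable {p : (List A × ℤ → ℝ) × ℝ} (hp : p ∈ DT)
include hp

theorem DT_bounds (v : List A × ℤ) : 0 ≤ p.1 v ∧ p.1 v ≤ 1 := by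
  obtain ⟨_, h2, _⟩ := hp
  rcases h2 v with h | h
  · rw [h]
    exact ⟨le_rfl, zero_le_one⟩
  · rw [h]
    exact ⟨thZ_nonneg' _ _, thZ_le_one' _ _⟩

theorem DT_eq' {v : List A × ℤ} (h : p.1 v ≠ 0) : p.1 v = thZ (htI v) p.2 := by
  obtain ⟨_, h2, _⟩ := hp
  exact (h2 v).resolve_left h

theorem DT_pos' {v : List A × ℤ} (h : p.1 v ≠ 0) : 0 < p.1 v :=
  lt_of_le_of_ne (DT_bounds hp v).1 (Ne.symm h)

theorem DT_chs_child (x : A) (v : List A × ℤ) : p.1 (x :: v.1, v.2) ≤ chs p.1 v := by
  unfold chs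
  have h1 : p.1 (x :: v.1, v.2) ≤ ∑ x : A, p.1 (x :: v.1, v.2) :=
    Finset.single_le_sum (f := fun x : A => p.1 (x :: v.1, v.2))
      (fun y _ => (DT_bounds hp _).1) (Finset.mem_univ x)
  have h2 : 0 ≤ (if v.1 = [] then p.1 ([], v.2 - 1) else 0) := by
    split_ifs
    · exact (DT_bounds hp _).1
    · exact le_rfl
  linarith

theorem DT_chs_child_L (k : ℤ) : p.1 ([], k - 1) ≤ chs p.1 ([], k) := by
  unfold chs
  have h1 : 0 ≤ ∑ x : A, p.1 ([x], k) :=
    Finset.sum_nonneg (fun y _ => (DT_bounds hp ([y], k)).1)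
  simp only [if_true]
  linarith

theorem DT_par' {v w : List A × ℤ} (hw : w = parT v) (h : p.1 v ≠ 0) : p.1 w = 1 := by
  have hle : p.1 v ≤ chs p.1 w := by
    subst hw
    obtain ⟨l, k⟩ := v
    cases l with
    | nil =>
      have := DT_chs_child_L hp (k + 1)
      simpa [parT] using this
    | cons x l => exact DT_chs_child hp x (l, k)
  have hpos := DT_pos' hp h
  have hht : htI w - 1 = htI v := by rw [hw, htI_parT]; ring
  obtain ⟨_, _, h3, _⟩ := id hp
  rw [h3 w, hht] at hle
  have h4 : 0 < p.1 w := hpos.trans_le (hle.trans (min_le_left _ _))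
  have h5 : 0 < thZ (htI v) p.2 := hpos.trans_le (hle.trans (min_le_right _ _))
  rw [DT_eq' hp h4.ne', hw, htI_parT]
  exact thZ_pos_imp h5

theorem DT_parent_L {k : ℤ} (h : p.1 ([], k) ≠ 0) : p.1 ([], k + 1) = 1 :=
  DT_par' hp (v := ([], k)) rfl h

theorem DT_parent {x : A} {l : List A} {k : ℤ} (h : p.1 (x :: l, k) ≠ 0) : p.1 (l, k) = 1 :=
  DT_par' hp (v := (x :: l, k)) rfl h

theorem DT_sib {x y : A} (hxy : x ≠ y) (l : List A) (k : ℤ) :
    p.1 (x :: l, k) = 0 ∨ p.1 (y :: l, k) = 0 := by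
  by_contra hc
  push Not at hc
  obtain ⟨hx, hy⟩ := hc
  have ex := DT_eq' hp hx
  have ey := DT_eq' hp hy
  have px := DT_pos' hp hx
  obtain ⟨_, _, h3, _⟩ := id hp
  have h4 := h3 (l, k)
  have h5 : p.1 (x :: l, k) + p.1 (y :: l, k) ≤ chs p.1 (l, k) := by
    unfold chs
    have h1 : p.1 (x :: l, k) + p.1 (y :: l, k) ≤ ∑ x : A, p.1 (x :: l, k) := by
      rw [← Finset.sum_pair (f := fun x : A => p.1 (x :: l, k)) hxy]
      exact Finset.sum_le_sum_of_subset_of_nonneg (Finset.subset_univ _)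
        (fun y _ _ => (DT_bounds hp _).1)
    have h2 : 0 ≤ (if (l, k).1 = [] then p.1 ([], (l, k).2 - 1) else 0) := by
      split_ifs
      · exact (DT_bounds hp _).1
      · exact le_rfl
    linarith
  have h6 : chs p.1 (l, k) ≤ thZ (htI (l, k) - 1) p.2 := by
    rw [h4]
    exact min_le_right _ _
  have h7 : htI (x :: l, k) = htI (l, k) - 1 := by simp [htI]; ring
  have h8 : htI (y :: l, k) = htI (l, k) - 1 := by simp [htI]; ring
  rw [h7] at ex
  rw [h8] at ey
  linarith

theorem DT_sib_L (x : A) (k : ℤ) : p.1 ([x], k) = 0 ∨ p.1 ([], k - 1) = 0 := by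
  by_contra hc
  push Not at hc
  obtain ⟨hx, hy⟩ := hc
  have ex := DT_eq' hp hx
  have ey := DT_eq' hp hy
  have px := DT_pos' hp hx
  obtain ⟨_, _, h3, _⟩ := id hp
  have h4 := h3 ([], k)
  have h5 : p.1 ([x], k) + p.1 ([], k - 1) ≤ chs p.1 ([], k) := by
    unfold chs
    have h1 : p.1 ([x], k) ≤ ∑ x : A, p.1 ([x], k) :=
      Finset.single_le_sum (f := fun x : A => p.1 ([x], k))
        (fun y _ => (DT_bounds hp _).1) (Finset.mem_univ x)
    simp only [if_true]
    linarith
  have h6 : chs p.1 ([], k) ≤ thZ (htI ([], k) - 1) p.2 := by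
    rw [h4]
    exact min_le_right _ _
  have h7 : htI ([x], k) = htI ([], k) - 1 := by simp [htI]
  have h8 : htI ([], k - 1) = htI ([], k) - 1 := by simp [htI]
  rw [h7] at ex
  rw [h8] at ey
  linarith

theorem DT_child' (v : List A × ℤ) (h : chs p.1 v ≠ 0) : ∃ w, parT w = v ∧ p.1 w ≠ 0 := by
  by_contra hc
  push Not at hc
  apply h
  unfold chs
  have h1 : (if v.1 = [] then p.1 ([], v.2 - 1) else 0) = 0 := by
    split_ifs with h0
    · apply hc
      obtain ⟨l, k⟩ := v
      simp only at h0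
      subst h0
      simp [parT]
    · rfl
  have h2 : ∑ x : A, p.1 (x :: v.1, v.2) = 0 :=
    Finset.sum_eq_zero (fun x _ => hc _ rfl)
  rw [h1, h2, add_zero]

theorem DT_level (n : ℤ) (h : 0 < thZ n p.2) : ∃ v, htI v = n ∧ p.1 v = thZ n p.2 := by
  obtain ⟨_, h2, h3, _, N, hN⟩ := id hp
  have key : ∀ j : ℕ, n ≤ max N n - j → ∃ v, htI v = max N n - j ∧ p.1 v = thZ (max N n - j) p.2 := by
    intro j
    induction j with
    | zero =>
      intro _
      refine ⟨([], max N n), by simp [htI], ?_⟩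
      have h4 : p.1 ([], max N n) = 1 := hN _ (le_max_left _ _)
      have h5 := DT_eq' hp (v := ([], max N n)) (by rw [h4]; exact one_ne_zero)
      rw [h5]
      simp [htI]
    | succ j ih =>
      intro hj
      push_cast at hj ⊢
      obtain ⟨v, hv1, hv2⟩ := ih (by omega)
      have h4 : chs p.1 v = thZ (max N n - (j + 1)) p.2 := by
        rw [h3 v, hv2, hv1]
        have e : max N n - (j:ℤ) - 1 = max N n - (j + 1) := by ring
        rw [e]
        apply min_eq_right
        apply thZ_mono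
        omega
      have h5 : 0 < thZ (max N n - (j + 1)) p.2 := h.trans_le (thZ_mono hj _)
      obtain ⟨w, hw1, hw2⟩ := DT_child' hp v (by rw [h4]; exact h5.ne')
      have h6 : htI w = max N n - (j + 1) := by
        have := htI_parT w
        rw [hw1, hv1] at this
        linarith
      refine ⟨w, h6, ?_⟩
      rw [DT_eq' hp hw2, h6]
  have hle : n ≤ max N n := le_max_right _ _
  obtain ⟨v, hv1, hv2⟩ := key (max N n - n).toNat (by omega)
  have e : max N n - ((max N n - n).toNat : ℤ) = n := by omega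
  rw [e] at hv1 hv2
  exact ⟨v, hv1, hv2⟩

theorem DT_par_inj' {v v' : List A × ℤ} (h : parT v = parT v') (hv : p.1 v ≠ 0)
    (hv' : p.1 v' ≠ 0) : v = v' := by
  obtain ⟨l, k⟩ := v
  obtain ⟨l', k'⟩ := v'
  cases l with
  | nil =>
    cases l' with
    | nil =>
      simp only [parT, Prod.mk.injEq] at h
      have : k = k' := by linarith [h.2]
      rw [this]
    | cons y l' =>
      simp only [parT, Prod.mk.injEq] at h
      obtain ⟨h1, h2⟩ := h
      subst h1
      subst h2
      exfalso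
      rcases DT_sib_L hp y (k + 1) with h | h
      · exact hv' h
      · apply hv
        rwa [add_sub_cancel_right] at h
  | cons x l =>
    cases l' with
    | nil =>
      simp only [parT, Prod.mk.injEq] at h
      obtain ⟨h1, h2⟩ := h
      subst h1
      subst h2
      exfalso
      rcases DT_sib_L hp x (k' + 1) with h | h
      · exact hv h
      · apply hv'
        rwa [add_sub_cancel_right] at h
    | cons y l' =>
      simp only [parT, Prod.mk.injEq] at h
      obtain ⟨h1, h2⟩ := h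
      subst h1
      subst h2
      by_cases hxy : x = y
      · rw [hxy]
      · exfalso
        rcases DT_sib hp hxy l k with h | h
        · exact hv h
        · exact hv' h

theorem DT_iter_inj' (j : ℕ) : ∀ {v v' : List A × ℤ}, parT^[j] v = parT^[j] v' → p.1 v ≠ 0 →
    p.1 v' ≠ 0 → v = v' := by
  induction j with
  | zero => intro v v' h _ _; exact h
  | succ j ih =>
    intro v v' h hv hv'
    rw [Function.iterate_succ_apply, Function.iterate_succ_apply] at h
    have h1 : p.1 (parT v) = 1 := DT_par' hp rfl hv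
    have h2 : p.1 (parT v') = 1 := DT_par' hp rfl hv'
    exact DT_par_inj' hp (ih h (by rw [h1]; exact one_ne_zero) (by rw [h2]; exact one_ne_zero))
      hv hv'

theorem DT_unique_height {v v' : List A × ℤ} (h : htI v = htI v') (hv : p.1 v ≠ 0)
    (hv' : p.1 v' ≠ 0) : v = v' := by
  apply DT_iter_inj' hp (v.1.length + v'.1.length) _ hv hv'
  obtain ⟨l, k⟩ := v
  obtain ⟨l', k'⟩ := v'
  rw [parT_iter l k _ (by simp), parT_iter l' k' _ (by simp), h]

theorem DT_th_eq' {q : (List A × ℤ → ℝ) × ℝ} (hq : q ∈ DT) (h : p.1 = q.1) (n : ℤ)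
    (hn : 0 < thZ n p.2) : thZ n p.2 = thZ n q.2 := by
  obtain ⟨v, hv1, hv2⟩ := DT_level hp n hn
  have h1 : q.1 v ≠ 0 := by
    rw [← h, hv2]
    exact hn.ne'
  have h2 := DT_eq' hq h1
  rw [← h, hv2, hv1] at h2
  exact h2

theorem DT_ext {q : (List A × ℤ → ℝ) × ℝ} (hq : q ∈ DT) (h : p.1 = q.1) : p = q := by
  have key : ∀ n, thZ n p.2 = thZ n q.2 := by
    intro n
    rcases (thZ_nonneg' n p.2).eq_or_lt with h1 | h1
    · rcases (thZ_nonneg' n q.2).eq_or_lt with h2 | h2
      · rw [← h1, ← h2]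
      · exact (DT_th_eq' hq hp h.symm n h2).symm
    · exact DT_th_eq' hp hq h n h1
  have h2 : p.2 = q.2 := by
    rcases lt_trichotomy p.2 q.2 with h1 | h1 | h1
    · exact (thZ_inj' hp.1 key h1).elim
    · exact h1
    · exact (thZ_inj' hq.1 (fun n => (key n).symm) h1).elim
  exact Prod.ext h h2

theorem DT_last' : ∀ (l : List A) (k : ℤ), l ≠ [] → p.1 (l, k) ≠ 0 → ∃ y, p.1 ([y], k) ≠ 0 := by
  intro l
  induction l with
  | nil => intro k h _; exact absurd rfl h
  | cons x l ih =>
    intro k _ h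
    rcases eq_or_ne l [] with rfl | hl
    · exact ⟨x, h⟩
    · exact ih k hl (by rw [DT_parent hp h]; exact one_ne_zero)

/-- the position on the line -/
theorem DT_pos : (p.2 = 0 ∧ (∀ k : ℤ, p.1 ([], k) = 1) ∧ ∀ x l k, p.1 (x :: l, k) = 0) ∨
    ∃ x : ℝ, (∀ k : ℤ, p.1 ([], k) = max 0 (min 1 ((k:ℝ) + 1 - x))) ∧
      ∀ y l k, p.1 (y :: l, k) ≠ 0 → x = (k : ℝ) := by
  by_cases hall : ∀ k : ℤ, p.1 ([], k) = 1
  · left
    refine ⟨?_, hall, ?_⟩
    · have h1 : ∀ k : ℤ, p.2 ≤ lamZ k := by
        intro k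
        apply thZ_one_le'
        have h2 := DT_eq' hp (v := ([], k)) (by rw [hall k]; exact one_ne_zero)
        rw [hall k] at h2
        simpa [htI] using h2.symm
      by_contra hne
      have hpos : 0 < p.2 := lt_of_le_of_ne hp.1 (Ne.symm hne)
      obtain ⟨n, hn, _⟩ := exists_lamZ' hpos
      exact absurd hn (not_lt.2 (h1 n))
    · intro x l k
      by_contra hne
      have h1 := DT_unique_height hp (v := (x :: l, k)) (v' := ([], htI (x :: l, k)))
        (by simp [htI]) hne (by rw [hall]; exact one_ne_zero)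
      simp at h1
  · right
    push Not at hall
    obtain ⟨k0, hk0⟩ := hall
    obtain ⟨_, _, _, _, N, hN⟩ := id hp
    have hup : ∀ k : ℤ, p.1 ([], k) = 1 → ∀ j : ℕ, p.1 ([], k + j) = 1 := by
      intro k hk j
      induction j with
      | zero => simpa using hk
      | succ j ih =>
        have := DT_parent_L hp (k := k + j) (by rw [ih]; exact one_ne_zero)
        push_cast
        rwa [add_assoc] at this
    have hbdd : ∃ b : ℤ, ∀ z : ℤ, p.1 ([], z) = 1 → b ≤ z := by
      refine ⟨k0, fun z hz => ?_⟩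
      by_contra hc
      push Not at hc
      have := hup z hz (k0 - z).toNat
      have e : z + ((k0 - z).toNat : ℤ) = k0 := by omega
      rw [e] at this
      exact hk0 this
    obtain ⟨k1, hk1, hk1'⟩ := Int.exists_least_of_bdd hbdd ⟨N, hN N le_rfl⟩
    have hb := DT_bounds hp ([], k1 - 1)
    have hlt : p.1 ([], k1 - 1) ≠ 1 := by
      intro hc
      have := hk1' _ hc
      omega
    set t := p.1 ([], k1 - 1) with ht
    have ht1 : t < 1 := lt_of_le_of_ne hb.2 hlt
    refine ⟨(k1:ℝ) - t, ?_, ?_⟩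
    · intro k
      rcases lt_trichotomy k (k1 - 1) with h | h | h
      · have h1 : p.1 ([], k) = 0 := by
          by_contra hne
          have := hk1' _ (DT_parent_L hp hne)
          omega
        have h2 : (k:ℝ) + 2 ≤ k1 := by
          have : k + 2 ≤ k1 := by omega
          exact_mod_cast this
        rw [h1]
        symm
        apply max_eq_left
        refine (min_le_right _ _).trans ?_
        linarith
      · subst h
        rw [← ht]
        push_cast
        have e : (k1:ℝ) - 1 + 1 - (k1 - t) = t := by ring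
        rw [e, min_eq_right hb.2, max_eq_right hb.1]
      · have h1 : p.1 ([], k) = 1 := by
          have := hup k1 hk1 (k - k1).toNat
          have e : k1 + ((k - k1).toNat : ℤ) = k := by omega
          rwa [e] at this
        have h2 : (k1:ℝ) ≤ k := by
          have : k1 ≤ k := by omega
          exact_mod_cast this
        rw [h1, min_eq_left (by linarith [hb.1]), max_eq_right zero_le_one]
    · intro y l k hne
      obtain ⟨z, hz⟩ := DT_last' hp (y :: l) k (by simp) hne
      have h1 : p.1 ([], k) = 1 := DT_parent hp hz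
      have h2 : p.1 ([], k - 1) = 0 := (DT_sib_L hp z k).resolve_left hz
      have h3 : k1 = k := by
        have h4 := hk1' k h1
        by_contra hne'
        have h5 : k1 ≤ k - 1 := by omega
        have := hup k1 hk1 (k - 1 - k1).toNat
        have e : k1 + ((k - 1 - k1).toNat : ℤ) = k - 1 := by omega
        rw [e, h2] at this
        exact zero_ne_one this
      subst h3
      rw [ht, h2, sub_zero]

end

theorem topT_mem {M : ℝ} (hM : 0 ≤ M) : topT M ∈ DT := by
  have hz : ∀ k : ℤ, k < 0 → max 0 (min 1 ((k:ℝ) + 1 - M)) = 0 := by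
    intro k hk
    apply max_eq_left
    refine (min_le_right _ _).trans ?_
    have : (k:ℝ) + 1 ≤ 0 := by
      have : k + 1 ≤ 0 := by omega
      exact_mod_cast this
    linarith
  refine ⟨?_, ?_, ?_, ?_, ?_⟩
  · simp only [topT]
    linarith
  · rintro ⟨l, k⟩
    simp only [topT, htI]
    split_ifs with h
    · subst h
      rcases lt_or_ge k 0 with hk | hk
      · left
        exact hz k hk
      · right
        have e : k - ((([] : List A).length : ℕ) : ℤ) = k := by simp
        rw [e, thZ_nonneg_height hk]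
        congr 2
        ring
    · left
      rfl
  · rintro ⟨l, k⟩
    have hsum : ∑ x : A, (topT M).1 (x :: l, k) = 0 := by
      apply Finset.sum_eq_zero
      intro x _
      simp [topT]
    unfold chs
    simp only [hsum, add_zero]
    rcases eq_or_ne l [] with h | h
    · subst h
      simp only [if_true]
      have e1 : (topT M).1 ([], k - 1) = max 0 (min 1 ((k:ℝ) - M)) := by
        simp only [topT, if_true]
        push_cast
        congr 2
        ring
      have e2 : (topT M).1 ([], k) = max 0 (min 1 ((k:ℝ) + 1 - M)) := by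
        simp only [topT, if_true]
      have e3 : htI (([] : List A), k) - 1 = k - 1 := by simp [htI]
      rw [e1, e2, e3]
      simp only [topT]
      rcases lt_or_ge (k - 1) 0 with hk | hk
      · have h1 : thZ (k - 1) (1 + M) = 0 := by
          apply thZ_eq_zero'
          have h2 : lamZ (k - 1 + 1) ≤ lamZ 0 := lamZ_mono'.monotone (by omega)
          have h3 : lamZ 0 = 1 := by
            unfold lamZ
            norm_num
          rw [h3] at h2
          linarith
        rw [h1, min_eq_right (le_max_left _ _)]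
        apply max_eq_left
        refine (min_le_right _ _).trans ?_
        have : (k:ℝ) ≤ 0 := by
          have : k ≤ 0 := by omega
          exact_mod_cast this
        linarith
      · rw [thZ_nonneg_height hk]
        push_cast
        have e4 : (k:ℝ) - 1 + 2 - (1 + M) = k - M := by ring
        rw [e4]
        symm
        apply min_eq_right
        gcongr
        linarith
    · rw [if_neg (by simpa using h)]
      have e2 : (topT M).1 (l, k) = 0 := by
        simp only [topT]
        rw [if_neg h]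
      rw [e2, min_eq_left (thZ_nonneg' _ _)]
  · intro x l k _
    simp [topT]
  · refine ⟨⌈M⌉, fun k hk => ?_⟩
    simp only [topT, if_true]
    have h1 : M ≤ k := by
      refine (Int.le_ceil M).trans ?_
      exact_mod_cast hk
    rw [min_eq_left (by linarith), max_eq_right zero_le_one]

/-- the level of a point on the line -/
theorem DT_line {p : (List A × ℤ → ℝ) × ℝ} (hp : p ∈ DT) {x : ℝ} (hx : 0 ≤ x)
    (h : ∀ k : ℤ, p.1 ([], k) = max 0 (min 1 ((k:ℝ) + 1 - x))) (h0 : ∀ y l k, p.1 (y :: l, k) = 0) :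
    p = topT x := by
  apply DT_ext hp (topT_mem hx)
  funext v
  obtain ⟨l, k⟩ := v
  cases l with
  | nil =>
    rw [h k]
    simp [topT]
  | cons y l =>
    rw [h0]
    simp [topT]

theorem DT_le {p : (List A × ℤ → ℝ) × ℝ} (hp : p ∈ DT) {x : ℝ} (hx : 0 ≤ x)
    (h : ∀ k : ℤ, p.1 ([], k) = max 0 (min 1 ((k:ℝ) + 1 - x))) : p.2 ≤ 1 + x := by
  have h1 := h ⌊x⌋
  have h2 := Int.lt_floor_add_one x
  have h3 := Int.floor_le x
  have h4 : 0 ≤ ⌊x⌋ := Int.floor_nonneg.2 hx
  rw [min_eq_right (by linarith), max_eq_right (by linarith)] at h1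
  have h5 : p.1 ([], ⌊x⌋) ≠ 0 := by
    rw [h1]
    intro hc
    linarith
  have h6 := DT_eq' hp h5
  have e : htI (([] : List A), ⌊x⌋) = ⌊x⌋ := by simp [htI]
  rw [e, thZ_nonneg_height h4, h1] at h6
  have h7 : 0 < max 0 (min 1 ((⌊x⌋:ℝ) + 2 - p.2)) := by
    rw [← h6]
    linarith
  have h8 : 0 < min 1 ((⌊x⌋:ℝ) + 2 - p.2) := by
    by_contra hc
    rw [max_eq_left (not_lt.1 hc)] at h7
    exact lt_irrefl _ h7
  rw [max_eq_right h8.le] at h6
  have h9 := min_le_right 1 ((⌊x⌋:ℝ) + 2 - p.2)
  linarith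

end Pool.Agent.Helper376.CL
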