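import Mathlib

set_option maxHeartbeats 4000000
set_option synthInstance.maxHeartbeats 400000

namespace Pool.Agent.Helper376.CL

open Set Topology

/-- Abstract data of a space with a height (level) function `Lam` whose zero set is the set of lower
ends; `lift p a` moves `p` up to level `a`, `ka` measures how near `p` is to the top end, `cut p M`
moves everything with large `ka` to the point `top M`. -/
structure Horo (D : Type) [TopologicalSpace D] where
  Lam : D → ℝ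
  ka : D → ℝ
  lift : D → ℝ → D
  cut : D → ℝ → D
  top : ℝ → D
  Lam_cont : Continuous Lam
  Lam_nonneg : ∀ p, 0 ≤ Lam p
  ka_cont : Continuous ka
  ka_nonneg : ∀ p, 0 ≤ ka p
  ka_proper : ∀ M : ℝ, IsCompact {p | ka p ≤ M}
  lift_cont : ContinuousOn (fun x : D × ℝ => lift x.1 x.2) (univ ×ˢ Ici 0)
  Lam_lift : ∀ p a, 0 ≤ a → Lam (lift p a) = max (Lam p) a
  lift_of_le : ∀ p a, 0 ≤ a → a ≤ Lam p → lift p a = p
  ka_lift : ∀ p a, 0 ≤ a → ka p ≤ ka (lift p a)
  cut_cont : ContinuousOn (fun x : D × ℝ => cut x.1 x.2) (univ ×ˢ Ici 1)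
  cut_eq : ∀ p M, 1 ≤ M → ka p ≤ M - 1 → cut p M = p
  le_ka_cut : ∀ p M, 1 ≤ M → min (ka p) (M - 1) ≤ ka (cut p M)
  Lam_cut_pos : ∀ p M, 1 ≤ M → 0 < Lam p → 0 < Lam (cut p M)
  cut_top : ∀ p M, 1 ≤ M → M ≤ ka p → cut p M = top M
  Lam_le : ∀ p, Lam p ≤ 1 + ka p

/-- the positive part -/
abbrev Horo.P {D : Type} [TopologicalSpace D] (h : Horo D) : Type := {p : D // 0 < h.Lam p}

/-- the lower ends -/
abbrev Horo.Q {D : Type} [TopologicalSpace D] (h : Horo D) : Type := {p : D // h.Lam p = 0}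

/-- the partial compactification of `P₁ × P₂` by `Q₁ × Q₂ × (0,1)` -/
abbrev XP {D₁ D₂ : Type} [TopologicalSpace D₁] [TopologicalSpace D₂] (h₁ : Horo D₁)
    (h₂ : Horo D₂) : Type :=
  {z : D₁ × D₂ × ℝ // 0 < z.2.2 ∧ z.2.2 < 1 ∧ z.2.2 * h₁.Lam z.1 = (1 - z.2.2) * h₂.Lam z.2.1}

/-- the embedding of `P₁ × P₂` -/
noncomputable def jP {D₁ D₂ : Type} [TopologicalSpace D₁] [TopologicalSpace D₂] (h₁ : Horo D₁)
    (h₂ : Horo D₂) (z : h₁.P × h₂.P) : XP h₁ h₂ :=
  ⟨(z.1.1, z.2.1, h₂.Lam z.2.1 / (h₁.Lam z.1.1 + h₂.Lam z.2.1)), by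
    have a := z.1.2
    have b := z.2.2
    refine ⟨by positivity, ?_, ?_⟩
    · rw [div_lt_one (by positivity)]; linarith
    · field_simp; ring⟩

/-- the embedding into the one-point compactification -/
noncomputable def jO {D₁ D₂ : Type} [TopologicalSpace D₁] [TopologicalSpace D₂] (h₁ : Horo D₁)
    (h₂ : Horo D₂) (z : h₁.P × h₂.P) : OnePoint (XP h₁ h₂) := ((jP h₁ h₂ z : XP h₁ h₂) : OnePoint (XP h₁ h₂))

/-- a family of cells in the positive part which is compact, locally finite and controlled at the lower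
ends -/
structure CellFam {D : Type} [TopologicalSpace D] (h : Horo D) (V : Type) (c : V → Set h.P) :
    Prop where
  compact : ∀ v, IsCompact (c v)
  locfin : ∀ K : Set h.P, IsCompact K → {v | (c v ∩ K).Nonempty}.Finite
  ends : ∀ (v : ℕ → V) (p p' : ℕ → h.P) (x : D), (∀ n, p n ∈ c (v n)) → (∀ n, p' n ∈ c (v n)) →
    h.Lam x = 0 → Filter.Tendsto (fun n => (p n : D)) Filter.atTop (𝓝 x) →
    Filter.Tendsto (fun n => (p' n : D)) Filter.atTop (𝓝 x) ∧
    Filter.Tendsto (fun n => h.Lam (p' n) / h.Lam (p n)) Filter.atTop (𝓝 1)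

end Pool.Agent.Helper376.CL
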