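import Mathlib
import Pool.Agent.Helper376.CL.DTDefs
import Pool.Agent.Helper376.CL.DT1
import Pool.Agent.Helper376.CL.HoroDefs
import Pool.Agent.Helper376.CL.TreeDefs
import Pool.Agent.Helper376.CL.TreeLem
import Pool.Agent.Helper376.CL.WordLem

set_option maxHeartbeats 4000000
set_option synthInstance.maxHeartbeats 400000

namespace Pool.Agent.Helper376.CL

open Set Topology Classical

/-! auxiliary -/

theorem lamZ_strictMono : StrictMono lamZ :=
  strictMono_int_of_lt_succ (fun n => by have := wZ_pos n; unfold wZ at this; linarith)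

theorem th_one {n : ℤ} {a : ℝ} (h : a ≤ lamZ n) : thZ n a = 1 := by
  unfold thZ
  have h1 : 1 ≤ (lamZ (n + 1) - a) / wZ n := by
    rw [le_div_iff₀ (wZ_pos n)]; unfold wZ; linarith
  rw [min_eq_left h1]; norm_num

theorem th_zero {n : ℤ} {a : ℝ} (h : lamZ (n + 1) ≤ a) : thZ n a = 0 := by
  unfold thZ
  have h1 : (lamZ (n + 1) - a) / wZ n ≤ 0 :=
    div_nonpos_of_nonpos_of_nonneg (by linarith) (wZ_pos n).le
  rw [max_eq_left ((min_le_right _ _).trans h1)]

theorem th_mid {n : ℤ} {s : ℝ} (h0 : 0 ≤ s) (h1 : s ≤ 1) :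
    thZ n ((1 - s) * lamZ n + s * lamZ (n + 1)) = 1 - s := by
  unfold thZ
  have hw := wZ_pos n
  have h2 : (lamZ (n + 1) - ((1 - s) * lamZ n + s * lamZ (n + 1))) / wZ n = 1 - s := by
    rw [div_eq_iff hw.ne']; unfold wZ; ring
  rw [h2, min_eq_right (by linarith), max_eq_right (by linarith)]

/-- chain function of a vertex -/
noncomputable def eu (u : F2) (w : List A × ℤ) : ℝ :=
  if (w.2 = kap u ∧ w.1 <:+ pw u) ∨ (w.1 = [] ∧ kap u ≤ w.2) then 1 else 0

/-- height of a vertex -/
noncomputable def ht (u : F2) : ℤ := kap u - (pw u).length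

/-- parent relation -/
def Par (c d : F2) : Prop :=
  (∃ x, pw c = x :: pw d ∧ kap c = kap d) ∨ (pw c = [] ∧ pw d = [] ∧ kap d = kap c + 1)

theorem Par_ht {c d : F2} (h : Par c d) : ht d = ht c + 1 := by
  unfold ht
  rcases h with ⟨x, h1, h2⟩ | ⟨h1, h2, h3⟩
  · rw [h1, h2]; push_cast [List.length_cons]; ring
  · rw [h1, h2, h3]; simp

theorem Par_eu {c d : F2} (h : Par c d) (w : List A × ℤ) :
    eu c w = eu d w + (if w = (pw c, kap c) then 1 else 0) := by
  obtain ⟨m, j⟩ := w
  unfold eu
  simp only [Prod.mk.injEq]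
  rcases h with ⟨x, h1, h2⟩ | ⟨h1, h2, h3⟩
  · rw [h1, h2]
    by_cases hm : m = x :: pw d
    · have e1 : ¬ (m <:+ pw d) := by
        intro h
        have := h.length_le
        rw [hm] at this
        simp at this
      have e2 : m ≠ [] := by rw [hm]; simp
      by_cases hj : j = kap d
      · simp [hm, hj]
        rw [hm] at e1
        simpa using e1
      · simp [hj, e2]
    · have e3 : (m <:+ x :: pw d) ↔ (m <:+ pw d) := by
        rw [List.suffix_cons_iff]; simp [hm]
      simp only [e3, hm, false_and, if_false, add_zero]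
  · rw [h1, h2, h3]
    simp only [List.suffix_nil]
    by_cases hm : m = []
    · subst hm
      by_cases hj : j = kap c
      · subst hj; simp
      · by_cases hj2 : kap c + 1 ≤ j
        · have : kap c ≤ j := by omega
          simp [this, hj2, hj]
        · have h4 : ¬ (kap c ≤ j) := by omega
          have h5 : ¬ (j = kap c + 1) := by omega
          simp [h4, hj2, hj, h5]
    · simp [hm]

theorem sum_suffix (l m : List A) :
    (∑ x : A, (if x :: l <:+ m then (1 : ℝ) else 0)) = if l <:+ m ∧ l ≠ m then 1 else 0 := by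
  by_cases h : l <:+ m ∧ l ≠ m
  · rw [if_pos h]
    obtain ⟨⟨t, ht⟩, hne⟩ := h
    have ht0 : t ≠ [] := by rintro rfl; exact hne ht
    obtain ⟨t', x0, rfl⟩ := List.eq_nil_or_concat' t |>.resolve_left ht0
    have hx0 : x0 :: l <:+ m := ⟨t', by rw [← ht]; simp⟩
    rw [Finset.sum_eq_single x0]
    · rw [if_pos hx0]
    · intro y _ hy
      rw [if_neg]
      intro h2
      have h3 := List.suffix_of_suffix_length_le h2 hx0 (by simp)
      have h4 := h3.eq_of_length (by simp)
      simp at h4
      exact hy h4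
    · intro h; exact absurd (Finset.mem_univ _) h
  · rw [if_neg h]
    apply Finset.sum_eq_zero
    intro x _
    rw [if_neg]
    intro h2
    apply h
    refine ⟨(List.suffix_cons x l).trans h2, ?_⟩
    rintro rfl
    have := h2.length_le
    simp at this

theorem chs_eu (u : F2) (w : List A × ℤ) :
    eu u w = chs (eu u) w + (if w = (pw u, kap u) then 1 else 0) := by
  obtain ⟨l, j⟩ := w
  unfold chs
  have e1 : ∀ x : A, eu u (x :: l, j) = if j = kap u then (if x :: l <:+ pw u then (1:ℝ) else 0) else 0 := by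
    intro x
    unfold eu
    by_cases hj : j = kap u
    · simp [hj]
    · simp [hj]
  simp only [e1]
  by_cases hj : j = kap u
  · simp only [hj, if_true, sum_suffix]
    by_cases hl : l = []
    · subst hl
      unfold eu
      by_cases hm : pw u = []
      · simp [hm]
      · have : ¬ ([] = pw u) := fun h => hm h.symm
        simp [this]
    · unfold eu
      by_cases hm : l = pw u
      · simp [hm]
      · simp [hm, hl]
  · simp only [hj, if_false, Finset.sum_const_zero, add_zero]
    have : ¬ ((l, j) = (pw u, kap u)) := by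
      intro h; exact hj (by simpa using congrArg Prod.snd h)
    rw [if_neg this]
    by_cases hl : l = []
    · subst hl
      unfold eu
      simp only [true_and, if_true, List.nil_suffix, and_true]
      by_cases h1 : kap u ≤ j
      · have : kap u ≤ j - 1 := by omega
        simp [h1, this]
      · have h2 : ¬ kap u ≤ j - 1 := by omega
        have h3 : ¬ (j - 1 = kap u) := by omega
        simp [h1, h2, h3, hj]
    · simp only [hl, if_false, add_zero]
      unfold eu
      simp [hj, hl]

theorem chs_lin (a b : ℝ) (C D : List A × ℤ → ℝ) (w : List A × ℤ) :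
    chs (fun w => a * C w + b * D w) w = a * chs C w + b * chs D w := by
  unfold chs
  rw [Finset.sum_add_distrib, ← Finset.mul_sum, ← Finset.mul_sum]
  by_cases h : w.1 = []
  · simp only [h, if_true]; ring
  · simp only [h, if_false]; ring

theorem suffix_good {l m : List A} (h : l <:+ m) (hm : Good m) : Good l := by
  obtain ⟨t, rfl⟩ := h
  induction t with
  | nil => exact hm
  | cons x t ih => exact ih hm.2

/-- normal form of a point of the tree -/
theorem normal_edge (v : F2) (x : A) : Par v (lt x * v) ∨ Par (lt x * v) v := by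
  rcases edge_type v x with ⟨h1, h2, h3, h4⟩ | ⟨h1, h2, h3⟩ | ⟨h1, h2, h3⟩
  · unfold sg at h4
    by_cases hx : x.2 = true
    · left; right
      rw [hx] at h4
      exact ⟨h2, h3, by simpa using h4⟩
    · right; right
      have hx' : x.2 = false := by simpa using hx
      rw [hx'] at h4
      refine ⟨h3, h2, ?_⟩
      rw [h4]; simp
  · right; left; exact ⟨x, h2, h3⟩
  · left; left; exact ⟨invA x, h2, h3.symm⟩

theorem lin_normal (b : Tree) : ∃ (c d : F2) (s : ℝ), 0 ≤ s ∧ s ≤ 1 ∧ Par c d ∧
    (∀ φ : F2 → ℝ, lin φ b = (1 - s) * φ c + s * φ d) ∧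
    (∀ u, b.1 u = (if u = c then 1 - s else 0) + (if u = d then s else 0)) := by
  obtain ⟨v, x, t, h0, h1, hb⟩ := b.2
  rcases normal_edge v x with h | h
  · exact ⟨v, lt x * v, t, h0, h1, h, fun φ => lin_ptf φ b v x t hb, fun u => by rw [hb]; rfl⟩
  · refine ⟨lt x * v, v, 1 - t, by linarith, by linarith, h, fun φ => ?_, fun u => ?_⟩
    · rw [lin_ptf φ b v x t hb]; ring
    · rw [hb]; unfold ptf
      have : 1 - (1 - t) = t := by ring
      rw [this, add_comm]

/-- vertices adjacent -/
theorem par_adj {c d : F2} (h : Par c d) : ∃ x : A, lt x * c = d ∨ lt x * d = c := by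
  rcases h with ⟨x, h1, h2⟩ | ⟨h1, h2, h3⟩
  · refine ⟨x, Or.inr ?_⟩
    have hg : Good (x :: pw d) := by rw [← h1]; exact good_pw c
    have hok : ok x (pw d) := hg.1
    apply pw_kap_inj
    rcases edge_type d x with ⟨g1, g2, g3, g4⟩ | ⟨g1, g2, g3⟩ | ⟨g1, g2, g3⟩
    · rw [g2] at hok
      exact absurd g1 hok
    · show (pw (lt x * d), kap (lt x * d)) = (pw c, kap c)
      rw [g2, g3, h1, h2]
    · rw [g2] at hok
      have := hok rfl
      simp [invA] at this
  · refine ⟨(0, true), Or.inl ?_⟩
    apply pw_kap_inj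
    rcases edge_type c (0, true) with ⟨g1, g2, g3, g4⟩ | ⟨g1, g2, g3⟩ | ⟨g1, g2, g3⟩
    · show (pw (lt (0, true) * c), kap (lt (0, true) * c)) = (pw d, kap d)
      rw [g3, g4, h2, h3]; simp [sg]
    · rw [h1] at g1
      exact absurd rfl g1
    · rw [h1] at g2
      simp at g2

theorem htI_V (u : F2) : htI (pw u, kap u) = ht u := rfl

/-- nonzero chain entries -/
theorem eu_cases (u : F2) (w : List A × ℤ) :
    (eu u w = 0) ∨ (eu u w = 1 ∧ ht u ≤ htI w ∧ (htI w = ht u → w = (pw u, kap u))) := by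
  obtain ⟨m, j⟩ := w
  unfold eu
  split_ifs with h
  · right
    refine ⟨rfl, ?_⟩
    unfold ht htI
    rcases h with ⟨h1, h2⟩ | ⟨h1, h2⟩
    · simp only at h1 h2
      have h3 := h2.length_le
      refine ⟨by simp only; omega, ?_⟩
      intro h4
      simp only at h4
      have h5 : m.length = (pw u).length := by omega
      rw [h2.eq_of_length h5, h1]
    · simp only at h1 h2
      subst h1
      refine ⟨by simp only [List.length_nil]; omega, ?_⟩
      intro h4
      simp only [List.length_nil] at h4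
      have h5 : (pw u).length = 0 := by omega
      have h6 : j = kap u := by omega
      rw [List.length_eq_zero_iff.mp h5, h6]
  · left; rfl

theorem eu_self (u : F2) : eu u (pw u, kap u) = 1 := by
  unfold eu; rw [if_pos]; left; exact ⟨rfl, List.suffix_rfl⟩

/-- point of the tree with masses on `c` and `d` in coordinates -/
noncomputable def ptC (c d : F2) (s : ℝ) : List A × ℤ → ℝ := fun w => (1 - s) * eu c w + s * eu d w

noncomputable def ptL (c d : F2) (s : ℝ) : ℝ := (1 - s) * lamZ (ht c) + s * lamZ (ht d)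

theorem ptC_chs (c d : F2) (s : ℝ) (w : List A × ℤ) :
    ptC c d s w = chs (ptC c d s) w + ((1 - s) * (if w = (pw c, kap c) then 1 else 0) +
      s * (if w = (pw d, kap d) then 1 else 0)) := by
  unfold ptC
  rw [chs_lin]
  have h1 := chs_eu c w
  have h2 := chs_eu d w
  linear_combination (1 - s) * h1 + s * h2

theorem ptC_cases {c d : F2} (h : Par c d) (s : ℝ) (w : List A × ℤ) :
    (w = (pw c, kap c) ∧ ptC c d s w = 1 - s) ∨ (w = (pw d, kap d) ∧ ptC c d s w = 1) ∨
    (w ≠ (pw c, kap c) ∧ w ≠ (pw d, kap d) ∧ ptC c d s w = 0) ∨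
    (w ≠ (pw c, kap c) ∧ w ≠ (pw d, kap d) ∧ ptC c d s w = 1 ∧ ht d + 1 ≤ htI w) := by
  have hh := Par_ht h
  have he := Par_eu h w
  unfold ptC
  rw [he]
  by_cases h1 : w = (pw c, kap c)
  · left
    refine ⟨h1, ?_⟩
    rw [if_pos h1]
    rcases eu_cases d w with h2 | ⟨h2, h3, h4⟩
    · rw [h2]; ring
    · exfalso
      rw [h1, htI_V] at h3
      omega
  · right
    rw [if_neg h1]
    by_cases h2 : w = (pw d, kap d)
    · left
      refine ⟨h2, ?_⟩
      rw [h2, eu_self]; ring
    · right
      rcases eu_cases d w with h3 | ⟨h3, h4, h5⟩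
      · left
        refine ⟨h1, h2, ?_⟩
        rw [h3]; ring
      · right
        refine ⟨h1, h2, ?_, ?_⟩
        · rw [h3]; ring
        · rcases lt_or_eq_of_le h4 with h6 | h6
          · omega
          · exact absurd (h5 h6.symm) h2

theorem pt_mem {c d : F2} (h : Par c d) {s : ℝ} (h0 : 0 ≤ s) (h1 : s ≤ 1) :
    (ptC c d s, ptL c d s) ∈ DT := by
  have hh := Par_ht h
  have hne : (pw c, kap c) ≠ (pw d, kap d) := by
    intro h'
    have := congrArg htI h'
    rw [htI_V, htI_V] at this
    omega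
  have hl1 : lamZ (ht c) ≤ ptL c d s := by
    unfold ptL
    have := lamZ_strictMono.monotone (show ht c ≤ ht d by omega)
    nlinarith
  have hl2 : ptL c d s ≤ lamZ (ht d) := by
    unfold ptL
    have := lamZ_strictMono.monotone (show ht c ≤ ht d by omega)
    nlinarith
  have hc : thZ (ht c) (ptL c d s) = 1 - s := by
    unfold ptL
    rw [hh]
    exact th_mid h0 h1
  have hup : ∀ n : ℤ, ht d ≤ n → thZ n (ptL c d s) = 1 := by
    intro n hn
    exact th_one (hl2.trans (lamZ_strictMono.monotone hn))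
  have hdn : ∀ n : ℤ, n + 1 ≤ ht c → thZ n (ptL c d s) = 0 := by
    intro n hn
    exact th_zero ((lamZ_strictMono.monotone hn).trans hl1)
  refine ⟨?_, ?_, ?_, ?_, ?_⟩
  · exact (lamZ_pos _).le.trans hl1
  · intro w
    show ptC c d s w = 0 ∨ ptC c d s w = thZ (htI w) (ptL c d s)
    rcases ptC_cases h s w with ⟨g1, g2⟩ | ⟨g1, g2⟩ | ⟨g1, g2, g3⟩ | ⟨g1, g2, g3, g4⟩
    · right; rw [g2, g1, htI_V, hc]
    · right; rw [g2, g1, htI_V, hup _ le_rfl]
    · left; exact g3
    · right; rw [g3, hup _ (by omega)]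
  · intro w
    show chs (ptC c d s) w = min (ptC c d s w) (thZ (htI w - 1) (ptL c d s))
    have hchs := ptC_chs c d s w
    rcases ptC_cases h s w with ⟨g1, g2⟩ | ⟨g1, g2⟩ | ⟨g1, g2, g3⟩ | ⟨g1, g2, g3, g4⟩
    · have g3 : w ≠ (pw d, kap d) := by rw [g1]; exact hne
      rw [if_pos g1, if_neg g3] at hchs
      have e1 : htI w = ht c := by rw [g1, htI_V]
      rw [g2, e1, hdn (ht c - 1) (by omega), min_eq_right (by linarith)]
      linarith
    · have g3 : w ≠ (pw c, kap c) := by rw [g1]; exact hne.symm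
      rw [if_neg g3, if_pos g1] at hchs
      have e1 : htI w - 1 = ht c := by rw [g1, htI_V]; omega
      rw [g2, e1, hc, min_eq_right (by linarith)]
      linarith
    · rw [if_neg g1, if_neg g2] at hchs
      rw [g3]
      have : 0 ≤ thZ (htI w - 1) (ptL c d s) := le_max_left _ _
      rw [min_eq_left this]
      linarith
    · rw [if_neg g1, if_neg g2] at hchs
      rw [g3, hup (htI w - 1) (by omega), min_self]
      linarith
  · intro x l k hok
    show ptC c d s (x :: l, k) = 0
    have key : ∀ u : F2, eu u (x :: l, k) = 0 := by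
      intro u
      unfold eu
      rw [if_neg]
      rintro (⟨_, h2⟩ | ⟨h2, _⟩)
      · exact hok (suffix_good h2 (good_pw u)).1
      · exact absurd h2 (by simp)
    unfold ptC
    rw [key, key]; ring
  · refine ⟨max (kap c) (kap d), fun k hk => ?_⟩
    show ptC c d s ([], k) = 1
    have key : ∀ u : F2, kap u ≤ k → eu u ([], k) = 1 := by
      intro u hu
      unfold eu
      rw [if_pos]
      right; exact ⟨rfl, hu⟩
    unfold ptC
    rw [key c (le_trans (le_max_left _ _) hk), key d (le_trans (le_max_right _ _) hk)]; ring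

theorem exists_level {a : ℝ} (ha : 0 < a) : ∃ n : ℤ, lamZ n ≤ a ∧ a < lamZ (n + 1) := by
  obtain ⟨n, hn, hmax⟩ := Int.exists_greatest_of_bdd (P := fun n : ℤ => lamZ n ≤ a)
    (by
      obtain ⟨N, hN⟩ := exists_nat_gt a
      refine ⟨N, fun z hz => ?_⟩
      by_contra hcon
      push Not at hcon
      have h1 : lamZ (N : ℤ) ≤ lamZ z := lamZ_strictMono.monotone hcon.le
      have h2 : (N : ℝ) ≤ lamZ (N : ℤ) := by
        unfold lamZ
        split_ifs with h
        · have : N = 0 := by omega
          subst this; simp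
        · push_cast; linarith
      linarith)
    (by
      obtain ⟨N, hN⟩ := exists_nat_gt (1 / a)
      refine ⟨-(N : ℤ), ?_⟩
      unfold lamZ
      rw [if_pos (by omega)]
      push_cast
      rw [sub_neg_eq_add, div_le_iff₀ (by positivity)]
      rw [div_lt_iff₀ ha] at hN
      nlinarith)
  refine ⟨n, hn, ?_⟩
  by_contra hcon
  push Not at hcon
  have := hmax (n + 1) hcon
  omega

section
variable {p : (List A × ℤ → ℝ) × ℝ} (hp : p ∈ DT)
include hp

theorem DT_good (l : List A) (k : ℤ) (h : p.1 (l, k) ≠ 0) : Good l := by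
  induction l with
  | nil => trivial
  | cons x l ih =>
    refine ⟨?_, ?_⟩
    · by_contra hcon
      exact h (hp.2.2.2.1 x l k hcon)
    · apply ih
      rw [DT_parent hp h]; exact one_ne_zero

theorem DT_suffix (t l : List A) (k : ℤ) (ht : t ≠ []) (h : p.1 (t ++ l, k) ≠ 0) : p.1 (l, k) = 1 := by
  induction t with
  | nil => exact absurd rfl ht
  | cons x t ih =>
    have h1 : p.1 (t ++ l, k) = 1 := DT_parent hp h
    by_cases h2 : t = []
    · rw [h2] at h1; exact h1
    · exact ih h2 (by rw [h1]; exact one_ne_zero)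

theorem DT_line_up (k : ℤ) (h : p.1 ([], k) ≠ 0) (j : ℤ) (hj : k < j) : p.1 ([], j) = 1 := by
  have key : ∀ n : ℕ, p.1 ([], k + 1 + n) = 1 := by
    intro n
    induction n with
    | zero => simpa using DT_parent_L hp h
    | succ n ih =>
      have := DT_parent_L hp (k := k + 1 + n) (by rw [ih]; exact one_ne_zero)
      rw [show k + 1 + ((n + 1 : ℕ) : ℤ) = k + 1 + (n : ℤ) + 1 by push_cast; ring]
      exact this
  obtain ⟨n, hn⟩ := Int.eq_ofNat_of_zero_le (show 0 ≤ j - (k + 1) by omega)
  have := key n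
  rw [← hn] at this
  rw [show k + 1 + (j - (k + 1)) = j by ring] at this
  exact this

theorem DT_anc (u : F2) (h : p.1 (pw u, kap u) ≠ 0) (w : List A × ℤ) (hw : eu u w ≠ 0)
    (hne : w ≠ (pw u, kap u)) : p.1 w = 1 := by
  obtain ⟨l, j⟩ := w
  unfold eu at hw
  have hw' : (j = kap u ∧ l <:+ pw u) ∨ (l = [] ∧ kap u ≤ j) := by
    by_contra hcon; exact hw (if_neg hcon)
  rcases hw' with ⟨h1, t, h2⟩ | ⟨h1, h2⟩
  · subst h1
    by_cases ht : t = []
    · exfalso; apply hne; rw [← h2, ht]; rfl
    · rw [← h2] at h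
      exact DT_suffix hp t l _ ht h
  · subst h1
    have h0 : p.1 ([], kap u) ≠ 0 := by
      by_cases hm : pw u = []
      · rw [← hm]; exact h
      · have := DT_suffix hp (pw u) [] (kap u) hm (by rw [List.append_nil]; exact h)
        rw [this]; exact one_ne_zero
    rcases lt_or_eq_of_le h2 with h3 | h3
    · exact DT_line_up hp _ h0 j h3
    · subst h3
      by_cases hm : pw u = []
      · exfalso; apply hne; rw [hm]
      · exact DT_suffix hp (pw u) [] (kap u) hm (by rw [List.append_nil]; exact h)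

/-- every point with positive level lies in the tree -/
theorem DT_tree (hpos : 0 < p.2) : ∃ (c d : F2) (s : ℝ), 0 ≤ s ∧ s ≤ 1 ∧ Par c d ∧
    p = (ptC c d s, ptL c d s) := by
  obtain ⟨n, hn1, hn2⟩ := exists_level hpos
  have hw := wZ_pos n
  set s : ℝ := (p.2 - lamZ n) / wZ n with hs
  have hs0 : 0 ≤ s := div_nonneg (by linarith) hw.le
  have hs1 : s < 1 := by rw [hs, div_lt_one hw]; unfold wZ; linarith
  have hlev : p.2 = (1 - s) * lamZ n + s * lamZ (n + 1) := by
    have : s * wZ n = p.2 - lamZ n := by rw [hs]; field_simp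
    unfold wZ at this
    linarith
  have hth : thZ n p.2 = 1 - s := by rw [hlev]; exact th_mid hs0 hs1.le
  obtain ⟨⟨l, k⟩, hv1, hv2⟩ := DT_level hp n (by rw [hth]; linarith)
  have hne : p.1 (l, k) ≠ 0 := by rw [hv2, hth]; linarith
  have hgood := DT_good hp l k hne
  obtain ⟨c, hc1, hc2⟩ := exists_vertex hgood k
  have hd : ∃ d : F2, Par c d := by
    cases l with
    | nil =>
      obtain ⟨d, hd1, hd2⟩ := exists_vertex hgood (k + 1)
      exact ⟨d, Or.inr ⟨hc1, hd1, by rw [hd2, hc2]⟩⟩
    | cons x l =>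
      obtain ⟨d, hd1, hd2⟩ := exists_vertex hgood.2 k
      exact ⟨d, Or.inl ⟨x, by rw [hc1, hd1], by rw [hd2, hc2]⟩⟩
  obtain ⟨d, hd⟩ := hd
  have hh := Par_ht hd
  have hhc : ht c = n := by rw [← htI_V, hc1, hc2]; exact hv1
  refine ⟨c, d, s, hs0, hs1.le, hd, ?_⟩
  have hL : ptL c d s = p.2 := by
    unfold ptL; rw [hh, hhc]; exact hlev.symm
  have hmem := pt_mem hd hs0 hs1.le
  apply DT_ext hp hmem
  show p.1 = ptC c d s
  have hne' : p.1 (pw c, kap c) ≠ 0 := by rw [hc1, hc2]; exact hne
  have key : ∀ w, ptC c d s w ≠ 0 → p.1 w = ptC c d s w := by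
    intro w hw0
    by_cases hwc : w = (pw c, kap c)
    · have h1 : ptC c d s w = 1 - s := by
        rcases ptC_cases hd s w with ⟨g1, g2⟩ | ⟨g1, g2⟩ | ⟨g1, g2, g3⟩ | ⟨g1, g2, g3, g4⟩
        · exact g2
        · exfalso
          rw [hwc] at g1
          have := congrArg htI g1
          rw [htI_V, htI_V] at this; omega
        · exact absurd hwc g1
        · exact absurd hwc g1
      rw [h1, hwc, hc1, hc2, hv2, hth]
    · have h1 : ptC c d s w = 1 := by
        rcases ptC_cases hd s w with ⟨g1, g2⟩ | ⟨g1, g2⟩ | ⟨g1, g2, g3⟩ | ⟨g1, g2, g3, g4⟩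
        · exact absurd g1 hwc
        · exact g2
        · exact absurd g3 hw0
        · exact g3
      rw [h1]
      apply DT_anc hp c hne' w _ hwc
      intro h2
      have h3 := Par_eu hd w
      rw [if_neg hwc, add_zero] at h3
      have : ptC c d s w = 0 := by unfold ptC; rw [← h3, h2]; ring
      rw [this] at h1; exact absurd h1 (by norm_num)
  funext w
  by_cases hw0 : ptC c d s w = 0
  · rw [hw0]
    by_contra hcon
    have h1 : p.1 w = thZ (htI w) p.2 := (hp.2.1 w).resolve_left hcon
    have h2 : 0 < thZ (htI w) p.2 := by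
      rcases lt_or_eq_of_le (show 0 ≤ thZ (htI w) p.2 from le_max_left _ _) with h | h
      · exact h
      · exact absurd (h1.trans h.symm) hcon
    obtain ⟨w', hw1, hw2⟩ := DT_level hmem (htI w) (by show 0 < thZ (htI w) (ptL c d s); rw [hL]; exact h2)
    have hw2' : ptC c d s w' ≠ 0 := by
      have : ptC c d s w' = thZ (htI w) (ptL c d s) := hw2
      rw [this, hL]; exact h2.ne'
    have h3 := key w' hw2'
    have h4 : w = w' := DT_unique_height hp hw1.symm hcon (by rw [h3]; exact hw2')
    rw [h4] at hw0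
    exact hw2' hw0
  · exact key w hw0

end

/-- tree coordinates of a point of the tree -/
noncomputable def toC (b : Tree) : (List A × ℤ → ℝ) × ℝ :=
  (fun v => lin (fun u => eu u v) b, lin (fun u => lamZ (ht u)) b)

theorem toC_eq (b : Tree) : ∃ (c d : F2) (s : ℝ), 0 ≤ s ∧ s ≤ 1 ∧ Par c d ∧
    toC b = (ptC c d s, ptL c d s) ∧
    (∀ u, b.1 u = (if u = c then 1 - s else 0) + (if u = d then s else 0)) := by
  obtain ⟨c, d, s, h0, h1, h, h2, h3⟩ := lin_normal b
  refine ⟨c, d, s, h0, h1, h, ?_, h3⟩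
  unfold toC ptC ptL
  rw [h2]
  congr 1
  funext v
  rw [h2]

theorem toC_mem (b : Tree) : toC b ∈ DT := by
  obtain ⟨c, d, s, h0, h1, h, h2, h3⟩ := toC_eq b
  rw [h2]; exact pt_mem h h0 h1

theorem toC_pos (b : Tree) : 0 < (toC b).2 := by
  obtain ⟨c, d, s, h0, h1, h, h2, h3⟩ := toC_eq b
  rw [h2]
  show 0 < ptL c d s
  unfold ptL
  have h4 := lamZ_pos (ht c)
  have h5 := lamZ_pos (ht d)
  rcases lt_or_eq_of_le h0 with h6 | h6
  · have : 0 ≤ (1 - s) * lamZ (ht c) := mul_nonneg (by linarith) h4.le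
    have : 0 < s * lamZ (ht d) := mul_pos h6 h5
    linarith
  · rw [← h6]; simp [h4]

theorem toC_cont : Continuous toC := by
  unfold toC
  exact (continuous_pi fun v => continuous_lin _).prodMk (continuous_lin _)

/-- the mass_DT5 -/
noncomputable def mass_DT5 (C : List A × ℤ → ℝ) (u : F2) : ℝ := C (pw u, kap u) - chs C (pw u, kap u)

theorem V_inj {u v : F2} : ((pw u, kap u) = (pw v, kap v)) ↔ u = v :=
  ⟨fun h => pw_kap_inj h, fun h => by rw [h]⟩

theorem mass_toC (b : Tree) : mass_DT5 (toC b).1 = b.1 := by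
  obtain ⟨c, d, s, h0, h1, h, h2, h3⟩ := toC_eq b
  funext u
  rw [h3]
  unfold mass_DT5
  rw [h2]
  show ptC c d s (pw u, kap u) - chs (ptC c d s) (pw u, kap u) = _
  have := ptC_chs c d s (pw u, kap u)
  simp only [V_inj] at this
  rw [this]
  by_cases e1 : u = c <;> by_cases e2 : u = d <;> simp [e1, e2]

theorem mass_cont : Continuous (fun p : (List A × ℤ → ℝ) × ℝ => mass_DT5 p.1) := by
  apply continuous_pi
  intro u
  unfold mass_DT5 chs
  have h : ∀ w, Continuous (fun p : (List A × ℤ → ℝ) × ℝ => p.1 w) :=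
    fun w => (continuous_apply w).comp continuous_fst
  apply (h _).sub
  refine Continuous.add ?_ (continuous_finsetSum _ fun x _ => h _)
  by_cases hc : pw u = []
  · simp only [hc, if_true]; exact h _
  · simp only [hc, if_false]; exact continuous_const

theorem isPt_par {c d : F2} (h : Par c d) {s : ℝ} (h0 : 0 ≤ s) (h1 : s ≤ 1) :
    IsPt (fun u => (if u = c then 1 - s else 0) + (if u = d then s else 0)) := by
  obtain ⟨x, hx | hx⟩ := par_adj h
  · exact ⟨c, x, s, h0, h1, by unfold ptf; rw [hx]⟩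
  · refine ⟨d, x, 1 - s, by linarith, by linarith, ?_⟩
    unfold ptf
    rw [hx]
    funext u
    have : 1 - (1 - s) = s := by ring
    rw [this, add_comm]

theorem toC_surj {p : (List A × ℤ → ℝ) × ℝ} (hp : p ∈ DT) (hpos : 0 < p.2) :
    ∃ b : Tree, toC b = p := by
  obtain ⟨c, d, s, h0, h1, h, h2⟩ := DT_tree hp hpos
  have h3 : ∃ b : Tree, ∀ φ : F2 → ℝ, lin φ b = (1 - s) * φ c + s * φ d := by
    obtain ⟨x, hx | hx⟩ := par_adj h
    · refine ⟨⟨ptf c x s, c, x, s, h0, h1, rfl⟩, fun φ => ?_⟩
      rw [lin_ptf φ _ c x s rfl, hx]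
    · refine ⟨⟨ptf d x (1 - s), d, x, 1 - s, by linarith, by linarith, rfl⟩, fun φ => ?_⟩
      rw [lin_ptf φ _ d x (1 - s) rfl, hx]; ring
  obtain ⟨b, hb⟩ := h3
  refine ⟨b, ?_⟩
  rw [h2]
  unfold toC ptC ptL
  rw [hb]
  congr 1
  funext v
  rw [hb]



/-- the tree is the positive part, with small cells (stars) at the lower ends -/
theorem horoT_tree (h : Horo ↥DT) (hL : ∀ p, h.Lam p = p.1.2) :
    ∃ e : Tree ≃ₜ h.P,
      (∀ b v, (e b).1.1.1 v = lin (fun u => if (v.2 = kap u ∧ v.1 <:+ pw u) ∨ (v.1 = [] ∧ kap u ≤ v.2) then 1 else 0) b) ∧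
      (∀ b, (e b).1.1.2 = lin (fun u => lamZ (kap u - (pw u).length)) b) := by
  have hto : ∀ b, 0 < h.Lam ⟨toC b, toC_mem b⟩ := fun b => by rw [hL]; exact toC_pos b
  have hinv : ∀ p : h.P, IsPt (mass_DT5 p.1.1.1) := by
    intro p
    obtain ⟨b, hb⟩ := toC_surj p.1.2 (by have := p.2; rwa [hL] at this)
    rw [← hb, mass_toC]; exact b.2
  refine ⟨{ toFun := fun b => ⟨⟨toC b, toC_mem b⟩, hto b⟩
            invFun := fun p => ⟨mass_DT5 p.1.1.1, hinv p⟩
            left_inv := ?_
            right_inv := ?_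
            continuous_toFun := ?_
            continuous_invFun := ?_ }, fun b v => rfl, fun b => rfl⟩
  · intro b
    apply Subtype.ext
    exact mass_toC b
  · intro p
    apply Subtype.ext
    apply Subtype.ext
    obtain ⟨b, hb⟩ := toC_surj p.1.2 (by have := p.2; rwa [hL] at this)
    have : (⟨mass_DT5 p.1.1.1, hinv p⟩ : Tree) = b := by
      apply Subtype.ext
      show mass_DT5 p.1.1.1 = b.1
      rw [← hb, mass_toC]
    show toC ⟨mass_DT5 p.1.1.1, hinv p⟩ = p.1.1
    rw [this, hb]
  · exact Continuous.subtype_mk (Continuous.subtype_mk toC_cont _) _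
  · exact Continuous.subtype_mk (mass_cont.comp (continuous_subtype_val.comp continuous_subtype_val)) _

theorem star_compact (v : F2) : IsCompact (star v) := by
  have h1 : star v = ⋃ x : A, range (fun t : Icc (0:ℝ) 1 => (⟨ptf v x t, v, x, t, t.2.1, t.2.2, rfl⟩ : Tree)) := by
    ext b
    simp only [mem_iUnion, mem_range, star, mem_ofPred_eq]
    constructor
    · rintro ⟨x, t, h0, h1, hb⟩
      exact ⟨x, ⟨t, h0, h1⟩, Subtype.ext hb.symm⟩
    · rintro ⟨x, t, hb⟩
      exact ⟨x, t, t.2.1, t.2.2, by rw [← hb]⟩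
  rw [h1]
  apply isCompact_iUnion
  intro x
  apply isCompact_range
  apply Continuous.subtype_mk
  apply continuous_pi
  intro u
  unfold ptf
  apply Continuous.add
  · by_cases h : u = v
    · simp only [h, if_true]; fun_prop
    · simp only [h, if_false]; fun_prop
  · by_cases h : u = lt x * v
    · simp only [h, if_true]; fun_prop
    · simp only [h, if_false]; fun_prop

theorem star_locfin (K : Set Tree) (hK : IsCompact K) : {v | (star v ∩ K).Nonempty}.Finite := by
  have hcov : K ⊆ ⋃ u : F2, {b : Tree | 0 < b.1 u} := by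
    intro b _
    obtain ⟨v, x, t, h0, h1, hb⟩ := b.2
    rw [mem_iUnion]
    by_cases ht : t = 1
    · refine ⟨lt x * v, ?_⟩
      show 0 < b.1 (lt x * v)
      rw [hb]; unfold ptf
      rw [if_pos rfl, ht]
      split_ifs <;> norm_num
    · refine ⟨v, ?_⟩
      show 0 < b.1 v
      have ht1 : t < 1 := lt_of_le_of_ne h1 ht
      rw [hb]; unfold ptf
      rw [if_pos rfl]
      split_ifs <;> linarith
  obtain ⟨s, hs⟩ := hK.elim_finite_subcover (fun u : F2 => {b : Tree | 0 < b.1 u})
    (fun u => isOpen_lt continuous_const ((continuous_apply u).comp continuous_subtype_val)) hcov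
  apply Set.Finite.subset
    ((s.finite_toSet).union (Set.finite_iUnion fun x : A => (s.finite_toSet).image (fun u => (lt x)⁻¹ * u)))
  rintro v ⟨b, ⟨x, t, h0, h1, hb⟩, hbK⟩
  obtain ⟨u, hu⟩ := mem_iUnion.mp (hs hbK)
  obtain ⟨hus, hu0⟩ := mem_iUnion.mp hu
  have hu1 : 0 < b.1 u := hu0
  rw [hb] at hu1
  unfold ptf at hu1
  by_cases e1 : u = v
  · left; rw [← e1]; exact hus
  · right
    rw [mem_iUnion]
    by_cases e2 : u = lt x * v
    · exact ⟨x, u, hus, by rw [e2]; simp⟩
    · rw [if_neg e1, if_neg e2] at hu1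
      simp at hu1

theorem nbr_ht (v : F2) (x : A) : ht (lt x * v) = ht v + 1 ∨ ht (lt x * v) = ht v - 1 := by
  rcases normal_edge v x with h | h
  · left; exact Par_ht h
  · right; have := Par_ht h; omega

theorem star_lev {v : F2} {b : Tree} (hb : b ∈ star v) :
    lamZ (ht v - 1) ≤ (toC b).2 ∧ (toC b).2 ≤ lamZ (ht v + 1) := by
  obtain ⟨x, t, h0, h1, hb⟩ := hb
  have e : (toC b).2 = (1 - t) * lamZ (ht v) + t * lamZ (ht (lt x * v)) := lin_ptf _ b v x t hb
  rw [e]
  have m1 : lamZ (ht v - 1) ≤ lamZ (ht v) := lamZ_strictMono.monotone (by omega)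
  have m2 : lamZ (ht v) ≤ lamZ (ht v + 1) := lamZ_strictMono.monotone (by omega)
  have m3 : lamZ (ht v - 1) ≤ lamZ (ht (lt x * v)) :=
    lamZ_strictMono.monotone (by rcases nbr_ht v x with h | h <;> omega)
  have m4 : lamZ (ht (lt x * v)) ≤ lamZ (ht v + 1) :=
    lamZ_strictMono.monotone (by rcases nbr_ht v x with h | h <;> omega)
  constructor <;> nlinarith

theorem star_coord {v : F2} {b : Tree} (hb : b ∈ star v) {w : List A × ℤ} (hw : ht v + 1 < htI w) :
    (toC b).1 w = eu v w := by
  obtain ⟨x, t, h0, h1, hb⟩ := hb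
  have e : (toC b).1 w = (1 - t) * eu v w + t * eu (lt x * v) w := lin_ptf _ b v x t hb
  have e2 : eu (lt x * v) w = eu v w := by
    rcases normal_edge v x with h | h
    · have := Par_eu h w
      rw [if_neg, add_zero] at this
      · exact this.symm
      · rintro h2
        have := congrArg htI h2
        rw [htI_V] at this; omega
    · have := Par_eu h w
      rw [if_neg, add_zero] at this
      · exact this
      · rintro h2
        have := congrArg htI h2
        rw [htI_V] at this
        have := Par_ht h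
        omega
  rw [e, e2]; ring

theorem horoT_cells (h : Horo ↥DT) (hL : ∀ p, h.Lam p = p.1.2) (e : Tree ≃ₜ h.P)
    (he1 : ∀ b v, (e b).1.1.1 v = lin (fun u => if (v.2 = kap u ∧ v.1 <:+ pw u) ∨ (v.1 = [] ∧ kap u ≤ v.2) then 1 else 0) b)
    (he2 : ∀ b, (e b).1.1.2 = lin (fun u => lamZ (kap u - (pw u).length)) b) :
    CellFam h F2 (fun v => e '' star v) := by
  refine ⟨fun v => (star_compact v).image e.continuous, ?_, ?_⟩
  · intro K hK
    have hK' : IsCompact (e.symm '' K) := hK.image e.symm.continuous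
    apply (star_locfin _ hK').subset
    rintro v ⟨q, ⟨b, hb, rfl⟩, hq⟩
    exact ⟨b, hb, e b, hq, e.symm_apply_apply b⟩
  · intro v p p' x hp hp' hx htend
    choose b hb hbp using hp
    choose b' hb' hbp' using hp'
    have hC : ∀ n w, (p n).1.1.1 w = (toC (b n)).1 w := fun n w => by rw [← hbp n]; exact he1 (b n) w
    have hC' : ∀ n w, (p' n).1.1.1 w = (toC (b' n)).1 w := fun n w => by rw [← hbp' n]; exact he1 (b' n) w
    have hl : ∀ n, (p n).1.1.2 = (toC (b n)).2 := fun n => by rw [← hbp n]; exact he2 (b n)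
    have hl' : ∀ n, (p' n).1.1.2 = (toC (b' n)).2 := fun n => by rw [← hbp' n]; exact he2 (b' n)
    have hx2 : x.1.2 = 0 := by rw [← hL]; exact hx
    have hlim : Filter.Tendsto (fun n => (p n).1.1) Filter.atTop (𝓝 x.1) :=
      (continuous_subtype_val.tendsto x).comp htend
    have hlim2 : Filter.Tendsto (fun n => (toC (b n)).2) Filter.atTop (𝓝 0) := by
      have := (continuous_snd.tendsto x.1).comp hlim
      rw [hx2] at this
      exact this.congr (fun n => hl n)
    have hlim1 : ∀ w, Filter.Tendsto (fun n => (toC (b n)).1 w) Filter.atTop (𝓝 (x.1.1 w)) := by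
      intro w
      have := (((continuous_apply w).comp continuous_fst).tendsto x.1).comp hlim
      exact this.congr (fun n => hC n w)
    -- heights tend to minus infinity
    have hht : ∀ m : ℤ, ∀ᶠ n in Filter.atTop, ht (v n) < m := by
      intro m
      have hpos : 0 < lamZ (m - 1) := lamZ_pos _
      filter_upwards [hlim2.eventually (gt_mem_nhds hpos)] with n hn
      by_contra hcon
      push Not at hcon
      have h1 := (star_lev (hb n)).1
      have h2 : lamZ (m - 1) ≤ lamZ (ht (v n) - 1) := lamZ_strictMono.monotone (by omega)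
      linarith
    have hht' : Filter.Tendsto (fun n => ht (v n)) Filter.atTop Filter.atBot := by
      rw [Filter.tendsto_atBot]
      intro m
      filter_upwards [hht m] with n hn using hn.le
    have hlow : ∀ n : ℤ, n ≤ 0 → lamZ n = 1 / (1 - (n : ℝ)) := fun n hn => by
      unfold lamZ; rw [if_pos hn]
    have hcast : Filter.Tendsto (fun n => ((ht (v n) : ℤ) : ℝ)) Filter.atTop Filter.atBot :=
      tendsto_intCast_atBot_iff.mpr hht'
    have hinv : Filter.Tendsto (fun n => (-((ht (v n) : ℤ) : ℝ))⁻¹) Filter.atTop (𝓝 0) :=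
      tendsto_inv_atTop_zero.comp (Filter.tendsto_neg_atBot_atTop.comp hcast)
    -- the levels of p' tend to zero
    have hup0 : Filter.Tendsto (fun n => lamZ (ht (v n) + 1)) Filter.atTop (𝓝 0) := by
      refine hinv.congr' ?_
      filter_upwards [hht (-1)] with n hn
      rw [hlow _ (by omega)]
      push_cast
      rw [one_div]
      congr 1
      ring
    have hlim2' : Filter.Tendsto (fun n => (toC (b' n)).2) Filter.atTop (𝓝 0) :=
      tendsto_of_tendsto_of_tendsto_of_le_of_le tendsto_const_nhds hup0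
        (fun n => (toC_pos (b' n)).le) (fun n => (star_lev (hb' n)).2)
    have hlim1' : ∀ w, Filter.Tendsto (fun n => (toC (b' n)).1 w) Filter.atTop (𝓝 (x.1.1 w)) := by
      intro w
      refine (hlim1 w).congr' ?_
      filter_upwards [hht (htI w - 1)] with n hn
      rw [star_coord (hb n) (by omega), star_coord (hb' n) (by omega)]
    constructor
    · rw [tendsto_subtype_rng]
      have h1 : Filter.Tendsto (fun n => ((p' n).1.1.1, (p' n).1.1.2)) Filter.atTop (𝓝 (x.1.1, x.1.2)) := by
        apply Filter.Tendsto.prodMk_nhds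
        · rw [tendsto_pi_nhds]
          intro w
          exact (hlim1' w).congr (fun n => (hC' n w).symm)
        · rw [hx2]
          exact hlim2'.congr (fun n => (hl' n).symm)
      exact h1
    · have hratio : ∀ n, h.Lam (p' n) / h.Lam (p n) = (toC (b' n)).2 / (toC (b n)).2 := by
        intro n
        rw [hL, hL, hl, hl']
      have hA : Filter.Tendsto (fun n => lamZ (ht (v n) - 1) / lamZ (ht (v n) + 1)) Filter.atTop (𝓝 1) := by
        have h1 : Filter.Tendsto (fun n => (1 + 2 * (-((ht (v n) : ℤ) : ℝ))⁻¹)⁻¹) Filter.atTop (𝓝 ((1 + 2 * 0)⁻¹)) :=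
          ((hinv.const_mul 2).const_add 1).inv₀ (by norm_num)
        rw [show ((1 : ℝ) + 2 * 0)⁻¹ = 1 by norm_num] at h1
        refine h1.congr' ?_
        filter_upwards [hht (-1)] with n hn
        rw [hlow _ (by omega), hlow _ (by omega)]
        have hm : ((ht (v n) : ℤ) : ℝ) < -1 := by exact_mod_cast hn
        push_cast
        have e1 : (1 : ℝ) - (((ht (v n) : ℤ) : ℝ) + 1) ≠ 0 := by
          intro h; linarith
        have e2 : (1 : ℝ) - (((ht (v n) : ℤ) : ℝ) - 1) ≠ 0 := by
          intro h; linarith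
        have e3 : ((ht (v n) : ℤ) : ℝ) ≠ 0 := by
          intro h; linarith
        have e4 : (1 : ℝ) + 2 * (-((ht (v n) : ℤ) : ℝ))⁻¹ ≠ 0 := by
          have : 0 < (-((ht (v n) : ℤ) : ℝ))⁻¹ := by
            apply inv_pos.mpr; linarith
          positivity
        rw [inv_eq_iff_eq_inv]
        rw [div_div_div_eq]
        rw [inv_div]
        field_simp
        ring
      have hB : Filter.Tendsto (fun n => lamZ (ht (v n) + 1) / lamZ (ht (v n) - 1)) Filter.atTop (𝓝 1) := by
        have := hA.inv₀ one_ne_zero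
        rw [inv_one] at this
        refine this.congr (fun n => ?_)
        rw [inv_div]
      refine tendsto_of_tendsto_of_tendsto_of_le_of_le hA hB (fun n => ?_) (fun n => ?_)
      · show _ ≤ h.Lam (p' n) / h.Lam (p n)
        rw [hratio]
        exact div_le_div₀ (toC_pos _).le (star_lev (hb' n)).1 (toC_pos _) (star_lev (hb n)).2
      · show h.Lam (p' n) / h.Lam (p n) ≤ _
        rw [hratio]
        exact div_le_div₀ (lamZ_pos _).le (star_lev (hb' n)).2 (lamZ_pos _) (star_lev (hb n)).1

end Pool.Agent.Helper376.CL
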