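import Mathlib
import Pool.Agent.Helper376.CL.Pg
import Pool.Agent.Helper376.CL.Emb
import Pool.Agent.Helper376.CL.DTDefs
import Pool.Agent.Helper376.CL.DT1

set_option maxHeartbeats 4000000
set_option synthInstance.maxHeartbeats 400000

namespace Pool.Agent.Helper376.CL

open Set Topology

noncomputable def kcw (k : ℤ) : ℝ := (1 / 2 : ℝ) ^ k.natAbs

theorem kcw_pos (k : ℤ) : 0 < kcw k := by unfold kcw; positivity

theorem kcw_summable : Summable kcw := by
  have h : Summable (fun n : ℕ => (1 / 2 : ℝ) ^ n) := summable_geometric_of_lt_one (by norm_num) (by norm_num)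
  apply Summable.of_nat_of_neg
  · simpa [kcw] using h
  · simpa [kcw] using h

theorem dg_bound (l : List A) : |dg l| ≤ 3 := by
  cases l with
  | nil => simp [dg]
  | cons x l =>
    obtain ⟨i, b⟩ := x
    fin_cases i <;> cases b <;> simp [dg, dgA] <;> norm_num

noncomputable def kcX (p : (List A × ℤ → ℝ) × ℝ) : ℝ := ∑' k : ℤ, kcw k * p.1 ([], k)

noncomputable def kcE (w : List A → ℝ) (p : (List A × ℤ → ℝ) × ℝ) : ℝ :=
  ∑' v : List A × ℤ, (if v.1 = [] then 0 else w v.1 * kcw v.2 * p.1 v)

theorem kcX_cont : Continuous (fun p : ↥DT => kcX (p : (List A × ℤ → ℝ) × ℝ)) := by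
  unfold kcX
  apply continuous_tsum (u := kcw)
  · intro k
    exact continuous_const.mul ((continuous_apply _).comp (continuous_fst.comp continuous_subtype_val))
  · exact kcw_summable
  · intro k p
    have h := DT_bounds p.2 ([], k)
    rw [norm_mul, Real.norm_eq_abs, Real.norm_eq_abs, abs_of_pos (kcw_pos k), abs_of_nonneg h.1]
    exact mul_le_of_le_one_right (kcw_pos k).le h.2

theorem kcE_cont (w : List A → ℝ) (hw : Summable (fun l => |w l|)) :
    Continuous (fun p : ↥DT => kcE w (p : (List A × ℤ → ℝ) × ℝ)) := by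
  unfold kcE
  apply continuous_tsum (u := fun v : List A × ℤ => |w v.1| * kcw v.2)
  · intro v
    by_cases h : v.1 = []
    · simp only [h, if_true]; exact continuous_const
    · simp only [h, if_false]
      exact continuous_const.mul ((continuous_apply _).comp (continuous_fst.comp continuous_subtype_val))
  · exact hw.mul_of_nonneg kcw_summable (fun _ => abs_nonneg _) (fun k => (kcw_pos k).le)
  · intro v p
    have h := DT_bounds p.2 v
    have h0 : 0 ≤ |w v.1| * kcw v.2 := mul_nonneg (abs_nonneg _) (kcw_pos _).le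
    by_cases hv : v.1 = []
    · simp only [hv, if_true, norm_zero]
      rw [hv] at h0; exact h0
    · simp only [hv, if_false]
      rw [norm_mul, norm_mul, Real.norm_eq_abs, Real.norm_eq_abs, Real.norm_eq_abs, abs_of_pos (kcw_pos _),
        abs_of_nonneg h.1]
      exact mul_le_of_le_one_right h0 h.2

theorem kcX_lt {p q : (List A × ℤ → ℝ) × ℝ} (hp : p ∈ DT) (hq : q ∈ DT)
    (h : ∀ k : ℤ, p.1 ([], k) ≤ q.1 ([], k)) (k0 : ℤ) (h0 : p.1 ([], k0) < q.1 ([], k0)) :
    kcX p < kcX q := by
  have hs : ∀ p ∈ DT, Summable (fun k : ℤ => kcw k * p.1 ([], k)) := by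
    intro p hp
    apply Summable.of_nonneg_of_le _ _ kcw_summable
    · intro k; exact mul_nonneg (kcw_pos k).le (DT_bounds hp _).1
    · intro k; exact mul_le_of_le_one_right (kcw_pos k).le (DT_bounds hp _).2
  unfold kcX
  apply Summable.tsum_lt_tsum (i := k0)
  · intro k
    exact mul_le_mul_of_nonneg_left (h k) (kcw_pos k).le
  · exact mul_lt_mul_of_pos_left h0 (kcw_pos k0)
  · exact hs p hp
  · exact hs q hq

/-- evaluation when all pages other than `k0` vanish -/
theorem kcE_page (w : List A → ℝ) (hw : Summable (fun l => |w l|)) {p : (List A × ℤ → ℝ) × ℝ} (hp : p ∈ DT)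
    (k0 : ℤ) (h0 : ∀ x l k, k ≠ k0 → p.1 (x :: l, k) = 0) (h1 : p.1 ([], k0) = 1) :
    kcE w p = kcw k0 * ((∑' l : List A, p.1 (l, k0) * w l) - w []) := by
  unfold kcE
  have hinj : Function.Injective (fun l : List A => (l, k0)) := by
    intro a b h; exact (Prod.mk.inj h).1
  rw [← hinj.tsum_eq]
  · have hs : Summable (fun l : List A => p.1 (l, k0) * w l) := by
      apply Summable.of_norm_bounded hw
      intro l
      have h := DT_bounds hp (l, k0)
      rw [norm_mul, Real.norm_eq_abs, Real.norm_eq_abs, abs_of_nonneg h.1]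
      exact mul_le_of_le_one_left (abs_nonneg _) h.2
    rw [hs.tsum_eq_add_tsum_ite [], h1, one_mul, add_sub_cancel_left, ← tsum_mul_left]
    apply tsum_congr
    intro l
    by_cases hl : l = []
    · simp [hl]
    · simp only [hl, if_false]; ring
  · intro v hv
    obtain ⟨l, k⟩ := v
    rw [Function.mem_support] at hv
    refine ⟨l, ?_⟩
    cases l with
    | nil => simp at hv
    | cons x l =>
      by_contra hk
      have hk' : k ≠ k0 := by
        rintro rfl; exact hk rfl
      apply hv
      simp only [List.cons_ne_nil, if_false]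
      rw [h0 x l k hk', mul_zero]

theorem clamp_floor {x x' : ℝ} (h : x < x') :
    max 0 (min 1 (((⌊x⌋ : ℤ) : ℝ) + 1 - x')) < max 0 (min 1 (((⌊x⌋ : ℤ) : ℝ) + 1 - x)) := by
  have h1 := Int.floor_le x
  have h2 := Int.lt_floor_add_one x
  have h3 : min 1 (((⌊x⌋ : ℤ) : ℝ) + 1 - x) = ((⌊x⌋ : ℤ) : ℝ) + 1 - x := min_eq_right (by linarith)
  rw [h3, max_eq_right (by linarith : (0:ℝ) ≤ ((⌊x⌋ : ℤ) : ℝ) + 1 - x)]
  apply max_lt (by linarith)
  exact lt_of_le_of_lt (min_le_right _ _) (by linarith)

theorem clamp_anti {x x' : ℝ} (h : x ≤ x') (k : ℤ) :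
    max 0 (min 1 ((k : ℝ) + 1 - x')) ≤ max 0 (min 1 ((k : ℝ) + 1 - x)) :=
  max_le_max le_rfl (min_le_min le_rfl (by linarith))

theorem DT_embed_inj {p q : (List A × ℤ → ℝ) × ℝ} (hp : p ∈ DT) (hq : q ∈ DT)
    (hX : kcX p = kcX q) (h1 : kcE (fun l => (1/8 : ℝ)^l.length) p = kcE (fun l => (1/8 : ℝ)^l.length) q)
    (h2 : kcE (fun l => dg l * (1/16 : ℝ)^l.length) p = kcE (fun l => dg l * (1/16 : ℝ)^l.length) q) :
    p = q := by
  have hw1 : Summable (fun l : List A => |(1/8 : ℝ)^l.length|) := by
    simpa only [abs_of_nonneg (pow_nonneg (by norm_num : (0:ℝ) ≤ 1/8) _)] using summable_words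
  have hw2 : Summable (fun l : List A => |dg l * (1/16 : ℝ)^l.length|) := by
    apply Summable.of_nonneg_of_le (fun _ => abs_nonneg _) _ (summable_words.mul_left 3)
    intro l
    rw [abs_mul, abs_of_nonneg (pow_nonneg (by norm_num : (0:ℝ) ≤ 1/16) _)]
    exact mul_le_mul (dg_bound l) (pow_le_pow_left₀ (by norm_num) (by norm_num) _) (by positivity) (by norm_num)
  apply DT_ext hp hq
  have htop : ∀ {p q : (List A × ℤ → ℝ) × ℝ}, p ∈ DT → q ∈ DT → kcX p = kcX q →
      (∀ k : ℤ, p.1 ([], k) = 1) → (∃ x : ℝ, ∀ k : ℤ, q.1 ([], k) = max 0 (min 1 ((k:ℝ) + 1 - x))) → False := by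
    intro p q hp hq hX h ⟨x, hx⟩
    have hlt : q.1 ([], ⌊x⌋ - 1) < p.1 ([], ⌊x⌋ - 1) := by
      rw [h, hx]
      have h1 := Int.floor_le x
      apply max_lt (by norm_num)
      apply lt_of_le_of_lt (min_le_right _ _)
      push_cast
      linarith
    have : kcX q < kcX p := by
      apply kcX_lt hq hp (fun k => ?_) (⌊x⌋ - 1) hlt
      rw [h]; exact (DT_bounds hq _).2
    exact absurd hX this.ne'
  have hxx : ∀ {p q : (List A × ℤ → ℝ) × ℝ} {x x' : ℝ}, p ∈ DT → q ∈ DT → kcX p = kcX q →
      (∀ k : ℤ, p.1 ([], k) = max 0 (min 1 ((k:ℝ) + 1 - x))) →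
      (∀ k : ℤ, q.1 ([], k) = max 0 (min 1 ((k:ℝ) + 1 - x'))) → ¬ x < x' := by
    intro p q x x' hp hq hX h h' hlt
    have : kcX q < kcX p := by
      apply kcX_lt hq hp (fun k => by rw [h, h']; exact clamp_anti hlt.le k) ⌊x⌋
      rw [h, h']; exact clamp_floor hlt
    exact absurd hX this.ne'
  rcases DT_pos hp with ⟨hp0, hpT, hpz⟩ | ⟨x, hx, hxk⟩
  · rcases DT_pos hq with ⟨hq0, hqT, hqz⟩ | ⟨x', hx', hxk'⟩
    · funext v
      obtain ⟨l, k⟩ := v
      cases l with
      | nil => rw [hpT, hqT]
      | cons y l => rw [hpz, hqz]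
    · exact (htop hp hq hX hpT ⟨x', hx'⟩).elim
  · rcases DT_pos hq with ⟨hq0, hqT, hqz⟩ | ⟨x', hx', hxk'⟩
    · exact (htop hq hp hX.symm hqT ⟨x, hx⟩).elim
    · have hxe : x = x' := le_antisymm (not_lt.1 (hxx hq hp hX.symm hx' hx)) (not_lt.1 (hxx hp hq hX hx hx'))
      subst hxe
      by_cases hint : ∃ k0 : ℤ, x = (k0 : ℝ)
      · obtain ⟨k0, rfl⟩ := hint
        have hpz : ∀ y l k, k ≠ k0 → p.1 (y :: l, k) = 0 := by
          intro y l k hk
          by_contra hne
          exact hk (by exact_mod_cast (hxk y l k hne).symm)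
        have hqz : ∀ y l k, k ≠ k0 → q.1 (y :: l, k) = 0 := by
          intro y l k hk
          by_contra hne
          exact hk (by exact_mod_cast (hxk' y l k hne).symm)
        have hp1 : p.1 ([], k0) = 1 := by rw [hx]; norm_num
        have hq1 : q.1 ([], k0) = 1 := by rw [hx']; norm_num
        have hPg : ∀ {p : (List A × ℤ → ℝ) × ℝ}, p ∈ DT → p.1 ([], k0) = 1 →
            (fun l => p.1 (l, k0)) ∈ Pg := by
          intro p hp hp1
          refine ⟨hp1, fun l => DT_bounds hp _, ?_, ?_, ?_⟩
          · intro x l hn; exact hp.2.2.2.1 x l k0 hn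
          · intro x l h; exact DT_parent hp h
          · intro x y l hxy; exact DT_sib hp hxy l k0
        have hc : (fun l => p.1 (l, k0)) = (fun l => q.1 (l, k0)) := by
          apply e_inj (hPg hp hp1) (hPg hq hq1)
          · have e1' := kcE_page _ hw1 hp k0 hpz hp1
            have e2' := kcE_page _ hw1 hq k0 hqz hq1
            rw [e1', e2'] at h1
            have := mul_left_cancel₀ (kcw_pos k0).ne' h1
            unfold e1
            linarith
          · have e1' := kcE_page _ hw2 hp k0 hpz hp1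
            have e2' := kcE_page _ hw2 hq k0 hqz hq1
            rw [e1', e2'] at h2
            have := mul_left_cancel₀ (kcw_pos k0).ne' h2
            unfold e2
            simp only [mul_assoc]
            linarith
        funext v
        obtain ⟨l, k⟩ := v
        cases l with
        | nil => rw [hx, hx']
        | cons y l =>
          by_cases hk : k = k0
          · subst hk; exact congrFun hc (y :: l)
          · rw [hpz y l k hk, hqz y l k hk]
      · funext v
        obtain ⟨l, k⟩ := v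
        cases l with
        | nil => rw [hx, hx']
        | cons y l =>
          have e1' : p.1 (y :: l, k) = 0 := by
            by_contra hne; exact hint ⟨k, hxk y l k hne⟩
          have e2' : q.1 (y :: l, k) = 0 := by
            by_contra hne; exact hint ⟨k, hxk' y l k hne⟩
          rw [e1', e2']

/-- embedding of the tree with its ends into a finite-dimensional space -/
theorem DT_embed : ∃ e : ↥DT → ℝ × ℝ × ℝ × ℝ, Continuous e ∧ Function.Injective e := by
  have hw1 : Summable (fun l : List A => |(1/8 : ℝ)^l.length|) := by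
    simpa only [abs_of_nonneg (pow_nonneg (by norm_num : (0:ℝ) ≤ 1/8) _)] using summable_words
  have hw2 : Summable (fun l : List A => |dg l * (1/16 : ℝ)^l.length|) := by
    apply Summable.of_nonneg_of_le (fun _ => abs_nonneg _) _ (summable_words.mul_left 3)
    intro l
    rw [abs_mul, abs_of_nonneg (pow_nonneg (by norm_num : (0:ℝ) ≤ 1/16) _)]
    exact mul_le_mul (dg_bound l) (pow_le_pow_left₀ (by norm_num) (by norm_num) _) (by positivity) (by norm_num)
  refine ⟨fun p => ((p : (List A × ℤ → ℝ) × ℝ).2, kcX p, kcE (fun l => (1/8 : ℝ)^l.length) p,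
    kcE (fun l => dg l * (1/16 : ℝ)^l.length) p), ?_, ?_⟩
  · exact (continuous_snd.comp continuous_subtype_val).prodMk
      (kcX_cont.prodMk ((kcE_cont _ hw1).prodMk (kcE_cont _ hw2)))
  · intro p q h
    have hA := Prod.mk.inj h
    have hB := Prod.mk.inj hA.2
    have hC := Prod.mk.inj hB.2
    exact Subtype.ext (DT_embed_inj p.2 q.2 hB.1 hC.1 hC.2)

end Pool.Agent.Helper376.CL
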