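import Mathlib
import Pool.Agent.Helper376.CL.HoroDefs

set_option maxHeartbeats 4000000
set_option synthInstance.maxHeartbeats 400000

namespace Pool.Agent.Helper376.CL

open Set Topology

section
variable {D₁ D₂ : Type} [TopologicalSpace D₁] [TopologicalSpace D₂] [T2Space D₁] [T2Space D₂]
  (h₁ : Horo D₁) (h₂ : Horo D₂)

/-- near-infinity function on `XP` -/
noncomputable def NN (z : XP h₁ h₂) : ℝ :=
  max (max (h₁.ka z.1.1) (h₂.ka z.1.2.1)) (max (1 / z.1.2.2) (1 / (1 - z.1.2.2)))

theorem continuous_NN : Continuous (NN h₁ h₂) := by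
  unfold NN
  refine Continuous.max (Continuous.max ?_ ?_) (Continuous.max ?_ ?_)
  · exact h₁.ka_cont.comp (continuous_fst.comp continuous_subtype_val)
  · exact h₂.ka_cont.comp (continuous_fst.comp (continuous_snd.comp continuous_subtype_val))
  · refine Continuous.div continuous_const
      (continuous_snd.comp (continuous_snd.comp continuous_subtype_val)) fun z => ?_
    exact z.2.1.ne'
  · refine Continuous.div continuous_const (continuous_const.sub
      (continuous_snd.comp (continuous_snd.comp continuous_subtype_val))) fun z => ?_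
    have := z.2.2.1
    exact (sub_pos.mpr this).ne'

theorem NN_proper (M : ℝ) : IsCompact {z | NN h₁ h₂ z ≤ M} := by
  rcases le_or_gt M 0 with hM | hM
  · have : {z | NN h₁ h₂ z ≤ M} = ∅ := by
      ext z
      simp only [mem_setOf_eq, mem_empty_iff_false, iff_false, not_le]
      have h1 : 0 < 1 / z.1.2.2 := by have := z.2.1; positivity
      have h2 : 1 / z.1.2.2 ≤ NN h₁ h₂ z := by
        unfold NN
        exact le_trans (le_max_left _ _) (le_max_right _ _)
      linarith
    rw [this]
    exact isCompact_empty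
  · rw [Subtype.isCompact_iff]
    have himg : ((↑) : XP h₁ h₂ → D₁ × D₂ × ℝ) '' {z | NN h₁ h₂ z ≤ M} =
        ({p | h₁.ka p ≤ M} ×ˢ ({p | h₂.ka p ≤ M} ×ˢ Icc (1 / M) (1 - 1 / M))) ∩
        {x | x.2.2 * h₁.Lam x.1 = (1 - x.2.2) * h₂.Lam x.2.1} := by
      ext x
      simp only [mem_image, mem_setOf_eq, mem_inter_iff, mem_prod, mem_Icc]
      constructor
      · rintro ⟨z, hz, rfl⟩
        unfold NN at hz
        simp only [max_le_iff] at hz
        obtain ⟨⟨a1, a2⟩, a3, a4⟩ := hz
        have h0 := z.2.1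
        have h1 := z.2.2.1
        refine ⟨⟨a1, a2, ?_, ?_⟩, z.2.2.2⟩
        · rw [div_le_iff₀ h0] at a3
          rw [div_le_iff₀ hM]; linarith
        · have h3 : 0 < 1 - z.1.2.2 := by linarith
          rw [div_le_iff₀ h3] at a4
          have : 1 / M ≤ 1 - z.1.2.2 := by rw [div_le_iff₀ hM]; linarith
          linarith
      · rintro ⟨⟨a1, a2, a3, a4⟩, a5⟩
        have hM' : 0 < 1 / M := by positivity
        have h0 : 0 < x.2.2 := by linarith
        have h1 : x.2.2 < 1 := by linarith
        refine ⟨⟨x, h0, h1, a5⟩, ?_, rfl⟩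
        unfold NN
        simp only [max_le_iff]
        refine ⟨⟨a1, a2⟩, ?_, ?_⟩
        · rw [div_le_iff₀ h0]
          rw [div_le_iff₀ hM] at a3
          linarith
        · have h3 : 0 < 1 - x.2.2 := by linarith
          rw [div_le_iff₀ h3]
          have h4 : 1 / M ≤ 1 - x.2.2 := by linarith
          rw [div_le_iff₀ hM] at h4
          linarith
    rw [himg]
    apply IsCompact.inter_right
    · exact (h₁.ka_proper M).prod ((h₂.ka_proper M).prod isCompact_Icc)
    · apply isClosed_eq
      · exact (continuous_snd.comp continuous_snd).mul (h₁.Lam_cont.comp continuous_fst)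
      · exact (continuous_const.sub (continuous_snd.comp continuous_snd)).mul
          (h₂.Lam_cont.comp (continuous_fst.comp continuous_snd))

theorem locallyCompact_XP : LocallyCompactSpace (XP h₁ h₂) := by
  have : WeaklyLocallyCompactSpace (XP h₁ h₂) := by
    refine ⟨fun z => ⟨_, NN_proper h₁ h₂ (NN h₁ h₂ z + 1), ?_⟩⟩
    have h1 : {w | NN h₁ h₂ w < NN h₁ h₂ z + 1} ∈ 𝓝 z :=
      (isOpen_lt (continuous_NN h₁ h₂) continuous_const).mem_nhds (by simp)
    refine Filter.mem_of_superset h1 fun w hw => ?_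
    have hw' : NN h₁ h₂ w < NN h₁ h₂ z + 1 := hw
    exact hw'.le
  infer_instance

theorem range_jP_aux : range (jP h₁ h₂) = {z : XP h₁ h₂ | 0 < h₁.Lam z.1.1} := by
  ext z
  simp only [mem_range, mem_setOf_eq]
  constructor
  · rintro ⟨w, rfl⟩
    exact w.1.2
  · intro hz
    have h0 := z.2.1
    have h1 := z.2.2.1
    have h2 := z.2.2.2
    have h3 : 0 < 1 - z.1.2.2 := by linarith
    have h4 : 0 < h₂.Lam z.1.2.1 := by
      have : 0 < (1 - z.1.2.2) * h₂.Lam z.1.2.1 := by rw [← h2]; positivity
      exact (pos_iff_pos_of_mul_pos this).mp h3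
    refine ⟨(⟨z.1.1, hz⟩, ⟨z.1.2.1, h4⟩), ?_⟩
    apply Subtype.ext
    have h5 : h₂.Lam z.1.2.1 / (h₁.Lam z.1.1 + h₂.Lam z.1.2.1) = z.1.2.2 := by
      rw [div_eq_iff (by positivity)]
      linarith
    show (z.1.1, z.1.2.1, h₂.Lam z.1.2.1 / (h₁.Lam z.1.1 + h₂.Lam z.1.2.1)) = z.1
    rw [h5]

theorem isOpenEmbedding_jP_aux : IsOpenEmbedding (jP h₁ h₂) := by
  refine ⟨?_, ?_⟩
  · have hg : Continuous (fun z : XP h₁ h₂ => (z.1.1, z.1.2.1)) :=
      (continuous_fst.comp continuous_subtype_val).prodMk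
        (continuous_fst.comp (continuous_snd.comp continuous_subtype_val))
    have hf : Continuous (jP h₁ h₂) := by
      apply Continuous.subtype_mk
      have c1 : Continuous (fun z : h₁.P × h₂.P => z.1.1) :=
        continuous_subtype_val.comp continuous_fst
      have c2 : Continuous (fun z : h₁.P × h₂.P => z.2.1) :=
        continuous_subtype_val.comp continuous_snd
      refine c1.prodMk (c2.prodMk ?_)
      refine Continuous.div (h₂.Lam_cont.comp c2)
        ((h₁.Lam_cont.comp c1).add (h₂.Lam_cont.comp c2)) fun z => ?_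
      have a := z.1.2
      have b := z.2.2
      exact (add_pos a b).ne'
    refine IsEmbedding.of_comp hf hg ?_
    exact IsEmbedding.subtypeVal.prodMap IsEmbedding.subtypeVal
  · rw [range_jP_aux]
    exact isOpen_lt continuous_const (h₁.Lam_cont.comp (continuous_fst.comp continuous_subtype_val))

theorem jO_isOpenEmbedding : IsOpenEmbedding (jO h₁ h₂) :=
  OnePoint.isOpenEmbedding_coe.comp (isOpenEmbedding_jP_aux h₁ h₂)

theorem jO_range : (range (jO h₁ h₂))ᶜ =
    {x | x = OnePoint.infty ∨ ∃ z : XP h₁ h₂, x = (z : OnePoint (XP h₁ h₂)) ∧ h₁.Lam z.1.1 = 0} := by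
  ext x
  simp only [mem_compl_iff, mem_range, mem_setOf_eq]
  constructor
  · intro h
    induction x using OnePoint.rec with
    | infty => exact Or.inl rfl
    | coe z =>
      right
      refine ⟨z, rfl, ?_⟩
      by_contra hcon
      have hpos : 0 < h₁.Lam z.1.1 := lt_of_le_of_ne (h₁.Lam_nonneg _) (Ne.symm hcon)
      have hz : z ∈ range (jP h₁ h₂) := by rw [range_jP_aux]; exact hpos
      obtain ⟨w, hw⟩ := hz
      exact h ⟨w, by rw [jO, hw]⟩
  · rintro (rfl | ⟨z, rfl, hz⟩) ⟨w, hw⟩
    · exact OnePoint.coe_ne_infty _ hw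
    · have h1 : jP h₁ h₂ w = z := OnePoint.coe_injective hw
      have h2 : z ∈ range (jP h₁ h₂) := ⟨w, h1⟩
      rw [range_jP_aux] at h2
      exact absurd hz (ne_of_gt h2)

end

end Pool.Agent.Helper376.CL
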