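import Mathlib
import Pool.Agent.Helper376.CL.HoroDefs
import Pool.Agent.Helper376.CL.HoroA1

set_option maxHeartbeats 4000000
set_option synthInstance.maxHeartbeats 400000

namespace Pool.Agent.Helper376.CL

open Set Topology

section push
variable {D₁ D₂ : Type} [TopologicalSpace D₁] [TopologicalSpace D₂] [T2Space D₁] [T2Space D₂]
  (h₁ : Horo D₁) (h₂ : Horo D₂)

open Classical in
noncomputable def mkP (p : D₁) (q : D₂) : OnePoint (XP h₁ h₂) :=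
  if h : 0 < h₁.Lam p ∧ 0 < h₂.Lam q then jO h₁ h₂ (⟨p, h.1⟩, ⟨q, h.2⟩) else OnePoint.infty

theorem mkP_eq (p : D₁) (q : D₂) (hp : 0 < h₁.Lam p) (hq : 0 < h₂.Lam q) :
    mkP h₁ h₂ p q = jO h₁ h₂ (⟨p, hp⟩, ⟨q, hq⟩) := by
  rw [mkP, dif_pos ⟨hp, hq⟩]

theorem continuousAt_mkP (p : D₁) (q : D₂) (hp : 0 < h₁.Lam p) (hq : 0 < h₂.Lam q) :
    ContinuousAt (fun x : D₁ × D₂ => mkP h₁ h₂ x.1 x.2) (p, q) := by
  have e1 : IsOpenEmbedding (Subtype.val : h₁.P → D₁) :=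
    (isOpen_lt continuous_const h₁.Lam_cont).isOpenEmbedding_subtypeVal
  have e2 : IsOpenEmbedding (Subtype.val : h₂.P → D₂) :=
    (isOpen_lt continuous_const h₂.Lam_cont).isOpenEmbedding_subtypeVal
  have e := e1.prodMap e2
  have key := e.continuousAt_iff (g := fun x : D₁ × D₂ => mkP h₁ h₂ x.1 x.2)
    (x := ((⟨p, hp⟩, ⟨q, hq⟩) : h₁.P × h₂.P))
  refine key.1 ?_
  have h3 : (fun x : D₁ × D₂ => mkP h₁ h₂ x.1 x.2) ∘
      Prod.map (Subtype.val : h₁.P → D₁) (Subtype.val : h₂.P → D₂) = jO h₁ h₂ := by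
    funext x
    exact mkP_eq h₁ h₂ x.1.1 x.2.1 x.1.2 x.2.2
  rw [h3]
  exact (jO_isOpenEmbedding h₁ h₂).continuous.continuousAt

/-- size function -/
noncomputable def psi (z : XP h₁ h₂) : ℝ :=
  (1 + h₁.ka z.1.1 + h₂.ka z.1.2.1 + 1 / z.1.2.2 + 1 / (1 - z.1.2.2)) /
    (z.1.2.2 * (1 - z.1.2.2))

theorem continuous_psi : Continuous (psi h₁ h₂) := by
  have c1 := h₁.ka_cont
  have c2 := h₂.ka_cont
  unfold psi
  refine Continuous.div ?_ (by fun_prop) ?_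
  · refine Continuous.add (Continuous.add (by fun_prop) ?_) ?_
    · refine Continuous.div (by fun_prop) (by fun_prop) ?_
      intro z; exact z.2.1.ne'
    · refine Continuous.div (by fun_prop) (by fun_prop) ?_
      intro z; have := z.2.2.1; linarith
  · intro z
    have a := z.2.1
    have b := z.2.2.1
    have : 0 < z.1.2.2 * (1 - z.1.2.2) := mul_pos a (by linarith)
    exact this.ne'

theorem psi_pos (z : XP h₁ h₂) : 0 < psi h₁ h₂ z := by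
  have a := z.2.1
  have b : 0 < 1 - z.1.2.2 := by have := z.2.2.1; linarith
  have c := h₁.ka_nonneg z.1.1
  have d := h₂.ka_nonneg z.1.2.1
  unfold psi
  positivity

theorem le_psi1 (z : XP h₁ h₂) : NN h₁ h₂ z ≤ (1 - z.1.2.2) * psi h₁ h₂ z := by
  have a := z.2.1
  have b : 0 < 1 - z.1.2.2 := by have := z.2.2.1; linarith
  have c := h₁.ka_nonneg z.1.1
  have d := h₂.ka_nonneg z.1.2.1
  have e : (1 - z.1.2.2) * psi h₁ h₂ z =
      (1 + h₁.ka z.1.1 + h₂.ka z.1.2.1 + 1 / z.1.2.2 + 1 / (1 - z.1.2.2)) / z.1.2.2 := by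
    unfold psi
    field_simp
  rw [e, le_div_iff₀ a]
  have f1 : 0 < 1 / z.1.2.2 := by positivity
  have f2 : 0 < 1 / (1 - z.1.2.2) := by positivity
  have g : NN h₁ h₂ z ≤ 1 + h₁.ka z.1.1 + h₂.ka z.1.2.1 + 1 / z.1.2.2 + 1 / (1 - z.1.2.2) := by
    unfold NN
    refine max_le (max_le ?_ ?_) (max_le ?_ ?_) <;> linarith
  have g0 : 0 ≤ NN h₁ h₂ z := by
    unfold NN
    exact le_max_of_le_left (le_max_of_le_left c)
  calc NN h₁ h₂ z * z.1.2.2 ≤ NN h₁ h₂ z * 1 := by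
        refine mul_le_mul_of_nonneg_left ?_ g0
        linarith
    _ ≤ _ := by rw [mul_one]; exact g

theorem le_psi2 (z : XP h₁ h₂) : NN h₁ h₂ z ≤ z.1.2.2 * psi h₁ h₂ z := by
  have a := z.2.1
  have b : 0 < 1 - z.1.2.2 := by have := z.2.2.1; linarith
  have c := h₁.ka_nonneg z.1.1
  have d := h₂.ka_nonneg z.1.2.1
  have e : z.1.2.2 * psi h₁ h₂ z =
      (1 + h₁.ka z.1.1 + h₂.ka z.1.2.1 + 1 / z.1.2.2 + 1 / (1 - z.1.2.2)) / (1 - z.1.2.2) := by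
    unfold psi
    field_simp
  rw [e, le_div_iff₀ b]
  have f1 : 0 < 1 / z.1.2.2 := by positivity
  have f2 : 0 < 1 / (1 - z.1.2.2) := by positivity
  have g : NN h₁ h₂ z ≤ 1 + h₁.ka z.1.1 + h₂.ka z.1.2.1 + 1 / z.1.2.2 + 1 / (1 - z.1.2.2) := by
    unfold NN
    refine max_le (max_le ?_ ?_) (max_le ?_ ?_) <;> linarith
  have g0 : 0 ≤ NN h₁ h₂ z := by
    unfold NN
    exact le_max_of_le_left (le_max_of_le_left c)
  calc NN h₁ h₂ z * (1 - z.1.2.2) ≤ NN h₁ h₂ z * 1 := by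
        refine mul_le_mul_of_nonneg_left ?_ g0
        linarith
    _ ≤ _ := by rw [mul_one]; exact g

/-- levels -/
noncomputable def lvA (z : XP h₁ h₂) (t : ℝ) : ℝ :=
  h₁.Lam z.1.1 + (1 - z.1.2.2) * (max t 0 * psi h₁ h₂ z)

noncomputable def lvB (z : XP h₁ h₂) (t : ℝ) : ℝ :=
  h₂.Lam z.1.2.1 + z.1.2.2 * (max t 0 * psi h₁ h₂ z)

theorem continuous_lvA : Continuous (fun x : XP h₁ h₂ × ℝ => lvA h₁ h₂ x.1 x.2) := by
  have c1 := h₁.Lam_cont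
  have c3 := continuous_psi h₁ h₂
  unfold lvA
  fun_prop

theorem continuous_lvB : Continuous (fun x : XP h₁ h₂ × ℝ => lvB h₁ h₂ x.1 x.2) := by
  have c1 := h₂.Lam_cont
  have c3 := continuous_psi h₁ h₂
  unfold lvB
  fun_prop

theorem lvA_ge (z : XP h₁ h₂) (t : ℝ) : h₁.Lam z.1.1 ≤ lvA h₁ h₂ z t := by
  have b : 0 < 1 - z.1.2.2 := by have := z.2.2.1; linarith
  have c := (psi_pos h₁ h₂ z).le
  have d : 0 ≤ max t 0 := le_max_right _ _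
  unfold lvA
  have : 0 ≤ (1 - z.1.2.2) * (max t 0 * psi h₁ h₂ z) := by positivity
  linarith

theorem lvB_ge (z : XP h₁ h₂) (t : ℝ) : h₂.Lam z.1.2.1 ≤ lvB h₁ h₂ z t := by
  have b := z.2.1
  have c := (psi_pos h₁ h₂ z).le
  have d : 0 ≤ max t 0 := le_max_right _ _
  unfold lvB
  have : 0 ≤ z.1.2.2 * (max t 0 * psi h₁ h₂ z) := by positivity
  linarith

theorem lvA_nonneg (z : XP h₁ h₂) (t : ℝ) : 0 ≤ lvA h₁ h₂ z t :=
  (h₁.Lam_nonneg _).trans (lvA_ge h₁ h₂ z t)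

theorem lvB_nonneg (z : XP h₁ h₂) (t : ℝ) : 0 ≤ lvB h₁ h₂ z t :=
  (h₂.Lam_nonneg _).trans (lvB_ge h₁ h₂ z t)

theorem lvA_pos (z : XP h₁ h₂) (t : ℝ) (ht : 0 < t) : 0 < lvA h₁ h₂ z t := by
  have b : 0 < 1 - z.1.2.2 := by have := z.2.2.1; linarith
  have c := psi_pos h₁ h₂ z
  have d : 0 < max t 0 := lt_max_of_lt_left ht
  have e := h₁.Lam_nonneg z.1.1
  unfold lvA
  positivity

theorem lvB_pos (z : XP h₁ h₂) (t : ℝ) (ht : 0 < t) : 0 < lvB h₁ h₂ z t := by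
  have b := z.2.1
  have c := psi_pos h₁ h₂ z
  have d : 0 < max t 0 := lt_max_of_lt_left ht
  have e := h₂.Lam_nonneg z.1.2.1
  unfold lvB
  positivity

theorem lvA_NN (z : XP h₁ h₂) (t : ℝ) (ht : 0 < t) : t * NN h₁ h₂ z ≤ lvA h₁ h₂ z t := by
  have e := h₁.Lam_nonneg z.1.1
  have f := le_psi1 h₁ h₂ z
  unfold lvA
  rw [max_eq_left ht.le]
  nlinarith [mul_le_mul_of_nonneg_left f ht.le]

theorem lvB_NN (z : XP h₁ h₂) (t : ℝ) (ht : 0 < t) : t * NN h₁ h₂ z ≤ lvB h₁ h₂ z t := by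
  have e := h₂.Lam_nonneg z.1.2.1
  have f := le_psi2 h₁ h₂ z
  unfold lvB
  rw [max_eq_left ht.le]
  nlinarith [mul_le_mul_of_nonneg_left f ht.le]

theorem lv_rel (z : XP h₁ h₂) (t : ℝ) :
    z.1.2.2 * lvA h₁ h₂ z t = (1 - z.1.2.2) * lvB h₁ h₂ z t := by
  have := z.2.2.2
  unfold lvA lvB
  linear_combination this

theorem Lam_liftA (z : XP h₁ h₂) (t : ℝ) :
    h₁.Lam (h₁.lift z.1.1 (lvA h₁ h₂ z t)) = lvA h₁ h₂ z t := by
  rw [h₁.Lam_lift _ _ (lvA_nonneg h₁ h₂ z t), max_eq_right (lvA_ge h₁ h₂ z t)]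

theorem Lam_liftB (z : XP h₁ h₂) (t : ℝ) :
    h₂.Lam (h₂.lift z.1.2.1 (lvB h₁ h₂ z t)) = lvB h₁ h₂ z t := by
  rw [h₂.Lam_lift _ _ (lvB_nonneg h₁ h₂ z t), max_eq_right (lvB_ge h₁ h₂ z t)]

/-- the lifted point -/
noncomputable def GG (z : XP h₁ h₂) (t : ℝ) : XP h₁ h₂ :=
  ⟨(h₁.lift z.1.1 (lvA h₁ h₂ z t), h₂.lift z.1.2.1 (lvB h₁ h₂ z t), z.1.2.2), z.2.1, z.2.2.1, by
    show z.1.2.2 * h₁.Lam (h₁.lift z.1.1 (lvA h₁ h₂ z t)) =
      (1 - z.1.2.2) * h₂.Lam (h₂.lift z.1.2.1 (lvB h₁ h₂ z t))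
    rw [Lam_liftA, Lam_liftB, lv_rel]⟩

theorem continuous_liftA :
    Continuous (fun x : XP h₁ h₂ × ℝ => h₁.lift x.1.1.1 (lvA h₁ h₂ x.1 x.2)) := by
  rw [← continuousOn_univ]
  have h := h₁.lift_cont.comp (s := univ)
    (f := fun x : XP h₁ h₂ × ℝ => ((x.1.1.1, lvA h₁ h₂ x.1 x.2) : D₁ × ℝ)) ?_ ?_
  · exact h
  · have := continuous_lvA h₁ h₂
    exact Continuous.continuousOn (by fun_prop)
  · intro x _
    exact ⟨mem_univ _, lvA_nonneg h₁ h₂ x.1 x.2⟩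

theorem continuous_liftB :
    Continuous (fun x : XP h₁ h₂ × ℝ => h₂.lift x.1.1.2.1 (lvB h₁ h₂ x.1 x.2)) := by
  rw [← continuousOn_univ]
  have h := h₂.lift_cont.comp (s := univ)
    (f := fun x : XP h₁ h₂ × ℝ => ((x.1.1.2.1, lvB h₁ h₂ x.1 x.2) : D₂ × ℝ)) ?_ ?_
  · exact h
  · have := continuous_lvB h₁ h₂
    exact Continuous.continuousOn (by fun_prop)
  · intro x _
    exact ⟨mem_univ _, lvB_nonneg h₁ h₂ x.1 x.2⟩

theorem continuous_GG : Continuous (fun x : XP h₁ h₂ × ℝ => GG h₁ h₂ x.1 x.2) := by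
  have a := continuous_liftA h₁ h₂
  have b := continuous_liftB h₁ h₂
  refine Continuous.subtype_mk ?_ _
  exact a.prodMk (b.prodMk (by fun_prop))

theorem GG_of_nonpos (z : XP h₁ h₂) (t : ℝ) (ht : t ≤ 0) : GG h₁ h₂ z t = z := by
  apply Subtype.ext
  have hA : lvA h₁ h₂ z t = h₁.Lam z.1.1 := by unfold lvA; rw [max_eq_right ht]; ring
  have hB : lvB h₁ h₂ z t = h₂.Lam z.1.2.1 := by unfold lvB; rw [max_eq_right ht]; ring
  show (h₁.lift z.1.1 (lvA h₁ h₂ z t), h₂.lift z.1.2.1 (lvB h₁ h₂ z t), z.1.2.2) = z.1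
  rw [hA, hB, h₁.lift_of_le _ _ (h₁.Lam_nonneg _) le_rfl,
    h₂.lift_of_le _ _ (h₂.Lam_nonneg _) le_rfl]

theorem mkP_lift (z : XP h₁ h₂) (t : ℝ) (ht : 0 < t) :
    mkP h₁ h₂ (h₁.lift z.1.1 (lvA h₁ h₂ z t)) (h₂.lift z.1.2.1 (lvB h₁ h₂ z t)) =
      ((GG h₁ h₂ z t : XP h₁ h₂) : OnePoint (XP h₁ h₂)) := by
  have hA := lvA_pos h₁ h₂ z t ht
  have hB := lvB_pos h₁ h₂ z t ht
  rw [mkP_eq h₁ h₂ _ _ (by rw [Lam_liftA]; exact hA) (by rw [Lam_liftB]; exact hB)]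
  unfold jO
  rw [OnePoint.coe_eq_coe]
  apply Subtype.ext
  show (h₁.lift z.1.1 (lvA h₁ h₂ z t), h₂.lift z.1.2.1 (lvB h₁ h₂ z t),
    h₂.Lam (h₂.lift z.1.2.1 (lvB h₁ h₂ z t)) / (h₁.Lam (h₁.lift z.1.1 (lvA h₁ h₂ z t)) +
      h₂.Lam (h₂.lift z.1.2.1 (lvB h₁ h₂ z t)))) = (h₁.lift z.1.1 (lvA h₁ h₂ z t),
      h₂.lift z.1.2.1 (lvB h₁ h₂ z t), z.1.2.2)
  rw [Lam_liftA, Lam_liftB]
  have : lvB h₁ h₂ z t / (lvA h₁ h₂ z t + lvB h₁ h₂ z t) = z.1.2.2 := by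
    have := lv_rel h₁ h₂ z t
    rw [div_eq_iff (by positivity)]
    linear_combination -this
  rw [this]


theorem ka_big {D : Type} [TopologicalSpace D] (h : Horo D) (p : D) (a : ℝ) (ha : 0 ≤ a) :
    a - 1 ≤ h.ka (h.lift p a) := by
  have h1 := h.Lam_le (h.lift p a)
  rw [h.Lam_lift p a ha] at h1
  have := le_max_right (h.Lam p) a
  linarith

theorem top_eq {D : Type} [TopologicalSpace D] (h : Horo D) (M : ℝ) (hM : 1 ≤ M) (p0 : D) :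
    h.top M = h.cut (h.lift p0 (M + 2)) M :=
  (h.cut_top _ M hM (by have := ka_big h p0 (M + 2) (by linarith); linarith)).symm

theorem Lam_top_pos {D : Type} [TopologicalSpace D] [Nonempty D] (h : Horo D) (M : ℝ)
    (hM : 1 ≤ M) : 0 < h.Lam (h.top M) := by
  obtain ⟨p0⟩ := ‹Nonempty D›
  rw [top_eq h M hM p0]
  apply h.Lam_cut_pos _ _ hM
  rw [h.Lam_lift _ _ (by linarith)]
  exact lt_max_of_lt_right (by linarith)

theorem ka_top {D : Type} [TopologicalSpace D] [Nonempty D] (h : Horo D) (M : ℝ)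
    (hM : 1 ≤ M) : M - 1 ≤ h.ka (h.top M) := by
  obtain ⟨p0⟩ := ‹Nonempty D›
  rw [top_eq h M hM p0]
  refine le_trans ?_ (h.le_ka_cut _ M hM)
  refine le_min ?_ le_rfl
  have := ka_big h p0 (M + 2) (by linarith)
  linarith

theorem continuousAt_top {D : Type} [TopologicalSpace D] [Nonempty D] (h : Horo D) (M : ℝ)
    (hM : 1 < M) : ContinuousAt h.top M := by
  obtain ⟨p0⟩ := ‹Nonempty D›
  have hp : M + 2 ≤ h.ka (h.lift p0 (M + 3)) := by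
    have := ka_big h p0 (M + 3) (by linarith)
    linarith
  have e : ∀ᶠ y in 𝓝 M, h.top y = h.cut (h.lift p0 (M + 3)) y := by
    filter_upwards [Ioo_mem_nhds hM (lt_add_one M)] with y hy
    exact (h.cut_top _ y hy.1.le (by linarith [hy.2])).symm
  have c : ContinuousAt (fun y => h.cut (h.lift p0 (M + 3)) y) M := by
    have h0 := h.cut_cont.continuousAt (x := (h.lift p0 (M + 3), M))
      (prod_mem_nhds Filter.univ_mem (Ici_mem_nhds hM))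
    exact ContinuousAt.comp (f := fun y : ℝ => (h.lift p0 (M + 3), y)) (x := M) h0 (by fun_prop)
  exact c.congr (e.mono fun y hy => hy.symm)

theorem nhds_infty_NN (C : ℝ) :
    {x : OnePoint (XP h₁ h₂) | ∀ z : XP h₁ h₂, x = (z : OnePoint (XP h₁ h₂)) →
      C < NN h₁ h₂ z} ∈ 𝓝 (OnePoint.infty : OnePoint (XP h₁ h₂)) := by
  have hK := NN_proper h₁ h₂ C
  have ho : IsOpen ((fun z : XP h₁ h₂ => (z : OnePoint (XP h₁ h₂))) '' {z | NN h₁ h₂ z ≤ C})ᶜ :=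
    OnePoint.isOpen_compl_image_coe.2 ⟨hK.isClosed, hK⟩
  refine Filter.mem_of_superset (ho.mem_nhds OnePoint.infty_notMem_image_coe) ?_
  intro x hx z hz
  by_contra hc
  exact hx ⟨z, not_lt.1 hc, hz.symm⟩

theorem mem_nhds_infty_NN (U : Set (OnePoint (XP h₁ h₂)))
    (hU : U ∈ 𝓝 (OnePoint.infty : OnePoint (XP h₁ h₂))) :
    ∃ C : ℝ, ∀ z : XP h₁ h₂, C < NN h₁ h₂ z → (z : OnePoint (XP h₁ h₂)) ∈ U := by
  obtain ⟨V, hVU, hVo, hV⟩ := mem_nhds_iff.1 hU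
  have h := (OnePoint.isOpen_iff_of_mem' hV).1 hVo
  obtain ⟨C, hC⟩ := (h.1.image (continuous_NN h₁ h₂)).bddAbove
  refine ⟨C, fun z hz => hVU ?_⟩
  by_contra hc
  exact absurd (hC ⟨z, hc, rfl⟩) (not_le.2 hz)

/-- the homotopy -/
noncomputable def HH (x : OnePoint (XP h₁ h₂)) (t : ℝ) : OnePoint (XP h₁ h₂) :=
  if 0 < t then
    OnePoint.elim x (mkP h₁ h₂ (h₁.top (1 + 1 / t)) (h₂.top (1 + 1 / t)))
      (fun z => mkP h₁ h₂ (h₁.cut (h₁.lift z.1.1 (lvA h₁ h₂ z t)) (1 + 1 / t))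
        (h₂.cut (h₂.lift z.1.2.1 (lvB h₁ h₂ z t)) (1 + 1 / t)))
  else x

theorem HH_nonpos (x : OnePoint (XP h₁ h₂)) (t : ℝ) (ht : t ≤ 0) : HH h₁ h₂ x t = x := by
  rw [HH, if_neg (not_lt.2 ht)]

theorem HH_infty (t : ℝ) (ht : 0 < t) : HH h₁ h₂ OnePoint.infty t =
    mkP h₁ h₂ (h₁.top (1 + 1 / t)) (h₂.top (1 + 1 / t)) := by
  rw [HH, if_pos ht]; rfl

theorem HH_coe (z : XP h₁ h₂) (t : ℝ) (ht : 0 < t) : HH h₁ h₂ (z : OnePoint (XP h₁ h₂)) t =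
    mkP h₁ h₂ (h₁.cut (h₁.lift z.1.1 (lvA h₁ h₂ z t)) (1 + 1 / t))
        (h₂.cut (h₂.lift z.1.2.1 (lvB h₁ h₂ z t)) (1 + 1 / t)) := by
  rw [HH, if_pos ht]; rfl

theorem one_le_M (t : ℝ) (ht : 0 < t) : 1 < 1 + 1 / t := by
  have : 0 < 1 / t := by positivity
  linarith

theorem HH_coe_of_small (z : XP h₁ h₂) (t : ℝ) (ht : 0 < t)
    (h1 : h₁.ka (h₁.lift z.1.1 (lvA h₁ h₂ z t)) ≤ 1 / t)
    (h2 : h₂.ka (h₂.lift z.1.2.1 (lvB h₁ h₂ z t)) ≤ 1 / t) :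
    HH h₁ h₂ (z : OnePoint (XP h₁ h₂)) t = ((GG h₁ h₂ z t : XP h₁ h₂) : OnePoint (XP h₁ h₂)) := by
  have hM := one_le_M t ht
  rw [HH_coe h₁ h₂ z t ht, h₁.cut_eq _ _ hM.le (by linarith), h₂.cut_eq _ _ hM.le (by linarith),
    mkP_lift h₁ h₂ z t ht]

theorem cutA_pos (z : XP h₁ h₂) (t : ℝ) (ht : 0 < t) :
    0 < h₁.Lam (h₁.cut (h₁.lift z.1.1 (lvA h₁ h₂ z t)) (1 + 1 / t)) := by
  apply h₁.Lam_cut_pos _ _ (one_le_M t ht).le
  rw [Lam_liftA]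
  exact lvA_pos h₁ h₂ z t ht

theorem cutB_pos (z : XP h₁ h₂) (t : ℝ) (ht : 0 < t) :
    0 < h₂.Lam (h₂.cut (h₂.lift z.1.2.1 (lvB h₁ h₂ z t)) (1 + 1 / t)) := by
  apply h₂.Lam_cut_pos _ _ (one_le_M t ht).le
  rw [Lam_liftB]
  exact lvB_pos h₁ h₂ z t ht

theorem cont1 (z0 : XP h₁ h₂) (t0 : ℝ) (ht : 0 < t0) :
    ContinuousAt (Function.uncurry (HH h₁ h₂)) ((z0 : OnePoint (XP h₁ h₂)), t0) := by
  have e := (OnePoint.isOpenEmbedding_coe (X := XP h₁ h₂)).prodMap (IsOpenEmbedding.id (X := ℝ))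
  refine (e.continuousAt_iff (g := Function.uncurry (HH h₁ h₂)) (x := (z0, t0))).1 ?_
  have M1 := one_le_M t0 ht
  have cM : ContinuousAt (fun x : XP h₁ h₂ × ℝ => 1 + 1 / x.2) (z0, t0) :=
    continuousAt_const.add (continuousAt_const.div continuous_snd.continuousAt ht.ne')
  have ca : ContinuousAt (fun x : XP h₁ h₂ × ℝ =>
      h₁.cut (h₁.lift x.1.1.1 (lvA h₁ h₂ x.1 x.2)) (1 + 1 / x.2)) (z0, t0) := by
    have h0 := h₁.cut_cont.continuousAt (x := (h₁.lift z0.1.1 (lvA h₁ h₂ z0 t0), 1 + 1 / t0))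
      (prod_mem_nhds Filter.univ_mem (Ici_mem_nhds M1))
    exact ContinuousAt.comp (f := fun x : XP h₁ h₂ × ℝ =>
      (h₁.lift x.1.1.1 (lvA h₁ h₂ x.1 x.2), 1 + 1 / x.2)) (x := (z0, t0)) h0
      ((continuous_liftA h₁ h₂).continuousAt.prodMk cM)
  have cb : ContinuousAt (fun x : XP h₁ h₂ × ℝ =>
      h₂.cut (h₂.lift x.1.1.2.1 (lvB h₁ h₂ x.1 x.2)) (1 + 1 / x.2)) (z0, t0) := by
    have h0 := h₂.cut_cont.continuousAt (x := (h₂.lift z0.1.2.1 (lvB h₁ h₂ z0 t0), 1 + 1 / t0))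
      (prod_mem_nhds Filter.univ_mem (Ici_mem_nhds M1))
    exact ContinuousAt.comp (f := fun x : XP h₁ h₂ × ℝ =>
      (h₂.lift x.1.1.2.1 (lvB h₁ h₂ x.1 x.2), 1 + 1 / x.2)) (x := (z0, t0)) h0
      ((continuous_liftB h₁ h₂).continuousAt.prodMk cM)
  have c := ContinuousAt.comp (f := fun x : XP h₁ h₂ × ℝ =>
      (h₁.cut (h₁.lift x.1.1.1 (lvA h₁ h₂ x.1 x.2)) (1 + 1 / x.2),
        h₂.cut (h₂.lift x.1.1.2.1 (lvB h₁ h₂ x.1 x.2)) (1 + 1 / x.2))) (x := (z0, t0))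
      (continuousAt_mkP h₁ h₂ _ _ (cutA_pos h₁ h₂ z0 t0 ht) (cutB_pos h₁ h₂ z0 t0 ht))
      (ca.prodMk cb)
  refine c.congr ?_
  filter_upwards [(isOpen_lt continuous_const continuous_snd).mem_nhds (show (0 : ℝ) < (z0, t0).2
    from ht)] with x hx
  exact (HH_coe h₁ h₂ x.1 x.2 hx).symm

theorem cont2 [Nonempty D₁] [Nonempty D₂] (t0 : ℝ) (ht : 0 < t0) :
    ContinuousAt (Function.uncurry (HH h₁ h₂)) ((OnePoint.infty : OnePoint (XP h₁ h₂)), t0) := by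
  have M1 := one_le_M t0 ht
  have cM : ContinuousAt (fun x : OnePoint (XP h₁ h₂) × ℝ => 1 + 1 / x.2)
      (OnePoint.infty, t0) :=
    continuousAt_const.add (continuousAt_const.div continuous_snd.continuousAt ht.ne')
  have c := ContinuousAt.comp (f := fun x : OnePoint (XP h₁ h₂) × ℝ =>
      (h₁.top (1 + 1 / x.2), h₂.top (1 + 1 / x.2))) (x := (OnePoint.infty, t0))
      (continuousAt_mkP h₁ h₂ _ _ (Lam_top_pos h₁ _ M1.le) (Lam_top_pos h₂ _ M1.le))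
      ((ContinuousAt.comp (x := (OnePoint.infty, t0)) (f := fun x : OnePoint (XP h₁ h₂) × ℝ =>
        1 + 1 / x.2) (continuousAt_top h₁ _ M1) cM).prodMk
       (ContinuousAt.comp (x := (OnePoint.infty, t0)) (f := fun x : OnePoint (XP h₁ h₂) × ℝ =>
        1 + 1 / x.2) (continuousAt_top h₂ _ M1) cM))
  refine c.congr ?_
  have hn := prod_mem_nhds (nhds_infty_NN h₁ h₂ ((1 + 1 / (t0 / 2) + 1) / (t0 / 2)))
    (Ioi_mem_nhds (show t0 / 2 < t0 by linarith))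
  filter_upwards [hn] with x hx
  obtain ⟨x, t⟩ := x
  obtain ⟨hx1, hx2⟩ := hx
  have hx2' : t0 / 2 < t := hx2
  have ht' : 0 < t := by linarith
  show mkP h₁ h₂ (h₁.top (1 + 1 / t)) (h₂.top (1 + 1 / t)) = HH h₁ h₂ x t
  induction x using OnePoint.rec with
  | infty => rw [HH_infty h₁ h₂ t ht']
  | coe z =>
    have hz : (1 + 1 / (t0 / 2) + 1) / (t0 / 2) < NN h₁ h₂ z := hx1 z rfl
    have h3 : 1 + 1 / (t0 / 2) + 1 ≤ t * NN h₁ h₂ z := by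
      have h4 : 1 + 1 / (t0 / 2) + 1 < NN h₁ h₂ z * (t0 / 2) := (div_lt_iff₀ (by linarith)).1 hz
      have h5 : 0 ≤ NN h₁ h₂ z := le_of_lt (lt_trans (by positivity) hz)
      nlinarith [mul_le_mul_of_nonneg_left hx2'.le h5]
    have h6 : 1 / t ≤ 1 / (t0 / 2) := one_div_le_one_div_of_le (by linarith) hx2'.le
    have h7 := lvA_NN h₁ h₂ z t ht'
    have h8 := lvB_NN h₁ h₂ z t ht'
    have h9 := ka_big h₁ z.1.1 _ (lvA_nonneg h₁ h₂ z t)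
    have h10 := ka_big h₂ z.1.2.1 _ (lvB_nonneg h₁ h₂ z t)
    have hM := one_le_M t ht'
    rw [HH_coe h₁ h₂ z t ht', h₁.cut_top _ _ hM.le (by linarith),
      h₂.cut_top _ _ hM.le (by linarith)]

theorem cont3 (z0 : XP h₁ h₂) (t0 : ℝ) (ht : t0 ≤ 0) :
    ContinuousAt (Function.uncurry (HH h₁ h₂)) ((z0 : OnePoint (XP h₁ h₂)), t0) := by
  have e := (OnePoint.isOpenEmbedding_coe (X := XP h₁ h₂)).prodMap (IsOpenEmbedding.id (X := ℝ))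
  refine (e.continuousAt_iff (g := Function.uncurry (HH h₁ h₂)) (x := (z0, t0))).1 ?_
  have c : ContinuousAt (fun x : XP h₁ h₂ × ℝ =>
      ((GG h₁ h₂ x.1 x.2 : XP h₁ h₂) : OnePoint (XP h₁ h₂))) (z0, t0) :=
    (OnePoint.continuous_coe.comp (continuous_GG h₁ h₂)).continuousAt
  refine c.congr ?_
  have k1 : Continuous (fun x : XP h₁ h₂ × ℝ => h₁.ka (h₁.lift x.1.1.1 (lvA h₁ h₂ x.1 x.2))) :=
    h₁.ka_cont.comp (continuous_liftA h₁ h₂)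
  have k2 : Continuous (fun x : XP h₁ h₂ × ℝ => h₂.ka (h₂.lift x.1.1.2.1 (lvB h₁ h₂ x.1 x.2))) :=
    h₂.ka_cont.comp (continuous_liftB h₁ h₂)
  set K : ℝ := max (h₁.ka (h₁.lift z0.1.1 (lvA h₁ h₂ z0 t0)))
    (h₂.ka (h₂.lift z0.1.2.1 (lvB h₁ h₂ z0 t0))) + 1 with hK
  have hK0 : 0 < K := by
    have := h₁.ka_nonneg (h₁.lift z0.1.1 (lvA h₁ h₂ z0 t0))
    have := le_max_left (h₁.ka (h₁.lift z0.1.1 (lvA h₁ h₂ z0 t0)))
      (h₂.ka (h₂.lift z0.1.2.1 (lvB h₁ h₂ z0 t0)))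
    linarith
  have n1 : ∀ᶠ x in 𝓝 (z0, t0), h₁.ka (h₁.lift x.1.1.1 (lvA h₁ h₂ x.1 x.2)) < K :=
    k1.continuousAt.eventually_lt continuousAt_const (by
      have := le_max_left (h₁.ka (h₁.lift z0.1.1 (lvA h₁ h₂ z0 t0)))
        (h₂.ka (h₂.lift z0.1.2.1 (lvB h₁ h₂ z0 t0)))
      linarith)
  have n2 : ∀ᶠ x in 𝓝 (z0, t0), h₂.ka (h₂.lift x.1.1.2.1 (lvB h₁ h₂ x.1 x.2)) < K :=
    k2.continuousAt.eventually_lt continuousAt_const (by
      have := le_max_right (h₁.ka (h₁.lift z0.1.1 (lvA h₁ h₂ z0 t0)))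
        (h₂.ka (h₂.lift z0.1.2.1 (lvB h₁ h₂ z0 t0)))
      linarith)
  have n3 : ∀ᶠ x in 𝓝 (z0, t0), x.2 < 1 / K :=
    continuous_snd.continuousAt.eventually_lt continuousAt_const (by
      have : 0 < 1 / K := by positivity
      exact lt_of_le_of_lt ht this)
  filter_upwards [n1, n2, n3] with x hx1 hx2 hx3
  obtain ⟨z, t⟩ := x
  show ((GG h₁ h₂ z t : XP h₁ h₂) : OnePoint (XP h₁ h₂)) = HH h₁ h₂ (z : OnePoint (XP h₁ h₂)) t
  rcases le_or_gt t 0 with h | h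
  · rw [HH_nonpos h₁ h₂ _ t h, GG_of_nonpos h₁ h₂ z t h]
  · have hx3' : t < 1 / K := hx3
    have h4 : K ≤ 1 / t := by
      rw [le_div_iff₀ h]
      rw [lt_div_iff₀ hK0] at hx3'
      linarith
    rw [HH_coe_of_small h₁ h₂ z t h (le_trans (le_of_lt hx1) h4) (le_trans (le_of_lt hx2) h4)]

theorem NN_GG (z : XP h₁ h₂) (t : ℝ) : NN h₁ h₂ z ≤ NN h₁ h₂ (GG h₁ h₂ z t) := by
  unfold NN
  exact max_le_max (max_le_max (h₁.ka_lift _ _ (lvA_nonneg h₁ h₂ z t))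
    (h₂.ka_lift _ _ (lvB_nonneg h₁ h₂ z t))) le_rfl

theorem mkP_NN1 (p : D₁) (q : D₂) (hp : 0 < h₁.Lam p) (hq : 0 < h₂.Lam q) :
    ∃ w : XP h₁ h₂, mkP h₁ h₂ p q = (w : OnePoint (XP h₁ h₂)) ∧ h₁.ka p ≤ NN h₁ h₂ w ∧
      h₂.ka q ≤ NN h₁ h₂ w := by
  refine ⟨jP h₁ h₂ (⟨p, hp⟩, ⟨q, hq⟩), mkP_eq h₁ h₂ p q hp hq, ?_, ?_⟩
  · exact le_max_of_le_left (le_max_left _ _)
  · exact le_max_of_le_left (le_max_right _ _)

theorem cont4 [Nonempty D₁] [Nonempty D₂] (t0 : ℝ) (ht : t0 ≤ 0) :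
    ContinuousAt (Function.uncurry (HH h₁ h₂)) ((OnePoint.infty : OnePoint (XP h₁ h₂)), t0) := by
  show Filter.Tendsto _ _ (𝓝 (HH h₁ h₂ OnePoint.infty t0))
  rw [HH_nonpos h₁ h₂ _ t0 ht]
  intro U hU
  obtain ⟨C, hC⟩ := mem_nhds_infty_NN h₁ h₂ U hU
  have hinf : OnePoint.infty ∈ U := mem_of_mem_nhds hU
  have hC1 : 0 < max C 1 := lt_max_of_lt_right one_pos
  have hn := prod_mem_nhds (nhds_infty_NN h₁ h₂ (max C 1))
    (Iio_mem_nhds (show t0 < 1 / max C 1 from lt_of_le_of_lt ht (by positivity)))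
  refine Filter.mem_map.2 (Filter.mem_of_superset hn ?_)
  rintro ⟨x, t⟩ ⟨hx, hxt⟩
  have hxt' : t < 1 / max C 1 := hxt
  show HH h₁ h₂ x t ∈ U
  rcases le_or_gt t 0 with h | h
  · rw [HH_nonpos h₁ h₂ _ t h]
    induction x using OnePoint.rec with
    | infty => exact hinf
    | coe z =>
      apply hC
      exact lt_of_le_of_lt (le_max_left _ _) (hx z rfl)
  · have h4 : C < 1 / t := by
      rw [lt_div_iff₀ hC1] at hxt'
      rw [lt_div_iff₀ h]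
      nlinarith [mul_le_mul_of_nonneg_left (le_max_left C 1) h.le]
    have hM := one_le_M t h
    induction x using OnePoint.rec with
    | infty =>
      rw [HH_infty h₁ h₂ t h]
      obtain ⟨w, hw, hw1, hw2⟩ := mkP_NN1 h₁ h₂ _ _ (Lam_top_pos h₁ _ hM.le)
        (Lam_top_pos h₂ _ hM.le)
      rw [hw]
      apply hC
      have := ka_top h₁ _ hM.le
      linarith
    | coe z =>
      by_cases h5 : h₁.ka (h₁.lift z.1.1 (lvA h₁ h₂ z t)) ≤ 1 / t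
      · by_cases h6 : h₂.ka (h₂.lift z.1.2.1 (lvB h₁ h₂ z t)) ≤ 1 / t
        · rw [HH_coe_of_small h₁ h₂ z t h h5 h6]
          apply hC
          refine lt_of_lt_of_le ?_ (NN_GG h₁ h₂ z t)
          exact lt_of_le_of_lt (le_max_left _ _) (hx z rfl)
        · rw [HH_coe h₁ h₂ z t h]
          obtain ⟨w, hw, hw1, hw2⟩ := mkP_NN1 h₁ h₂ _ _ (cutA_pos h₁ h₂ z t h)
            (cutB_pos h₁ h₂ z t h)
          rw [hw]
          apply hC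
          have h7 := h₂.le_ka_cut (h₂.lift z.1.2.1 (lvB h₁ h₂ z t)) (1 + 1 / t) hM.le
          rw [min_eq_right (by linarith [not_le.1 h6])] at h7
          linarith
      · rw [HH_coe h₁ h₂ z t h]
        obtain ⟨w, hw, hw1, hw2⟩ := mkP_NN1 h₁ h₂ _ _ (cutA_pos h₁ h₂ z t h)
          (cutB_pos h₁ h₂ z t h)
        rw [hw]
        apply hC
        have h7 := h₁.le_ka_cut (h₁.lift z.1.1 (lvA h₁ h₂ z t)) (1 + 1 / t) hM.le
        rw [min_eq_right (by linarith [not_le.1 h5])] at h7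
        linarith

theorem HH_continuous [Nonempty D₁] [Nonempty D₂] :
    Continuous (Function.uncurry (HH h₁ h₂)) := by
  rw [continuous_iff_continuousAt]
  rintro ⟨x, t⟩
  induction x using OnePoint.rec with
  | infty =>
    rcases le_or_gt t 0 with h | h
    · exact cont4 h₁ h₂ t h
    · exact cont2 h₁ h₂ t h
  | coe z =>
    rcases le_or_gt t 0 with h | h
    · exact cont3 h₁ h₂ z t h
    · exact cont1 h₁ h₂ z t h

end push



/-- the push-off homotopy -/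
theorem horo_push {D₁ D₂ : Type} [TopologicalSpace D₁] [TopologicalSpace D₂] [T2Space D₁]
    [T2Space D₂] [Nonempty D₁] [Nonempty D₂] (h₁ : Horo D₁) (h₂ : Horo D₂) :
    ∃ H : OnePoint (XP h₁ h₂) → ℝ → OnePoint (XP h₁ h₂),
      ContinuousOn (Function.uncurry H) (univ ×ˢ Icc (0:ℝ) 1) ∧ (∀ x, H x 0 = x) ∧
      ∀ x t, 0 < t → t ≤ 1 → H x t ∈ range (jO h₁ h₂) := by
  refine ⟨HH h₁ h₂, (HH_continuous h₁ h₂).continuousOn, fun x => HH_nonpos h₁ h₂ x 0 le_rfl, ?_⟩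
  intro x t ht _
  have hM := one_le_M t ht
  induction x using OnePoint.rec with
  | infty =>
    rw [HH_infty h₁ h₂ t ht, mkP_eq h₁ h₂ _ _ (Lam_top_pos h₁ _ hM.le) (Lam_top_pos h₂ _ hM.le)]
    exact mem_range_self _
  | coe z =>
    rw [HH_coe h₁ h₂ z t ht, mkP_eq h₁ h₂ _ _ (cutA_pos h₁ h₂ z t ht) (cutB_pos h₁ h₂ z t ht)]
    exact mem_range_self _

end Pool.Agent.Helper376.CL
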