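import Mathlib
import Pool.Agent.Helper376.CL.HoroDefs
import Pool.Agent.Helper376.CL.HoroA1

set_option maxHeartbeats 4000000
set_option synthInstance.maxHeartbeats 400000

namespace Pool.Agent.Helper376.CL

open Set Topology

/-- the bounded reparametrisation of a normed space -/
noncomputable def bd {E : Type} [NormedAddCommGroup E] [NormedSpace ℝ E] (v : E) : E :=
  (1 / (1 + ‖v‖)) • v

theorem continuous_bd {E : Type} [NormedAddCommGroup E] [NormedSpace ℝ E] :
    Continuous (bd : E → E) := by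
  unfold bd
  refine Continuous.smul (continuous_const.div (continuous_const.add continuous_norm) ?_) continuous_id
  intro v
  have := norm_nonneg v
  positivity

theorem norm_bd {E : Type} [NormedAddCommGroup E] [NormedSpace ℝ E] (v : E) :
    ‖bd v‖ = ‖v‖ / (1 + ‖v‖) := by
  unfold bd
  have := norm_nonneg v
  rw [norm_smul, Real.norm_eq_abs, abs_of_pos (by positivity)]
  ring

theorem norm_bd_le {E : Type} [NormedAddCommGroup E] [NormedSpace ℝ E] (v : E) : ‖bd v‖ ≤ 1 := by
  rw [norm_bd, div_le_one (by have := norm_nonneg v; positivity)]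
  linarith

theorem bd_inj {E : Type} [NormedAddCommGroup E] [NormedSpace ℝ E] :
    Function.Injective (bd : E → E) := by
  intro v w h
  have hv := norm_nonneg v
  have hw := norm_nonneg w
  have h1 : ‖v‖ / (1 + ‖v‖) = ‖w‖ / (1 + ‖w‖) := by rw [← norm_bd, ← norm_bd, h]
  rw [div_eq_div_iff (by positivity) (by positivity)] at h1
  have h2 : ‖v‖ = ‖w‖ := by linarith
  unfold bd at h
  rw [h2] at h
  have h3 : (1 / (1 + ‖w‖)) ≠ 0 := by positivity
  exact smul_right_injective E h3 h

/-- the embedding into a finite-dimensional space -/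
theorem horo_embed {D₁ D₂ : Type} [TopologicalSpace D₁] [TopologicalSpace D₂] [T2Space D₁]
    [T2Space D₂] (h₁ : Horo D₁) (h₂ : Horo D₂)
    {E₁ E₂ : Type} [NormedAddCommGroup E₁] [NormedSpace ℝ E₁] [NormedAddCommGroup E₂]
    [NormedSpace ℝ E₂] (e₁ : D₁ → E₁) (he₁ : Continuous e₁) (hi₁ : Function.Injective e₁)
    (e₂ : D₂ → E₂) (he₂ : Continuous e₂) (hi₂ : Function.Injective e₂) :
    ∃ Φ : OnePoint (XP h₁ h₂) → E₁ × E₂ × ℝ × ℝ, Continuous Φ ∧ Function.Injective Φ := by
  set φ : XP h₁ h₂ → ℝ := fun z => 1 / (1 + NN h₁ h₂ z) with hφ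
  have hN : ∀ z : XP h₁ h₂, 0 < NN h₁ h₂ z := by
    intro z
    have h1 : 1 / z.1.2.2 ≤ NN h₁ h₂ z := by
      unfold NN
      exact (le_max_left _ _).trans (le_max_right _ _)
    have h2 : 0 < 1 / z.1.2.2 := by have := z.2.1; positivity
    linarith
  have hφ0 : ∀ z, 0 < φ z := fun z => by have := hN z; rw [hφ]; positivity
  have hφc : Continuous φ := by
    refine continuous_const.div (continuous_const.add (continuous_NN h₁ h₂)) fun z => ?_
    have := hN z
    positivity
  have hφt : Filter.Tendsto φ (Filter.coclosedCompact (XP h₁ h₂)) (𝓝 0) := by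
    rw [Metric.tendsto_nhds]
    intro ε hε
    have hc := NN_proper h₁ h₂ (1 / ε)
    have hmem : {z | NN h₁ h₂ z ≤ 1 / ε}ᶜ ∈ Filter.coclosedCompact (XP h₁ h₂) :=
      Filter.hasBasis_coclosedCompact.mem_of_mem ⟨hc.isClosed, hc⟩
    filter_upwards [hmem] with z hz
    have hz' : 1 / ε < NN h₁ h₂ z := by
      simpa using hz
    have hp := hN z
    rw [Real.dist_eq, sub_zero, abs_of_pos (hφ0 z), hφ]
    simp only
    rw [div_lt_iff₀ (by positivity)]
    have : 1 < NN h₁ h₂ z * ε := (div_lt_iff₀ hε).1 hz'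
    nlinarith
  let f : XP h₁ h₂ → E₁ × E₂ × ℝ × ℝ := fun z =>
    (φ z • bd (e₁ z.1.1), φ z • bd (e₂ z.1.2.1), φ z * z.1.2.2, φ z)
  have hfc : Continuous f := by
    have c1 : Continuous fun z : XP h₁ h₂ => z.1.1 := continuous_fst.comp continuous_subtype_val
    have c2 : Continuous fun z : XP h₁ h₂ => z.1.2.1 :=
      (continuous_fst.comp continuous_snd).comp continuous_subtype_val
    have c3 : Continuous fun z : XP h₁ h₂ => z.1.2.2 :=
      (continuous_snd.comp continuous_snd).comp continuous_subtype_val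
    exact (hφc.smul (continuous_bd.comp (he₁.comp c1))).prodMk
      ((hφc.smul (continuous_bd.comp (he₂.comp c2))).prodMk ((hφc.mul c3).prodMk hφc))
  have hft : Filter.Tendsto f (Filter.coclosedCompact (XP h₁ h₂)) (𝓝 0) := by
    have t1 : Filter.Tendsto (fun z : XP h₁ h₂ => φ z • bd (e₁ z.1.1))
        (Filter.coclosedCompact (XP h₁ h₂)) (𝓝 0) := by
      refine squeeze_zero_norm (fun z => ?_) hφt
      rw [norm_smul, Real.norm_eq_abs, abs_of_pos (hφ0 z)]
      exact mul_le_of_le_one_right (hφ0 z).le (norm_bd_le _)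
    have t2 : Filter.Tendsto (fun z : XP h₁ h₂ => φ z • bd (e₂ z.1.2.1))
        (Filter.coclosedCompact (XP h₁ h₂)) (𝓝 0) := by
      refine squeeze_zero_norm (fun z => ?_) hφt
      rw [norm_smul, Real.norm_eq_abs, abs_of_pos (hφ0 z)]
      exact mul_le_of_le_one_right (hφ0 z).le (norm_bd_le _)
    have t3 : Filter.Tendsto (fun z : XP h₁ h₂ => φ z * z.1.2.2)
        (Filter.coclosedCompact (XP h₁ h₂)) (𝓝 0) := by
      refine squeeze_zero_norm (fun z => ?_) hφt
      rw [Real.norm_eq_abs, abs_of_pos (mul_pos (hφ0 z) z.2.1)]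
      exact mul_le_of_le_one_right (hφ0 z).le z.2.2.1.le
    exact t1.prodMk_nhds (t2.prodMk_nhds (t3.prodMk_nhds hφt))
  refine ⟨fun x => OnePoint.elim x 0 f, ?_, ?_⟩
  · rw [OnePoint.continuous_iff]
    exact ⟨hft, hfc⟩
  · have hfinj : Function.Injective f := by
      intro z z' h
      have h4 : φ z = φ z' := congrArg (fun p => p.2.2.2) h
      have h1 : φ z • bd (e₁ z.1.1) = φ z' • bd (e₁ z'.1.1) := congrArg (fun p => p.1) h
      have h2 : φ z • bd (e₂ z.1.2.1) = φ z' • bd (e₂ z'.1.2.1) := congrArg (fun p => p.2.1) h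
      have h3 : φ z * z.1.2.2 = φ z' * z'.1.2.2 := congrArg (fun p => p.2.2.1) h
      rw [h4] at h1 h2 h3
      have hne := (hφ0 z').ne'
      have k1 := hi₁ (bd_inj (smul_right_injective E₁ hne h1))
      have k2 := hi₂ (bd_inj (smul_right_injective E₂ hne h2))
      have k3 := mul_left_cancel₀ hne h3
      exact Subtype.ext (Prod.ext k1 (Prod.ext k2 k3))
    have hf0 : ∀ z, f z ≠ 0 := by
      intro z h
      have : φ z = 0 := congrArg (fun p => p.2.2.2) h
      exact (hφ0 z).ne' this
    intro x y hxy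
    induction x using OnePoint.rec with
    | infty =>
      induction y using OnePoint.rec with
      | infty => rfl
      | coe z => exact absurd (Eq.symm hxy) (hf0 z)
    | coe z =>
      induction y using OnePoint.rec with
      | infty => exact absurd hxy (hf0 z)
      | coe z' => exact congrArg _ (hfinj hxy)

end Pool.Agent.Helper376.CL
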