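import Mathlib
import Pool.Agent.Helper376.CL.HoroDefs
import Pool.Agent.Helper376.CL.HoroA1

set_option maxHeartbeats 4000000
set_option synthInstance.maxHeartbeats 400000

namespace Pool.Agent.Helper376.CL

open Set Topology

section aux
variable {D₁ D₂ : Type} [TopologicalSpace D₁] [TopologicalSpace D₂] [T2Space D₁] [T2Space D₂]
  (h₁ : Horo D₁) (h₂ : Horo D₂)

theorem jP_of_jO {x : ℕ → h₁.P × h₂.P} {z : XP h₁ h₂}
    (h : Filter.Tendsto (fun n => jO h₁ h₂ (x n)) Filter.atTop (𝓝 (z : OnePoint (XP h₁ h₂)))) :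
    Filter.Tendsto (fun n => jP h₁ h₂ (x n)) Filter.atTop (𝓝 z) := by
  have h1 := (OnePoint.isOpenEmbedding_coe (X := XP h₁ h₂)).isInducing
  rw [h1.tendsto_nhds_iff]
  exact h

theorem jO_of_jP {x : ℕ → h₁.P × h₂.P} {z : XP h₁ h₂}
    (h : Filter.Tendsto (fun n => jP h₁ h₂ (x n)) Filter.atTop (𝓝 z)) :
    Filter.Tendsto (fun n => jO h₁ h₂ (x n)) Filter.atTop (𝓝 (z : OnePoint (XP h₁ h₂))) := by
  have h1 := (OnePoint.isOpenEmbedding_coe (X := XP h₁ h₂)).isInducing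
  rw [h1.tendsto_nhds_iff] at h
  exact h

theorem lim_transfer {V₁ V₂ : Type} (c₁ : V₁ → Set h₁.P)
    (c₂ : V₂ → Set h₂.P) (hc₁ : CellFam h₁ V₁ c₁) (hc₂ : CellFam h₂ V₂ c₂)
    (v : ℕ → V₁) (w : ℕ → V₂) (p p' : ℕ → h₁.P) (r r' : ℕ → h₂.P)
    (hp : ∀ n, p n ∈ c₁ (v n)) (hp' : ∀ n, p' n ∈ c₁ (v n))
    (hr : ∀ n, r n ∈ c₂ (w n)) (hr' : ∀ n, r' n ∈ c₂ (w n)) (z : XP h₁ h₂)
    (hz : h₁.Lam z.1.1 = 0)
    (hlim : Filter.Tendsto (fun n => jO h₁ h₂ (p n, r n)) Filter.atTop (𝓝 (z : OnePoint (XP h₁ h₂)))) :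
    Filter.Tendsto (fun n => jO h₁ h₂ (p' n, r' n)) Filter.atTop (𝓝 (z : OnePoint (XP h₁ h₂))) := by
  have h2 : h₂.Lam z.1.2.1 = 0 := by
    have e := z.2.2.2
    rw [hz, mul_zero] at e
    have h3 : 1 - z.1.2.2 ≠ 0 := by
      have := z.2.2.1
      linarith
    rcases mul_eq_zero.1 e.symm with h | h
    · exact absurd h h3
    · exact h
  have h3 := jP_of_jO h₁ h₂ (x := fun n => (p n, r n)) hlim
  have h4 : Filter.Tendsto (fun n => (jP h₁ h₂ (p n, r n)).1) Filter.atTop (𝓝 z.1) :=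
    (continuous_subtype_val.tendsto z).comp h3
  have h5 : Filter.Tendsto (fun n => ((p n : h₁.P) : D₁)) Filter.atTop (𝓝 z.1.1) :=
    (continuous_fst.tendsto z.1).comp h4
  have h6 : Filter.Tendsto (fun n => ((r n : h₂.P) : D₂)) Filter.atTop (𝓝 z.1.2.1) :=
    ((continuous_fst.comp continuous_snd).tendsto z.1).comp h4
  have h7 : Filter.Tendsto (fun n => h₂.Lam (r n) / (h₁.Lam (p n) + h₂.Lam (r n))) Filter.atTop
      (𝓝 z.1.2.2) :=
    ((continuous_snd.comp continuous_snd).tendsto z.1).comp h4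
  obtain ⟨h8, h9⟩ := hc₁.ends v p p' z.1.1 hp hp' hz h5
  obtain ⟨h10, h11⟩ := hc₂.ends w r r' z.1.2.1 hr hr' h2 h6
  have h12 : Filter.Tendsto (fun n => h₂.Lam (r' n) / (h₁.Lam (p' n) + h₂.Lam (r' n))) Filter.atTop
      (𝓝 z.1.2.2) := by
    set α : ℕ → ℝ := fun n => h₁.Lam (p' n) / h₁.Lam (p n) with hα
    set β : ℕ → ℝ := fun n => h₂.Lam (r' n) / h₂.Lam (r n) with hβ
    set s : ℕ → ℝ := fun n => h₂.Lam (r n) / (h₁.Lam (p n) + h₂.Lam (r n)) with hs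
    have e : (fun n => h₂.Lam (r' n) / (h₁.Lam (p' n) + h₂.Lam (r' n))) =
        fun n => β n * s n / (α n * (1 - s n) + β n * s n) := by
      funext n
      have a1 : 0 < h₁.Lam (p n) := (p n).2
      have a2 : 0 < h₂.Lam (r n) := (r n).2
      have a3 : 0 < h₁.Lam (p' n) := (p' n).2
      have a4 : 0 < h₂.Lam (r' n) := (r' n).2
      simp only [hα, hβ, hs]
      have e1 : 1 - h₂.Lam (r n) / (h₁.Lam (p n) + h₂.Lam (r n)) = h₁.Lam (p n) / (h₁.Lam (p n) + h₂.Lam (r n)) := by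
        field_simp
        ring
      rw [e1]
      have e2 : h₂.Lam (r' n) / h₂.Lam (r n) * (h₂.Lam (r n) / (h₁.Lam (p n) + h₂.Lam (r n))) =
          h₂.Lam (r' n) / (h₁.Lam (p n) + h₂.Lam (r n)) := by
        field_simp
      have e3 : h₁.Lam (p' n) / h₁.Lam (p n) * (h₁.Lam (p n) / (h₁.Lam (p n) + h₂.Lam (r n))) =
          h₁.Lam (p' n) / (h₁.Lam (p n) + h₂.Lam (r n)) := by
        field_simp
      rw [e2, e3]
      field_simp
    rw [e]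
    have k1 : Filter.Tendsto (fun n => β n * s n) Filter.atTop (𝓝 (1 * z.1.2.2)) := h11.mul h7
    have k2 : Filter.Tendsto (fun n => α n * (1 - s n)) Filter.atTop (𝓝 (1 * (1 - z.1.2.2))) :=
      h9.mul (tendsto_const_nhds.sub h7)
    have k3 := k1.div (k2.add k1) (by
      have : 1 * (1 - z.1.2.2) + 1 * z.1.2.2 = 1 := by ring
      rw [this]; exact one_ne_zero)
    have k4 : 1 * z.1.2.2 / (1 * (1 - z.1.2.2) + 1 * z.1.2.2) = z.1.2.2 := by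
      have : 1 * (1 - z.1.2.2) + 1 * z.1.2.2 = 1 := by ring
      rw [this, one_mul, div_one]
    rw [k4] at k3
    exact k3
  apply jO_of_jP h₁ h₂ (x := fun n => (p' n, r' n))
  rw [tendsto_subtype_rng]
  exact h8.prodMk_nhds (h10.prodMk_nhds h12)

theorem no_range {V₁ V₂ : Type} (c₁ : V₁ → Set h₁.P)
    (c₂ : V₂ → Set h₂.P) (hc₁ : CellFam h₁ V₁ c₁) (hc₂ : CellFam h₂ V₂ c₂)
    (q : ℕ → V₁ × V₂) (hq : Function.Injective q) (p : ℕ → h₁.P) (r : ℕ → h₂.P)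
    (hp : ∀ n, p n ∈ c₁ (q n).1) (hr : ∀ n, r n ∈ c₂ (q n).2) (x : h₁.P × h₂.P)
    (hlim : Filter.Tendsto (fun n => jO h₁ h₂ (p n, r n)) Filter.atTop (𝓝 (jO h₁ h₂ x))) : False := by
  have h1 : Filter.Tendsto (fun n => (p n, r n)) Filter.atTop (𝓝 x) := by
    rw [(jO_isOpenEmbedding h₁ h₂).isInducing.tendsto_nhds_iff]
    exact hlim
  have h2 : Filter.Tendsto p Filter.atTop (𝓝 x.1) := (continuous_fst.tendsto x).comp h1
  have h3 : Filter.Tendsto r Filter.atTop (𝓝 x.2) := (continuous_snd.tendsto x).comp h1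
  have f1 := hc₁.locfin _ h2.isCompact_insert_range
  have f2 := hc₂.locfin _ h3.isCompact_insert_range
  have f3 := f1.prod f2
  have : (range q).Finite := by
    refine f3.subset ?_
    rintro _ ⟨n, rfl⟩
    exact ⟨⟨p n, hp n, Or.inr ⟨n, rfl⟩⟩, ⟨r n, hr n, Or.inr ⟨n, rfl⟩⟩⟩
  exact (Set.infinite_range_of_injective hq) this

end aux



/-- products of cells become small in the compactification -/
theorem horo_null {D₁ D₂ : Type} [TopologicalSpace D₁] [TopologicalSpace D₂] [T2Space D₁]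
    [T2Space D₂] (h₁ : Horo D₁) (h₂ : Horo D₂) {V₁ V₂ : Type} (c₁ : V₁ → Set h₁.P)
    (c₂ : V₂ → Set h₂.P) (hc₁ : CellFam h₁ V₁ c₁) (hc₂ : CellFam h₂ V₂ c₂)
    {E : Type} [MetricSpace E] (Φ : OnePoint (XP h₁ h₂) → E) (hΦ : Continuous Φ)
    (hinj : Function.Injective Φ) (ε : ℝ) (hε : 0 < ε) :
    {q : V₁ × V₂ | ∃ p ∈ c₁ q.1, ∃ p' ∈ c₁ q.1, ∃ r ∈ c₂ q.2, ∃ r' ∈ c₂ q.2,
      ε ≤ dist (Φ (jO h₁ h₂ (p, r))) (Φ (jO h₁ h₂ (p', r')))}.Finite := by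
  by_contra hinf
  have hinf' : Set.Infinite {q : V₁ × V₂ | ∃ p ∈ c₁ q.1, ∃ p' ∈ c₁ q.1, ∃ r ∈ c₂ q.2, ∃ r' ∈ c₂ q.2,
      ε ≤ dist (Φ (jO h₁ h₂ (p, r))) (Φ (jO h₁ h₂ (p', r')))} := hinf
  have key : ∃ q : ℕ → V₁ × V₂, Function.Injective q ∧ ∀ n, ∃ p ∈ c₁ (q n).1, ∃ p' ∈ c₁ (q n).1, ∃ r ∈ c₂ (q n).2, ∃ r' ∈ c₂ (q n).2,
      ε ≤ dist (Φ (jO h₁ h₂ (p, r))) (Φ (jO h₁ h₂ (p', r'))) := by
    refine ⟨fun n => (hinf'.natEmbedding _ n : V₁ × V₂), ?_, fun n => (hinf'.natEmbedding _ n).2⟩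
    intro m n hmn
    exact (hinf'.natEmbedding _).injective (Subtype.ext hmn)
  obtain ⟨q, hq, hh⟩ := key
  choose p hp p' hp' r hr r' hr' hd using hh
  have hemb := hΦ.isClosedEmbedding hinj
  have hcomp : IsCompact (range Φ) := isCompact_range hΦ
  obtain ⟨A, hA, φ, hφ, hAlim⟩ := hcomp.tendsto_subseq (x := fun n => Φ (jO h₁ h₂ (p n, r n)))
    (fun n => mem_range_self _)
  obtain ⟨B, hB, ψ, hψ, hBlim⟩ := hcomp.tendsto_subseq (x := fun n => Φ (jO h₁ h₂ (p' (φ n), r' (φ n))))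
    (fun n => mem_range_self _)
  obtain ⟨P, rfl⟩ := hA
  obtain ⟨P', rfl⟩ := hB
  have hA2 : Filter.Tendsto (fun n => Φ (jO h₁ h₂ (p (φ (ψ n)), r (φ (ψ n))))) Filter.atTop (𝓝 (Φ P)) :=
    hAlim.comp hψ.tendsto_atTop
  have hB2 : Filter.Tendsto (fun n => Φ (jO h₁ h₂ (p' (φ (ψ n)), r' (φ (ψ n))))) Filter.atTop (𝓝 (Φ P')) := hBlim
  have hdist : ε ≤ dist (Φ P) (Φ P') :=
    ge_of_tendsto (hA2.dist hB2) (Filter.Eventually.of_forall fun n => hd (φ (ψ n)))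
  have hne : P ≠ P' := by
    rintro rfl
    rw [dist_self] at hdist
    linarith
  have hA3 : Filter.Tendsto (fun n => jO h₁ h₂ (p (φ (ψ n)), r (φ (ψ n)))) Filter.atTop (𝓝 P) := by
    rw [hemb.isInducing.tendsto_nhds_iff]; exact hA2
  have hB3 : Filter.Tendsto (fun n => jO h₁ h₂ (p' (φ (ψ n)), r' (φ (ψ n)))) Filter.atTop (𝓝 P') := by
    rw [hemb.isInducing.tendsto_nhds_iff]; exact hB2
  have hq2 : Function.Injective (fun n => q (φ (ψ n))) :=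
    hq.comp (hφ.injective.comp hψ.injective)
  have hT2 : T2Space (OnePoint (XP h₁ h₂)) := T2Space.of_injective_continuous hinj hΦ
  have hPr : P ∈ (range (jO h₁ h₂))ᶜ := by
    rintro ⟨x, rfl⟩
    exact no_range h₁ h₂ c₁ c₂ hc₁ hc₂ (fun n => q (φ (ψ n))) hq2 (fun n => p (φ (ψ n)))
      (fun n => r (φ (ψ n))) (fun n => hp _) (fun n => hr _) x hA3
  have hPr' : P' ∈ (range (jO h₁ h₂))ᶜ := by
    rintro ⟨x, rfl⟩
    exact no_range h₁ h₂ c₁ c₂ hc₁ hc₂ (fun n => q (φ (ψ n))) hq2 (fun n => p' (φ (ψ n)))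
      (fun n => r' (φ (ψ n))) (fun n => hp' _) (fun n => hr' _) x hB3
  rw [jO_range] at hPr hPr'
  rcases hPr with h | ⟨z, rfl, hz⟩
  · rcases hPr' with h' | ⟨z, rfl, hz⟩
    · exact hne (h.trans h'.symm)
    · have h5 := lim_transfer h₁ h₂ c₁ c₂ hc₁ hc₂ (fun n => (q (φ (ψ n))).1) (fun n => (q (φ (ψ n))).2)
        (fun n => p' (φ (ψ n))) (fun n => p (φ (ψ n))) (fun n => r' (φ (ψ n))) (fun n => r (φ (ψ n)))
        (fun n => hp' _) (fun n => hp _) (fun n => hr' _) (fun n => hr _) z hz hB3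
      exact hne (tendsto_nhds_unique hA3 h5)
  · have h5 := lim_transfer h₁ h₂ c₁ c₂ hc₁ hc₂ (fun n => (q (φ (ψ n))).1) (fun n => (q (φ (ψ n))).2)
      (fun n => p (φ (ψ n))) (fun n => p' (φ (ψ n))) (fun n => r (φ (ψ n))) (fun n => r' (φ (ψ n)))
      (fun n => hp _) (fun n => hp' _) (fun n => hr _) (fun n => hr' _) z hz hA3
    exact hne (tendsto_nhds_unique h5 hB3)

end Pool.Agent.Helper376.CL
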