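import Mathlib
import Pool.Agent.Helper376.CL.HoroDefs

set_option maxHeartbeats 4000000
set_option synthInstance.maxHeartbeats 400000

namespace Pool.Agent.Helper376.CL

open Set Topology

/-- the horo space of the line -/
abbrev DR : Type := {r : ℝ // 0 ≤ r}

/-- the horo space of the line: `Lam r = r`, `ka r = max 0 (r-1)`, `lift r a = max r a`,
`cut r M = min r (1+M)` -/
theorem exists_horoR : ∃ h : Horo DR, (∀ r, h.Lam r = r.1) := by
  refine ⟨{
    Lam := fun r => r.1
    ka := fun r => max 0 (r.1 - 1)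
    lift := fun r a => ⟨max r.1 a, le_max_of_le_left r.2⟩
    cut := fun r M => ⟨min r.1 (max 0 (1 + M)), le_min r.2 (le_max_left _ _)⟩
    top := fun M => ⟨max 0 (1 + M), le_max_left _ _⟩
    Lam_cont := continuous_subtype_val
    Lam_nonneg := fun p => p.2
    ka_cont := by fun_prop
    ka_nonneg := fun p => le_max_left _ _
    ka_proper := ?_
    lift_cont := ?_
    Lam_lift := fun p a _ => rfl
    lift_of_le := fun p a _ h => Subtype.ext (max_eq_left h)
    ka_lift := fun p a _ => max_le_max le_rfl (sub_le_sub_right (le_max_left _ _) _)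
    cut_cont := ?_
    cut_eq := ?_
    le_ka_cut := ?_
    Lam_cut_pos := ?_
    cut_top := ?_
    Lam_le := ?_ }, fun r => rfl⟩
  · intro M
    have hcl : IsClosedEmbedding (Subtype.val : DR → ℝ) :=
      (isClosed_Ici (a := (0 : ℝ))).isClosedEmbedding_subtypeVal
    have h1 : IsCompact ((Subtype.val : DR → ℝ) ⁻¹' Icc 0 (1 + M)) :=
      hcl.isCompact_preimage isCompact_Icc
    refine h1.of_isClosed_subset ?_ ?_
    · exact isClosed_le (by fun_prop) continuous_const
    · intro p hp
      have hp' : max 0 (p.1 - 1) ≤ M := hp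
      have := le_trans (le_max_right _ _) hp'
      exact ⟨p.2, by linarith⟩
  · apply Continuous.continuousOn
    apply Continuous.subtype_mk
    fun_prop
  · apply Continuous.continuousOn
    apply Continuous.subtype_mk
    fun_prop
  · intro p M hM h
    have h' : max 0 (p.1 - 1) ≤ M - 1 := h
    have h1 := le_trans (le_max_right _ _) h'
    apply Subtype.ext
    show min p.1 (max 0 (1 + M)) = p.1
    exact min_eq_left (le_max_of_le_right (by linarith))
  · intro p M hM
    show min (max 0 (p.1 - 1)) (M - 1) ≤ max 0 (min p.1 (max 0 (1 + M)) - 1)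
    rcases le_total p.1 (1 + M) with h | h
    · rw [min_eq_left (le_max_of_le_right h)]
      exact min_le_left _ _
    · have e1 : max 0 (1 + M) = 1 + M := max_eq_right (by linarith)
      rw [e1, min_eq_right h]
      exact le_trans (min_le_right _ _) (le_max_of_le_right (by linarith))
  · intro p M hM h
    show 0 < min p.1 (max 0 (1 + M))
    exact lt_min h (lt_max_of_lt_right (by linarith))
  · intro p M hM h
    have h' : M ≤ max 0 (p.1 - 1) := h
    have h1 : 1 + M ≤ p.1 := by
      rcases le_total 0 (p.1 - 1) with hh | hh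
      · rw [max_eq_right hh] at h'; linarith
      · rw [max_eq_left hh] at h'; linarith
    have e1 : max 0 (1 + M) = 1 + M := max_eq_right (by linarith)
    apply Subtype.ext
    show min p.1 (max 0 (1 + M)) = max 0 (1 + M)
    rw [e1, min_eq_right h1]
  · intro p
    show p.1 ≤ 1 + max 0 (p.1 - 1)
    have := le_max_right 0 (p.1 - 1)
    linarith

theorem kb_inv (t : ℝ) : (Real.exp (Real.arsinh t))⁻¹ = -t + Real.sqrt (1 + t ^ 2) := by
  rw [← Real.exp_neg, ← Real.arsinh_neg, Real.exp_arsinh]
  congr 2; ring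

theorem kb_sqrt (s t : ℝ) : Real.sqrt (1 + t ^ 2) ≤ Real.sqrt (1 + s ^ 2) + |t - s| := by
  have h0 := abs_nonneg (t - s)
  have h1 : |s| ≤ Real.sqrt (1 + s ^ 2) := by
    rw [← Real.sqrt_sq_eq_abs]; exact Real.sqrt_le_sqrt (by linarith)
  have h2 : Real.sqrt (1 + s ^ 2) ^ 2 = 1 + s ^ 2 := Real.sq_sqrt (by positivity)
  rw [Real.sqrt_le_left (by positivity)]
  have h3 : |t - s| ^ 2 = (t - s) ^ 2 := sq_abs _
  have h4 : s * (t - s) ≤ Real.sqrt (1 + s ^ 2) * |t - s| := by
    calc s * (t - s) ≤ |s * (t - s)| := le_abs_self _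
      _ = |s| * |t - s| := abs_mul _ _
      _ ≤ _ := mul_le_mul_of_nonneg_right h1 h0
  nlinarith

theorem kb_ratio (s t : ℝ) (h : |t - s| ≤ 1) :
    |Real.exp (Real.arsinh t) / Real.exp (Real.arsinh s) - 1| ≤ 2 * Real.exp (Real.arsinh t) := by
  have hp := Real.exp_pos (Real.arsinh t)
  have e1 : Real.exp (Real.arsinh t) / Real.exp (Real.arsinh s) - 1 =
      Real.exp (Real.arsinh t) * ((Real.exp (Real.arsinh s))⁻¹ - (Real.exp (Real.arsinh t))⁻¹) := by
    rw [mul_sub, mul_inv_cancel₀ hp.ne', div_eq_mul_inv]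
  rw [e1, abs_mul, abs_of_pos hp, mul_comm 2]
  apply mul_le_mul_of_nonneg_left _ hp.le
  rw [kb_inv, kb_inv]
  have h1 := kb_sqrt s t
  have h2 := kb_sqrt t s
  rw [abs_sub_comm s t] at h2
  have h3 := abs_le.mp h
  rw [abs_le]
  constructor <;> linarith

/-- the homeomorphism -/
noncomputable def kbE (h : Horo DR) (hL : ∀ r, h.Lam r = r.1) : ℝ ≃ₜ h.P where
  toFun t := ⟨⟨Real.exp (Real.arsinh t), (Real.exp_pos _).le⟩, by rw [hL]; exact Real.exp_pos _⟩
  invFun p := Real.sinh (Real.log p.1.1)
  left_inv t := by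
    show Real.sinh (Real.log (Real.exp (Real.arsinh t))) = t
    rw [Real.log_exp, Real.sinh_arsinh]
  right_inv p := by
    apply Subtype.ext
    apply Subtype.ext
    show Real.exp (Real.arsinh (Real.sinh (Real.log p.1.1))) = p.1.1
    rw [Real.arsinh_sinh, Real.exp_log]
    have := p.2
    rw [hL] at this
    exact this
  continuous_toFun := by
    apply Continuous.subtype_mk
    apply Continuous.subtype_mk
    exact Real.continuous_exp.comp Real.continuous_arsinh
  continuous_invFun := by
    apply Real.continuous_sinh.comp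
    apply Continuous.log
    · exact continuous_subtype_val.comp continuous_subtype_val
    · intro p
      have := p.2
      rw [hL] at this
      exact this.ne'

/-- the positive part is the real line, with small cells at the lower end -/
theorem horoR_line (h : Horo DR) (hL : ∀ r, h.Lam r = r.1) :
    ∃ e : ℝ ≃ₜ h.P, (∀ t, (e t).1.1 = Real.exp (Real.arsinh t)) ∧
      CellFam h ℤ (fun n => e '' Icc (n:ℝ) (n+1)) := by
  refine ⟨kbE h hL, fun t => rfl, ?_⟩
  refine ⟨fun v => isCompact_Icc.image (kbE h hL).continuous, ?_, ?_⟩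
  · intro K hK
    have h1 : IsCompact ((kbE h hL).symm '' K) := hK.image (kbE h hL).symm.continuous
    obtain ⟨a, ha⟩ := h1.bddBelow
    obtain ⟨b, hb⟩ := h1.bddAbove
    refine (Set.finite_Icc (⌊a⌋ - 1) ⌈b⌉).subset ?_
    rintro v ⟨p, ⟨t, ht, rfl⟩, hpK⟩
    have h2 : t ∈ (kbE h hL).symm '' K := ⟨_, hpK, (kbE h hL).symm_apply_apply t⟩
    have h3 := ha h2
    have h4 := hb h2
    constructor
    · have h5 : a ≤ v + 1 := le_trans h3 ht.2
      have h6 : ⌊a⌋ ≤ v + 1 := by
        have h7 : (⌊a⌋ : ℝ) ≤ ((v + 1 : ℤ) : ℝ) := by push_cast; exact le_trans (Int.floor_le a) h5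
        exact_mod_cast h7
      omega
    · have h5 : (v : ℝ) ≤ b := le_trans ht.1 h4
      have h7 : (v : ℝ) ≤ (⌈b⌉ : ℝ) := le_trans h5 (Int.le_ceil b)
      exact_mod_cast h7
  · intro v p p' x hp hp' hx hlim
    choose t ht hpt using hp
    choose t' ht' hpt' using hp'
    have e1 : ∀ n, ((p n : DR) : ℝ) = Real.exp (Real.arsinh (t n)) := fun n => by rw [← hpt n]; rfl
    have e2 : ∀ n, ((p' n : DR) : ℝ) = Real.exp (Real.arsinh (t' n)) := fun n => by
      rw [← hpt' n]; rfl
    have hx0 : x.1 = 0 := by rw [← hL]; exact hx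
    have l1 : Filter.Tendsto (fun n => Real.exp (Real.arsinh (t n))) Filter.atTop (𝓝 0) := by
      have := (continuous_subtype_val.tendsto x).comp hlim
      rw [hx0] at this
      refine this.congr fun n => ?_
      exact e1 n
    have l2 : Filter.Tendsto (fun n => Real.exp (Real.arsinh (t n)) / Real.exp (Real.arsinh (t' n)))
        Filter.atTop (𝓝 1) := by
      rw [tendsto_iff_norm_sub_tendsto_zero]
      have l3 : Filter.Tendsto (fun n => 2 * Real.exp (Real.arsinh (t n))) Filter.atTop (𝓝 0) := by
        simpa using l1.const_mul 2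
      refine squeeze_zero (fun n => norm_nonneg _) (fun n => ?_) l3
      rw [Real.norm_eq_abs]
      apply kb_ratio
      have a1 := ht n
      have a2 := ht' n
      rw [abs_le]
      constructor <;> linarith [a1.1, a1.2, a2.1, a2.2]
    have l4 : Filter.Tendsto (fun n => Real.exp (Real.arsinh (t' n)) / Real.exp (Real.arsinh (t n)))
        Filter.atTop (𝓝 1) := by
      have := l2.inv₀ one_ne_zero
      rw [inv_one] at this
      refine this.congr fun n => ?_
      rw [inv_div]
    constructor
    · rw [tendsto_subtype_rng, hx0]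
      have l5 := l1.mul l4
      rw [zero_mul] at l5
      refine l5.congr fun n => ?_
      rw [e2 n]
      field_simp
    · refine l4.congr fun n => ?_
      rw [hL, hL, e1 n, e2 n]

end Pool.Agent.Helper376.CL
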