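import Mathlib
import Pool.Agent.Helper376.CL.AE
import Pool.Agent.Helper376.CL.Pg
import Pool.Agent.Helper376.CL.ThatAE
import Pool.Agent.Helper376.CL.TreeDefs
import Pool.Agent.Helper376.CL.TreeLem
import Pool.Agent.Helper376.CL.THLem

set_option maxHeartbeats 4000000
set_option synthInstance.maxHeartbeats 400000

namespace Pool.Agent.Helper376.CL

open Set Topology

theorem tr_root_aux {lam : ℝ} : tr root lam = root := by
  funext l
  unfold tr root prof
  by_cases h : l = []
  · subst h
    simp
  · simp only [h, if_false]
    apply min_eq_left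
    positivity

theorem continuous_tr_aux : Continuous (fun p : (List A → ℝ) × ℝ => tr p.1 p.2) := by
  apply continuous_pi
  intro l
  unfold tr prof
  fun_prop

theorem isAE_fin_aux : IsAE {p : ↥That // IsFin p.1.2} := by
  classical
  intro M _ S hS f hf
  obtain ⟨F, hF, hFa⟩ := isAE_That M S hS (fun a => (f a).1) (continuous_subtype_val.comp hf)
  let D : M → ℝ := fun m => if S.Nonempty then min 1 (Metric.infDist m S) else 1
  have hD : Continuous D := by
    by_cases h : S.Nonempty
    · have : D = fun m => min 1 (Metric.infDist m S) := by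
        funext m; simp only [D, if_pos h]
      rw [this]
      exact continuous_const.min (Metric.continuous_infDist_pt S)
    · have : D = fun _ => 1 := by
        funext m; simp only [D, if_neg h]
      rw [this]
      exact continuous_const
  have hD0 : ∀ m, 0 ≤ D m := by
    intro m
    by_cases h : S.Nonempty
    · simp only [D, if_pos h]
      exact le_min zero_le_one Metric.infDist_nonneg
    · simp only [D, if_neg h]; exact zero_le_one
  have hD1 : ∀ m, D m ≤ 1 := by
    intro m
    by_cases h : S.Nonempty
    · simp only [D, if_pos h]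
      exact min_le_left _ _
    · simp only [D, if_neg h]; exact le_refl _
  have hDS : ∀ m, m ∈ S → D m = 0 := by
    intro m hm
    have h : S.Nonempty := ⟨m, hm⟩
    simp only [D, if_pos h, Metric.infDist_zero_of_mem hm]
    exact min_eq_right zero_le_one
  have hDpos : ∀ m, m ∉ S → 0 < D m := by
    intro m hm
    by_cases h : S.Nonempty
    · simp only [D, if_pos h]
      exact lt_min one_pos ((hS.notMem_iff_infDist_pos h).1 hm)
    · simp only [D, if_neg h]; exact one_pos
  have hmem : ∀ m, (((F m).1.1, tr (F m).1.2 (D m)) : ℝ × (List A → ℝ)) ∈ That := by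
    intro m
    have hFm := (F m).2
    refine ⟨tr_mem hFm.1 (hD0 m) (hD1 m), ?_⟩
    rcases hFm.2 with h | h
    · left
      show tr (F m).1.2 (D m) = root
      rw [h, tr_root_aux]
    · right; exact h
  have hfin : ∀ m, IsFin (tr (F m).1.2 (D m)) := by
    intro m
    have hFm := (F m).2
    by_cases h : m ∈ S
    · have hFin : IsFin (F m).1.2 := by
        have := hFa ⟨m, h⟩
        simp only at this
        rw [this]
        exact (f ⟨m, h⟩).2
      exact tr_isFin_of_isFin hFm.1 hFin (hD0 m) (hD1 m)
    · exact tr_isFin hFm.1 (hDpos m h) (hD1 m)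
  refine ⟨fun m => ⟨⟨((F m).1.1, tr (F m).1.2 (D m)), hmem m⟩, hfin m⟩, ?_, ?_⟩
  · apply Continuous.subtype_mk
    apply Continuous.subtype_mk
    have h1 : Continuous (fun m => (F m).1) := continuous_subtype_val.comp hF
    exact (continuous_fst.comp h1).prodMk
      (continuous_tr_aux.comp ((continuous_snd.comp h1).prodMk hD))
  · intro a
    apply Subtype.ext
    apply Subtype.ext
    have h1 : F a = (f a).1 := hFa a
    have h2 : D a = 0 := hDS _ a.2
    show ((F a).1.1, tr (F a).1.2 (D a)) = ((f a).1).1
    rw [h2, tr_zero (F a).2.1, h1]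

theorem isAE_Tree : IsAE Tree := by
  obtain ⟨h, _⟩ := exists_homeo_tree
  exact isAE_retract h h.symm h.continuous h.symm.continuous (fun y => h.symm_apply_apply y)
    isAE_fin_aux

end Pool.Agent.Helper376.CL
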