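import Mathlib
import Pool.Agent.Helper376.CL.Defs
import Pool.Agent.Helper376.CL.AE
import Pool.Agent.Helper376.CL.Wrap
import Pool.Agent.Helper376.CL.HoroA1
import Pool.Agent.Helper376.CL.HoroA3
import Pool.Agent.Helper376.CL.HoroA4
import Pool.Agent.Helper376.CL.HoroA5
import Pool.Agent.Helper376.CL.HoroR
import Pool.Agent.Helper376.CL.DTDefs
import Pool.Agent.Helper376.CL.DT5
import Pool.Agent.Helper376.CL.DT6
import Pool.Agent.Helper376.CL.TreeLem
import Pool.Agent.Helper376.CL.CellLem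
import Pool.Agent.Helper376.CL.TAE

set_option maxHeartbeats 4000000
set_option synthInstance.maxHeartbeats 400000

namespace Pool.Agent.Helper376.CL

open Set Topology Classical

theorem zb_G (hT : Horo ↥DT) (hTL : ∀ p, hT.Lam p = p.1.2) (hR : Horo DR)
    (hRL : ∀ r, hR.Lam r = r.1) :
    IsZBoundary (FreeGroup (Fin 2) × Multiplicative ℤ) ↥((range (jO hT hR))ᶜ) := by
  obtain ⟨eT, heT1, heT2⟩ := horoT_tree hT hTL
  obtain ⟨eR, _, hcR⟩ := horoR_line hR hRL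
  have hcT := horoT_cells hT hTL eT heT1 heT2
  have hTne : Nonempty Tree :=
    ⟨⟨ptf 1 (0, true) 0, 1, (0, true), 0, le_refl _, zero_le_one, rfl⟩⟩
  have hDT : Nonempty ↥DT := hTne.map fun b => (eT b).1
  have hDR : Nonempty DR := ⟨⟨0, le_refl _⟩⟩
  obtain ⟨e₁, he₁, hi₁⟩ := DT_embed
  obtain ⟨Φ, hΦ, hinj⟩ := horo_embed hT hR e₁ he₁ hi₁ (Subtype.val : DR → ℝ)
    continuous_subtype_val Subtype.val_injective
  obtain ⟨H, hH, H0, HO⟩ := horo_push hT hR
  obtain ⟨K₀, hK₀, hcoc⟩ := cocompact_TR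
  have hjO := jO_isOpenEmbedding hT hR
  let hom : Tree × ℝ ≃ₜ hT.P × hR.P := eT.prodCongr eR
  let hom' : Tree × ℝ ≃ₜ ↥(range (jO hT hR)) := hom.trans hjO.toIsEmbedding.toHomeomorph
  have hAE : IsAE ↥(range (jO hT hR)) :=
    isAE_retract (Y' := Tree × ℝ) (fun y => hom'.symm y) (fun z => hom' z)
      hom'.symm.continuous hom'.continuous (fun y => hom'.apply_symm_apply y)
      (isAE_prod isAE_Tree isAE_real)
  have hj : IsOpenEmbedding (fun y : Tree × ℝ => jO hT hR (hom y)) :=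
    hjO.comp hom.isOpenEmbedding
  refine isZBoundary_of (G := F2 × Multiplicative ℤ) (X := OnePoint (XP hT hR))
    ((range (jO hT hR))ᶜ) hjO.isOpen_range.isClosed_compl Φ hΦ hinj (range (jO hT hR)) hAE
    H hH H0 HO H hH H0 (fun x t h0 h1 => fun hn => hn (HO x t h0 h1))
    (Y := Tree × ℝ) (fun y => jO hT hR (hom y)) hj ?_ continuous_smul_TR covering_TR
    K₀ hK₀ hcoc ?_
  · rw [compl_compl]
    exact hom.surjective.range_comp (jO hT hR)
  · intro K hK ε hε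
    refine null_of_cells (fun y : Tree × ℝ => Φ (jO hT hR (hom y))) ?_ K hK ε hε
    intro ε hε
    refine (horo_null hT hR _ _ hcT hcR Φ hΦ hinj ε hε).subset ?_
    rintro q ⟨p, hp, p', hp', hd⟩
    exact ⟨eT p.1, ⟨p.1, hp.1, rfl⟩, eT p'.1, ⟨p'.1, hp'.1, rfl⟩,
      eR p.2, ⟨p.2, hp.2, rfl⟩, eR p'.2, ⟨p'.2, hp'.2, rfl⟩, hd⟩

end Pool.Agent.Helper376.CL
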