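import Mathlib
import Pool.Agent.Helper376.CL.TreeDefs

set_option maxHeartbeats 4000000
set_option synthInstance.maxHeartbeats 400000

namespace Pool.Agent.Helper376.CL

open Set Topology

/-- the group `F₂ × F₂` acts on `Tree × Tree` -/
noncomputable instance instActTT : MulAction (F2 × F2) (Tree × Tree) where
  smul g p := (g.1 • p.1, g.2 • p.2)
  one_smul p := by
    show ((1 : F2) • p.1, (1 : F2) • p.2) = p
    rw [one_smul, one_smul]
  mul_smul g h p := by
    show ((g.1 * h.1) • p.1, (g.2 * h.2) • p.2) = (g.1 • (h.1 • p.1), g.2 • (h.2 • p.2))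
    rw [mul_smul, mul_smul]

theorem smul_def_TT (g : F2 × F2) (p : Tree × Tree) : g • p = (g.1 • p.1, g.2 • p.2) := rfl

end Pool.Agent.Helper376.CL
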