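import Mathlib
import Pool.Agent.Helper376.CL.TTDefs
import Pool.Agent.Helper376.CL.TreeLem

set_option maxHeartbeats 4000000
set_option synthInstance.maxHeartbeats 400000

namespace Pool.Agent.Helper376.CL

open Set Topology

/-- the vertex `v` as a point of the tree -/
noncomputable def ttV (v : F2) : Tree := ⟨ptf v (0, true) 0, v, (0, true), 0, le_refl _, zero_le_one, rfl⟩

theorem ttV_mem (v : F2) : ttV v ∈ star v := ⟨(0, true), 0, le_refl _, zero_le_one, rfl⟩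

theorem ttV_mem' (v : F2) (x : A) : ttV (lt x * v) ∈ star v := by
  refine ⟨x, 1, zero_le_one, le_refl _, ?_⟩
  funext u
  simp only [ttV, ptf]
  simp

/-- product cells -/
def ttC (q : F2 × F2) : Set (Tree × Tree) := {p | p.1 ∈ star q.1 ∧ p.2 ∈ star q.2}

theorem tt_smul_star {g v : F2} {b : Tree} (hb : b ∈ star v) : g • b ∈ star (v * g⁻¹) := by
  obtain ⟨x, t, h0, h1, hb⟩ := hb
  refine ⟨x, t, h0, h1, ?_⟩
  funext u
  rw [smul_apply, hb]
  exact ptf_mul v x t g u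

theorem tt_smul_cell {g c : F2 × F2} {p : Tree × Tree} (hp : p ∈ ttC c) :
    g • p ∈ ttC (c.1 * g.1⁻¹, c.2 * g.2⁻¹) := by
  rw [smul_def_TT]
  exact ⟨tt_smul_star hp.1, tt_smul_star hp.2⟩

/-- closeness of cells -/
def ttQ {E : Type} [PseudoMetricSpace E] (D : Tree × Tree → E) (c c' : F2 × F2) : Prop :=
  ∀ ε : ℝ, 0 < ε → {g : F2 × F2 | ∃ p ∈ ttC c, ∃ p' ∈ ttC c',
    ε ≤ dist (D (g • p)) (D (g • p'))}.Finite

theorem ttQ_self {E : Type} [PseudoMetricSpace E] (D : Tree × Tree → E)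
    (h : ∀ ε : ℝ, 0 < ε →
      {q : F2 × F2 | ∃ p ∈ ttC q, ∃ p' ∈ ttC q, ε ≤ dist (D p) (D p')}.Finite)
    (c : F2 × F2) : ttQ D c c := by
  intro ε hε
  have hinj : Function.Injective (fun g : F2 × F2 =>
      ((c.1 * g.1⁻¹, c.2 * g.2⁻¹) : F2 × F2)) := by
    intro g g' hgg
    simp only [Prod.mk.injEq, mul_right_inj, inv_inj] at hgg
    exact Prod.ext hgg.1 hgg.2
  refine ((h ε hε).preimage (hinj.injOn)).subset ?_
  rintro g ⟨p, hp, p', hp', hd⟩
  exact ⟨g • p, tt_smul_cell hp, g • p', tt_smul_cell hp', hd⟩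

theorem ttQ_symm {E : Type} [PseudoMetricSpace E] {D : Tree × Tree → E} {c c' : F2 × F2}
    (h : ttQ D c c') : ttQ D c' c := by
  intro ε hε
  refine (h ε hε).subset ?_
  rintro g ⟨p, hp, p', hp', hd⟩
  exact ⟨p', hp', p, hp, by rw [dist_comm]; exact hd⟩

theorem ttQ_trans {E : Type} [PseudoMetricSpace E] {D : Tree × Tree → E} {a b c : F2 × F2}
    (hne : (ttC b).Nonempty) (h1 : ttQ D a b) (h2 : ttQ D b c) : ttQ D a c := by
  intro ε hε
  obtain ⟨z, hz⟩ := hne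
  refine ((h1 (ε / 2) (half_pos hε)).union (h2 (ε / 2) (half_pos hε))).subset ?_
  rintro g ⟨p, hp, p', hp', hd⟩
  have htri := dist_triangle (D (g • p)) (D (g • z)) (D (g • p'))
  by_cases h3 : ε / 2 ≤ dist (D (g • p)) (D (g • z))
  · exact Or.inl ⟨p, hp, z, hz, h3⟩
  · push Not at h3
    exact Or.inr ⟨z, hz, p', hp', by linarith⟩

theorem ttC_nonempty (c : F2 × F2) : (ttC c).Nonempty :=
  ⟨(ttV c.1, ttV c.2), ttV_mem c.1, ttV_mem c.2⟩

theorem ttQ_of_inter {E : Type} [PseudoMetricSpace E] {D : Tree × Tree → E} {c c' : F2 × F2}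
    (h1 : ttQ D c c) (h2 : ttQ D c' c') (z : Tree × Tree) (hz : z ∈ ttC c) (hz' : z ∈ ttC c') :
    ttQ D c c' := by
  intro ε hε
  refine ((h1 (ε / 2) (half_pos hε)).union (h2 (ε / 2) (half_pos hε))).subset ?_
  rintro g ⟨p, hp, p', hp', hd⟩
  have htri := dist_triangle (D (g • p)) (D (g • z)) (D (g • p'))
  by_cases h3 : ε / 2 ≤ dist (D (g • p)) (D (g • z))
  · exact Or.inl ⟨p, hp, z, hz, h3⟩
  · push Not at h3
    exact Or.inr ⟨z, hz', p', hp', by linarith⟩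

theorem ttQ_all {E : Type} [PseudoMetricSpace E] {D : Tree × Tree → E}
    (hself : ∀ c, ttQ D c c) (c c' : F2 × F2) : ttQ D c c' := by
  have h1 : ∀ (w v : F2) (x : A), ttQ D (v, w) (lt x * v, w) := by
    intro w v x
    exact ttQ_of_inter (hself _) (hself _) (ttV (lt x * v), ttV w)
      ⟨ttV_mem' v x, ttV_mem w⟩ ⟨ttV_mem _, ttV_mem w⟩
  have h2 : ∀ (w v : F2) (x : A), ttQ D (v, w) (v, lt x * w) := by
    intro w v x
    exact ttQ_of_inter (hself _) (hself _) (ttV v, ttV (lt x * w))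
      ⟨ttV_mem v, ttV_mem' w x⟩ ⟨ttV_mem v, ttV_mem _⟩
  have h3 : ∀ w v : F2, ttQ D (1, w) (v, w) := by
    intro w v
    have hmk : ∀ L : List A, ttQ D (1, w) (FreeGroup.mk L, w) := by
      intro L
      induction L with
      | nil => exact hself _
      | cons x L ih =>
        have e : (FreeGroup.mk (x :: L) : F2) = lt x * FreeGroup.mk L := by
          rw [lt, FreeGroup.mul_mk]; rfl
        rw [e]
        exact ttQ_trans (ttC_nonempty _) ih (h1 _ _ x)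
    have := hmk v.toWord
    rwa [FreeGroup.mk_toWord] at this
  have h4 : ∀ w v : F2, ttQ D (v, 1) (v, w) := by
    intro w v
    have hmk : ∀ L : List A, ttQ D (v, 1) (v, FreeGroup.mk L) := by
      intro L
      induction L with
      | nil => exact hself _
      | cons x L ih =>
        have e : (FreeGroup.mk (x :: L) : F2) = lt x * FreeGroup.mk L := by
          rw [lt, FreeGroup.mul_mk]; rfl
        rw [e]
        exact ttQ_trans (ttC_nonempty _) ih (h2 _ _ x)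
    have := hmk w.toWord
    rwa [FreeGroup.mk_toWord] at this
  have hone : ∀ c : F2 × F2, ttQ D (1, 1) c := fun c =>
    ttQ_trans (ttC_nonempty (c.1, 1)) (h3 1 c.1) (h4 c.2 c.1)
  exact ttQ_trans (ttC_nonempty (1, 1)) (ttQ_symm (hone c)) (hone c')

theorem tt_mem_star_of_pos (b : Tree) (w : F2) (hb : 0 < b.1 w) : b ∈ star w := by
  obtain ⟨v, x, t, h0, h1, h⟩ := b.2
  by_cases hw : w = v
  · subst hw
    exact ⟨x, t, h0, h1, h⟩
  · have hw2 : w = lt x * v := by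
      by_contra hne
      rw [h] at hb
      simp only [ptf, if_neg hw, if_neg hne, add_zero, lt_self_iff_false] at hb
    have hinv : lt (x.1, !x.2) * w = v := by
      rw [hw2, ← mul_assoc]
      have : lt (x.1, !x.2) * lt x = 1 := by
        have h2 : lt (x.1, !x.2) = (lt x)⁻¹ := by
          rw [lt, lt, FreeGroup.inv_mk]
          rfl
        rw [h2, inv_mul_cancel]
      rw [this, one_mul]
    refine ⟨(x.1, !x.2), 1 - t, by linarith, by linarith, ?_⟩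
    rw [h]
    funext u
    simp only [ptf, hinv, ← hw2]
    rw [add_comm, sub_sub_cancel]

theorem tt_exists_pos (b : Tree) : ∃ w : F2, 0 < b.1 w := by
  obtain ⟨v, x, t, h0, h1, h⟩ := b.2
  by_cases ht : t = 0
  · refine ⟨v, ?_⟩
    rw [h, ht]
    simp only [ptf]
    simp
  · refine ⟨lt x * v, ?_⟩
    rw [h]
    simp only [ptf]
    have : 0 < t := lt_of_le_of_ne h0 (Ne.symm ht)
    simp only [if_true]
    split_ifs <;> linarith

theorem tt_nhds_cells (p : Tree × Tree) : ∃ U ∈ 𝓝 p, ∃ q : F2 × F2, U ⊆ ttC q := by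
  obtain ⟨w, hw⟩ := tt_exists_pos p.1
  obtain ⟨w', hw'⟩ := tt_exists_pos p.2
  refine ⟨{b : Tree | 0 < b.1 w} ×ˢ {b : Tree | 0 < b.1 w'}, ?_, (w, w'), ?_⟩
  · refine IsOpen.mem_nhds (IsOpen.prod ?_ ?_) ⟨hw, hw'⟩
    · exact isOpen_lt continuous_const ((continuous_apply w).comp continuous_subtype_val)
    · exact isOpen_lt continuous_const ((continuous_apply w').comp continuous_subtype_val)
  · rintro ⟨b, s⟩ ⟨hb, hs⟩
    exact ⟨tt_mem_star_of_pos b w hb, tt_mem_star_of_pos s w' hs⟩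

theorem null_of_cells_TT {E : Type} [PseudoMetricSpace E] (D : Tree × Tree → E)
    (h : ∀ ε : ℝ, 0 < ε →
      {q : F2 × F2 | ∃ p ∈ star q.1, ∃ p' ∈ star q.1, ∃ r ∈ star q.2, ∃ r' ∈ star q.2,
        ε ≤ dist (D (p, r)) (D (p', r'))}.Finite)
    (K : Set (Tree × Tree)) (hK : IsCompact K) (ε : ℝ) (hε : 0 < ε) :
    {g : F2 × F2 | ∃ p ∈ K, ∃ q ∈ K, ε ≤ dist (D (g • p)) (D (g • q))}.Finite := by
  classical
  obtain ⟨F, hF⟩ : ∃ F : Finset (F2 × F2), K ⊆ ⋃ q ∈ F, ttC q := by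
    refine hK.induction_on (p := fun S => ∃ F : Finset (F2 × F2), S ⊆ ⋃ q ∈ F, ttC q)
      ⟨∅, by simp⟩ ?_ ?_ ?_
    · rintro s t hst ⟨F, hF⟩
      exact ⟨F, hst.trans hF⟩
    · rintro s t ⟨F, hF⟩ ⟨F', hF'⟩
      refine ⟨F ∪ F', ?_⟩
      rw [Finset.set_biUnion_union]
      exact Set.union_subset_union hF hF'
    · intro x _
      obtain ⟨U, hU, q, hq⟩ := tt_nhds_cells x
      exact ⟨U, mem_nhdsWithin_of_mem_nhds hU, {q}, by simpa using hq⟩
  have h' : ∀ ε : ℝ, 0 < ε →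
      {q : F2 × F2 | ∃ p ∈ ttC q, ∃ p' ∈ ttC q, ε ≤ dist (D p) (D p')}.Finite := by
    intro ε hε
    refine (h ε hε).subset ?_
    rintro q ⟨⟨p, r⟩, hp, ⟨p', r'⟩, hp', hd⟩
    exact ⟨p, hp.1, p', hp'.1, r, hp.2, r', hp'.2, hd⟩
  have hall := ttQ_all (fun c => ttQ_self D h' c)
  have hfin : (⋃ c ∈ F, ⋃ c' ∈ F, {g : F2 × F2 | ∃ p ∈ ttC c, ∃ p' ∈ ttC c',
      ε ≤ dist (D (g • p)) (D (g • p'))}).Finite :=
    F.finite_toSet.biUnion fun c _ => F.finite_toSet.biUnion fun c' _ => hall c c' ε hε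
  refine hfin.subset ?_
  rintro g ⟨p, hp, q, hq, hd⟩
  obtain ⟨c, hc, hpc⟩ := Set.mem_iUnion₂.1 (hF hp)
  obtain ⟨c', hc', hqc⟩ := Set.mem_iUnion₂.1 (hF hq)
  exact Set.mem_iUnion₂.2 ⟨c, hc, Set.mem_iUnion₂.2 ⟨c', hc', p, hpc, q, hqc, hd⟩⟩

end Pool.Agent.Helper376.CL
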