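import Mathlib
import Pool.Agent.Helper376.CL.Defs
import Pool.Agent.Helper376.CL.AE
import Pool.Agent.Helper376.CL.Wrap
import Pool.Agent.Helper376.CL.HoroA1
import Pool.Agent.Helper376.CL.HoroA3
import Pool.Agent.Helper376.CL.HoroA4
import Pool.Agent.Helper376.CL.HoroA5
import Pool.Agent.Helper376.CL.DTDefs
import Pool.Agent.Helper376.CL.DT5
import Pool.Agent.Helper376.CL.DT6
import Pool.Agent.Helper376.CL.TreeLem
import Pool.Agent.Helper376.CL.TTDefs
import Pool.Agent.Helper376.CL.TT1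
import Pool.Agent.Helper376.CL.TT2
import Pool.Agent.Helper376.CL.TAE

set_option maxHeartbeats 4000000
set_option synthInstance.maxHeartbeats 400000

namespace Pool.Agent.Helper376.CL

open Set Topology Classical

theorem zb_H (hT : Horo ↥DT) (hTL : ∀ p, hT.Lam p = p.1.2) :
    IsZBoundary (FreeGroup (Fin 2) × FreeGroup (Fin 2)) ↥((range (jO hT hT))ᶜ) := by
  obtain ⟨e, he1, he2⟩ := horoT_tree hT hTL
  obtain ⟨eD, heDc, heDi⟩ := DT_embed
  obtain ⟨Φ, hΦ, hinj⟩ := horo_embed hT hT eD heDc heDi eD heDc heDi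
  have hcells := horoT_cells hT hTL e he1 he2
  have b0 : Tree := ⟨ptf 1 (0, true) 0, 1, (0, true), 0, le_refl _, zero_le_one, rfl⟩
  haveI : Nonempty ↥DT := ⟨(e b0).1⟩
  obtain ⟨H, hH, H0, HO⟩ := horo_push hT hT
  have hjO : IsOpenEmbedding (jO hT hT) := jO_isOpenEmbedding hT hT
  have hj : IsOpenEmbedding (jO hT hT ∘ (e.prodCongr e)) :=
    hjO.comp (e.prodCongr e).isOpenEmbedding
  have hrange : range (jO hT hT ∘ (e.prodCongr e)) = ((range (jO hT hT))ᶜ)ᶜ := by
    rw [compl_compl, (e.prodCongr e).surjective.range_comp]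
  have hAE : IsAE ↥(range (jO hT hT)) := by
    have E1 : hT.P × hT.P ≃ₜ ↥(range (jO hT hT)) := hjO.isEmbedding.toHomeomorph
    have E2 : Tree × Tree ≃ₜ ↥(range (jO hT hT)) := (e.prodCongr e).trans E1
    exact isAE_retract E2.symm E2 E2.symm.continuous E2.continuous
      (fun y => E2.apply_symm_apply y) (isAE_prod isAE_Tree isAE_Tree)
  obtain ⟨K₀, hK₀, hcoc⟩ := cocompact_TT
  refine isZBoundary_of (G := F2 × F2) ((range (jO hT hT))ᶜ) hjO.isOpen_range.isClosed_compl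
    Φ hΦ hinj (range (jO hT hT)) hAE H hH H0 HO H hH H0
    (fun x t h0 h1 hS => hS (HO x t h0 h1)) (Y := Tree × Tree)
    (jO hT hT ∘ (e.prodCongr e)) hj hrange continuous_smul_TT covering_TT K₀ hK₀ hcoc ?_
  intro K hK ε hε
  refine null_of_cells_TT (fun y => Φ ((jO hT hT ∘ (e.prodCongr e)) y)) ?_ K hK ε hε
  intro ε hε
  refine (horo_null hT hT _ _ hcells hcells Φ hΦ hinj ε hε).subset ?_
  rintro ⟨v, w⟩ ⟨p, hp, p', hp', r, hr, r', hr', hd⟩
  exact ⟨e p, mem_image_of_mem _ hp, e p', mem_image_of_mem _ hp', e r, mem_image_of_mem _ hr,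
    e r', mem_image_of_mem _ hr', hd⟩

end Pool.Agent.Helper376.CL
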