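import Mathlib
import Pool.Agent.Helper376.CL.DTDefs
import Pool.Agent.Helper376.CL.DT1

set_option maxHeartbeats 4000000
set_option synthInstance.maxHeartbeats 400000

namespace Pool.Agent.Helper376.CL

open Set Topology

/-! auxiliary -/

theorem aux_cont_thZ (n : ℤ) : Continuous (fun a : ℝ => thZ n a) := by
  unfold thZ
  exact continuous_const.max (continuous_const.min ((continuous_const.sub continuous_id).div_const _))

theorem aux_thZ_nonneg (n : ℤ) (a : ℝ) : 0 ≤ thZ n a := le_max_left _ _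

theorem aux_partial (x : ℝ) (n : ℕ) :
    ∑ k ∈ Finset.range n, (1 - max 0 (min 1 ((k : ℝ) + 1 - x))) = max 0 (min (n : ℝ) x) := by
  induction n with
  | zero =>
    simp
  | succ n ih =>
    rw [Finset.sum_range_succ, ih]
    push_cast
    rcases le_total x 0 with h0 | h0
    · have hn : (0 : ℝ) ≤ n := Nat.cast_nonneg n
      rw [min_eq_right (by linarith : x ≤ (n : ℝ)), min_eq_right (by linarith : x ≤ (n : ℝ) + 1),
        min_eq_left (by linarith : (1 : ℝ) ≤ (n : ℝ) + 1 - x), max_eq_left h0,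
        max_eq_right (by norm_num : (0 : ℝ) ≤ 1)]
      ring
    · have hn : (0 : ℝ) ≤ n := Nat.cast_nonneg n
      rcases le_total x n with h1 | h1
      · rw [min_eq_right h1, min_eq_right (by linarith : x ≤ (n : ℝ) + 1),
          min_eq_left (by linarith : (1 : ℝ) ≤ (n : ℝ) + 1 - x),
          max_eq_right (by norm_num : (0 : ℝ) ≤ 1)]
        ring
      · rcases le_total x (n + 1) with h2 | h2
        · rw [min_eq_left h1, min_eq_right h2,
            min_eq_right (by linarith : (n : ℝ) + 1 - x ≤ 1), max_eq_right hn,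
            max_eq_right (by linarith : (0 : ℝ) ≤ (n : ℝ) + 1 - x), max_eq_right h0]
          ring
        · rw [min_eq_left h1, min_eq_left h2,
            min_eq_right (by linarith : (n : ℝ) + 1 - x ≤ 1), max_eq_right hn,
            max_eq_left (by linarith : (n : ℝ) + 1 - x ≤ 0),
            max_eq_right (by linarith : (0 : ℝ) ≤ (n : ℝ) + 1)]
          ring

theorem aux_kaT_fin {p : (List A × ℤ → ℝ) × ℝ} (N : ℕ)
    (h : ∀ k : ℕ, N ≤ k → p.1 ([], (k : ℤ)) = 1) :
    kaT p = ∑ k ∈ Finset.range N, (1 - p.1 ([], (k : ℤ))) := by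
  unfold kaT
  apply tsum_eq_sum
  intro k hk
  rw [Finset.mem_range, not_lt] at hk
  rw [h k hk, sub_self]

theorem aux_DT_up {p : (List A × ℤ → ℝ) × ℝ} (hp : p ∈ DT) {k : ℤ} (h : p.1 ([], k) ≠ 0)
    (m : ℕ) : p.1 ([], k + 1 + m) = 1 := by
  induction m with
  | zero =>
    simpa using DT_parent_L hp h
  | succ m ih =>
    have h1 : p.1 ([], k + 1 + m) ≠ 0 := by rw [ih]; norm_num
    have h2 := DT_parent_L hp h1
    have h3 : k + 1 + ((m + 1 : ℕ) : ℤ) = k + 1 + m + 1 := by push_cast; ring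
    rw [h3]
    exact h2

theorem aux_exists_N {p : (List A × ℤ → ℝ) × ℝ} (hp : p ∈ DT) :
    ∃ N : ℕ, ∀ k : ℕ, N ≤ k → p.1 ([], (k : ℤ)) = 1 := by
  obtain ⟨_, _, _, _, N, hN⟩ := hp
  refine ⟨N.toNat, fun k hk => hN k ?_⟩
  omega

theorem aux_min_add {u w t : ℝ} (ht : 0 ≤ t) (h : u = 0 ∨ w = 0) :
    min (u + w) t = min u t + min w t := by
  rcases h with h | h
  · subst h
    rw [zero_add, min_eq_left ht, zero_add]
  · subst h
    rw [add_zero, min_eq_left ht, add_zero]

theorem aux_min_sum (f : A → ℝ) {t : ℝ} (ht : 0 ≤ t) (h : ∀ x y, x ≠ y → f x = 0 ∨ f y = 0) :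
    min (∑ x, f x) t = ∑ x, min (f x) t := by
  by_cases hall : ∀ x, f x = 0
  · simp [hall, ht]
  · push Not at hall
    obtain ⟨x0, hx0⟩ := hall
    have h1 : ∀ y, y ≠ x0 → f y = 0 := by
      intro y hy
      rcases h x0 y (Ne.symm hy) with h2 | h2
      · exact absurd h2 hx0
      · exact h2
    rw [Finset.sum_eq_single x0 (fun y _ hy => h1 y hy) (fun h => absurd (Finset.mem_univ _) h),
      Finset.sum_eq_single x0 (fun y _ hy => by rw [h1 y hy, min_eq_left ht])
        (fun h => absurd (Finset.mem_univ _) h)]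

theorem aux_chs_min {p : (List A × ℤ → ℝ) × ℝ} (hp : p ∈ DT) (a : ℝ) (v : List A × ℤ) :
    chs (fun v => min (p.1 v) (thZ (htI v) a)) v = min (chs p.1 v) (thZ (htI v - 1) a) := by
  obtain ⟨l, k⟩ := v
  unfold chs
  have ht : 0 ≤ thZ (htI (l, k) - 1) a := aux_thZ_nonneg _ _
  have hh : ∀ x : A, htI (x :: l, k) = htI (l, k) - 1 := by
    intro x
    unfold htI
    simp only [List.length_cons]
    push_cast
    ring
  have hsum : ∑ x : A, min (p.1 (x :: l, k)) (thZ (htI (x :: l, k)) a) =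
      min (∑ x : A, p.1 (x :: l, k)) (thZ (htI (l, k) - 1) a) := by
    rw [aux_min_sum (fun x => p.1 (x :: l, k)) ht (fun x y hxy => DT_sib hp hxy l k)]
    apply Finset.sum_congr rfl
    intro x _
    rw [hh x]
  by_cases hl : l = []
  · subst hl
    simp only [if_true]
    rw [hsum]
    have h0 : htI (([] : List A), k - 1) = htI (([] : List A), k) - 1 := by
      unfold htI
      simp
    rw [h0, aux_min_add ht]
    by_cases h1 : p.1 ([], k - 1) = 0
    · left; exact h1
    · right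
      apply Finset.sum_eq_zero
      intro x _
      rcases DT_sib_L hp x k with h2 | h2
      · exact h2
      · exact absurd h2 h1
  · simp only [if_neg hl, zero_add]
    rw [hsum]

theorem aux_thZ_max (n : ℤ) (a b : ℝ) : thZ n (max a b) = min (thZ n a) (thZ n b) := by
  rcases le_total a b with h | h
  · rw [max_eq_right h, min_eq_right (thZ_anti n h)]
  · rw [max_eq_left h, min_eq_left (thZ_anti n h)]

theorem aux_closed_DT (N : ℕ) : IsClosed {p : (List A × ℤ → ℝ) × ℝ | 0 ≤ p.2 ∧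
    (∀ v, p.1 v = 0 ∨ p.1 v = thZ (htI v) p.2) ∧
    (∀ v, chs p.1 v = min (p.1 v) (thZ (htI v - 1) p.2)) ∧
    (∀ x l k, ¬ ok x l → p.1 (x :: l, k) = 0) ∧ ∀ k : ℤ, (N : ℤ) ≤ k → p.1 ([], k) = 1} := by
  have hv : ∀ v : List A × ℤ, Continuous (fun p : (List A × ℤ → ℝ) × ℝ => p.1 v) :=
    fun v => (continuous_apply v).comp continuous_fst
  have c1 : IsClosed {p : (List A × ℤ → ℝ) × ℝ | ∀ v, p.1 v = 0 ∨ p.1 v = thZ (htI v) p.2} := by
    have h : {p : (List A × ℤ → ℝ) × ℝ | ∀ v, p.1 v = 0 ∨ p.1 v = thZ (htI v) p.2} =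
        ⋂ v, ({p | p.1 v = 0} ∪ {p | p.1 v = thZ (htI v) p.2}) := by
      ext p; simp
    rw [h]
    apply isClosed_iInter
    intro v
    exact (isClosed_eq (hv v) continuous_const).union
      (isClosed_eq (hv v) ((aux_cont_thZ _).comp continuous_snd))
  have c2 : IsClosed {p : (List A × ℤ → ℝ) × ℝ |
      ∀ v, chs p.1 v = min (p.1 v) (thZ (htI v - 1) p.2)} := by
    have h : {p : (List A × ℤ → ℝ) × ℝ | ∀ v, chs p.1 v = min (p.1 v) (thZ (htI v - 1) p.2)} =
        ⋂ v, {p | chs p.1 v = min (p.1 v) (thZ (htI v - 1) p.2)} := by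
      ext p; simp
    rw [h]
    apply isClosed_iInter
    intro v
    apply isClosed_eq
    · unfold chs
      apply Continuous.add
      · by_cases hl : v.1 = []
        · simp only [if_pos hl]
          exact hv _
        · simp only [if_neg hl]
          exact continuous_const
      · exact continuous_finset_sum _ fun x _ => hv _
    · exact (hv v).min ((aux_cont_thZ _).comp continuous_snd)
  have c3 : IsClosed {p : (List A × ℤ → ℝ) × ℝ |
      ∀ x l k, ¬ ok x l → p.1 (x :: l, k) = 0} := by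
    have h : {p : (List A × ℤ → ℝ) × ℝ | ∀ x l k, ¬ ok x l → p.1 (x :: l, k) = 0} =
        ⋂ x, ⋂ l, ⋂ k, ⋂ (_ : ¬ ok x l), {p | p.1 (x :: l, k) = 0} := by
      ext p; simp
    rw [h]
    apply isClosed_iInter; intro x
    apply isClosed_iInter; intro l
    apply isClosed_iInter; intro k
    apply isClosed_iInter; intro _
    exact isClosed_eq (hv _) continuous_const
  have c4 : IsClosed {p : (List A × ℤ → ℝ) × ℝ |
      ∀ k : ℤ, (N : ℤ) ≤ k → p.1 ([], k) = 1} := by
    have h : {p : (List A × ℤ → ℝ) × ℝ | ∀ k : ℤ, (N : ℤ) ≤ k → p.1 ([], k) = 1} =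
        ⋂ k : ℤ, ⋂ (_ : (N : ℤ) ≤ k), {p | p.1 ([], k) = 1} := by
      ext p; simp
    rw [h]
    apply isClosed_iInter; intro k
    apply isClosed_iInter; intro _
    exact isClosed_eq (hv _) continuous_const
  exact (isClosed_le continuous_const continuous_snd).inter (c1.inter (c2.inter (c3.inter c4)))



theorem kaT_eq {p : (List A × ℤ → ℝ) × ℝ} (hp : p ∈ DT) {x : ℝ}
    (h : ∀ k : ℤ, p.1 ([], k) = max 0 (min 1 ((k:ℝ) + 1 - x))) : kaT p = max 0 x := by
  obtain ⟨N, hN⟩ := exists_nat_ge x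
  rw [aux_kaT_fin N]
  · have h1 := aux_partial x N
    rw [min_eq_right hN] at h1
    rw [← h1]
    apply Finset.sum_congr rfl
    intro k _
    rw [h k]
    push_cast
    rfl
  · intro k hk
    rw [h k]
    have h2 : (N : ℝ) ≤ k := by exact_mod_cast hk
    push_cast
    rw [min_eq_left (by linarith), max_eq_right (by norm_num)]

theorem kaT_eq_zero {p : (List A × ℤ → ℝ) × ℝ} (h : ∀ k : ℤ, p.1 ([], k) = 1) : kaT p = 0 := by
  rw [aux_kaT_fin 0 (fun k _ => h k)]
  simp

theorem continuousOn_kaT : ContinuousOn kaT DT := by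
  intro p0 hp0
  obtain ⟨N, hN⟩ := aux_exists_N hp0
  have hv : ∀ v : List A × ℤ, Continuous (fun p : (List A × ℤ → ℝ) × ℝ => p.1 v) :=
    fun v => (continuous_apply v).comp continuous_fst
  have hc : Continuous (fun p : (List A × ℤ → ℝ) × ℝ =>
      ∑ k ∈ Finset.range (N + 1), (1 - p.1 ([], (k : ℤ)))) :=
    continuous_finset_sum _ fun k _ => continuous_const.sub (hv _)
  have hev : ∀ᶠ p in 𝓝[DT] p0, (fun p : (List A × ℤ → ℝ) × ℝ =>
      ∑ k ∈ Finset.range (N + 1), (1 - p.1 ([], (k : ℤ)))) p = kaT p := by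
    have h1 : ∀ᶠ p in 𝓝 p0, (0 : ℝ) < p.1 ([], (N : ℤ)) := by
      have h2 := (hv ([], (N : ℤ))).tendsto p0
      have h3 : (0 : ℝ) < p0.1 ([], (N : ℤ)) := by
        rw [hN N le_rfl]; norm_num
      exact h2.eventually (lt_mem_nhds h3)
    filter_upwards [nhdsWithin_le_nhds h1, self_mem_nhdsWithin] with p hp1 hp2
    show ∑ k ∈ Finset.range (N + 1), (1 - p.1 ([], (k : ℤ))) = kaT p
    rw [aux_kaT_fin (N + 1)]
    intro k hk
    have h4 := aux_DT_up hp2 hp1.ne' (k - (N + 1))
    have h5 : (N : ℤ) + 1 + ((k - (N + 1) : ℕ) : ℤ) = k := by omega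
    rw [h5] at h4
    exact h4
  refine (hc.continuousWithinAt (s := DT) (x := p0)).congr_of_eventuallyEq ?_ ?_
  · filter_upwards [hev] with p hp
    exact hp.symm
  · rw [aux_kaT_fin (N + 1)]
    intro k hk
    exact hN k (by omega)

theorem kaT_le {p : (List A × ℤ → ℝ) × ℝ} (hp : p ∈ DT) : p.2 ≤ 1 + kaT p := by
  rcases DT_pos hp with ⟨h0, h1, _⟩ | ⟨x, h, _⟩
  · rw [h0, kaT_eq_zero h1]
    norm_num
  · rw [kaT_eq hp h]
    rcases le_or_gt 0 x with hx | hx
    · rw [max_eq_right hx]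
      exact DT_le hp hx h
    · rw [max_eq_left hx.le]
      have h1 : 0 < p.1 ([], (-1 : ℤ)) := by
        rw [h (-1)]
        push_cast
        apply lt_max_of_lt_right
        apply lt_min
        · norm_num
        · linarith
      have h2 : 0 < thZ (-1) p.2 := by
        rcases hp.2.1 ([], (-1 : ℤ)) with h3 | h3
        · rw [h3] at h1
          exact absurd h1 (lt_irrefl _)
        · rw [h3] at h1
          simpa [htI] using h1
      have h4 := thZ_pos_imp h2
      rw [show (-1 : ℤ) + 1 = 0 by norm_num, thZ_nonneg_height le_rfl] at h4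
      push_cast at h4
      by_contra hcon
      push Not at hcon
      have h5 : max 0 (min 1 ((0 : ℝ) + 2 - p.2)) < 1 := by
        apply max_lt (by norm_num)
        apply lt_of_le_of_lt (min_le_right _ _)
        linarith
      rw [h4] at h5
      exact lt_irrefl _ h5

theorem kaT_proper (M : ℝ) : IsCompact {p : ↥DT | kaT p.1 ≤ M} := by
  rw [Subtype.isCompact_iff]
  obtain ⟨N, hN⟩ := exists_nat_ge M
  have hone : ∀ p ∈ DT, kaT p ≤ M → ∀ k : ℤ, (N : ℤ) ≤ k → p.1 ([], k) = 1 := by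
    intro p hp hk k hNk
    rcases DT_pos hp with ⟨_, h1, _⟩ | ⟨x, h, _⟩
    · exact h1 k
    · rw [kaT_eq hp h] at hk
      have h2 : x ≤ M := le_trans (le_max_right _ _) hk
      have h3 : (N : ℝ) ≤ (k : ℝ) := by exact_mod_cast hNk
      rw [h k, min_eq_left (by linarith), max_eq_right (by norm_num)]
  have hv : ∀ v : List A × ℤ, Continuous (fun p : (List A × ℤ → ℝ) × ℝ => p.1 v) :=
    fun v => (continuous_apply v).comp continuous_fst
  have hset : (Subtype.val '' {p : ↥DT | kaT p.1 ≤ M}) =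
      (((Set.univ : Set (List A × ℤ)).pi fun _ => Icc (0 : ℝ) 1) ×ˢ Icc (0 : ℝ) (1 + M)) ∩
      ({p : (List A × ℤ → ℝ) × ℝ | 0 ≤ p.2 ∧
        (∀ v, p.1 v = 0 ∨ p.1 v = thZ (htI v) p.2) ∧
        (∀ v, chs p.1 v = min (p.1 v) (thZ (htI v - 1) p.2)) ∧
        (∀ x l k, ¬ ok x l → p.1 (x :: l, k) = 0) ∧ ∀ k : ℤ, (N : ℤ) ≤ k → p.1 ([], k) = 1} ∩
      {p : (List A × ℤ → ℝ) × ℝ | ∑ k ∈ Finset.range N, (1 - p.1 ([], (k : ℤ))) ≤ M}) := by
    ext p
    constructor
    · rintro ⟨⟨q, hq⟩, hqM, rfl⟩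
      have hqM' : kaT q ≤ M := hqM
      have h1 := hone q hq hqM'
      refine ⟨⟨?_, ?_⟩, ⟨hq.1, hq.2.1, hq.2.2.1, hq.2.2.2.1, h1⟩, ?_⟩
      · intro v _
        exact DT_bounds hq v
      · exact ⟨hq.1, (kaT_le hq).trans (by linarith)⟩
      · show ∑ k ∈ Finset.range N, (1 - q.1 ([], (k : ℤ))) ≤ M
        rw [← aux_kaT_fin N (fun k hk => h1 k (by exact_mod_cast hk))]
        exact hqM'
    · rintro ⟨_, ⟨h1, h2, h3, h4, h5⟩, h6⟩
      have hp : p ∈ DT := ⟨h1, h2, h3, h4, N, h5⟩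
      refine ⟨⟨p, hp⟩, ?_, rfl⟩
      show kaT p ≤ M
      rw [aux_kaT_fin N (fun k hk => h5 k (by exact_mod_cast hk))]
      exact h6
  rw [hset]
  apply IsCompact.inter_right
  · exact (isCompact_univ_pi fun _ => isCompact_Icc).prod isCompact_Icc
  · refine (aux_closed_DT N).inter (isClosed_le ?_ continuous_const)
    exact continuous_finset_sum _ fun k _ => continuous_const.sub (hv _)

theorem liftT_mem {p : (List A × ℤ → ℝ) × ℝ} (hp : p ∈ DT) {a : ℝ} (ha : 0 ≤ a) :
    liftT p a ∈ DT := by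
  obtain ⟨h1, h2, h3, h4, N, hN⟩ := id hp
  refine ⟨le_max_of_le_left h1, ?_, ?_, ?_, ?_⟩
  · intro v
    show min (p.1 v) (thZ (htI v) a) = 0 ∨ min (p.1 v) (thZ (htI v) a) = thZ (htI v) (max p.2 a)
    rcases h2 v with h | h
    · left
      rw [h, min_eq_left (aux_thZ_nonneg _ _)]
    · right
      rw [h, aux_thZ_max]
  · intro v
    show chs (fun v => min (p.1 v) (thZ (htI v) a)) v =
      min (min (p.1 v) (thZ (htI v) a)) (thZ (htI v - 1) (max p.2 a))
    rw [aux_chs_min hp, h3 v, aux_thZ_max]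
    have h5 : thZ (htI v - 1) a ≤ thZ (htI v) a := thZ_mono (by omega) a
    apply le_antisymm
    · refine le_min (le_min ?_ ?_) (le_min ?_ ?_)
      · exact (min_le_left _ _).trans (min_le_left _ _)
      · exact (min_le_right _ _).trans h5
      · exact (min_le_left _ _).trans (min_le_right _ _)
      · exact min_le_right _ _
    · refine le_min (le_min ?_ ?_) ?_
      · exact (min_le_left _ _).trans (min_le_left _ _)
      · exact (min_le_right _ _).trans (min_le_left _ _)
      · exact (min_le_right _ _).trans (min_le_right _ _)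
  · intro x l k hok
    show min (p.1 (x :: l, k)) (thZ (htI (x :: l, k)) a) = 0
    rw [h4 x l k hok, min_eq_left (aux_thZ_nonneg _ _)]
  · refine ⟨max N (max 0 ⌈a⌉), fun k hk => ?_⟩
    show min (p.1 ([], k)) (thZ (htI ([], k)) a) = 1
    have hk1 : N ≤ k := (le_max_left _ _).trans hk
    have hk2 : (0 : ℤ) ≤ k := ((le_max_left _ _).trans (le_max_right _ _)).trans hk
    have hk3 : ⌈a⌉ ≤ k := ((le_max_right _ _).trans (le_max_right _ _)).trans hk
    have hk4 : a ≤ (k : ℝ) := (Int.le_ceil a).trans (by exact_mod_cast hk3)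
    have hh : htI (([] : List A), k) = k := by simp [htI]
    rw [hN k hk1, hh, thZ_nonneg_height hk2]
    rw [min_eq_left (by linarith : (1 : ℝ) ≤ (k : ℝ) + 2 - a), max_eq_right (by norm_num)]
    exact min_self 1

theorem liftT_of_le {p : (List A × ℤ → ℝ) × ℝ} (hp : p ∈ DT) {a : ℝ} (ha : 0 ≤ a)
    (h : a ≤ p.2) : liftT p a = p := by
  unfold liftT
  apply Prod.ext
  · funext v
    show min (p.1 v) (thZ (htI v) a) = p.1 v
    apply min_eq_left
    rcases hp.2.1 v with h1 | h1
    · rw [h1]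
      exact aux_thZ_nonneg _ _
    · rw [h1]
      exact thZ_anti _ h
  · exact max_eq_left h

theorem kaT_liftT {p : (List A × ℤ → ℝ) × ℝ} (hp : p ∈ DT) {a : ℝ} (ha : 0 ≤ a) :
    kaT p ≤ kaT (liftT p a) := by
  obtain ⟨N1, hN1⟩ := aux_exists_N hp
  obtain ⟨N2, hN2⟩ := aux_exists_N (liftT_mem hp ha)
  rw [aux_kaT_fin (max N1 N2) (fun k hk => hN1 k ((le_max_left _ _).trans hk)),
    aux_kaT_fin (max N1 N2) (fun k hk => hN2 k ((le_max_right _ _).trans hk))]
  apply Finset.sum_le_sum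
  intro k _
  have h1 : (liftT p a).1 ([], (k : ℤ)) ≤ p.1 ([], (k : ℤ)) := min_le_left _ _
  linarith

theorem continuous_liftT : Continuous (fun x : ((List A × ℤ → ℝ) × ℝ) × ℝ => liftT x.1 x.2) := by
  unfold liftT
  apply Continuous.prodMk
  · apply continuous_pi
    intro v
    exact ((continuous_apply v).comp (continuous_fst.comp continuous_fst)).min
      ((aux_cont_thZ _).comp continuous_snd)
  · exact (continuous_snd.comp continuous_fst).max continuous_snd

end Pool.Agent.Helper376.CL
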