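import Mathlib
import Pool.Agent.Helper376.CL.DTDefs
import Pool.Agent.Helper376.CL.DT1
import Pool.Agent.Helper376.CL.DT2

set_option maxHeartbeats 4000000
set_option synthInstance.maxHeartbeats 400000

namespace Pool.Agent.Helper376.CL

open Set Topology

theorem cutT_clamp_mono {a b : ℝ} (h : a ≤ b) : max 0 (min 1 a) ≤ max 0 (min 1 b) :=
  max_le_max le_rfl (min_le_min le_rfl h)

theorem cutT_caseA {p : (List A × ℤ → ℝ) × ℝ} (hp : p ∈ DT) {M : ℝ} (hM : 1 ≤ M)
    (h : kaT p ≤ M - 1) : cutT p M = p := by
  have hb : bT p M = 0 := by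
    unfold bT
    rw [min_eq_right (by linarith), max_eq_left (by linarith), zero_mul]
  have hp2 : 0 ≤ p.2 := hp.1
  have hle : p.2 ≤ 1 + kaT p := kaT_le hp
  unfold cutT
  rw [hb]
  refine Prod.ext ?_ ?_
  · funext v
    obtain ⟨l, k⟩ := v
    simp only
    by_cases hl : l = []
    · subst hl
      simp only [if_true]
      apply max_eq_left
      rcases DT_pos hp with ⟨_, h1, _⟩ | ⟨x, hx, _⟩
      · rw [h1 k]
        exact max_le (by norm_num) (min_le_left _ _)
      · rw [hx k]
        apply cutT_clamp_mono
        have hk : kaT p = max 0 x := kaT_eq hp hx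
        have : x ≤ kaT p := by rw [hk]; exact le_max_right _ _
        linarith
    · simp only [if_neg hl]
      rw [thZ_zero]
      exact min_eq_left (DT_bounds hp _).2
  · simp only
    rw [max_eq_left hp2, min_eq_left (by linarith)]

theorem cutT_pos_x {p : (List A × ℤ → ℝ) × ℝ} (hp : p ∈ DT) (h : 0 < kaT p) :
    (∀ k : ℤ, p.1 ([], k) = max 0 (min 1 ((k:ℝ) + 1 - kaT p))) ∧
      ∀ y l k, p.1 (y :: l, k) ≠ 0 → kaT p = (k : ℝ) := by
  rcases DT_pos hp with ⟨_, h1, _⟩ | ⟨x, hx, hx2⟩
  · rw [kaT_eq_zero h1] at h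
    exact absurd h (lt_irrefl _)
  · have hk : kaT p = max 0 x := kaT_eq hp hx
    have hx0 : 0 < x := by
      by_contra hc
      rw [hk, max_eq_left (not_lt.mp hc)] at h
      exact lt_irrefl _ h
    rw [max_eq_right hx0.le] at hk
    rw [hk]
    exact ⟨hx, hx2⟩

theorem cutT_caseB {p : (List A × ℤ → ℝ) × ℝ} (hp : p ∈ DT) {M : ℝ} (hM : 1 ≤ M)
    (h1 : M - 1 < kaT p) (h2 : kaT p < M) :
    0 ≤ bT p M ∧ (cutT p M = p ∨ cutT p M = liftT p (bT p M)) := by
  have hpos : 0 < kaT p := by linarith
  obtain ⟨hx, hx2⟩ := cutT_pos_x hp hpos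
  have hc : max 0 (min 1 (kaT p + 1 - M)) = kaT p + 1 - M := by
    rw [min_eq_right (by linarith), max_eq_right (by linarith)]
  have hb : bT p M = (kaT p + 1 - M) * (1 + kaT p) := by
    unfold bT
    rw [hc]
  have hb0 : 0 ≤ bT p M := by
    rw [hb]
    exact mul_nonneg (by linarith) (by linarith)
  have hb1 : bT p M ≤ 1 + kaT p := by
    rw [hb]
    nlinarith
  have hle : p.2 ≤ 1 + kaT p := kaT_le hp
  refine ⟨hb0, ?_⟩
  by_cases h0 : ∀ y l k, p.1 (y :: l, k) = 0
  · left
    have hp' : p = topT (kaT p) := DT_line hp hpos.le hx h0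
    have hp2 : p.2 = 1 + kaT p := by
      have := congrArg Prod.snd hp'
      exact this
    unfold cutT
    refine Prod.ext ?_ ?_
    · funext v
      obtain ⟨l, k⟩ := v
      simp only
      by_cases hl : l = []
      · subst hl
        simp only [if_true]
        apply max_eq_left
        rw [hx k]
        apply cutT_clamp_mono
        linarith
      · simp only [if_neg hl]
        obtain ⟨y, l', rfl⟩ := List.exists_cons_of_ne_nil hl
        rw [h0 y l' k]
        apply min_eq_left
        unfold thZ
        exact le_max_left _ _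
    · simp only
      rw [hp2, max_eq_left hb1, min_eq_left (by linarith)]
  · right
    push Not at h0
    obtain ⟨y, l, k0, hk0⟩ := h0
    have hxk : kaT p = (k0 : ℝ) := hx2 y l k0 hk0
    have hk0pos : 0 < k0 := by
      have : (0:ℝ) < (k0 : ℝ) := by rw [← hxk]; exact hpos
      exact_mod_cast this
    unfold cutT liftT
    refine Prod.ext ?_ ?_
    · funext v
      obtain ⟨l, k⟩ := v
      simp only
      by_cases hl : l = []
      · subst hl
        simp only [if_true]
        have e1 : max (p.1 ([], k)) (max 0 (min 1 ((k:ℝ) + 1 - M))) = p.1 ([], k) := by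
          apply max_eq_left
          rw [hx k]
          apply cutT_clamp_mono
          linarith
        rw [e1]
        symm
        by_cases hk : k0 ≤ k
        · have hht : htI (([] : List A), k) = k := by simp [htI]
          rw [hht]
          apply min_eq_left
          rw [thZ_nonneg_height (by omega)]
          have hkr : (k0 : ℝ) ≤ (k : ℝ) := by exact_mod_cast hk
          have h3 : (1:ℝ) ≤ (k:ℝ) + 2 - bT p M := by
            rw [hxk] at hb1
            linarith
          rw [min_eq_left h3, max_eq_right (by norm_num)]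
          exact (DT_bounds hp _).2
        · have hk' : k + 1 ≤ k0 := by omega
          have hkr : (k : ℝ) + 1 ≤ (k0 : ℝ) := by exact_mod_cast hk'
          have hz : p.1 ([], k) = 0 := by
            rw [hx k, hxk, min_eq_right (by linarith), max_eq_left (by linarith)]
          rw [hz]
          apply min_eq_left
          unfold thZ
          exact le_max_left _ _
      · simp only [if_neg hl]
    · simp only
      apply min_eq_left
      exact max_le (by linarith) (by linarith)

theorem cutT_caseC {p : (List A × ℤ → ℝ) × ℝ} (hp : p ∈ DT) {M : ℝ} (hM : 1 ≤ M)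
    (h : M ≤ kaT p) : cutT p M = topT M := by
  have hpos : 0 < kaT p := by linarith
  obtain ⟨hx, hx2⟩ := cutT_pos_x hp hpos
  have hb : bT p M = 1 + kaT p := by
    unfold bT
    rw [min_eq_left (by linarith), max_eq_right (by norm_num), one_mul]
  have hle : p.2 ≤ 1 + kaT p := kaT_le hp
  unfold cutT topT
  rw [hb]
  refine Prod.ext ?_ ?_
  · funext v
    obtain ⟨l, k⟩ := v
    simp only
    by_cases hl : l = []
    · subst hl
      simp only [if_true]
      apply max_eq_right
      rw [hx k]
      apply cutT_clamp_mono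
      linarith
    · simp only [if_neg hl]
      obtain ⟨y, l', rfl⟩ := List.exists_cons_of_ne_nil hl
      by_cases hz : p.1 (y :: l', k) = 0
      · rw [hz]
        apply min_eq_left
        unfold thZ
        exact le_max_left _ _
      · have hxk : kaT p = (k : ℝ) := hx2 y l' k hz
        have hk1 : 1 ≤ k := by
          have : (1:ℝ) ≤ (k:ℝ) := by rw [← hxk]; linarith
          exact_mod_cast this
        have hht : htI (y :: l', k) ≤ k - 1 := by
          simp only [htI, List.length_cons]
          push_cast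
          omega
        have h1 : thZ (htI (y :: l', k)) (1 + kaT p) ≤ thZ (k - 1) (1 + kaT p) := thZ_mono hht _
        have h2 : thZ (k - 1) (1 + kaT p) = 0 := by
          rw [thZ_nonneg_height (by omega), hxk]
          push_cast
          rw [min_eq_right (by linarith), max_eq_left (by linarith)]
        have h3 : 0 ≤ thZ (htI (y :: l', k)) (1 + kaT p) := by
          unfold thZ
          exact le_max_left _ _
        have h4 : thZ (htI (y :: l', k)) (1 + kaT p) = 0 := le_antisymm (by rw [← h2]; exact h1) h3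
        rw [h4]
        exact min_eq_right (DT_bounds hp _).1
  · simp only
    rw [max_eq_right hle, min_eq_right (by linarith)]

theorem cutT_mem {p : (List A × ℤ → ℝ) × ℝ} (hp : p ∈ DT) {M : ℝ} (hM : 1 ≤ M) :
    cutT p M ∈ DT := by
  rcases le_or_gt (kaT p) (M - 1) with h | h
  · rw [cutT_caseA hp hM h]
    exact hp
  · rcases lt_or_ge (kaT p) M with h2 | h2
    · obtain ⟨hb, h3 | h3⟩ := cutT_caseB hp hM h h2
      · rw [h3]
        exact hp
      · rw [h3]
        exact liftT_mem hp hb
    · rw [cutT_caseC hp hM h2]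
      exact topT_mem (by linarith)

theorem cutT_eq {p : (List A × ℤ → ℝ) × ℝ} (hp : p ∈ DT) {M : ℝ} (hM : 1 ≤ M)
    (h : kaT p ≤ M - 1) : cutT p M = p :=
  cutT_caseA hp hM h

theorem le_kaT_cutT {p : (List A × ℤ → ℝ) × ℝ} (hp : p ∈ DT) {M : ℝ} (hM : 1 ≤ M) :
    min (kaT p) (M - 1) ≤ kaT (cutT p M) := by
  rcases le_or_gt (kaT p) (M - 1) with h | h
  · rw [cutT_caseA hp hM h]
    exact min_le_left _ _
  · rcases lt_or_ge (kaT p) M with h2 | h2
    · obtain ⟨hb, h3 | h3⟩ := cutT_caseB hp hM h h2
      · rw [h3]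
        exact min_le_left _ _
      · rw [h3]
        exact (min_le_left _ _).trans (kaT_liftT hp hb)
    · rw [cutT_caseC hp hM h2]
      have h3 : kaT (topT M) = max 0 M := by
        apply kaT_eq (topT_mem (by linarith))
        intro k
        simp [topT]
      rw [h3, max_eq_right (by linarith)]
      exact (min_le_right _ _).trans (by linarith)

theorem cutT_pos {p : (List A × ℤ → ℝ) × ℝ} (hp : p ∈ DT) {M : ℝ} (hM : 1 ≤ M)
    (h : 0 < p.2) : 0 < (cutT p M).2 := by
  unfold cutT
  simp only
  exact lt_min (lt_max_of_lt_left h) (by linarith)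

theorem cutT_top {p : (List A × ℤ → ℝ) × ℝ} (hp : p ∈ DT) {M : ℝ} (hM : 1 ≤ M)
    (h : M ≤ kaT p) : cutT p M = topT M :=
  cutT_caseC hp hM h

theorem cont_max' {α : Type*} [TopologicalSpace α] {s : Set α} {f g : α → ℝ} (hf : ContinuousOn f s)
    (hg : ContinuousOn g s) : ContinuousOn (fun x => max (f x) (g x)) s :=
  continuous_max.comp_continuousOn (hf.prodMk hg)

theorem cont_min' {α : Type*} [TopologicalSpace α] {s : Set α} {f g : α → ℝ} (hf : ContinuousOn f s)
    (hg : ContinuousOn g s) : ContinuousOn (fun x => min (f x) (g x)) s :=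
  continuous_min.comp_continuousOn (hf.prodMk hg)

theorem continuousOn_cutT :
    ContinuousOn (fun x : ((List A × ℤ → ℝ) × ℝ) × ℝ => cutT x.1 x.2) (DT ×ˢ Ici 1) := by
  have hk : ContinuousOn (fun x : ((List A × ℤ → ℝ) × ℝ) × ℝ => kaT x.1) (DT ×ˢ Ici 1) :=
    continuousOn_kaT.comp continuous_fst.continuousOn (fun x hx => hx.1)
  have hs : ContinuousOn (fun x : ((List A × ℤ → ℝ) × ℝ) × ℝ => x.2) (DT ×ˢ Ici 1) :=
    continuous_snd.continuousOn
  have hb : ContinuousOn (fun x : ((List A × ℤ → ℝ) × ℝ) × ℝ => bT x.1 x.2) (DT ×ˢ Ici 1) := by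
    unfold bT
    refine ContinuousOn.mul ?_ (continuousOn_const.add hk)
    exact cont_max' continuousOn_const (cont_min' continuousOn_const ((hk.add continuousOn_const).sub hs))
  have hv : ∀ v : List A × ℤ,
      ContinuousOn (fun x : ((List A × ℤ → ℝ) × ℝ) × ℝ => x.1.1 v) (DT ×ˢ Ici 1) := fun v =>
    ((continuous_apply v).comp (continuous_fst.comp continuous_fst)).continuousOn
  have hp2 : ContinuousOn (fun x : ((List A × ℤ → ℝ) × ℝ) × ℝ => x.1.2) (DT ×ˢ Ici 1) :=
    (continuous_snd.comp continuous_fst).continuousOn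
  unfold cutT
  refine ContinuousOn.prodMk ?_ ?_
  · rw [continuousOn_pi]
    intro v
    by_cases hl : v.1 = []
    · simp only [if_pos hl]
      exact cont_max' (hv v) (cont_max' continuousOn_const (cont_min' continuousOn_const (continuousOn_const.sub hs)))
    · simp only [if_neg hl]
      refine cont_min' (hv v) ?_
      unfold thZ
      exact cont_max' continuousOn_const (cont_min' continuousOn_const ((continuousOn_const.sub hb).div_const _))
  · exact cont_min' (cont_max' hp2 hb) (continuousOn_const.add hs)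

end Pool.Agent.Helper376.CL
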