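import Mathlib
import Pool.Agent.Helper376.CL.DTDefs
import Pool.Agent.Helper376.CL.DT1
import Pool.Agent.Helper376.CL.DT2
import Pool.Agent.Helper376.CL.DT3
import Pool.Agent.Helper376.CL.HoroDefs

set_option maxHeartbeats 4000000
set_option synthInstance.maxHeartbeats 400000

namespace Pool.Agent.Helper376.CL

open Set Topology

/-- the horo space of the tree -/
theorem exists_horoT : ∃ h : Horo ↥DT, ∀ p, h.Lam p = p.1.2 := by
  classical
  refine ⟨{
    Lam := fun p => p.1.2
    ka := fun p => kaT p.1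
    lift := fun p a => if ha : 0 ≤ a then ⟨liftT p.1 a, liftT_mem p.2 ha⟩ else p
    cut := fun p M => if hM : 1 ≤ M then ⟨cutT p.1 M, cutT_mem p.2 hM⟩ else p
    top := fun M => if hM : 0 ≤ M then ⟨topT M, topT_mem hM⟩ else ⟨topT 0, topT_mem le_rfl⟩
    Lam_cont := continuous_snd.comp continuous_subtype_val
    Lam_nonneg := fun p => p.2.1
    ka_cont := continuousOn_iff_continuous_domRestrict.1 continuousOn_kaT
    ka_nonneg := fun p => tsum_nonneg fun k => by
      have := (DT_bounds p.2 ([], (k:ℤ))).2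
      linarith
    ka_proper := kaT_proper
    lift_cont := ?_
    Lam_lift := ?_
    lift_of_le := ?_
    ka_lift := ?_
    cut_cont := ?_
    cut_eq := ?_
    le_ka_cut := ?_
    Lam_cut_pos := ?_
    cut_top := ?_
    Lam_le := fun p => kaT_le p.2
  }, fun p => rfl⟩
  · rw [Topology.IsInducing.subtypeVal.continuousOn_iff]
    have hc : Continuous (fun x : ↥DT × ℝ => liftT x.1.1 x.2) :=
      continuous_liftT.comp ((continuous_subtype_val.comp continuous_fst).prodMk continuous_snd)
    refine hc.continuousOn.congr ?_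
    rintro ⟨p, a⟩ ⟨-, ha⟩
    have ha' : (0:ℝ) ≤ a := ha
    simp [ha']
  · intro p a ha
    simp only [dif_pos ha]
    rfl
  · intro p a ha h
    simp only [dif_pos ha]
    exact Subtype.ext (liftT_of_le p.2 ha h)
  · intro p a ha
    simp only [dif_pos ha]
    exact kaT_liftT p.2 ha
  · rw [Topology.IsInducing.subtypeVal.continuousOn_iff]
    have hc : ContinuousOn (fun x : ↥DT × ℝ => cutT x.1.1 x.2) (univ ×ˢ Ici 1) := by
      have h1 : Continuous (fun x : ↥DT × ℝ => ((x.1.1, x.2) : ((List A × ℤ → ℝ) × ℝ) × ℝ)) :=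
        (continuous_subtype_val.comp continuous_fst).prodMk continuous_snd
      exact continuousOn_cutT.comp h1.continuousOn (fun x hx => ⟨x.1.2, hx.2⟩)
    refine hc.congr ?_
    rintro ⟨p, a⟩ ⟨-, ha⟩
    have ha' : (1:ℝ) ≤ a := ha
    simp [ha']
  · intro p M hM h
    simp only [dif_pos hM]
    exact Subtype.ext (cutT_eq p.2 hM h)
  · intro p M hM
    simp only [dif_pos hM]
    exact le_kaT_cutT p.2 hM
  · intro p M hM h
    simp only [dif_pos hM]
    exact cutT_pos p.2 hM h
  · intro p M hM h
    have hM0 : (0:ℝ) ≤ M := by linarith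
    simp only [dif_pos hM, dif_pos hM0]
    exact Subtype.ext (cutT_top p.2 hM h)

end Pool.Agent.Helper376.CL
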