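import Mathlib

set_option maxHeartbeats 4000000
set_option synthInstance.maxHeartbeats 400000

namespace Pool.Agent.Helper376.CL

open Set Topology

section BrouwerAux
variable {X : Type} [TopologicalSpace X]

/-- the property required from the true half `B` of a piece `A` at stage `C` -/
def BrGood (C A B : Set X) : Prop :=
  IsClopen B ∧ B ⊆ A ∧ B.Nonempty ∧ (A \ B).Nonempty ∧
    ∀ x ∈ A, ∀ y ∈ A, x ∈ C → y ∉ C → x ∈ B ∧ y ∉ B

theorem brGood_exists [CompactSpace X] [T2Space X] [TotallyDisconnectedSpace X]
    (hperf : ∀ x : X, ¬ IsOpen ({x} : Set X)) {C A : Set X} (hC : IsClopen C) (hA : IsClopen A)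
    (hne : A.Nonempty) : ∃ B, BrGood C A B := by
  have : TotallySeparatedSpace X := inferInstance
  by_cases h : (A ∩ C).Nonempty ∧ (A \ C).Nonempty
  · refine ⟨A ∩ C, hA.inter hC, inter_subset_left, h.1, ?_, ?_⟩
    · obtain ⟨y, hy, hyC⟩ := h.2
      exact ⟨y, hy, fun hh => hyC hh.2⟩
    · intro x hx y hy hxC hyC
      exact ⟨⟨hx, hxC⟩, fun hh => hyC hh.2⟩
  · obtain ⟨x, hx⟩ := hne
    obtain ⟨y, hy, hyx⟩ : ∃ y ∈ A, y ≠ x := by
      by_contra hcon
      push Not at hcon
      have : A = {x} := by
        ext z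
        constructor
        · intro hz; exact hcon z hz
        · intro hz; rw [mem_singleton_iff] at hz; rw [hz]; exact hx
      exact hperf x (this ▸ hA.isOpen)
    obtain ⟨U, hU, hyU, hxU⟩ := exists_isClopen_of_totally_separated hyx
    refine ⟨A ∩ U, hA.inter hU, inter_subset_left, ⟨y, hy, hyU⟩, ⟨x, hx, fun hh => hxU hh.2⟩, ?_⟩
    intro a ha b hb haC hbC
    exact absurd ⟨⟨a, ha, haC⟩, ⟨b, hb, hbC⟩⟩ h

open Classical in
/-- chosen half -/
noncomputable def brSplit (C A : Set X) : Set X :=
  if h : ∃ B, BrGood C A B then h.choose else ∅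

theorem brSplit_spec {C A : Set X} (h : ∃ B, BrGood C A B) : BrGood C A (brSplit C A) := by
  rw [brSplit, dif_pos h]
  exact h.choose_spec

/-- the scheme -/
noncomputable def brA (C : ℕ → Set X) : List Bool → Set X
  | [] => univ
  | (b :: s) => if b then brSplit (C s.length) (brA C s) else brA C s \ brSplit (C s.length) (brA C s)

open Classical in
/-- the prefix of the branch of `x` -/
noncomputable def brP (C : ℕ → Set X) (x : X) : ℕ → List Bool
  | 0 => []
  | n + 1 => decide (x ∈ brSplit (C n) (brA C (brP C x n))) :: brP C x n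

theorem brP_length (C : ℕ → Set X) (x : X) (n : ℕ) : (brP C x n).length = n := by
  induction n with
  | zero => rfl
  | succ n ih => simp [brP, ih]

theorem mem_brA_brP (C : ℕ → Set X) (x : X) (n : ℕ) : x ∈ brA C (brP C x n) := by
  induction n with
  | zero => trivial
  | succ n ih =>
    rw [brP, brA, brP_length]
    by_cases h : x ∈ brSplit (C n) (brA C (brP C x n))
    · simp [h]
    · simp [h, ih]

variable [CompactSpace X] [T2Space X] [TotallyDisconnectedSpace X] [Nonempty X]

theorem brA_clopen (hperf : ∀ x : X, ¬ IsOpen ({x} : Set X)) {C : ℕ → Set X}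
    (hC : ∀ n, IsClopen (C n)) (s : List Bool) : IsClopen (brA C s) ∧ (brA C s).Nonempty := by
  induction s with
  | nil => exact ⟨isClopen_univ, univ_nonempty⟩
  | cons b s ih =>
    have hg := brSplit_spec (brGood_exists hperf (hC s.length) ih.1 ih.2)
    cases b
    · simp only [brA, Bool.false_eq_true, if_false]
      exact ⟨ih.1.diff hg.1, hg.2.2.2.1⟩
    · simp only [brA, if_true]
      exact ⟨hg.1, hg.2.2.1⟩

theorem brA_good (hperf : ∀ x : X, ¬ IsOpen ({x} : Set X)) {C : ℕ → Set X}
    (hC : ∀ n, IsClopen (C n)) (s : List Bool) (n : ℕ) :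
    BrGood (C n) (brA C s) (brSplit (C n) (brA C s)) :=
  brSplit_spec (brGood_exists hperf (hC n) (brA_clopen hperf hC s).1 (brA_clopen hperf hC s).2)

open Classical in
/-- the branch -/
noncomputable def brF (C : ℕ → Set X) (x : X) : ℕ → Bool :=
  fun n => decide (x ∈ brSplit (C n) (brA C (brP C x n)))

theorem brF_true_iff (C : ℕ → Set X) (x : X) (n : ℕ) :
    brF C x n = true ↔ x ∈ brSplit (C n) (brA C (brP C x n)) := by
  simp [brF]

theorem brP_succ (C : ℕ → Set X) (x : X) (n : ℕ) : brP C x (n + 1) = brF C x n :: brP C x n := rfl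

theorem brP_congr (C : ℕ → Set X) {x y : X} (h : brF C x = brF C y) (n : ℕ) :
    brP C x n = brP C y n := by
  induction n with
  | zero => rfl
  | succ n ih => rw [brP_succ, brP_succ, ih, h]

theorem brF_injective (hperf : ∀ x : X, ¬ IsOpen ({x} : Set X)) {C : ℕ → Set X}
    (hC : ∀ n, IsClopen (C n)) (hCs : ∀ U : Set X, IsClopen U → ∃ n, C n = U) :
    Function.Injective (brF C) := by
  have : TotallySeparatedSpace X := inferInstance
  intro x y hxy
  by_contra hne
  obtain ⟨U, hU, hxU, hyU⟩ := exists_isClopen_of_totally_separated hne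
  obtain ⟨n, hn⟩ := hCs U hU
  have hp := brP_congr C hxy n
  have hx := mem_brA_brP C x n
  have hy := mem_brA_brP C y n
  rw [← hp] at hy
  have hg := (brA_good hperf hC (brP C x n) n).2.2.2.2 x hx y hy (hn ▸ hxU) (hn ▸ hyU)
  have h1 : brF C x n = true := by simp [brF, hg.1]
  have h2 : brF C y n = false := by
    simp only [brF, decide_eq_false_iff_not]
    rw [← hp]; exact hg.2
  rw [hxy, h2] at h1
  exact absurd h1 (by simp)

theorem brP_locallyConst (hperf : ∀ x : X, ¬ IsOpen ({x} : Set X)) {C : ℕ → Set X}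
    (hC : ∀ n, IsClopen (C n)) (n : ℕ) (x : X) : ∀ᶠ y in 𝓝 x, brP C y n = brP C x n := by
  induction n with
  | zero => exact Filter.Eventually.of_forall fun y => rfl
  | succ n ih =>
    have hcl := (brA_good hperf hC (brP C x n) n).1
    by_cases hx : x ∈ brSplit (C n) (brA C (brP C x n))
    · filter_upwards [ih, hcl.isOpen.mem_nhds hx] with y hy hy2
      rw [brP_succ, brP_succ, hy]
      congr 1
      rw [(brF_true_iff C x n).2 hx, (brF_true_iff C y n).2 (by rw [hy]; exact hy2)]
    · filter_upwards [ih, hcl.compl.isOpen.mem_nhds hx] with y hy hy2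
      rw [brP_succ, brP_succ, hy]
      congr 1
      have hy3 : ¬ brF C y n = true := by rw [brF_true_iff, hy]; exact hy2
      have hx3 : ¬ brF C x n = true := by rw [brF_true_iff]; exact hx
      rw [Bool.not_eq_true] at hy3 hx3
      rw [hy3, hx3]

theorem brF_continuous (hperf : ∀ x : X, ¬ IsOpen ({x} : Set X)) {C : ℕ → Set X}
    (hC : ∀ n, IsClopen (C n)) : Continuous (brF C) := by
  refine continuous_pi fun n => continuous_iff_continuousAt.2 fun x => ?_
  have h := brP_locallyConst hperf hC (n + 1) x
  have h2 : ∀ᶠ y in 𝓝 x, brF C y n = brF C x n := by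
    filter_upwards [h] with y hy
    rw [brP_succ, brP_succ] at hy
    exact (List.cons.inj hy).1
  exact (continuousAt_const (y := brF C x n)).congr (h2.mono fun y hy => hy.symm)

/-- prefix of a sequence -/
def brQ (b : ℕ → Bool) : ℕ → List Bool
  | 0 => []
  | n + 1 => b n :: brQ b n

theorem brQ_length (b : ℕ → Bool) (n : ℕ) : (brQ b n).length = n := by
  induction n with
  | zero => rfl
  | succ n ih => simp [brQ, ih]

theorem brF_surjective (hperf : ∀ x : X, ¬ IsOpen ({x} : Set X)) {C : ℕ → Set X}
    (hC : ∀ n, IsClopen (C n)) : Function.Surjective (brF C) := by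
  intro b
  have hsub : ∀ n, brA C (brQ b (n + 1)) ⊆ brA C (brQ b n) := by
    intro n
    rw [brQ, brA]
    cases b n
    · simp only [Bool.false_eq_true, if_false]; exact sdiff_subset
    · simp only [if_true]; rw [brQ_length]; exact (brA_good hperf hC (brQ b n) n).2.1
  obtain ⟨x, hx⟩ := IsCompact.nonempty_iInter_of_sequence_nonempty_isCompact_isClosed
    (fun n => brA C (brQ b n)) hsub (fun n => (brA_clopen hperf hC _).2)
    ((brA_clopen hperf hC _).1.isClosed.isCompact) (fun n => (brA_clopen hperf hC _).1.isClosed)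
  rw [mem_iInter] at hx
  refine ⟨x, ?_⟩
  have step : ∀ n, brP C x n = brQ b n → brF C x n = b n := by
    intro n hn
    have h1 := hx (n + 1)
    simp only [brQ, brA, brQ_length] at h1
    cases hb : b n
    · rw [hb] at h1
      simp only [Bool.false_eq_true, if_false] at h1
      have h3 : ¬ brF C x n = true := by rw [brF_true_iff, hn]; exact h1.2
      rwa [Bool.not_eq_true] at h3
    · rw [hb] at h1
      simp only [if_true] at h1
      rw [brF_true_iff, hn]; exact h1
  have hP : ∀ n, brP C x n = brQ b n := by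
    intro n
    induction n with
    | zero => rfl
    | succ n ih => rw [brP_succ, brQ, step n ih, ih]
  funext n
  exact step n (hP n)

end BrouwerAux

/-- Brouwer's characterisation of the Cantor set -/
theorem brouwer_cantor (X : Type) [TopologicalSpace X] [CompactSpace X] [T2Space X]
    [SecondCountableTopology X] [TotallyDisconnectedSpace X] [Nonempty X]
    (hperf : ∀ x : X, ¬ IsOpen ({x} : Set X)) : Nonempty (X ≃ₜ (ℕ → Bool)) := by
  have : Countable (TopologicalSpace.Clopens X) :=
    TopologicalSpace.Clopens.countable_iff_secondCountable.2 inferInstance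
  obtain ⟨e, he⟩ := exists_surjective_nat (TopologicalSpace.Clopens X)
  let C : ℕ → Set X := fun n => (e n : Set X)
  have hC : ∀ n, IsClopen (C n) := fun n => (e n).isClopen
  have hCs : ∀ U : Set X, IsClopen U → ∃ n, C n = U := by
    intro U hU
    obtain ⟨n, hn⟩ := he ⟨U, hU⟩
    exact ⟨n, by simp [C, hn]⟩
  exact ⟨Continuous.homeoOfEquivCompactToT2
    (f := Equiv.ofBijective (brF C) ⟨brF_injective hperf hC hCs, brF_surjective hperf hC⟩)
    (brF_continuous hperf hC)⟩

end Pool.Agent.Helper376.CL
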