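import Mathlib
import Pool.Agent.Helper376.CL.DTDefs
import Pool.Agent.Helper376.CL.DT1
import Pool.Agent.Helper376.CL.HoroDefs
import Pool.Agent.Helper376.CL.Brouwer

set_option maxHeartbeats 4000000
set_option synthInstance.maxHeartbeats 400000

namespace Pool.Agent.Helper376.CL

open Set Topology

open Filter

/-- the ray from `v` in the direction of the letter `x` -/
def Ray (x : A) (v : List A × ℤ) : Set (List A × ℤ) :=
  {u | ∃ m : ℕ, u = (List.replicate m x ++ v.1, v.2)}

open Classical in
/-- replace everything below `v` by the ray -/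
noncomputable def extR (c : List A × ℤ → ℝ) (x : A) (v : List A × ℤ) : List A × ℤ → ℝ := fun u =>
  if htI v ≤ htI u then c u else if u ∈ Ray x v then 1 else 0

theorem self_mem_ray (x : A) (v : List A × ℤ) : v ∈ Ray x v := ⟨0, by simp⟩

theorem ray_ht {x : A} {v : List A × ℤ} (m : ℕ) :
    htI (List.replicate m x ++ v.1, v.2) = htI v - m := by
  simp only [htI, List.length_append, List.length_replicate]
  push_cast
  ring

theorem ray_cons {x y : A} {v : List A × ℤ} {l : List A} {k : ℤ} (h : htI (y :: l, k) < htI v) :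
    (y :: l, k) ∈ Ray x v ↔ y = x ∧ (l, k) ∈ Ray x v := by
  constructor
  · rintro ⟨m, hm⟩
    rcases m with _ | m
    · rw [hm, ray_ht] at h
      simp at h
    · rw [List.replicate_succ, List.cons_append, Prod.mk.injEq, List.cons.injEq] at hm
      exact ⟨hm.1.1, m, by rw [hm.1.2, hm.2]⟩
  · rintro ⟨rfl, m, hm⟩
    rw [Prod.mk.injEq] at hm
    refine ⟨m + 1, ?_⟩
    rw [List.replicate_succ, List.cons_append, hm.1, hm.2]

theorem ray_nil {x : A} {v : List A × ℤ} {k : ℤ} (h : htI ([], k) < htI v) :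
    (([], k) : List A × ℤ) ∉ Ray x v := by
  rintro ⟨m, hm⟩
  have h1 : (0 : ℕ) = m + v.1.length := by
    have := congrArg (fun u : List A × ℤ => u.1.length) hm
    simpa using this
  have hm0 : m = 0 := by omega
  rw [hm, ray_ht, hm0] at h
  simp at h

theorem ray_eq_of_ht {x : A} {v u : List A × ℤ} (hu : u ∈ Ray x v) (h : htI u = htI v) : u = v := by
  obtain ⟨m, rfl⟩ := hu
  rw [ray_ht] at h
  have : m = 0 := by omega
  rw [this]
  simp

theorem extR_high {c : List A × ℤ → ℝ} {x : A} {v u : List A × ℤ} (h : htI v ≤ htI u) :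
    extR c x v u = c u := by
  unfold extR; rw [if_pos h]

open Classical in
theorem extR_low {c : List A × ℤ → ℝ} {x : A} {v u : List A × ℤ}
    (hp : ((c, (0 : ℝ)) : (List A × ℤ → ℝ) × ℝ) ∈ DT) (hv : c v = 1) (h : htI u ≤ htI v) :
    extR c x v u = if u ∈ Ray x v then 1 else 0 := by
  unfold extR
  by_cases h1 : htI v ≤ htI u
  · rw [if_pos h1]
    have h2 : htI u = htI v := le_antisymm h h1
    by_cases h3 : u ∈ Ray x v
    · rw [if_pos h3, ray_eq_of_ht h3 h2, hv]
    · rw [if_neg h3]
      by_contra h4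
      have h5 : u = v := DT_unique_height hp h2 h4 (by
        change c v ≠ 0
        rw [hv]; exact one_ne_zero)
      exact h3 (h5 ▸ self_mem_ray x v)
  · rw [if_neg h1]

theorem extR_01 {c : List A × ℤ → ℝ} {x : A} {v : List A × ℤ}
    (hp : ((c, (0 : ℝ)) : (List A × ℤ → ℝ) × ℝ) ∈ DT) (u : List A × ℤ) :
    extR c x v u = 0 ∨ extR c x v u = 1 := by
  unfold extR
  split_ifs
  · have := hp.2.1 u
    simpa only [thZ_zero] using this
  · exact Or.inr rfl
  · exact Or.inl rfl

theorem extR_mem {c : List A × ℤ → ℝ} {x : A} {v : List A × ℤ}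
    (hp : ((c, (0 : ℝ)) : (List A × ℤ → ℝ) × ℝ) ∈ DT) (hv : c v = 1) (hx : ok x v.1) :
    ((extR c x v, (0 : ℝ)) : (List A × ℤ → ℝ) × ℝ) ∈ DT := by
  classical
  refine ⟨le_rfl, ?_, ?_, ?_, ?_⟩
  · intro u
    simp only [thZ_zero]
    exact extR_01 hp u
  · intro u
    simp only [thZ_zero]
    have hle : extR c x v u ≤ 1 := by
      rcases extR_01 (x := x) (v := v) hp u with h | h <;> rw [h] <;> norm_num
    rw [min_eq_left hle]
    by_cases hu : htI v ≤ htI u - 1
    · have e1 : chs (extR c x v) u = chs c u := by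
        unfold chs
        congr 1
        · by_cases h0 : u.1 = []
          · rw [if_pos h0, if_pos h0]
            apply extR_high
            refine hu.trans (le_of_eq ?_)
            simp only [htI, h0]
            simp
          · rw [if_neg h0, if_neg h0]
        · refine Finset.sum_congr rfl fun y _ => ?_
          apply extR_high
          refine hu.trans (le_of_eq ?_)
          simp only [htI, List.length_cons]
          push_cast
          ring
      have e2 := hp.2.2.1 u
      simp only [thZ_zero] at e2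
      have e3 : c u ≤ 1 := (DT_bounds hp u).2
      rw [e1, e2, min_eq_left e3, extR_high (by omega)]
    · have hu' : htI u ≤ htI v := by omega
      rw [extR_low hp hv hu']
      unfold chs
      have e1 : (if u.1 = [] then extR c x v ([], u.2 - 1) else 0) = 0 := by
        by_cases h0 : u.1 = []
        · rw [if_pos h0]
          have h1 : htI (([], u.2 - 1) : List A × ℤ) = htI u - 1 := by
            simp only [htI, h0]
            simp
          rw [extR_low hp hv (by omega), if_neg (ray_nil (by omega))]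
        · rw [if_neg h0]
      rw [e1, zero_add]
      have e2 : ∀ y : A, extR c x v (y :: u.1, u.2) = if y = x ∧ u ∈ Ray x v then 1 else 0 := by
        intro y
        have h1 : htI ((y :: u.1, u.2) : List A × ℤ) = htI u - 1 := by
          simp only [htI, List.length_cons]
          push_cast
          ring
        rw [extR_low hp hv (by omega)]
        congr 1
        rw [ray_cons (by omega)]
      simp only [e2]
      by_cases h0 : u ∈ Ray x v
      · simp [h0]
      · simp [h0]
  · intro y l k hyl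
    change extR c x v (y :: l, k) = 0
    unfold extR
    split_ifs with h1 h2
    · exact hp.2.2.2.1 y l k hyl
    · exfalso
      rw [ray_cons (not_le.1 h1)] at h2
      obtain ⟨rfl, m, hm⟩ := h2
      rw [Prod.mk.injEq] at hm
      apply hyl
      rw [hm.1]
      rcases m with _ | m
      · simpa using hx
      · rw [List.replicate_succ, List.cons_append]
        intro _
        rfl
    · rfl
  · obtain ⟨N, hN⟩ := hp.2.2.2.2
    refine ⟨max N (htI v), fun k hk => ?_⟩
    have h1 : htI (([], k) : List A × ℤ) = k := by simp [htI]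
    change extR c x v ([], k) = 1
    rw [extR_high (by rw [h1]; exact (le_max_right _ _).trans hk)]
    exact hN k ((le_max_left _ _).trans hk)

/-- a direction which is always allowed -/
def dirL : List A → Fin 2
  | [] => 1
  | (y :: _) => y.1 + 1

theorem ok_dirL (l : List A) (b : Bool) : ok (dirL l, b) l := by
  cases l with
  | nil => exact (by decide : (1 : Fin 2) ≠ 0)
  | cons y l =>
    intro h
    exfalso
    change y.1 + 1 = y.1 at h
    have : ∀ i : Fin 2, i + 1 ≠ i := by decide
    exact this _ h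

theorem extR_child {c : List A × ℤ → ℝ} {x : A} {v : List A × ℤ} (y : A)
    (hp : ((c, (0 : ℝ)) : (List A × ℤ → ℝ) × ℝ) ∈ DT) (hv : c v = 1) :
    (y = x → extR c x v (y :: v.1, v.2) = 1) ∧ (y ≠ x → extR c x v (y :: v.1, v.2) = 0) := by
  classical
  have h1 : htI ((y :: v.1, v.2) : List A × ℤ) = htI v - 1 := by
    simp only [htI, List.length_cons]
    push_cast
    ring
  rw [extR_low hp hv (by omega)]
  constructor
  · intro h
    rw [if_pos]
    rw [ray_cons (by omega)]
    exact ⟨h, self_mem_ray _ _⟩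
  · intro h
    rw [if_neg]
    rw [ray_cons (by omega)]
    exact fun h2 => h h2.1

theorem exists_other {c : List A × ℤ → ℝ} {v : List A × ℤ}
    (hp : ((c, (0 : ℝ)) : (List A × ℤ → ℝ) × ℝ) ∈ DT) (hv : c v = 1) :
    ∃ c' : List A × ℤ → ℝ, ((c', (0 : ℝ)) : (List A × ℤ → ℝ) × ℝ) ∈ DT ∧ c' ≠ c ∧
      ∀ u, htI v ≤ htI u → c' u = c u := by
  by_cases h : extR c (dirL v.1, true) v = c
  · refine ⟨extR c (dirL v.1, false) v, extR_mem hp hv (ok_dirL _ _), ?_, fun u hu => extR_high hu⟩
    intro h2
    have e1 := (extR_child (x := (dirL v.1, true)) (dirL v.1, true) hp hv).1 rfl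
    have e2 := (extR_child (x := (dirL v.1, false)) (dirL v.1, true) hp hv).2 (by simp)
    rw [h] at e1
    rw [h2, e1] at e2
    exact one_ne_zero e2
  · exact ⟨_, extR_mem hp hv (ok_dirL _ _), h, fun u hu => extR_high hu⟩

theorem decomp (Q : Type) [TopologicalSpace Q] (κ : Q → ℕ) (hκ : Continuous κ)
    (h : ∀ n, Nonempty ({q // κ q = n} ≃ₜ (ℕ → Bool))) : Nonempty (Q ≃ₜ ℕ × (ℕ → Bool)) := by
  have e : ∀ n, {q // κ q = n} ≃ₜ (ℕ → Bool) := fun n => (h n).some
  have key : ∀ (q : Q) (m : ℕ) (hm : κ q = m), e (κ q) ⟨q, rfl⟩ = e m ⟨q, hm⟩ := by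
    intro q m hm
    subst hm
    rfl
  refine ⟨{ toFun := fun q => (κ q, e (κ q) ⟨q, rfl⟩)
            invFun := fun z => ((e z.1).symm z.2).1
            left_inv := ?_
            right_inv := ?_
            continuous_toFun := ?_
            continuous_invFun := ?_ }⟩
  · intro q
    simp
  · rintro ⟨n, b⟩
    have h1 : κ ((e n).symm b).1 = n := ((e n).symm b).2
    refine Prod.ext h1 ?_
    change e (κ ((e n).symm b).1) ⟨((e n).symm b).1, rfl⟩ = b
    rw [key _ n h1]
    exact (e n).apply_symm_apply b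
  · refine hκ.prodMk ?_
    rw [continuous_iff_continuousAt]
    intro q0
    have hopen : IsOpen {q | κ q = κ q0} := hκ.isOpen_preimage {κ q0} (isOpen_discrete _)
    refine ContinuousOn.continuousAt (s := {q | κ q = κ q0}) ?_ (hopen.mem_nhds rfl)
    rw [continuousOn_iff_continuous_restrict]
    have : ({q | κ q = κ q0}.domRestrict fun q => e (κ q) ⟨q, rfl⟩) = fun q => e (κ q0) q := by
      funext q
      exact key q.1 (κ q0) q.2
    rw [this]
    exact (e (κ q0)).continuous
  · rw [continuous_prod_of_discrete_left]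
    intro n
    exact continuous_subtype_val.comp (e n).symm.continuous

theorem QC_closed (k : ℕ) : IsCompact {p : (List A × ℤ → ℝ) × ℝ | p ∈ DT ∧ p.2 = 0 ∧
    (p.1 ([], (k : ℤ)) = 1 ∧ ∀ j < k, ¬ p.1 ([], (j : ℤ)) = 1)} := by
  have hchs : ∀ v : List A × ℤ, Continuous fun p : (List A × ℤ → ℝ) × ℝ => chs p.1 v := by
    intro v
    unfold chs
    by_cases h : v.1 = []
    · simp only [if_pos h]
      fun_prop
    · simp only [if_neg h]
      fun_prop
  have hap : ∀ v : List A × ℤ, Continuous fun p : (List A × ℤ → ℝ) × ℝ => p.1 v := by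
    intro v; fun_prop
  have heq : {p : (List A × ℤ → ℝ) × ℝ | p ∈ DT ∧ p.2 = 0 ∧
      (p.1 ([], (k : ℤ)) = 1 ∧ ∀ j < k, ¬ p.1 ([], (j : ℤ)) = 1)} =
      {p | p.2 = 0} ∩ (⋂ v, {p | p.1 v = 0 ∨ p.1 v = 1}) ∩ (⋂ v, {p | chs p.1 v = p.1 v}) ∩
      (⋂ x, ⋂ l, ⋂ k', {p | ¬ ok x l → p.1 (x :: l, k') = 0}) ∩ {p | p.1 ([], (k : ℤ)) = 1} ∩
      (⋂ j : ℕ, {p | j < k → p.1 ([], (j : ℤ)) = 0}) := by
    ext p
    simp only [mem_inter_iff, mem_iInter, mem_ofPred_eq]
    constructor
    · rintro ⟨hp, h0, h1, h2⟩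
      have h01 : ∀ v, p.1 v = 0 ∨ p.1 v = 1 := by
        intro v
        have := hp.2.1 v
        rwa [h0, thZ_zero] at this
      refine ⟨⟨⟨⟨⟨h0, h01⟩, ?_⟩, ?_⟩, h1⟩, ?_⟩
      · intro v
        have := hp.2.2.1 v
        rw [h0, thZ_zero, min_eq_left (DT_bounds hp v).2] at this
        exact this
      · exact hp.2.2.2.1
      · intro j hj
        exact (h01 _).resolve_right (h2 j hj)
    · rintro ⟨⟨⟨⟨⟨h0, h01⟩, hc⟩, hok⟩, h1⟩, h2⟩
      have hle : ∀ v, p.1 v ≤ 1 := by
        intro v
        rcases h01 v with h | h <;> rw [h] <;> norm_num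
      have hge : ∀ v, 0 ≤ p.1 v := by
        intro v
        rcases h01 v with h | h <;> rw [h] <;> norm_num
      refine ⟨⟨h0.ge, ?_, ?_, hok, (k : ℤ), ?_⟩, h0, h1, ?_⟩
      · intro v
        rw [h0, thZ_zero]
        exact h01 v
      · intro v
        rw [h0, thZ_zero, min_eq_left (hle v)]
        exact hc v
      · intro k' hk'
        induction k', hk' using Int.le_induction with
        | base => exact h1
        | succ n hn ih =>
          have h3 := hc ([], n + 1)
          have h4 : p.1 ([], n) ≤ chs p.1 ([], n + 1) := by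
            unfold chs
            rw [if_pos rfl]
            simp only [add_sub_cancel_right]
            have : 0 ≤ ∑ x : A, p.1 ([x], n + 1) := Finset.sum_nonneg fun x _ => hge _
            linarith
          rw [ih, h3] at h4
          rcases h01 ([], n + 1) with h5 | h5
          · rw [h5] at h4; norm_num at h4
          · exact h5
      · intro j hj h3
        rw [h2 j hj] at h3
        exact zero_ne_one h3
  have hcl : IsClosed {p : (List A × ℤ → ℝ) × ℝ | p ∈ DT ∧ p.2 = 0 ∧
      (p.1 ([], (k : ℤ)) = 1 ∧ ∀ j < k, ¬ p.1 ([], (j : ℤ)) = 1)} := by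
    rw [heq]
    refine ((((IsClosed.inter ?_ ?_).inter ?_).inter ?_).inter ?_).inter ?_
    · exact isClosed_eq continuous_snd continuous_const
    · refine isClosed_iInter fun v => ?_
      exact (isClosed_eq (hap v) continuous_const).union (isClosed_eq (hap v) continuous_const)
    · exact isClosed_iInter fun v => isClosed_eq (hchs v) (hap v)
    · refine isClosed_iInter fun x => isClosed_iInter fun l => isClosed_iInter fun k' => ?_
      by_cases h : ok x l
      · simp [h]
      · simp only [h, not_false_eq_true, forall_const]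
        exact isClosed_eq (hap _) continuous_const
    · exact isClosed_eq (hap _) continuous_const
    · refine isClosed_iInter fun j => ?_
      by_cases h : j < k
      · simp only [h, forall_const]
        exact isClosed_eq (hap _) continuous_const
      · simp [h]
  have hbox : IsCompact ((Set.univ.pi fun _ : List A × ℤ => Set.Icc (0 : ℝ) 1) ×ˢ {(0 : ℝ)}) :=
    (isCompact_univ_pi fun _ => isCompact_Icc).prod isCompact_singleton
  refine hbox.of_isClosed_subset hcl ?_
  rintro p ⟨hp, h0, -⟩
  exact ⟨fun v _ => DT_bounds hp v, h0⟩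

theorem line_mem : (((fun v : List A × ℤ => if v.1 = [] then (1 : ℝ) else 0), (0 : ℝ)) :
    (List A × ℤ → ℝ) × ℝ) ∈ DT := by
  refine ⟨le_rfl, ?_, ?_, ?_, 0, ?_⟩
  · intro v
    simp only [thZ_zero]
    by_cases h : v.1 = [] <;> simp [h]
  · intro v
    simp only [thZ_zero]
    unfold chs
    by_cases h : v.1 = [] <;> simp [h]
  · intro x l k _
    simp
  · intro k _
    simp

/-- the lower ends of the tree: a Cantor set minus a point -/
theorem Q_homeo (h : Horo ↥DT) (hL : ∀ p, h.Lam p = p.1.2) : Nonempty (h.Q ≃ₜ ℕ × (ℕ → Bool)) := by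
  classical
  have h0 : ∀ q : h.Q, q.1.1.2 = 0 := fun q => by rw [← hL]; exact q.2
  have hex : ∀ q : h.Q, ∃ k : ℕ, q.1.1.1 ([], (k : ℤ)) = 1 := by
    intro q
    obtain ⟨N, hN⟩ := q.1.2.2.2.2.2
    exact ⟨N.toNat, hN _ (Int.self_le_toNat N)⟩
  have h01 : ∀ (q : h.Q) (v : List A × ℤ), q.1.1.1 v = 0 ∨ q.1.1.1 v = 1 := by
    intro q v
    have := q.1.2.2.1 v
    rwa [h0 q, thZ_zero] at this
  have hcv : ∀ v : List A × ℤ, Continuous fun q : h.Q => q.1.1.1 v := by
    intro v; fun_prop
  have hclopen : ∀ v : List A × ℤ, IsClopen {q : h.Q | q.1.1.1 v = 1} := by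
    intro v
    refine ⟨isClosed_eq (hcv v) continuous_const, ?_⟩
    have : {q : h.Q | q.1.1.1 v = 1} = {q : h.Q | 1 / 2 < q.1.1.1 v} := by
      ext q
      simp only [mem_ofPred_eq]
      rcases h01 q v with h1 | h1 <;> rw [h1] <;> norm_num
    rw [this]
    exact isOpen_lt continuous_const (hcv v)
  let κ : h.Q → ℕ := fun q => Nat.find (hex q)
  have hκ : ∀ (q : h.Q) (k : ℕ), κ q = k ↔
      (q.1.1.1 ([], (k : ℤ)) = 1 ∧ ∀ j < k, ¬ q.1.1.1 ([], (j : ℤ)) = 1) := by
    intro q k
    exact Nat.find_eq_iff (hex q)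
  have hκc : Continuous κ := by
    rw [continuous_discrete_rng]
    intro k
    have : κ ⁻¹' {k} = {q : h.Q | q.1.1.1 ([], (k : ℤ)) = 1} ∩
        ⋂ j ∈ Finset.range k, {q : h.Q | q.1.1.1 ([], (j : ℤ)) = 1}ᶜ := by
      ext q
      simp only [mem_preimage, mem_singleton_iff, hκ, mem_inter_iff, mem_iInter, Finset.mem_range,
        mem_compl_iff, mem_ofPred_eq]
    rw [this]
    exact (hclopen _).isOpen.inter (isOpen_biInter_finset fun j _ => (hclopen _).compl.isOpen)
  refine decomp h.Q κ hκc fun k => ?_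
  let f : {q : h.Q // κ q = k} → (List A × ℤ → ℝ) × ℝ := fun q => q.1.1.1
  have hf : IsEmbedding f :=
    (IsEmbedding.subtypeVal.comp IsEmbedding.subtypeVal).comp IsEmbedding.subtypeVal
  have hrange : f '' univ = {p : (List A × ℤ → ℝ) × ℝ | p ∈ DT ∧ p.2 = 0 ∧
      (p.1 ([], (k : ℤ)) = 1 ∧ ∀ j < k, ¬ p.1 ([], (j : ℤ)) = 1)} := by
    ext p
    constructor
    · rintro ⟨q, -, rfl⟩
      exact ⟨q.1.1.2, h0 q.1, (hκ q.1 k).1 q.2⟩
    · rintro ⟨hp, hp0, hpk⟩
      exact ⟨⟨⟨⟨p, hp⟩, by rw [hL]; exact hp0⟩, (hκ _ k).2 hpk⟩, mem_univ _, rfl⟩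
  haveI : CompactSpace {q : h.Q // κ q = k} := by
    rw [← isCompact_univ_iff, hf.isInducing.isCompact_iff, hrange]
    exact QC_closed k
  haveI : TotallyDisconnectedSpace {q : h.Q // κ q = k} := by
    let g : {q : h.Q // κ q = k} → (List A × ℤ → Bool) := fun q v => decide (q.1.1.1.1 v = 1)
    have hg : Continuous g := by
      refine continuous_pi fun v => ?_
      have := (hclopen v).preimage (continuous_subtype_val (p := fun q : h.Q => κ q = k))
      rw [continuous_bool_rng true]
      convert this using 1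
      ext q
      simp [g]
    have hgi : Function.Injective g := by
      intro q q' hqq
      apply hf.injective
      refine Prod.ext (funext fun v => ?_) ?_
      · have h3 := congrFun hqq v
        simp only [g, decide_eq_decide] at h3
        change q.1.1.1.1 v = q'.1.1.1.1 v
        rcases h01 q.1 v with h4 | h4 <;> rcases h01 q'.1 v with h5 | h5
        · rw [h4, h5]
        · exact absurd (h3.2 h5) (by rw [h4]; norm_num)
        · exact absurd (h3.1 h4) (by rw [h5]; norm_num)
        · rw [h4, h5]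
      · change q.1.1.1.2 = q'.1.1.1.2
        rw [h0, h0]
    refine ⟨?_⟩
    exact isTotallyDisconnected_of_image hg.continuousOn hgi (isTotallyDisconnected_of_totallyDisconnectedSpace _)
  haveI : Nonempty {q : h.Q // κ q = k} := by
    have hv : (fun v : List A × ℤ => if v.1 = [] then (1 : ℝ) else 0) (([], (k : ℤ)) : List A × ℤ) = 1 := by
      simp
    have hm := extR_mem (x := (dirL [], true)) line_mem hv (ok_dirL _ _)
    refine ⟨⟨⟨⟨_, hm⟩, by rw [hL]⟩, (hκ _ k).2 ⟨?_, ?_⟩⟩⟩
    · have h3 : extR (fun v : List A × ℤ => if v.1 = [] then (1 : ℝ) else 0) (dirL [], true)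
          ([], (k : ℤ)) ([], (k : ℤ)) = 1 := by
        rw [extR_high le_rfl]
        simp
      exact h3
    · intro j hj hcon
      have hj' : htI (([], (j : ℤ)) : List A × ℤ) < htI (([], (k : ℤ)) : List A × ℤ) := by
        simp only [htI, List.length_nil]
        push_cast
        have : (j : ℤ) < k := by exact_mod_cast hj
        linarith
      have h3 : extR (fun v : List A × ℤ => if v.1 = [] then (1 : ℝ) else 0) (dirL [], true)
          ([], (k : ℤ)) ([], (j : ℤ)) = 0 := by
        rw [extR_low line_mem hv hj'.le, if_neg (ray_nil hj')]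
      exact zero_ne_one (h3.symm.trans hcon)
  have : SecondCountableTopology {q : h.Q // κ q = k} := hf.secondCountableTopology
  apply brouwer_cantor
  intro q hq
  have hne : ∀ m : ℕ, ∃ q' : {q : h.Q // κ q = k}, q' ≠ q ∧
      ∀ u, -(m : ℤ) ≤ htI u → q'.1.1.1.1 u = q.1.1.1.1 u := by
    intro m
    have hq0 : ((q.1.1.1.1, (0 : ℝ)) : (List A × ℤ → ℝ) × ℝ) ∈ DT := by
      have h3 := q.1.1.2
      have h4 : (q.1.1.1 : (List A × ℤ → ℝ) × ℝ) = (q.1.1.1.1, 0) := Prod.ext rfl (h0 q.1)
      rwa [h4] at h3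
    obtain ⟨v, hv1, hv2⟩ := DT_level hq0 (-(m : ℤ)) (by
      rw [thZ_zero]; exact one_pos)
    rw [thZ_zero] at hv2
    obtain ⟨c', hc1, hc2, hc3⟩ := exists_other hq0 hv2
    rw [hv1] at hc3
    refine ⟨⟨⟨⟨(c', 0), hc1⟩, by rw [hL]⟩, (hκ _ k).2 ?_⟩, ?_, hc3⟩
    · have h5 : ∀ j : ℕ, c' ([], (j : ℤ)) = q.1.1.1.1 ([], (j : ℤ)) := by
        intro j
        apply hc3
        simp only [htI, List.length_nil]
        push_cast
        have : (0 : ℤ) ≤ j := Int.natCast_nonneg j
        have : (0 : ℤ) ≤ m := Int.natCast_nonneg m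
        linarith
      have h6 := (hκ q.1 k).1 q.2
      refine ⟨?_, fun j hj => ?_⟩
      · change c' ([], (k : ℤ)) = 1
        rw [h5]; exact h6.1
      · change ¬ c' ([], (j : ℤ)) = 1
        rw [h5]; exact h6.2 j hj
    · intro h7
      apply hc2
      have h8 := congrArg (fun q : {q : h.Q // κ q = k} => q.1.1.1.1) h7
      exact h8
  choose q' hq1 hq2 using hne
  have htend : Tendsto q' atTop (𝓝 q) := by
    rw [hf.isInducing.tendsto_nhds_iff, Prod.tendsto_iff]
    constructor
    · rw [tendsto_pi_nhds]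
      intro v
      apply tendsto_atTop_of_eventually_const (i₀ := (-(htI v)).toNat)
      intro m hm
      apply hq2 m v
      have h9 : -(htI v) ≤ ((-(htI v)).toNat : ℤ) := Int.self_le_toNat _
      have h10 : ((-(htI v)).toNat : ℤ) ≤ m := by exact_mod_cast hm
      linarith
    · have : ∀ m, (f (q' m)).2 = (f q).2 := fun m => by
        change (q' m).1.1.1.2 = q.1.1.1.2
        rw [h0, h0]
      simp only [Function.comp_def, this]
      exact tendsto_const_nhds
  have hev := htend.eventually (hq.mem_nhds rfl)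
  obtain ⟨m, hm⟩ := hev.exists
  exact hq1 m hm

end Pool.Agent.Helper376.CL
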