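import Mathlib
import Pool.Agent.Helper376.CL.HoroDefs
import Pool.Agent.Helper376.CL.HoroA1

set_option maxHeartbeats 4000000
set_option synthInstance.maxHeartbeats 400000

namespace Pool.Agent.Helper376.CL

open Set Topology

section
variable {D₁ D₂ : Type} [TopologicalSpace D₁] [TopologicalSpace D₂] (h₁ : Horo D₁) (h₂ : Horo D₂)

/-- the boundary points of `XP` -/
noncomputable def bdP (q : h₁.Q × h₂.Q × ↥(Ioo (0:ℝ) 1)) : XP h₁ h₂ :=
  ⟨(q.1.1, q.2.1.1, q.2.2.1), q.2.2.2.1, q.2.2.2.2, by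
    have a := q.1.2
    have b := q.2.1.2
    simp only at a b ⊢
    rw [a, b, mul_zero, mul_zero]⟩

theorem bdP_isEmbedding : IsEmbedding (bdP h₁ h₂) := by
  have h1 : IsEmbedding (Subtype.val ∘ bdP h₁ h₂) := by
    have : IsEmbedding (Prod.map (Subtype.val : h₁.Q → D₁)
        (Prod.map (Subtype.val : h₂.Q → D₂) (Subtype.val : ↥(Ioo (0:ℝ) 1) → ℝ))) :=
      IsEmbedding.subtypeVal.prodMap (IsEmbedding.subtypeVal.prodMap IsEmbedding.subtypeVal)
    exact this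
  exact (IsEmbedding.of_comp_iff IsEmbedding.subtypeVal).mp h1

theorem bdP_range : range (bdP h₁ h₂) = {z | h₁.Lam z.1.1 = 0} := by
  ext z
  constructor
  · rintro ⟨q, rfl⟩
    exact q.1.2
  · intro hz
    have h0 : h₁.Lam z.1.1 = 0 := hz
    have h1 := z.2.2.2
    rw [h0, mul_zero] at h1
    have h2 : h₂.Lam z.1.2.1 = 0 := by
      have h3 := z.2.2.1
      rcases mul_eq_zero.mp h1.symm with h | h
      · linarith
      · exact h
    exact ⟨(⟨z.1.1, h0⟩, ⟨z.1.2.1, h2⟩, ⟨z.1.2.2, z.2.1, z.2.2.1⟩), rfl⟩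

end

/-- the boundary is the one-point compactification of `Q₁ × Q₂ × (0,1)` -/
theorem horo_boundary {D₁ D₂ : Type} [TopologicalSpace D₁] [TopologicalSpace D₂] [T2Space D₁]
    [T2Space D₂] (h₁ : Horo D₁) (h₂ : Horo D₂) :
    Nonempty (OnePoint (h₁.Q × h₂.Q × ↥(Ioo (0:ℝ) 1)) ≃ₜ ↥((range (jO h₁ h₂))ᶜ)) := by
  have := locallyCompact_XP h₁ h₂
  have hcl : IsClosed ((range (jO h₁ h₂))ᶜ) := (jO_isOpenEmbedding h₁ h₂).isOpen_range.isClosed_compl
  have : CompactSpace ↥((range (jO h₁ h₂))ᶜ) := isCompact_iff_compactSpace.mp hcl.isCompact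
  have hr := jO_range h₁ h₂
  have hinf : OnePoint.infty ∈ (range (jO h₁ h₂))ᶜ := by rw [hr]; exact Or.inl rfl
  have hmem : ∀ q, ((bdP h₁ h₂ q : XP h₁ h₂) : OnePoint (XP h₁ h₂)) ∈ (range (jO h₁ h₂))ᶜ := by
    intro q
    rw [hr]
    exact Or.inr ⟨bdP h₁ h₂ q, rfl, q.1.2⟩
  have hemb : IsEmbedding (fun q => (⟨((bdP h₁ h₂ q : XP h₁ h₂) : OnePoint (XP h₁ h₂)), hmem q⟩ :
      ↥((range (jO h₁ h₂))ᶜ))) := by
    have h1 : IsEmbedding (fun q => ((bdP h₁ h₂ q : XP h₁ h₂) : OnePoint (XP h₁ h₂))) :=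
      OnePoint.isOpenEmbedding_coe.isEmbedding.comp (bdP_isEmbedding h₁ h₂)
    exact h1.codRestrict _ hmem
  refine ⟨OnePoint.equivOfIsEmbeddingOfRangeEq ⟨OnePoint.infty, hinf⟩ _ hemb ?_⟩
  ext x
  constructor
  · rintro ⟨q, rfl⟩ h
    have h1 := congrArg Subtype.val (mem_singleton_iff.mp h)
    exact OnePoint.coe_ne_infty _ h1
  · intro h
    have h1 := hr.subset x.2
    rcases h1 with h1 | ⟨z, h1, h2⟩
    · exact absurd (Subtype.ext h1) h
    · obtain ⟨q, hq⟩ : z ∈ range (bdP h₁ h₂) := by rw [bdP_range]; exact h2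
      refine ⟨q, Subtype.ext ?_⟩
      rw [h1, ← hq]

end Pool.Agent.Helper376.CL
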