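import Mathlib

set_option maxHeartbeats 4000000
set_option synthInstance.maxHeartbeats 400000

namespace Pool.Agent.Helper376.CL

open Set Topology

/-- two-ended groups: virtually infinite cyclic -/
def IsTwoEnded (G : Type) [Group G] : Prop :=
  ∃ H : Subgroup G, H.FiniteIndex ∧ Nonempty (↥H ≃* Multiplicative ℤ)

/-- an action on a simplicial tree without inversions and without a global fixed point, with one orbit
of edges and with two-ended edge stabilisers -/
structure IsTwoEndedSplitting (G : Type) [Group G] {V : Type} [MulAction G V] (T : SimpleGraph V) :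
    Prop where
  isTree : T.IsTree
  adj : ∀ (g : G) (v w : V), T.Adj v w → T.Adj (g • v) (g • w)
  noInv : ∀ (g : G) (v w : V), T.Adj v w → ¬ (g • v = w ∧ g • w = v)
  noFixed : ∀ v : V, ∃ g : G, g • v ≠ v
  oneOrbit : ∀ v w v' w' : V, T.Adj v w → T.Adj v' w' →
    ∃ g : G, (g • v = v' ∧ g • w = w') ∨ (g • v = w' ∧ g • w = v')
  stab : ∀ v w : V, T.Adj v w →
    IsTwoEnded ↥(MulAction.stabilizer G v ⊓ MulAction.stabilizer G w)

/-- `G` splits over a two-ended subgroup -/
def SplitsOverTwoEnded (G : Type) [Group G] : Prop :=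
  ∃ (V : Type) (_ : MulAction G V) (T : SimpleGraph V), IsTwoEndedSplitting G T

end Pool.Agent.Helper376.CL
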