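import Mathlib
import Pool.Agent.Helper376.CL.SplitDefs
import Pool.Agent.Helper270.Split

set_option maxHeartbeats 4000000
set_option synthInstance.maxHeartbeats 400000

namespace Pool.Agent.Helper376.CL

open Set Topology

abbrev F2x : Type := FreeGroup (Fin 2)
abbrev Zx : Type := Multiplicative ℤ

/-- the second factor -/
abbrev Ax : Subgroup (Zx × Zx) := (⊥ : Subgroup Zx).prod ⊤

abbrev Hx : Type := HNNExtension (Zx × Zx) Ax Ax (MulEquiv.refl _)

theorem Ax_comm (z : Zx) : (HNNExtension.t : Hx) * HNNExtension.of (1, z) = HNNExtension.of (1, z) * HNNExtension.t := by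
  have h := HNNExtension.t_mul_of (G := Zx × Zx) (A := Ax) (B := Ax) (φ := MulEquiv.refl _)
    ⟨(1, z), by simp [Subgroup.mem_prod]⟩
  simpa using h

/-- forward map -/
noncomputable def fx : Hx →* F2x × Zx :=
  HNNExtension.lift (MonoidHom.prodMap (zpowersHom F2x (FreeGroup.of 0)) (MonoidHom.id Zx)) (FreeGroup.of 1, 1) (by
    rintro ⟨⟨a, z⟩, ha⟩
    simp only [Subgroup.mem_prod, Subgroup.mem_bot] at ha
    obtain ⟨rfl, -⟩ := ha
    simp)

/-- the map on the free group -/
noncomputable def gx1 : F2x →* Hx :=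
  FreeGroup.lift ![HNNExtension.of (Multiplicative.ofAdd 1, 1), HNNExtension.t]

noncomputable def gx2 : Zx →* Hx :=
  HNNExtension.of.comp (MonoidHom.inr Zx Zx)

theorem gx_comm (a : F2x) (z : Zx) : Commute (gx1 a) (gx2 z) := by
  induction a using FreeGroup.induction_on with
  | C1 => simp [gx1]
  | of i =>
    fin_cases i
    · show Commute (gx1 (FreeGroup.of 0)) _
      simp only [gx1, FreeGroup.lift_apply_of, gx2, MonoidHom.comp_apply, MonoidHom.inr_apply, Matrix.cons_val_zero]
      show _ * _ = _ * _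
      rw [← map_mul, ← map_mul]
      simp
    · show Commute (gx1 (FreeGroup.of 1)) _
      simp only [gx1, FreeGroup.lift_apply_of, gx2, MonoidHom.comp_apply, MonoidHom.inr_apply, Matrix.cons_val_one]
      exact Ax_comm z
  | inv_of i h =>
    rw [map_inv]
    exact h.inv_left
  | mul x y hx hy =>
    rw [map_mul]
    exact hx.mul_left hy

noncomputable def gx_SplitG : F2x × Zx →* Hx := MonoidHom.noncommCoprod gx1 gx2 gx_comm

theorem fgx (x : F2x × Zx) : fx (gx_SplitG x) = x := by
  have h1 : (fx.comp gx1) = MonoidHom.inl F2x Zx := by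
    ext i
    all_goals (fin_cases i <;> simp [gx1, fx])
  have h2 : (fx.comp gx2) = MonoidHom.inr F2x Zx := by
    ext
    all_goals simp [gx2, fx]
  have h3 : gx_SplitG x = gx1 x.1 * gx2 x.2 := by simp [gx_SplitG]
  rw [h3, map_mul]
  have h4 := DFunLike.congr_fun h1 x.1
  have h5 := DFunLike.congr_fun h2 x.2
  simp only [MonoidHom.comp_apply] at h4 h5
  rw [h4, h5]
  simp

theorem gfx (x : Hx) : gx_SplitG (fx x) = x := by
  have h : gx_SplitG.comp fx = MonoidHom.id _ := by
    refine HNNExtension.hom_ext ?_ ?_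
    · ext ⟨a, z⟩
      have e1 : ((a, z) : Zx × Zx) = (a, 1) * (1, z) := by simp
      have e2 : (HNNExtension.of (a, 1) : Hx) = (HNNExtension.of (Multiplicative.ofAdd 1, 1) : Hx) ^ (Multiplicative.toAdd a) := by
        rw [← map_zpow]
        congr 1
        simp [Prod.ext_iff]
        rw [← ofAdd_zsmul]
        simp
      simp [gx_SplitG, gx1, gx2, fx]
      rw [← e2, ← map_mul, ← e1]
    · simp [gx_SplitG, gx1, gx2, fx]
      exact map_one _
  exact DFunLike.congr_fun h x

noncomputable def eHx : F2x × Zx ≃* Hx :=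
  { gx_SplitG with
    invFun := fx
    left_inv := fgx
    right_inv := gfx }

noncomputable def eAx : Ax ≃* Zx where
  toFun a := a.1.2
  invFun z := ⟨(1, z), by simp [Subgroup.mem_prod]⟩
  left_inv := by
    rintro ⟨⟨a, z⟩, ha⟩
    simp only [Subgroup.mem_prod, Subgroup.mem_bot] at ha
    obtain ⟨rfl, -⟩ := ha
    rfl
  right_inv z := rfl
  map_mul' a b := rfl

theorem splits_F2Z : SplitsOverTwoEnded (FreeGroup (Fin 2) × Multiplicative ℤ) := by
  have h : Pool.Agent.Helper270.Split.SplitsOverZ Hx :=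
    Pool.Agent.Helper270.Split.splitsOverZ_hnn _ eAx
  obtain ⟨V, act, T, h1, h2, h3, h4, h5, h6⟩ :=
    Pool.Agent.Helper270.Split.SplitsOverZ.of_equiv eHx h
  refine ⟨V, act, T, h1, h2, h3, h4, h5, fun v w hvw => ?_⟩
  obtain ⟨e⟩ := h6 v w hvw
  exact ⟨⊤, inferInstance, ⟨Subgroup.topEquiv.trans e⟩⟩

end Pool.Agent.Helper376.CL
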