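import Mathlib

set_option maxHeartbeats 4000000
set_option synthInstance.maxHeartbeats 400000

namespace Pool.Agent.Helper376.CL.STree

open SimpleGraph

section Metric

variable {V : Type} {T : SimpleGraph V}

theorem parent_unique (hT : T.IsTree) {z u u' v : V} (h : T.Adj u v) (h' : T.Adj u' v)
    (hd : T.dist z v = T.dist z u + 1) (hd' : T.dist z v = T.dist z u' + 1) : u = u' := by
  obtain ⟨p, hp⟩ := hT.connected.exists_walk_length_eq_dist z u
  obtain ⟨q, hq⟩ := hT.connected.exists_walk_length_eq_dist z u'
  have h1 : (p.concat h).IsPath := by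
    apply Walk.isPath_of_length_eq_dist
    rw [Walk.length_concat, hp, hd]
  have h2 : (q.concat h').IsPath := by
    apply Walk.isPath_of_length_eq_dist
    rw [Walk.length_concat, hq, hd']
  have h3 := (hT.existsUnique_path z v).unique h1 h2
  have h4 : (p.concat h).penultimate = (q.concat h').penultimate := by rw [h3]
  simpa using h4

theorem junction (hT : T.IsTree) {z u v w : V} (h : T.Adj u v) (h' : T.Adj v w) (huw : u ≠ w)
    (hd : T.dist z v = T.dist z u + 1) : T.dist z w = T.dist z v + 1 := by
  rcases hT.dist_eq_dist_add_one_of_adj z h' with h1 | h1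
  · exact absurd (parent_unique hT h h'.symm hd h1) huw
  · exact h1

theorem nb (hT : T.IsTree) (w : ℕ → V) (n : ℕ) (hadj : ∀ i < n, T.Adj (w i) (w (i + 1)))
    (hnb : ∀ i, i + 2 ≤ n → w i ≠ w (i + 2)) (z : V)
    (h0 : 1 ≤ n → T.dist z (w 1) = T.dist z (w 0) + 1) :
    ∀ i ≤ n, T.dist z (w i) = T.dist z (w 0) + i := by
  have key : ∀ i, i + 1 ≤ n → T.dist z (w i) = T.dist z (w 0) + i ∧
      T.dist z (w (i + 1)) = T.dist z (w 0) + (i + 1) := by
    intro i
    induction i with
    | zero => intro hi; exact ⟨rfl, h0 hi⟩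
    | succ i ih =>
      intro hi
      obtain ⟨h1, h2⟩ := ih (by omega)
      refine ⟨h2, ?_⟩
      have h3 := junction hT (hadj i (by omega)) (hadj (i + 1) (by omega)) (hnb i (by omega))
        (z := z) (by omega)
      rw [h3]; omega
  intro i hi
  rcases Nat.eq_zero_or_pos n with hn | hn
  · have : i = 0 := by omega
    subst this; rfl
  · rcases Nat.lt_or_ge i n with h | h
    · exact (key i (by omega)).1
    · have hin : i = n := by omega
      have := (key (n - 1) (by omega)).2
      rw [hin]
      rw [show n - 1 + 1 = n from by omega] at this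
      exact this

theorem nb' (hT : T.IsTree) (w : ℕ → V) (n : ℕ) (hadj : ∀ i < n, T.Adj (w i) (w (i + 1)))
    (hnb : ∀ i, i + 2 ≤ n → w i ≠ w (i + 2)) : ∀ i ≤ n, T.dist (w 0) (w i) = i := by
  intro i hi
  have := nb hT w n hadj hnb (w 0) (by
    intro h
    rw [dist_self, dist_eq_one_iff_adj.mpr (hadj 0 (by omega))]) i hi
  rw [this, dist_self, zero_add]

theorem exists_geod (hT : T.IsTree) (x y : V) : ∃ q : ℕ → V, q 0 = x ∧ q (T.dist x y) = y ∧
    (∀ i < T.dist x y, T.Adj (q i) (q (i + 1))) ∧
    (∀ i ≤ T.dist x y, T.dist x (q i) = i ∧ T.dist (q i) y = T.dist x y - i) ∧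
    (∀ i, i + 2 ≤ T.dist x y → q i ≠ q (i + 2)) := by
  obtain ⟨p, hp⟩ := hT.connected.exists_walk_length_eq_dist x y
  have hd : ∀ i ≤ T.dist x y,
      T.dist x (p.getVert i) = i ∧ T.dist (p.getVert i) y = T.dist x y - i := by
    intro i hi
    have h1 : T.dist x (p.getVert i) ≤ i := by
      have := dist_le (p.take i)
      rw [Walk.take_length] at this
      omega
    have h2 : T.dist (p.getVert i) y ≤ T.dist x y - i := by
      have := dist_le (p.drop i)
      rw [Walk.drop_length] at this
      omega
    have h3 : T.dist x y ≤ T.dist x (p.getVert i) + T.dist (p.getVert i) y :=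
      hT.connected.dist_triangle
    omega
  refine ⟨p.getVert, by simp, by rw [← hp]; simp, ?_, hd, ?_⟩
  · intro i hi
    exact p.adj_getVert_succ (by omega)
  · intro i hi h
    have h1 := (hd i (by omega)).1
    have h2 := (hd (i + 2) (by omega)).1
    rw [h] at h1
    omega

/-- The point on a geodesic at a given distance is unique. -/
theorem geod_unique (hT : T.IsTree) {x y z z' : V} (h : T.dist x z + T.dist z y = T.dist x y)
    (h' : T.dist x z' + T.dist z' y = T.dist x y) (hz : T.dist x z = T.dist x z') : z = z' := by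
  obtain ⟨p, hp⟩ := hT.connected.exists_walk_length_eq_dist x z
  obtain ⟨q, hq⟩ := hT.connected.exists_walk_length_eq_dist z y
  obtain ⟨p', hp'⟩ := hT.connected.exists_walk_length_eq_dist x z'
  obtain ⟨q', hq'⟩ := hT.connected.exists_walk_length_eq_dist z' y
  have h1 : (p.append q).IsPath := by
    apply Walk.isPath_of_length_eq_dist
    rw [Walk.length_append, hp, hq, h]
  have h2 : (p'.append q').IsPath := by
    apply Walk.isPath_of_length_eq_dist
    rw [Walk.length_append, hp', hq', h']
  have h3 := (hT.existsUnique_path x y).unique h1 h2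
  have h4 : (p.append q).getVert p.length = z := by
    rw [Walk.getVert_append]; simp
  have h5 : (p'.append q').getVert p'.length = z' := by
    rw [Walk.getVert_append]; simp
  rw [← h4, ← h5, h3, hp, hp', hz]

/-- A bi-infinite geodesic line, as a non-backtracking map from the integers. -/
structure IsLine (T : SimpleGraph V) (L : ℤ → V) : Prop where
  adj : ∀ i, T.Adj (L i) (L (i + 1))
  nb : ∀ i, L i ≠ L (i + 2)

theorem IsLine.reverse {L : ℤ → V} (h : IsLine T L) : IsLine T (fun i => L (-i)) where
  adj i := by
    have := (h.adj (-(i + 1))).symm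
    rw [show -(i + 1) + 1 = -i from by ring] at this
    exact this
  nb i := by
    have := (h.nb (-(i + 2))).symm
    rw [show -(i + 2) + 2 = -i from by ring] at this
    exact this

theorem IsLine.shift {L : ℤ → V} (h : IsLine T L) (c : ℤ) : IsLine T (fun i => L (i + c)) where
  adj i := by
    have := h.adj (i + c)
    rw [show i + c + 1 = i + 1 + c from by ring] at this
    exact this
  nb i := by
    have := h.nb (i + c)
    rw [show i + c + 2 = i + 2 + c from by ring] at this
    exact this

theorem IsLine.dist_nat (hT : T.IsTree) {L : ℤ → V} (h : IsLine T L) (i : ℤ) (n : ℕ) :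
    T.dist (L i) (L (i + n)) = n := by
  have := nb' hT (fun k : ℕ => L (i + k)) n (by
      intro k _
      have := h.adj (i + k)
      rw [show i + k + 1 = i + ((k + 1 : ℕ) : ℤ) from by push_cast; ring] at this
      exact this) (by
      intro k _
      have := h.nb (i + k)
      rw [show i + k + 2 = i + ((k + 2 : ℕ) : ℤ) from by push_cast; ring] at this
      exact this) n le_rfl
  simpa using this

theorem IsLine.dist (hT : T.IsTree) {L : ℤ → V} (h : IsLine T L) (i j : ℤ) :
    T.dist (L i) (L j) = (i - j).natAbs := by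
  rcases le_total i j with hij | hij
  · have := h.dist_nat hT i (j - i).toNat
    rw [show i + ((j - i).toNat : ℤ) = j from by omega] at this
    rw [this]; omega
  · have := h.dist_nat hT j (i - j).toNat
    rw [show j + ((i - j).toNat : ℤ) = i from by omega] at this
    rw [dist_comm, this]; omega

theorem IsLine.injective (hT : T.IsTree) {L : ℤ → V} (h : IsLine T L) :
    Function.Injective L := by
  intro i j hij
  have h1 := h.dist hT i j
  rw [hij, dist_self] at h1
  omega

/-- Moving away from `z` along a line continues forever. -/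
theorem IsLine.away (hT : T.IsTree) {L : ℤ → V} (h : IsLine T L) (z : V) (i : ℤ)
    (h0 : T.dist z (L (i + 1)) = T.dist z (L i) + 1) (n : ℕ) :
    T.dist z (L (i + n)) = T.dist z (L i) + n := by
  have := STree.nb hT (fun k : ℕ => L (i + k)) n (by
      intro k _
      have := h.adj (i + k)
      rw [show i + k + 1 = i + ((k + 1 : ℕ) : ℤ) from by push_cast; ring] at this
      exact this) (by
      intro k _
      have := h.nb (i + k)
      rw [show i + k + 2 = i + ((k + 2 : ℕ) : ℤ) from by push_cast; ring] at this
      exact this) z (by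
      intro _
      simpa using h0) n le_rfl
  simpa using this

/-- Nearest point projection to a line. -/
theorem IsLine.exists_proj (hT : T.IsTree) {L : ℤ → V} (h : IsLine T L) (z : V) :
    ∃ i, ∀ j, T.dist z (L j) = T.dist z (L i) + (j - i).natAbs := by
  classical
  have hex : ∃ n, ∃ i, T.dist z (L i) = n := ⟨_, 0, rfl⟩
  obtain ⟨i, hi⟩ := Nat.find_spec hex
  have hmin : ∀ j, T.dist z (L i) ≤ T.dist z (L j) := by
    intro j
    rw [hi]
    exact Nat.find_min' hex ⟨j, rfl⟩
  have hp : T.dist z (L (i + 1)) = T.dist z (L i) + 1 := by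
    rcases hT.dist_eq_dist_add_one_of_adj z (h.adj i) with h1 | h1
    · have := hmin (i + 1); omega
    · exact h1
  have hm : T.dist z (L (i - 1)) = T.dist z (L i) + 1 := by
    have hadj := h.adj (i - 1)
    rw [show i - 1 + 1 = i from by ring] at hadj
    rcases hT.dist_eq_dist_add_one_of_adj z hadj with h1 | h1
    · exact h1
    · have := hmin (i - 1); omega
  refine ⟨i, fun j => ?_⟩
  rcases le_total i j with hij | hij
  · have := h.away hT z i hp (j - i).toNat
    rw [show i + ((j - i).toNat : ℤ) = j from by omega] at this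
    rw [this]; omega
  · have h1 : T.dist z ((fun k => L (-k)) (-i + 1)) = T.dist z ((fun k => L (-k)) (-i)) + 1 := by
      change T.dist z (L (-(-i + 1))) = T.dist z (L (- -i)) + 1
      rw [show -(-i + 1) = i - 1 from by ring, neg_neg]
      exact hm
    have := h.reverse.away hT z (-i) h1 (i - j).toNat
    change T.dist z (L (-(-i + _))) = T.dist z (L (- -i)) + _ at this
    rw [show -(-i + ((i - j).toNat : ℤ)) = j from by omega, neg_neg] at this
    rw [this]; omega

end Metric

section Sigma

/-- A nearest neighbour injection of the integers is a translation or a reflection. -/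
theorem sigma_lin (f : ℤ → ℤ) (h1 : ∀ i, (f (i + 1) - f i).natAbs = 1)
    (h2 : ∀ i, f (i + 2) ≠ f i) :
    (∀ i, f (i + 1) = f i + 1) ∨ (∀ i, f (i + 1) = f i - 1) := by
  have step : ∀ i, f (i + 2) - f (i + 1) = f (i + 1) - f i := by
    intro i
    have a := h1 i
    have b := h1 (i + 1)
    rw [show i + 1 + 1 = i + 2 from by ring] at b
    have c := h2 i
    omega
  have const : ∀ i, f (i + 1) - f i = f 1 - f 0 := by
    intro i
    induction i using Int.induction_on with
    | zero => simp
    | succ i ih =>
      have := step i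
      rw [show (i : ℤ) + 1 + 1 = i + 2 from by ring]
      omega
    | pred i ih =>
      have := step (-(i : ℤ) - 1)
      rw [show -(i : ℤ) - 1 + 2 = -i + 1 from by ring,
        show -(i : ℤ) - 1 + 1 = -i from by ring] at this
      rw [show -(i : ℤ) - 1 + 1 = -i from by ring]
      omega
  have a := h1 0
  rw [zero_add] at a
  rcases Int.natAbs_eq_iff.mp a with h | h
  · left; intro i; have := const i; push_cast at h; omega
  · right; intro i; have := const i; push_cast at h; omega

theorem sigma_add (f : ℤ → ℤ) (h : ∀ i, f (i + 1) = f i + 1) (i : ℤ) : f i = f 0 + i := by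
  induction i using Int.induction_on with
  | zero => simp
  | succ i ih => rw [h, ih]; ring
  | pred i ih =>
    have := h (-(i : ℤ) - 1)
    rw [show -(i : ℤ) - 1 + 1 = -i from by ring] at this
    omega

theorem sigma_sub (f : ℤ → ℤ) (h : ∀ i, f (i + 1) = f i - 1) (i : ℤ) : f i = f 0 - i := by
  induction i using Int.induction_on with
  | zero => simp
  | succ i ih => rw [h, ih]; ring
  | pred i ih =>
    have := h (-(i : ℤ) - 1)
    rw [show -(i : ℤ) - 1 + 1 = -i from by ring] at this
    omega

end Sigma

/-- A group acting on a tree by automorphisms without inversions. -/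
structure TreeAct (G : Type) {V : Type} [Group G] [MulAction G V] (T : SimpleGraph V) : Prop where
  isTree : T.IsTree
  adj : ∀ (g : G) (v w : V), T.Adj v w → T.Adj (g • v) (g • w)
  noInv : ∀ (g : G) (v w : V), T.Adj v w → ¬ (g • v = w ∧ g • w = v)

section Action

variable {G V : Type} [Group G] [MulAction G V] {T : SimpleGraph V}

theorem TreeAct.dist_le (h : TreeAct G T) (g : G) (v w : V) :
    T.dist (g • v) (g • w) ≤ T.dist v w := by
  obtain ⟨p, hp⟩ := h.isTree.connected.exists_walk_length_eq_dist v w
  let f : T →g T := ⟨fun v => g • v, fun {a b} hab => h.adj g a b hab⟩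
  have := SimpleGraph.dist_le (p.map f)
  rw [Walk.length_map, hp] at this
  exact this

theorem TreeAct.dist_smul (h : TreeAct G T) (g : G) (v w : V) :
    T.dist (g • v) (g • w) = T.dist v w := by
  apply le_antisymm (h.dist_le g v w)
  have := h.dist_le g⁻¹ (g • v) (g • w)
  rwa [inv_smul_smul, inv_smul_smul] at this

theorem TreeAct.dist_smul_left (h : TreeAct G T) (g : G) (v w : V) :
    T.dist (g • v) w = T.dist v (g⁻¹ • w) := by
  rw [← h.dist_smul g v (g⁻¹ • w), smul_inv_smul]

/-- Fixed point sets are convex. -/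
theorem TreeAct.convex (h : TreeAct G T) {g : G} {u v z : V} (hu : g • u = u) (hv : g • v = v)
    (hz : T.dist u z + T.dist z v = T.dist u v) : g • z = z := by
  have h1 : T.dist u (g • z) = T.dist u z := by
    rw [← h.dist_smul g u z, hu]
  have h2 : T.dist (g • z) v = T.dist z v := by
    rw [← h.dist_smul g z v, hv]
  exact geod_unique h.isTree (by rw [h1, h2, hz]) hz h1

/-- The product of two elliptic elements with suitably disjoint fixed point sets has no
fixed vertex. -/
theorem TreeAct.no_fixed (h : TreeAct G T) {a b : G} {x y x1 y1 : V} {N : ℕ} (hN : 0 < N)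
    (hax : a • x = x) (hby : b • y = y) (hax1 : a • x1 ≠ x1) (hby1 : b • y1 ≠ y1)
    (hx1 : T.Adj x x1) (hy1 : T.Adj y y1)
    (H1 : ∀ z, T.dist z x1 = T.dist z x + 1 → T.dist z y = T.dist z x + N)
    (H2 : ∀ z, T.dist z y1 = T.dist z y + 1 → T.dist z x = T.dist z y + N)
    (v : V) : (a * b) • v ≠ v := by
  intro hv
  have hsep : ∀ {c : G} {o o1 : V}, c • o = o → c • o1 ≠ o1 → T.Adj o o1 → ∀ z,
      T.dist z o1 = T.dist z o + 1 ∨ T.dist (c • z) o1 = T.dist (c • z) o + 1 := by
    intro c o o1 hco hco1 hadj z
    by_contra hcon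
    push Not at hcon
    obtain ⟨h1, h2⟩ := hcon
    have h3 : T.dist z o = T.dist z o1 + 1 := by
      rcases h.isTree.dist_eq_dist_add_one_of_adj z hadj with h3 | h3
      · exact h3
      · exact absurd h3 h1
    have h4 : T.dist (c • z) o = T.dist (c • z) o1 + 1 := by
      rcases h.isTree.dist_eq_dist_add_one_of_adj (c • z) hadj with h3 | h3
      · exact h3
      · exact absurd h3 h2
    have h5 : T.dist (c • z) o = T.dist (c • z) (c • o1) + 1 := by
      rw [h.dist_smul, ← h3]
      conv_lhs => rw [← hco]
      rw [h.dist_smul]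
    have h6 : T.Adj o (c • o1) := by
      have := h.adj c _ _ hadj
      rwa [hco] at this
    exact hco1 (parent_unique h.isTree h6.symm hadj.symm h5 h4)
  set u : V := b • v with hu
  have hau : a • u = v := by rw [hu, ← mul_smul]; exact hv
  have hdy : T.dist u y = T.dist v y := by
    rw [hu]; conv_lhs => rw [← hby]
    rw [h.dist_smul]
  have hdx : T.dist u x = T.dist v x := by
    have := h.dist_smul a u x
    rw [hau, hax] at this
    exact this.symm
  have hA := hsep hax hax1 hx1 u
  rw [hau] at hA
  have hB := hsep hby hby1 hy1 v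
  rw [← hu] at hB
  rcases hA with hA | hA
  · have e1 := H1 u hA
    rcases hB with hB | hB
    · have e2 := H2 v hB
      omega
    · have e2 := H2 u hB
      omega
  · have e1 := H1 v hA
    rcases hB with hB | hB
    · have e2 := H2 v hB
      omega
    · have e2 := H2 u hB
      omega

/-- Version of `no_fixed` along a path. -/
theorem TreeAct.no_fixed_path (h : TreeAct G T) {a b : G} (w : ℕ → V) {n : ℕ} (hn : 0 < n)
    (hadj : ∀ i < n, T.Adj (w i) (w (i + 1)))
    (hnb : ∀ i, i + 2 ≤ n → w i ≠ w (i + 2))
    (ha : a • w 0 = w 0) (hb : b • w n = w n) (ha1 : a • w 1 ≠ w 1)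
    (hb1 : b • w (n - 1) ≠ w (n - 1)) (v : V) : (a * b) • v ≠ v := by
  have hadj' : T.Adj (w n) (w (n - 1)) := by
    have := (hadj (n - 1) (by omega)).symm
    rwa [show n - 1 + 1 = n from by omega] at this
  refine h.no_fixed hn ha hb ha1 hb1 (by simpa using hadj 0 hn) hadj' ?_ ?_ v
  · intro z hz
    exact nb h.isTree w n hadj hnb z (fun _ => hz) n le_rfl
  · intro z hz
    have := nb h.isTree (fun i => w (n - i)) n (by
      intro i hi
      have := (hadj (n - (i + 1)) (by omega)).symm
      rwa [show n - (i + 1) + 1 = n - i from by omega] at this) (by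
      intro i hi
      have := (hnb (n - (i + 2)) (by omega)).symm
      rwa [show n - (i + 2) + 2 = n - i from by omega] at this) z (by
      intro _
      simpa using hz) n le_rfl
    simpa using this

/-- If `a` and `b` have fixed vertices and `a * b` has a fixed vertex then `a` and `b` have a
common one. More generally for a finite set of elements in place of `a`. -/
theorem TreeAct.common_fixed (h : TreeAct G T) (S : Set G) (b : G)
    (hS : ∃ x : V, ∀ a ∈ S, a • x = x) (hb : ∃ y : V, b • y = y)
    (hab : ∀ a ∈ S, ∃ v : V, (a * b) • v = v) :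
    ∃ x : V, (∀ a ∈ S, a • x = x) ∧ b • x = x := by
  classical
  have hex : ∃ n, ∃ x y : V, (∀ a ∈ S, a • x = x) ∧ b • y = y ∧ T.dist x y = n := by
    obtain ⟨x, hx⟩ := hS
    obtain ⟨y, hy⟩ := hb
    exact ⟨_, x, y, hx, hy, rfl⟩
  obtain ⟨x, y, hx, hy, hxy⟩ := Nat.find_spec hex
  have hmin : ∀ x' y' : V, (∀ a ∈ S, a • x' = x') → b • y' = y' → T.dist x y ≤ T.dist x' y' := by
    intro x' y' hx' hy'
    rw [hxy]
    exact Nat.find_min' hex ⟨x', y', hx', hy', rfl⟩
  rcases Nat.eq_zero_or_pos (T.dist x y) with h0 | hpos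
  · have : x = y := h.isTree.connected.dist_eq_zero_iff.mp h0
    exact ⟨x, hx, by rw [this]; exact hy⟩
  exfalso
  obtain ⟨q, hq0, hqn, hadj, hd, hnb⟩ := exists_geod h.isTree x y
  set n := T.dist x y with hn
  have h1 : ¬ ∀ a ∈ S, a • q 1 = q 1 := by
    intro hcon
    have h2 := hmin (q 1) y hcon hy
    have h3 := (hd 1 (by omega)).2
    omega
  push Not at h1
  obtain ⟨a, haS, ha⟩ := h1
  have h2 : b • q (n - 1) ≠ q (n - 1) := by
    intro hcon
    have h2 := hmin x (q (n - 1)) hx hcon
    have h3 := (hd (n - 1) (by omega)).1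
    omega
  obtain ⟨v, hv⟩ := hab a haS
  exact h.no_fixed_path q hpos hadj hnb (by rw [hq0]; exact hx a haS)
    (by rw [hqn]; exact hy) ha h2 v hv

/-- Serre's lemma: a finite set of elements such that every element of the group has a fixed
vertex has a common fixed vertex. -/
theorem TreeAct.serre (h : TreeAct G T) (hell : ∀ g : G, ∃ v : V, g • v = v) (S : Finset G) :
    ∃ x : V, ∀ a ∈ S, a • x = x := by
  classical
  induction S using Finset.induction_on with
  | empty =>
    obtain ⟨v, _⟩ := hell 1
    exact ⟨v, by simp⟩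
  | insert s S _ ih =>
    obtain ⟨x, hx, hx'⟩ := h.common_fixed (S : Set G) s (by simpa using ih) (hell s)
      (fun a _ => hell _)
    refine ⟨x, fun a ha => ?_⟩
    rcases Finset.mem_insert.mp ha with rfl | ha
    · exact hx'
    · exact hx a ha

theorem TreeAct.exists_hyperbolic (h : TreeAct G T) (hfg : Group.FG G)
    (hnf : ∀ v : V, ∃ g : G, g • v ≠ v) : ∃ g : G, ∀ v : V, g • v ≠ v := by
  by_contra hcon
  push Not at hcon
  obtain ⟨S, hS⟩ := Group.fg_def.mp hfg
  obtain ⟨x, hx⟩ := h.serre hcon S
  obtain ⟨g, hg⟩ := hnf x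
  apply hg
  have : g ∈ Subgroup.closure (S : Set G) := by rw [hS]; trivial
  have hle : Subgroup.closure (S : Set G) ≤ MulAction.stabilizer G x := by
    rw [Subgroup.closure_le]
    intro a ha
    exact hx a ha
  exact hle this

/-- `L` is an axis of `g` with translation length `l > 0`. -/
structure IsAxis (T : SimpleGraph V) (g : G) (L : ℤ → V) (l : ℕ) : Prop where
  line : IsLine T L
  pos : 0 < l
  smul : ∀ i, g • L i = L (i + l)

theorem TreeAct.exists_axis (h : TreeAct G T) {g : G} (hg : ∀ v : V, g • v ≠ v) :
    ∃ (L : ℤ → V) (l : ℕ), IsAxis T g L l := by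
  classical
  have hex : ∃ n, ∃ v : V, T.dist v (g • v) = n := by
    obtain ⟨v⟩ := h.isTree.connected.nonempty
    exact ⟨_, v, rfl⟩
  obtain ⟨v, hv⟩ := Nat.find_spec hex
  have hmin : ∀ w : V, T.dist v (g • v) ≤ T.dist w (g • w) := by
    intro w
    rw [hv]
    exact Nat.find_min' hex ⟨w, rfl⟩
  obtain ⟨q, hq0, hql, hadj, hd, hnb⟩ := exists_geod h.isTree v (g • v)
  set l := T.dist v (g • v) with hl
  have hpos : 0 < l := by
    rcases Nat.eq_zero_or_pos l with h0 | h0
    · exact absurd (h.isTree.connected.dist_eq_zero_iff.mp h0).symm (hg v)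
    · exact h0
  have hlz : (0 : ℤ) < l := by exact_mod_cast hpos
  let L : ℤ → V := fun i => (g ^ (i / (l : ℤ))) • q (i % (l : ℤ)).toNat
  have hL : ∀ (k : ℤ) (r : ℕ), r < l → L (k * l + r) = g ^ k • q r := by
    intro k r hr
    have h1 : (k * (l : ℤ) + r) / l = k := by
      rw [add_comm, Int.add_mul_ediv_right _ _ (by omega),
        Int.ediv_eq_zero_of_lt (by omega) (by exact_mod_cast hr)]
      simp
    have h2 : (k * (l : ℤ) + r) % l = r := by
      rw [add_comm, Int.add_mul_emod_self_right, Int.emod_eq_of_lt (by omega)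
        (by exact_mod_cast hr)]
    change g ^ ((k * (l : ℤ) + r) / l) • q ((k * (l : ℤ) + r) % l).toNat = _
    rw [h1, h2]
    simp
  have hL' : ∀ (k : ℤ) (r : ℕ), r ≤ l → L (k * l + r) = g ^ k • q r := by
    intro k r hr
    rcases Nat.lt_or_eq_of_le hr with hr | hr
    · exact hL k r hr
    · subst hr
      rw [hql, ← hq0]
      have := hL (k + 1) 0 hpos
      rw [show k * (l : ℤ) + l = (k + 1) * l + (0 : ℕ) from by push_cast; ring, this,
        zpow_add_one, mul_smul]
  have hdecomp : ∀ i : ℤ, ∃ (k : ℤ) (r : ℕ), r < l ∧ i = k * l + r := by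
    intro i
    refine ⟨i / l, (i % l).toNat, ?_, ?_⟩
    · have := Int.emod_lt_of_pos i hlz
      have := Int.emod_nonneg i (ne_of_gt hlz)
      omega
    · have h1 := Int.emod_nonneg i (ne_of_gt hlz)
      rw [Int.toNat_of_nonneg h1]
      have := Int.mul_ediv_add_emod i l
      rw [mul_comm] at this
      exact this.symm
  refine ⟨L, l, ⟨?_, ?_⟩, hpos, ?_⟩
  · intro i
    obtain ⟨k, r, hr, rfl⟩ := hdecomp i
    rw [hL k r hr]
    have := hL' k (r + 1) hr
    rw [show k * (l : ℤ) + r + 1 = k * l + ((r + 1 : ℕ) : ℤ) from by push_cast; ring, this]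
    exact h.adj _ _ _ (hadj r hr)
  · intro i
    obtain ⟨k, r, hr, rfl⟩ := hdecomp i
    rw [hL k r hr]
    rcases Nat.lt_or_ge (r + 1) l with hr1 | hr1
    · have := hL' k (r + 2) hr1
      rw [show k * (l : ℤ) + r + 2 = k * l + ((r + 2 : ℕ) : ℤ) from by push_cast; ring, this]
      intro hcon
      exact hnb r hr1 (smul_left_cancel _ hcon)
    · have hrl : r = l - 1 := by omega
      have := hL' (k + 1) 1 hpos
      rw [show k * (l : ℤ) + r + 2 = (k + 1) * l + ((1 : ℕ) : ℤ) from by
        rw [hrl]; push_cast [Nat.cast_sub (show 1 ≤ l from hpos)]; ring, this]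
      intro hcon
      rw [zpow_add_one, mul_smul] at hcon
      have hcon := smul_left_cancel _ hcon
      rcases Nat.lt_or_ge 1 l with h1l | h1l
      · have e1 := hmin (q 1)
        rw [← hcon] at e1
        have e2 := (hd 1 (by omega)).1
        have e3 := (hd r (by omega)).1
        have e4 : T.dist (q 1) (q r) = r - 1 := by
          have := nb' h.isTree (fun i => q (1 + i)) (r - 1) (by
            intro i hi
            exact hadj (1 + i) (by omega)) (by
            intro i hi
            exact hnb (1 + i) (by omega)) (r - 1) le_rfl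
          simp only [add_zero] at this
          rwa [show 1 + (r - 1) = r from by omega] at this
        omega
      · have hl1 : l = 1 := by omega
        have hr0 : r = 0 := by omega
        rw [hr0, hq0] at hcon
        have e1 : q 1 = g • v := by rw [← hql, hl1]
        rw [e1] at hcon
        have e2 := hadj 0 hpos
        rw [hq0, zero_add, e1] at e2
        exact h.noInv g v (g • v) e2 ⟨rfl, hcon.symm⟩
  · intro i
    obtain ⟨k, r, hr, rfl⟩ := hdecomp i
    rw [hL k r hr, show k * (l : ℤ) + r + l = (k + 1) * l + r from by ring, hL (k + 1) r hr,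
      ← mul_smul]
    congr 1
    group

theorem IsAxis.smul_zpow {g : G} {L : ℤ → V} {l : ℕ} (hax : IsAxis T g L l) (k i : ℤ) :
    g ^ k • L i = L (i + k * l) := by
  induction k using Int.induction_on generalizing i with
  | zero => simp
  | succ k ih => rw [zpow_add_one, mul_smul, hax.smul, ih]; congr 1; ring
  | pred k ih =>
    rw [zpow_sub_one, mul_smul]
    have : g⁻¹ • L i = L (i - l) := by
      rw [inv_smul_eq_iff, hax.smul]; congr 1; ring
    rw [this, ih]; congr 1; ring

theorem IsAxis.reverse {g : G} {L : ℤ → V} {l : ℕ} (hax : IsAxis T g L l) :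
    IsAxis T g⁻¹ (fun i => L (-i)) l where
  line := hax.line.reverse
  pos := hax.pos
  smul i := by
    rw [inv_smul_eq_iff, hax.smul]; congr 1; ring

/-- The displacement of a vertex `z` is governed by its distance to the axis. -/
theorem TreeAct.proj_between (h : TreeAct G T) {g : G} {L : ℤ → V} {l : ℕ}
    (hax : IsAxis T g L l) (z : V) :
    ∃ i, T.dist z (L i) + T.dist (L i) (g • z) = T.dist z (g • z) ∧
      T.dist z (g • z) = 2 * T.dist z (L i) + l := by
  obtain ⟨i, hi⟩ := hax.line.exists_proj h.isTree z
  have hg : ∀ j, T.dist (g • z) (L j) = T.dist z (L i) + (j - l - i).natAbs := by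
    intro j
    have := h.dist_smul g z (L (j - l))
    rw [hax.smul, show j - (l : ℤ) + l = j from by ring, hi] at this
    exact this
  obtain ⟨q, hq0, hqn, hadj, hd, hnb⟩ := exists_geod h.isTree (L i) z
  set n := T.dist (L i) z with hn
  have hn' : T.dist z (L i) = n := by rw [dist_comm]
  have hpos := hax.pos
  have e1 : T.dist (g • z) (L i) = n + l := by
    rw [hg i, hn']; omega
  have e2 : T.dist (g • z) (L (i + 1)) + 1 = n + l := by
    rw [hg (i + 1), hn']; omega
  have key : T.dist (g • z) z = n + l + n := by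
    rcases Nat.eq_zero_or_pos n with h0 | h0
    · have : L i = z := h.isTree.connected.dist_eq_zero_iff.mp (hn ▸ h0)
      rw [← this, h0]
      rw [this] at e1 ⊢
      omega
    · have := nb h.isTree q n hadj hnb (g • z) (by
        intro _
        rw [hq0]
        have hne : L (i + 1) ≠ q 1 := by
          intro hcon
          have f1 := (hd 1 (by omega)).2
          have f2 := hi (i + 1)
          rw [hcon, dist_comm, f1, hn'] at f2
          omega
        have hadj1 : T.Adj (L i) (q 1) := by
          have := hadj 0 (by omega)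
          rwa [hq0] at this
        exact junction h.isTree (hax.line.adj i).symm hadj1 hne (by omega)) n le_rfl
      rw [hqn, hq0, e1] at this
      exact this
  refine ⟨i, ?_, ?_⟩
  · rw [hn', dist_comm (u := L i) (v := g • z), e1, dist_comm (u := z) (v := g • z), key]
    omega
  · rw [hn', dist_comm (u := z) (v := g • z), key]
    omega

/-- A vertex with displacement at most the translation length lies on the axis. -/
theorem TreeAct.mem_axis (h : TreeAct G T) {g : G} {L : ℤ → V} {l : ℕ}
    (hax : IsAxis T g L l) {z : V} (hz : T.dist z (g • z) ≤ l) : ∃ i, z = L i := by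
  obtain ⟨i, _, h2⟩ := h.proj_between hax z
  refine ⟨i, ?_⟩
  have : T.dist z (L i) = 0 := by omega
  exact h.isTree.connected.dist_eq_zero_iff.mp this

theorem TreeAct.map_line (h : TreeAct G T) {L : ℤ → V} (hL : IsLine T L) {p : G}
    (hp : ∀ i, ∃ j, p • L i = L j) :
    (∃ c, ∀ i, p • L i = L (c + i)) ∨ (∃ c, ∀ i, p • L i = L (c - i)) := by
  choose f hf using hp
  have h1 : ∀ i, (f (i + 1) - f i).natAbs = 1 := by
    intro i
    have := h.dist_smul p (L (i + 1)) (L i)
    rw [hf, hf, hL.dist h.isTree, hL.dist h.isTree] at this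
    omega
  have h2 : ∀ i, f (i + 2) ≠ f i := by
    intro i hcon
    have := h.dist_smul p (L (i + 2)) (L i)
    rw [hf, hf, hL.dist h.isTree, hL.dist h.isTree] at this
    omega
  rcases sigma_lin f h1 h2 with h3 | h3
  · left
    exact ⟨f 0, fun i => by rw [hf, sigma_add f h3 i]⟩
  · right
    exact ⟨f 0, fun i => by rw [hf, sigma_sub f h3 i]⟩

theorem TreeAct.commute_axis (h : TreeAct G T) {g : G} {L : ℤ → V} {l : ℕ}
    (hax : IsAxis T g L l) {p : G} (hc : p * g = g * p) : ∃ c, ∀ i, p • L i = L (c + i) := by
  have h1 : ∀ i, ∃ j, p • L i = L j := by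
    intro i
    apply h.mem_axis hax
    rw [← mul_smul, ← hc, mul_smul, h.dist_smul, hax.smul, hax.line.dist h.isTree]
    omega
  rcases h.map_line hax.line h1 with h2 | ⟨c, h2⟩
  · exact h2
  · exfalso
    have e1 : (p * g) • L 0 = (g * p) • L 0 := by rw [hc]
    rw [mul_smul, mul_smul, hax.smul, h2, h2, hax.smul] at e1
    have := hax.line.injective h.isTree e1
    have := hax.pos
    omega

end Action

end Pool.Agent.Helper376.CL.STree
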