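import Mathlib
import Pool.Agent.Helper376.CL.SplitDefs
import Pool.Agent.Helper376.CL.STree

set_option maxHeartbeats 4000000
set_option synthInstance.maxHeartbeats 400000

namespace Pool.Agent.Helper376.CL

open Set Topology

section Sol

open Pool.Agent.Helper376.CL.STree

theorem twoEnded_commute {H : Type} [Group H] (h : IsTwoEnded H) (u v : H) :
    ∃ n : ℕ, 0 < n ∧ u ^ n * v ^ n = v ^ n * u ^ n := by
  obtain ⟨K, hK, ⟨e⟩⟩ := h
  obtain ⟨n, hn, _, hu⟩ := Subgroup.exists_pow_mem_of_index_ne_zero (H := K) hK.index_ne_zero u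
  obtain ⟨m, hm, _, hv⟩ := Subgroup.exists_pow_mem_of_index_ne_zero (H := K) hK.index_ne_zero v
  have hu' : u ^ (n * m) ∈ K := by rw [pow_mul]; exact K.pow_mem hu m
  have hv' : v ^ (n * m) ∈ K := by rw [mul_comm, pow_mul]; exact K.pow_mem hv n
  refine ⟨n * m, Nat.mul_pos hn hm, ?_⟩
  have h1 : (⟨_, hu'⟩ : K) * ⟨_, hv'⟩ = ⟨_, hv'⟩ * ⟨_, hu'⟩ := by
    apply e.injective
    rw [map_mul, map_mul, mul_comm]
  exact congrArg Subtype.val h1

/-- the free generators -/
def gx_SplitH : FreeGroup (Fin 2) := FreeGroup.of 0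
def gy : FreeGroup (Fin 2) := FreeGroup.of 1
def gu : FreeGroup (Fin 2) := gx_SplitH * gy * gx_SplitH⁻¹ * gy⁻¹
def gv : FreeGroup (Fin 2) := gx_SplitH * (gx_SplitH * gy * gx_SplitH⁻¹) * gx_SplitH⁻¹ * (gx_SplitH * gy * gx_SplitH⁻¹)⁻¹

/-- images of the generators in `SL(2,ℤ)` -/
def mX : Matrix.SpecialLinearGroup (Fin 2) ℤ := ⟨!![1, 1; 0, 1], by simp [Matrix.det_fin_two]⟩
def mY : Matrix.SpecialLinearGroup (Fin 2) ℤ := ⟨!![1, 0; 1, 1], by simp [Matrix.det_fin_two]⟩

def phi : FreeGroup (Fin 2) →* Matrix.SpecialLinearGroup (Fin 2) ℤ :=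
  FreeGroup.lift ![mX, mY]

theorem phi_u : (phi gu).1 = !![3, -1; 1, 0] := by
  have h0 : phi gx_SplitH = mX := by simp [phi, gx_SplitH]
  have h1 : phi gy = mY := by simp [phi, gy]
  rw [gu, map_mul, map_mul, map_mul, map_inv, map_inv, h0, h1]
  ext i j
  fin_cases i <;> fin_cases j <;>
    simp [mX, mY, Matrix.mul_apply, Fin.sum_univ_two, Matrix.adjugate_fin_two]

theorem phi_v : (phi gv).1 = !![4, -5; 1, -1] := by
  have h0 : phi gx_SplitH = mX := by simp [phi, gx_SplitH]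
  have h1 : phi gy = mY := by simp [phi, gy]
  simp only [gv, map_mul, map_inv, h0, h1]
  ext i j
  fin_cases i <;> fin_cases j <;>
    simp [mX, mY, Matrix.mul_apply, Fin.sum_univ_two, Matrix.adjugate_fin_two]

theorem pow_form (n : ℕ) : ∃ a b : ℤ, 0 < a ∧ -a < b ∧
    (!![3, -1; 1, 0] : Matrix (Fin 2) (Fin 2) ℤ) ^ (n + 1) = !![3 * a + b, -a; a, b] ∧
    (!![4, -5; 1, -1] : Matrix (Fin 2) (Fin 2) ℤ) ^ (n + 1) =
      !![4 * a + b, -(5 * a); a, -a + b] := by
  induction n with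
  | zero => exact ⟨1, 0, by norm_num, by norm_num, by simp, by simp⟩
  | succ n ih =>
    obtain ⟨a, b, ha, hb, h1, h2⟩ := ih
    refine ⟨3 * a + b, -a, by linarith, by linarith, ?_, ?_⟩
    · rw [pow_succ, h1]
      ext i j
      fin_cases i <;> fin_cases j <;>
        simp [Matrix.mul_apply, Fin.sum_univ_two] <;> ring
    · rw [pow_succ, h2]
      ext i j
      fin_cases i <;> fin_cases j <;>
        simp [Matrix.mul_apply, Fin.sum_univ_two] <;> ring

theorem free_noncomm (n : ℕ) (hn : 0 < n) : gu ^ n * gv ^ n ≠ gv ^ n * gu ^ n := by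
  intro h
  obtain ⟨k, rfl⟩ : ∃ k, n = k + 1 := ⟨n - 1, by omega⟩
  have h1 := congrArg (fun w => (phi w).1) h
  simp only [map_mul, map_pow, Matrix.SpecialLinearGroup.coe_mul,
    Matrix.SpecialLinearGroup.coe_pow] at h1
  rw [phi_u, phi_v] at h1
  obtain ⟨a, b, ha, hb, h2, h3⟩ := pow_form k
  rw [h2, h3] at h1
  have h4 := congrFun (congrFun h1 0) 0
  simp [Matrix.mul_apply, Fin.sum_univ_two] at h4
  nlinarith [mul_pos ha ha]

theorem translation_no_fixed {G V : Type} [Group G] [MulAction G V] {T : SimpleGraph V}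
    (h : TreeAct G T) {L : ℤ → V} (hL : IsLine T L) {p : G} {c : ℤ} (hc : c ≠ 0)
    (hp : ∀ i, p • L i = L (c + i)) (v : V) : p • v ≠ v := by
  intro hv
  have h1 : ∀ k : ℕ, (p ^ k) • L 0 = L (k * c) ∧ (p ^ k) • v = v := by
    intro k
    induction k with
    | zero => simp
    | succ k ih =>
      constructor
      · rw [pow_succ', mul_smul, ih.1, hp]; congr 1; push_cast; ring
      · rw [pow_succ', mul_smul, ih.2, hv]
  set d := T.dist v (L 0) with hd
  have h2 : T.dist v (L ((2 * d + 1 : ℕ) * c)) = d := by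
    have := h.dist_smul (p ^ (2 * d + 1)) v (L 0)
    rw [(h1 _).1, (h1 _).2] at this
    exact this
  have h3 : T.dist (L 0) (L ((2 * d + 1 : ℕ) * c)) ≤ 2 * d := by
    have := h.isTree.connected.dist_triangle (u := L 0) (v := v) (w := L ((2 * d + 1 : ℕ) * c))
    rw [h2, SimpleGraph.dist_comm (u := L 0) (v := v), ← hd] at this
    omega
  rw [hL.dist h.isTree, zero_sub, Int.natAbs_neg, Int.natAbs_mul, Int.natAbs_natCast] at h3
  have h4 : 1 ≤ c.natAbs := Int.natAbs_pos.mpr hc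
  have h5 : (2 * d + 1) * 1 ≤ (2 * d + 1) * c.natAbs := Nat.mul_le_mul_left _ h4
  omega

theorem factor_case {G V : Type} [Group G] [MulAction G V] {T : SimpleGraph V}
    (hs : IsTwoEndedSplitting G T) (h : TreeAct G T) {g : G} (hg : ∀ v : V, g • v ≠ v)
    (f : FreeGroup (Fin 2) →* G) (hf : Function.Injective f)
    (hcomm : ∀ w, f w * g = g * f w) : False := by
  obtain ⟨L, l, hax⟩ := h.exists_axis hg
  have key : ∀ p q : FreeGroup (Fin 2), ∀ i, f (p * q * p⁻¹ * q⁻¹) • L i = L i := by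
    intro p q i
    obtain ⟨c, hc⟩ := h.commute_axis hax (hcomm p)
    obtain ⟨d, hd⟩ := h.commute_axis hax (hcomm q)
    have hc' : ∀ i, (f p)⁻¹ • L i = L (-c + i) := by
      intro i
      rw [inv_smul_eq_iff, hc]; congr 1; ring
    have hd' : ∀ i, (f q)⁻¹ • L i = L (-d + i) := by
      intro i
      rw [inv_smul_eq_iff, hd]; congr 1; ring
    rw [map_mul, map_mul, map_mul, map_inv, map_inv, mul_smul, mul_smul, mul_smul, hd', hc', hd, hc]
    congr 1; ring
  have hadj : T.Adj (L 0) (L 1) := by simpa using hax.line.adj 0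
  have hu : f gu ∈ MulAction.stabilizer G (L 0) ⊓ MulAction.stabilizer G (L 1) :=
    ⟨key _ _ 0, key _ _ 1⟩
  have hv : f gv ∈ MulAction.stabilizer G (L 0) ⊓ MulAction.stabilizer G (L 1) :=
    ⟨key _ _ 0, key _ _ 1⟩
  obtain ⟨n, hn, h1⟩ := twoEnded_commute (hs.stab _ _ hadj) ⟨_, hu⟩ ⟨_, hv⟩
  have h2 := congrArg Subtype.val h1
  simp only [Subgroup.coe_mul, Subgroup.coe_pow] at h2
  rw [← map_pow, ← map_pow, ← map_mul, ← map_mul] at h2
  exact free_noncomm n hn (hf h2)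

theorem not_splits_F2F2 : ¬ SplitsOverTwoEnded (FreeGroup (Fin 2) × FreeGroup (Fin 2)) := by
  rintro ⟨V, hact, T, hs⟩
  have h : TreeAct (FreeGroup (Fin 2) × FreeGroup (Fin 2)) T := ⟨hs.isTree, hs.adj, hs.noInv⟩
  have hfg : Group.FG (FreeGroup (Fin 2) × FreeGroup (Fin 2)) := inferInstance
  obtain ⟨⟨a, b⟩, hg⟩ := h.exists_hyperbolic hfg hs.noFixed
  obtain ⟨L, l, hax⟩ := h.exists_axis hg
  obtain ⟨c, hc⟩ := h.commute_axis hax (p := (a, 1)) (by ext <;> simp)
  obtain ⟨d, hd⟩ := h.commute_axis hax (p := (1, b)) (by ext <;> simp)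
  have hcd : c + d ≠ 0 := by
    have h1 := hax.smul 0
    have h2 : ((a, b) : FreeGroup (Fin 2) × FreeGroup (Fin 2)) = (a, 1) * (1, b) := by
      ext <;> simp
    rw [h2, mul_smul, hd, hc] at h1
    have h3 := hax.line.injective h.isTree h1
    have := hax.pos
    omega
  by_cases hc0 : c = 0
  · have hd0 : d ≠ 0 := by omega
    exact factor_case hs h (translation_no_fixed h hax.line hd0 hd)
      (MonoidHom.inl _ _) (fun x y hxy => (Prod.ext_iff.mp hxy).1) (by
        intro w; ext <;> simp)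
  · exact factor_case hs h (translation_no_fixed h hax.line hc0 hc)
      (MonoidHom.inr _ _) (fun x y hxy => (Prod.ext_iff.mp hxy).2) (by
        intro w; ext <;> simp)

end Sol

end Pool.Agent.Helper376.CL
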