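import Mathlib
import Pool.Agent.Helper376.CL.SplitDefs
import Pool.Agent.Helper376.CL.SplitG
import Pool.Agent.Helper376.CL.SplitH
import Pool.Agent.Helper376.CL.HoroA1
import Pool.Agent.Helper376.CL.HoroA2
import Pool.Agent.Helper376.CL.HoroR
import Pool.Agent.Helper376.CL.DT4
import Pool.Agent.Helper376.CL.DT7
import Pool.Agent.Helper376.CL.AsmG
import Pool.Agent.Helper376.CL.AsmH

set_option maxHeartbeats 4000000
set_option synthInstance.maxHeartbeats 400000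

namespace Pool.Agent.Helper376.CL

open Set Topology

theorem cantor_sq : Nonempty ((ℕ → Bool) × (ℕ → Bool) ≃ₜ (ℕ → Bool)) := by
  refine ⟨(Homeomorph.sumArrowHomeomorphProdArrow).symm.trans ?_⟩
  exact Homeomorph.piCongrLeft (Y := fun _ : ℕ => Bool) Equiv.natSumNatEquivNat

theorem nat_cantor_sq : Nonempty ((ℕ × (ℕ → Bool)) × (ℕ × (ℕ → Bool)) ≃ₜ ℕ × (ℕ → Bool)) := by
  obtain ⟨e⟩ := cantor_sq
  have e0 : ℕ × ℕ ≃ₜ ℕ :=
    { toEquiv := Nat.pairEquiv
      continuous_toFun := continuous_of_discreteTopology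
      continuous_invFun := continuous_of_discreteTopology }
  exact ⟨(Homeomorph.prodProdProdComm _ _ _ _).trans (e0.prodCongr e)⟩

theorem boundaries_homeo (hT : Horo ↥DT) (hTL : ∀ p, hT.Lam p = p.1.2) (hR : Horo DR)
    (hRL : ∀ r, hR.Lam r = r.1) :
    Nonempty (↥((range (jO hT hT))ᶜ) ≃ₜ ↥((range (jO hT hR))ᶜ)) := by
  obtain ⟨a⟩ := horo_boundary hT hT
  obtain ⟨b⟩ := horo_boundary hT hR
  obtain ⟨q⟩ := Q_homeo hT hTL
  obtain ⟨s⟩ := nat_cantor_sq
  haveI : Unique hR.Q :=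
    { default := ⟨⟨0, le_refl _⟩, by rw [hRL]⟩
      uniq := by
        rintro ⟨⟨r, hr⟩, h⟩
        have h2 := hRL ⟨r, hr⟩
        rw [h] at h2
        apply Subtype.ext
        apply Subtype.ext
        exact h2.symm }
  have u : hR.Q ≃ₜ PUnit.{1} := Homeomorph.homeomorphOfUnique _ _
  have e1 : hT.Q × hT.Q ≃ₜ hT.Q := (q.prodCongr q).trans (s.trans q.symm)
  have e2 : hT.Q × hT.Q × ↥(Ioo (0:ℝ) 1) ≃ₜ hT.Q × hR.Q × ↥(Ioo (0:ℝ) 1) := by
    refine (Homeomorph.prodAssoc _ _ _).symm.trans ?_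
    refine (e1.prodCongr (Homeomorph.refl _)).trans ?_
    refine (Homeomorph.refl _).prodCongr ?_
    exact ((u.prodCongr (Homeomorph.refl _)).trans (Homeomorph.punitProd _)).symm
  exact ⟨a.symm.trans (e2.onePointCongr.trans b)⟩

/-- a homeomorphic copy of a boundary is a boundary -/
theorem IsZBoundary.congr {G : Type} [Group G] {Z Z' : Type} [TopologicalSpace Z]
    [TopologicalSpace Z'] (h : IsZBoundary G Z) (e : Z' ≃ₜ Z) : IsZBoundary G Z' := by
  obtain ⟨X, mX, S, act, hS, ⟨f⟩⟩ := h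
  exact ⟨X, mX, S, act, hS, ⟨e.trans f⟩⟩

theorem main_splitting : ∃ (Z : Type) (_ : TopologicalSpace Z),
    IsZBoundary (FreeGroup (Fin 2) × Multiplicative ℤ) Z ∧
    IsZBoundary (FreeGroup (Fin 2) × FreeGroup (Fin 2)) Z ∧
    SplitsOverTwoEnded (FreeGroup (Fin 2) × Multiplicative ℤ) ∧
    ¬ SplitsOverTwoEnded (FreeGroup (Fin 2) × FreeGroup (Fin 2)) := by
  obtain ⟨hT, hTL⟩ := exists_horoT
  obtain ⟨hR, hRL⟩ := exists_horoR
  obtain ⟨e⟩ := boundaries_homeo hT hTL hR hRL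
  exact ⟨↥((range (jO hT hR))ᶜ), inferInstance, zb_G hT hTL hR hRL,
    (zb_H hT hTL).congr e.symm, splits_F2Z, not_splits_F2F2⟩

end Pool.Agent.Helper376.CL
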