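import Mathlib
import Pool.Agent.Helper376.CL.TreeDefs
import Pool.Agent.Helper376.CL.TreeLem

set_option maxHeartbeats 4000000
set_option synthInstance.maxHeartbeats 400000

namespace Pool.Agent.Helper376.CL

open Set Topology

/-- the vertex `v` as a point of the tree -/
noncomputable def vtx (v : F2) : Tree := ⟨ptf v (0, true) 0, v, (0, true), 0, le_refl _, zero_le_one, rfl⟩

theorem vtx_mem_star (v : F2) : vtx v ∈ star v := ⟨(0, true), 0, le_refl _, zero_le_one, rfl⟩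

theorem vtx_mem_star' (v : F2) (x : A) : vtx (lt x * v) ∈ star v := by
  refine ⟨x, 1, zero_le_one, le_refl _, ?_⟩
  funext u
  simp only [vtx, ptf]
  simp

theorem smul_cell {g : F2 × Multiplicative ℤ} {c : F2 × ℤ} {p : Tree × ℝ} (hp : p ∈ cell c) :
    g • p ∈ cell (c.1 * g.1⁻¹, c.2 + Multiplicative.toAdd g.2) := by
  obtain ⟨⟨x, t, h0, h1, hb⟩, h2, h3⟩ := hp
  rw [smul_def]
  refine ⟨⟨x, t, h0, h1, ?_⟩, ?_, ?_⟩
  · funext u
    show p.1.1 (u * g.1) = _
    rw [hb]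
    exact ptf_mul c.1 x t g.1 u
  · push_cast; linarith
  · push_cast; linarith

/-- closeness of cells -/
def QQ {E : Type} [PseudoMetricSpace E] (D : Tree × ℝ → E) (c c' : F2 × ℤ) : Prop :=
  ∀ ε : ℝ, 0 < ε → {g : F2 × Multiplicative ℤ | ∃ p ∈ cell c, ∃ p' ∈ cell c',
    ε ≤ dist (D (g • p)) (D (g • p'))}.Finite

theorem QQ_self {E : Type} [PseudoMetricSpace E] (D : Tree × ℝ → E)
    (h : ∀ ε : ℝ, 0 < ε →
      {q : F2 × ℤ | ∃ p ∈ cell q, ∃ p' ∈ cell q, ε ≤ dist (D p) (D p')}.Finite)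
    (c : F2 × ℤ) : QQ D c c := by
  intro ε hε
  have hinj : Function.Injective (fun g : F2 × Multiplicative ℤ =>
      ((c.1 * g.1⁻¹, c.2 + Multiplicative.toAdd g.2) : F2 × ℤ)) := by
    intro g g' hgg
    simp only [Prod.mk.injEq, mul_right_inj, inv_inj, add_right_inj] at hgg
    exact Prod.ext hgg.1 (Multiplicative.toAdd.injective hgg.2)
  refine ((h ε hε).preimage (hinj.injOn)).subset ?_
  rintro g ⟨p, hp, p', hp', hd⟩
  exact ⟨g • p, smul_cell hp, g • p', smul_cell hp', hd⟩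

theorem QQ_symm {E : Type} [PseudoMetricSpace E] {D : Tree × ℝ → E} {c c' : F2 × ℤ}
    (h : QQ D c c') : QQ D c' c := by
  intro ε hε
  refine (h ε hε).subset ?_
  rintro g ⟨p, hp, p', hp', hd⟩
  exact ⟨p', hp', p, hp, by rw [dist_comm]; exact hd⟩

theorem QQ_trans {E : Type} [PseudoMetricSpace E] {D : Tree × ℝ → E} {a b c : F2 × ℤ}
    (hne : (cell b).Nonempty) (h1 : QQ D a b) (h2 : QQ D b c) : QQ D a c := by
  intro ε hε
  obtain ⟨z, hz⟩ := hne
  refine ((h1 (ε / 2) (half_pos hε)).union (h2 (ε / 2) (half_pos hε))).subset ?_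
  rintro g ⟨p, hp, p', hp', hd⟩
  have htri := dist_triangle (D (g • p)) (D (g • z)) (D (g • p'))
  by_cases h3 : ε / 2 ≤ dist (D (g • p)) (D (g • z))
  · exact Or.inl ⟨p, hp, z, hz, h3⟩
  · push Not at h3
    exact Or.inr ⟨z, hz, p', hp', by linarith⟩

theorem cell_nonempty (c : F2 × ℤ) : (cell c).Nonempty :=
  ⟨(vtx c.1, (c.2 : ℝ)), vtx_mem_star c.1, le_refl _, by simp⟩

theorem QQ_of_inter {E : Type} [PseudoMetricSpace E] {D : Tree × ℝ → E} {c c' : F2 × ℤ}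
    (h1 : QQ D c c) (h2 : QQ D c' c') (z : Tree × ℝ) (hz : z ∈ cell c) (hz' : z ∈ cell c') :
    QQ D c c' := by
  intro ε hε
  refine ((h1 (ε / 2) (half_pos hε)).union (h2 (ε / 2) (half_pos hε))).subset ?_
  rintro g ⟨p, hp, p', hp', hd⟩
  have htri := dist_triangle (D (g • p)) (D (g • z)) (D (g • p'))
  by_cases h3 : ε / 2 ≤ dist (D (g • p)) (D (g • z))
  · exact Or.inl ⟨p, hp, z, hz, h3⟩
  · push Not at h3
    exact Or.inr ⟨z, hz', p', hp', by linarith⟩

theorem QQ_all {E : Type} [PseudoMetricSpace E] {D : Tree × ℝ → E}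
    (hself : ∀ c, QQ D c c) (c c' : F2 × ℤ) : QQ D c c' := by
  have hvert1 : ∀ (v : F2) (n : ℤ), QQ D (v, n) (v, n + 1) := by
    intro v n
    refine QQ_of_inter (hself _) (hself _) (vtx v, (n : ℝ) + 1) ?_ ?_
    · exact ⟨vtx_mem_star v, by simp, by simp⟩
    · refine ⟨vtx_mem_star v, ?_, ?_⟩
      · push_cast; simp
      · push_cast; simp
  have hvert : ∀ (v : F2) (n : ℤ), QQ D (v, 0) (v, n) := by
    intro v n
    induction n using Int.induction_on with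
    | zero => exact hself _
    | succ k ih => exact QQ_trans (cell_nonempty _) ih (hvert1 v k)
    | pred k ih =>
      refine QQ_trans (cell_nonempty _) ih ?_
      have := QQ_symm (hvert1 v (-(k : ℤ) - 1))
      rwa [sub_add_cancel] at this
  have hhor1 : ∀ (v : F2) (x : A), QQ D (v, 0) (lt x * v, 0) := by
    intro v x
    refine QQ_of_inter (hself _) (hself _) (vtx (lt x * v), 0) ?_ ?_
    · exact ⟨vtx_mem_star' v x, by simp, by simp⟩
    · exact ⟨vtx_mem_star _, by simp, by simp⟩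
  have hhor : ∀ v : F2, QQ D (1, 0) (v, 0) := by
    intro v
    have hmk : ∀ L : List A, QQ D (1, 0) (FreeGroup.mk L, 0) := by
      intro L
      induction L with
      | nil => exact hself _
      | cons x L ih =>
        have e : (FreeGroup.mk (x :: L) : F2) = lt x * FreeGroup.mk L := by
          rw [lt, FreeGroup.mul_mk]; rfl
        rw [e]
        exact QQ_trans (cell_nonempty _) ih (hhor1 _ x)
    have := hmk v.toWord
    rwa [FreeGroup.mk_toWord] at this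
  have hone : ∀ c : F2 × ℤ, QQ D (1, 0) c := fun c =>
    QQ_trans (cell_nonempty (c.1, 0)) (hhor c.1) (hvert c.1 c.2)
  exact QQ_trans (cell_nonempty (1, 0)) (QQ_symm (hone c)) (hone c')

theorem mem_star_of_pos (b : Tree) (w : F2) (hb : 0 < b.1 w) : b ∈ star w := by
  obtain ⟨v, x, t, h0, h1, h⟩ := b.2
  by_cases hw : w = v
  · subst hw
    exact ⟨x, t, h0, h1, h⟩
  · have hw2 : w = lt x * v := by
      by_contra hne
      rw [h] at hb
      simp only [ptf, if_neg hw, if_neg hne, add_zero, lt_self_iff_false] at hb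
    have hinv : lt (x.1, !x.2) * w = v := by
      rw [hw2, ← mul_assoc]
      have : lt (x.1, !x.2) * lt x = 1 := by
        have h2 : lt (x.1, !x.2) = (lt x)⁻¹ := by
          rw [lt, lt, FreeGroup.inv_mk]
          rfl
        rw [h2, inv_mul_cancel]
      rw [this, one_mul]
    refine ⟨(x.1, !x.2), 1 - t, by linarith, by linarith, ?_⟩
    rw [h]
    funext u
    simp only [ptf, hinv, ← hw2]
    rw [add_comm, sub_sub_cancel]

theorem nhds_cells (p : Tree × ℝ) : ∃ U ∈ 𝓝 p, ∃ F : Finset (F2 × ℤ), U ⊆ ⋃ q ∈ F, cell q := by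
  obtain ⟨w, hw⟩ : ∃ w : F2, 0 < p.1.1 w := by
    obtain ⟨v, x, t, h0, h1, h⟩ := p.1.2
    by_cases ht : t = 0
    · refine ⟨v, ?_⟩
      rw [h, ht]
      simp only [ptf]
      simp
    · refine ⟨lt x * v, ?_⟩
      rw [h]
      simp only [ptf]
      have : 0 < t := lt_of_le_of_ne h0 (Ne.symm ht)
      simp only [if_true]
      split_ifs <;> linarith
  classical
  refine ⟨{b : Tree | 0 < b.1 w} ×ˢ Set.Ioo ((⌊p.2⌋ : ℝ) - 1) ((⌊p.2⌋ : ℝ) + 1), ?_,
    {(w, ⌊p.2⌋ - 1), (w, ⌊p.2⌋)}, ?_⟩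
  · refine IsOpen.mem_nhds (IsOpen.prod ?_ isOpen_Ioo) ⟨hw, ?_, Int.lt_floor_add_one _⟩
    · exact isOpen_lt continuous_const ((continuous_apply w).comp continuous_subtype_val)
    · have := Int.floor_le p.2
      linarith
  · rintro ⟨b, s⟩ ⟨hb, hs1, hs2⟩
    have hst := mem_star_of_pos b w hb
    rw [Set.mem_iUnion₂]
    by_cases hs : s ≤ (⌊p.2⌋ : ℝ)
    · refine ⟨(w, ⌊p.2⌋ - 1), by simp, hst, ?_, ?_⟩
      · push_cast; exact hs1.le
      · push_cast; simpa using hs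
    · push Not at hs
      exact ⟨(w, ⌊p.2⌋), by simp, hst, hs.le, hs2.le⟩

theorem null_of_cells {E : Type} [PseudoMetricSpace E] (D : Tree × ℝ → E)
    (h : ∀ ε : ℝ, 0 < ε →
      {q : F2 × ℤ | ∃ p ∈ cell q, ∃ p' ∈ cell q, ε ≤ dist (D p) (D p')}.Finite)
    (K : Set (Tree × ℝ)) (hK : IsCompact K) (ε : ℝ) (hε : 0 < ε) :
    {g : F2 × Multiplicative ℤ | ∃ p ∈ K, ∃ q ∈ K, ε ≤ dist (D (g • p)) (D (g • q))}.Finite := by
  classical
  obtain ⟨F, hF⟩ : ∃ F : Finset (F2 × ℤ), K ⊆ ⋃ q ∈ F, cell q := by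
    refine hK.induction_on (p := fun S => ∃ F : Finset (F2 × ℤ), S ⊆ ⋃ q ∈ F, cell q)
      ⟨∅, by simp⟩ ?_ ?_ ?_
    · rintro s t hst ⟨F, hF⟩
      exact ⟨F, hst.trans hF⟩
    · rintro s t ⟨F, hF⟩ ⟨F', hF'⟩
      refine ⟨F ∪ F', ?_⟩
      rw [Finset.set_biUnion_union]
      exact Set.union_subset_union hF hF'
    · intro x _
      obtain ⟨U, hU, F, hF⟩ := nhds_cells x
      exact ⟨U, mem_nhdsWithin_of_mem_nhds hU, F, hF⟩
  have hall := QQ_all (fun c => QQ_self D h c)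
  have hfin : (⋃ c ∈ F, ⋃ c' ∈ F, {g : F2 × Multiplicative ℤ | ∃ p ∈ cell c, ∃ p' ∈ cell c',
      ε ≤ dist (D (g • p)) (D (g • p'))}).Finite :=
    F.finite_toSet.biUnion fun c _ => F.finite_toSet.biUnion fun c' _ => hall c c' ε hε
  refine hfin.subset ?_
  rintro g ⟨p, hp, q, hq, hd⟩
  obtain ⟨c, hc, hpc⟩ := Set.mem_iUnion₂.1 (hF hp)
  obtain ⟨c', hc', hqc⟩ := Set.mem_iUnion₂.1 (hF hq)
  exact Set.mem_iUnion₂.2 ⟨c, hc, Set.mem_iUnion₂.2 ⟨c', hc', p, hpc, q, hqc, hd⟩⟩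

end Pool.Agent.Helper376.CL
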