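import Mathlib
import Pool.Agent.Helper376.CL.TTDefs
import Pool.Agent.Helper376.CL.TreeLem

set_option maxHeartbeats 4000000
set_option synthInstance.maxHeartbeats 400000

namespace Pool.Agent.Helper376.CL

open Set Topology

theorem tt_cont (g : F2) : Continuous (fun b : Tree => g • b) := by
  have h1 := continuous_smul_TR (g, (1 : Multiplicative ℤ))
  have h2 : Continuous fun b : Tree => ((g, (1 : Multiplicative ℤ)) • ((b, (0 : ℝ)) : Tree × ℝ)) :=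
    h1.comp (by fun_prop)
  have h3 : (fun b : Tree => g • b) =
      fun b : Tree => ((g, (1 : Multiplicative ℤ)) • ((b, (0 : ℝ)) : Tree × ℝ)).1 := rfl
  rw [h3]
  exact continuous_fst.comp h2

theorem tt_cov (b : Tree) : ∃ V : Set Tree, IsOpen V ∧ b ∈ V ∧
    ∀ g : F2, g ≠ 1 → ∀ b' ∈ V, g • b' ∉ V := by
  obtain ⟨U, hU, hb, hdis⟩ := covering_TR (b, 0)
  refine ⟨(fun b' : Tree => ((b', (0 : ℝ)) : Tree × ℝ)) ⁻¹' U, hU.preimage (by fun_prop), hb, ?_⟩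
  intro g hg b' hb' hgb
  have h1 := hdis (g, 1) (by
    intro h
    exact hg (congrArg Prod.fst h))
  rw [Set.disjoint_left] at h1
  have hgb' : ((g • b', (0 : ℝ)) : Tree × ℝ) ∈ U := hgb
  have e : ((g, (1 : Multiplicative ℤ)) • ((b', (0 : ℝ)) : Tree × ℝ)) = (g • b', (0 : ℝ)) := by
    rw [smul_def]
    simp
  refine h1 (a := ((g • b', (0 : ℝ)) : Tree × ℝ)) ⟨(b', 0), hb', e⟩ hgb'

theorem continuous_smul_TT (g : F2 × F2) : Continuous (fun p : Tree × Tree => g • p) := by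
  exact ((tt_cont g.1).comp continuous_fst).prodMk ((tt_cont g.2).comp continuous_snd)

theorem covering_TT (y : Tree × Tree) : ∃ U : Set (Tree × Tree), IsOpen U ∧ y ∈ U ∧
    ∀ g : F2 × F2, g ≠ 1 → Disjoint ((fun y => g • y) '' U) U := by
  obtain ⟨V, hV, hyV, hVd⟩ := tt_cov y.1
  obtain ⟨W, hW, hyW, hWd⟩ := tt_cov y.2
  refine ⟨V ×ˢ W, hV.prod hW, ⟨hyV, hyW⟩, ?_⟩
  intro g hg
  rw [Set.disjoint_left]
  rintro _ ⟨p, hp, rfl⟩ hgp
  have h1 : g.1 • p.1 ∈ V := hgp.1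
  have h2 : g.2 • p.2 ∈ W := hgp.2
  by_cases h : g.1 = 1
  · by_cases h' : g.2 = 1
    · exact hg (Prod.ext h h')
    · exact hWd g.2 h' p.2 hp.2 h2
  · exact hVd g.1 h p.1 hp.1 h1

theorem cocompact_TT : ∃ K : Set (Tree × Tree), IsCompact K ∧
    ∀ y : Tree × Tree, ∃ g : F2 × F2, g • y ∈ K := by
  obtain ⟨K, hK, hKg⟩ := cocompact_TR
  refine ⟨(Prod.fst '' K) ×ˢ (Prod.fst '' K),
    (hK.image continuous_fst).prod (hK.image continuous_fst), ?_⟩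
  intro y
  obtain ⟨g, hg⟩ := hKg (y.1, 0)
  obtain ⟨h, hh⟩ := hKg (y.2, 0)
  exact ⟨(g.1, h.1), ⟨_, hg, rfl⟩, ⟨_, hh, rfl⟩⟩

end Pool.Agent.Helper376.CL
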